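import Pool.Agent.Helper56_ABA.Mir
import Pool.Agent.Helper31_ABA.Gb

/-!
The boundary data of a minimal disc, in cyclic form (MP_d857f1_al, part B).
-/

set_option autoImplicit false

namespace Pool.Agent.ABA.B.H17

open Pool.Agent.ABA.B Pool.Agent.ABA.B.TG

variable {V E : Type} (S : TG V E)

/-- The library modules which are used. -/
structure Mods : Prop where
  ins : InsStmt
  rot : RotStmt
  area : AreaStmt
  nsb : NsBasicStmt
  gb : GbStmt
  nsx : NsxStmt
  mir : MirStmt
  pinch : PinchStmt

/-- A closed reduced walk in a link. -/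
def CRW (v : List E) : Prop := 2 ≤ v.length ∧ (v ++ v.take 1).IsChain S.Cor ∧ Red (v ++ v.take 2)

/-- Cyclic boundary data: a are the letters, W i is the walk at the source of a i. -/
structure Bd (N : ℕ) (a : ℕ → E) (W : ℕ → List E) (I : List (List E)) : Prop where
  per : ∀ i, a (i + N) = a i
  perW : ∀ i, W (i + N) = W i
  path : ∀ i, S.src (a (i + 1)) = S.tgt (a i)
  edg : ∀ i, ∃ f1 f2 l r, S.Tri (a i) f1 f2 ∧ W i = l ++ [f1, a i] ∧
    W (i + 1) = S.inv (a i) :: S.inv f2 :: r
  chain : ∀ i, (W i).IsChain S.Cor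
  red : ∀ i, Red (W i)
  inner : ∀ v ∈ I, CRW S v
  gb : ∀ θ : E → E → ℝ, S.Wt θ → (I.map (fun v => 6 - cw θ v)).sum +
    ∑ i ∈ Finset.range N, (3 - ow θ (W i)) = 6

variable {S}

/-- cyclic letters of a list -/
def cyc {A : Type} [Inhabited A] (w : List A) (i : ℕ) : A := w.getD (i % w.length) default

theorem cyc_per {A : Type} [Inhabited A] (w : List A) (i : ℕ) : cyc w (i + w.length) = cyc w i := by
  unfold cyc
  rw [Nat.add_mod_right]

theorem cyc_of_lt {A : Type} [Inhabited A] (w : List A) (i : ℕ) (h : i < w.length) :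
    cyc w i = w[i] := by
  unfold cyc
  rw [Nat.mod_eq_of_lt h, List.getD_eq_getElem?_getD, List.getElem?_eq_getElem h]
  rfl

theorem sum_cyc {A : Type} [Inhabited A] (w : List A) (F : A → ℝ) :
    ∑ i ∈ Finset.range w.length, F (cyc w i) = (w.map F).sum := by
  have h1 : ∀ i ∈ Finset.range w.length, F (cyc w i) = (w.map F).getD i 0 := by
    intro i hi
    have hi' := Finset.mem_range.1 hi
    rw [cyc_of_lt w i hi', List.getD_eq_getElem?_getD, List.getElem?_map,
      List.getElem?_eq_getElem hi']
    rfl
  rw [Finset.sum_congr rfl h1]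
  induction w with
  | nil => simp
  | cons x w ih =>
    rw [List.length_cons, Finset.sum_range_succ']
    have h2 : ∀ i ∈ Finset.range w.length, F (cyc w i) = (w.map F).getD i 0 := by
      intro i hi
      have hi' := Finset.mem_range.1 hi
      rw [cyc_of_lt w i hi', List.getD_eq_getElem?_getD, List.getElem?_map,
        List.getElem?_eq_getElem hi']
      rfl
    have h3 := ih h2
    simp only [List.map_cons, List.getD_cons_succ, List.getD_cons_zero, List.sum_cons]
    rw [h3]
    ring

theorem src_chain {x : E} {r : List E} (h : (x :: r).IsChain S.Cor) :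
    ∀ y ∈ x :: r, S.src y = S.src x := by
  induction r generalizing x with
  | nil =>
    intro y hy
    rw [List.mem_singleton] at hy
    rw [hy]
  | cons z r ih =>
    intro y hy
    rw [List.isChain_cons_cons] at h
    obtain ⟨⟨c, hc⟩, h2⟩ := h
    rcases List.mem_cons.1 hy with h3 | h3
    · rw [h3]
    · rw [ih h2 y h3]
      exact S.tri_src hc

/-- The triangle of the disc at the letter number i can be removed. -/
def AreaRed (S : TG V E) (w : List E) (W : ℕ → List E) : Prop :=
  ∀ i (h : i < w.length), ∀ f1 f2 l, S.Tri w[i] f1 f2 → W i = l ++ [f1, w[i]] →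
    S.ar (w.take i ++ f1 :: f2 :: w.drop (i + 1)) + 1 ≤ S.ar w

theorem bdyA (M : Mods) (hSC : S.SC) (w : List E) (hcl : S.Cl w) (hpf : S.PF w)
    (hw0 : w ≠ []) (hnb : ∀ e, w ≠ [S.inv e, e]) :
    ∃ (a : ℕ → E) (W : ℕ → List E) (I : List (List E)), Bd S w.length a W I ∧
      (∀ i (h : i < w.length), a i = w[i]) ∧ AreaRed S w W := by
  obtain ⟨e0, α, rfl⟩ : ∃ e0 α, w = e0 :: α := by
    cases w with
    | nil => exact absurd rfl hw0
    | cons e0 α => exact ⟨e0, α, rfl⟩
  obtain ⟨e, rfl⟩ : ∃ e, e0 = S.inv e := ⟨S.inv e0, by simp⟩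
  obtain ⟨X, Y, J, I, hNS⟩ := M.nsx V E S hSC e α hcl hpf
  obtain ⟨r1, r2, r3, r4⟩ := M.mir V E S hSC e α X Y J I hNS
  obtain ⟨b1, b2, b3, b4, b5, b6, b7, b8, b9, b10, b11⟩ := M.nsb _ _ _ _ _ _ _ _ _ _ hNS
  have hn : S.ar (S.inv e :: α) ≠ 0 := by
    intro h
    have h1 := (b5 h).1
    exact hnb e (by rw [h1])
  haveI : Inhabited E := ⟨e⟩
  haveI : Inhabited (List E) := ⟨[]⟩
  obtain ⟨WL, hWL⟩ : ∃ WL, WL = Y.reverse :: X :: J := ⟨_, rfl⟩
  have hWLlen : WL.length = (S.inv e :: α).length := by
    rw [hWL]
    simp only [List.length_cons]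
    omega
  -- edges, as a statement about lists
  have hroot := H56.root M.ins M.rot M.nsb hNS hn
  have hletter := H56.letter M.ins M.rot M.nsb hNS hn
  have hedg : ∀ i, i < WL.length → ∃ f1 f2 l r, S.Tri (cyc (S.inv e :: α) i) f1 f2 ∧
      cyc WL i = l ++ [f1, cyc (S.inv e :: α) i] ∧
      cyc WL (i + 1) = S.inv (cyc (S.inv e :: α) i) :: S.inv f2 :: r := by
    intro i hi
    rw [hWLlen] at hi
    cases i with
    | zero =>
      obtain ⟨f', f'', X0, Y0, hT, hX, hY, -⟩ := hroot
      have c0 : cyc (S.inv e :: α) 0 = S.inv e := by rw [cyc_of_lt _ 0 hi]; rfl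
      have c1 : cyc WL 0 = Y.reverse := by
        rw [cyc_of_lt _ 0 (by rw [hWLlen]; exact hi)]
        simp only [hWL, List.getElem_cons_zero]
      have c2 : cyc WL (0 + 1) = X := by
        rw [cyc_of_lt _ (0 + 1) (by rw [hWL]; simp)]
        simp only [hWL, zero_add, List.getElem_cons_succ, List.getElem_cons_zero]
      rw [c0, c1, c2, hX, hY]
      refine ⟨S.inv f'', S.inv f', Y0.reverse, X0, H56.tri1 hT, ?_, ?_⟩
      · simp
      · rw [S.inv_inv, S.inv_inv]
    | succ i =>
      have hi' : i < α.length := by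
        simp only [List.length_cons] at hi
        omega
      have hsplit : α = α.take i ++ α[i] :: α.drop (i + 1) := by
        conv_lhs => rw [← List.take_append_drop i α, List.drop_eq_getElem_cons hi']
      obtain ⟨f1, f2, l, r, hT, -, hW1, hW2⟩ := hletter (α.take i) α[i] (α.drop (i + 1)) hsplit
      have c0 : cyc (S.inv e :: α) (i + 1) = α[i] := by rw [cyc_of_lt _ _ hi]; rfl
      have hti : (α.take i).length = i := by
        rw [List.length_take]; omega
      rw [hti] at hW1 hW2
      have c1 : cyc WL (i + 1) = l ++ [f1, α[i]] := by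
        rw [cyc_of_lt _ _ (by rw [hWLlen]; exact hi)]
        have h1 : WL[i + 1]? = (X :: J ++ [Y.reverse])[i]? := by
          rw [hWL, List.getElem?_cons_succ, List.getElem?_append_left]
          simp only [List.length_cons]
          omega
        rw [hW1] at h1
        exact (List.getElem?_eq_some_iff.1 h1).2
      have c2 : cyc WL (i + 1 + 1) = S.inv α[i] :: S.inv f2 :: r := by
        by_cases hl : i + 1 + 1 < WL.length
        · rw [cyc_of_lt _ _ hl]
          have h1 : WL[i + 1 + 1]? = (X :: J ++ [Y.reverse])[i + 1]? := by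
            rw [hWL, List.getElem?_cons_succ, List.getElem?_append_left]
            rw [hWL] at hl
            simp only [List.length_cons] at hl ⊢
            omega
          rw [hW2] at h1
          exact (List.getElem?_eq_some_iff.1 h1).2
        · have h2 : i + 1 + 1 = WL.length := by
            rw [hWLlen] at hl ⊢
            omega
          have h3 : cyc WL (i + 1 + 1) = cyc WL 0 := by
            rw [h2]
            have := cyc_per WL 0
            rwa [zero_add] at this
          have h4 : cyc WL 0 = Y.reverse := by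
            rw [cyc_of_lt _ 0 (by omega)]
            simp only [hWL, List.getElem_cons_zero]
          rw [h3, h4]
          have h5 : i + 1 = (X :: J).length := by
            rw [hWL] at h2
            simp only [List.length_cons] at h2 ⊢
            omega
          rw [h5, List.getElem?_append_right le_rfl] at hW2
          simpa using hW2
      rw [c0, c1, c2]
      exact ⟨f1, f2, l, r, hT, rfl, rfl⟩
  have hmem : ∀ i, cyc WL i ∈ WL := by
    intro i
    have h1 : i % WL.length < WL.length := Nat.mod_lt _ (by rw [hWLlen]; simp)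
    have h2 : cyc WL i = WL[i % WL.length] := by
      unfold cyc
      rw [List.getD_eq_getElem?_getD, List.getElem?_eq_getElem h1]
      rfl
    rw [h2]
    exact List.getElem_mem _
  have hmod : ∀ {A : Type} [Inhabited A] (w : List A) (i : ℕ), cyc w (i % w.length) = cyc w i := by
    intro A _ w i
    unfold cyc
    rw [Nat.mod_mod]
  have hedg' : ∀ i, ∃ f1 f2 l r, S.Tri (cyc (S.inv e :: α) i) f1 f2 ∧
      cyc WL i = l ++ [f1, cyc (S.inv e :: α) i] ∧
      cyc WL (i + 1) = S.inv (cyc (S.inv e :: α) i) :: S.inv f2 :: r := by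
    intro i
    have h1 : i % WL.length < WL.length := Nat.mod_lt _ (by rw [hWLlen]; simp)
    obtain ⟨f1, f2, l, r, hT, hW1, hW2⟩ := hedg _ h1
    have h2 : cyc (S.inv e :: α) (i % WL.length) = cyc (S.inv e :: α) i := by
      rw [hWLlen]
      exact hmod _ i
    have h3 : cyc WL (i % WL.length + 1) = cyc WL (i + 1) := by
      unfold cyc
      rw [Nat.mod_add_mod]
    rw [h2, h3] at hW2
    rw [h2, hmod] at hW1
    rw [h2] at hT
    exact ⟨f1, f2, l, r, hT, hW1, hW2⟩
  have hchain : ∀ i, (cyc WL i).IsChain S.Cor := by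
    intro i
    have h1 := hmem i
    rw [hWL, List.mem_cons, List.mem_cons] at h1
    rw [← hWL] at h1
    rcases h1 with h1 | h1 | h1
    · rw [h1, List.isChain_reverse]
      refine b8.2.2.imp ?_
      intro x y hxy
      obtain ⟨c, hc⟩ := hxy
      exact ⟨_, S.tri_swap hc⟩
    · rw [h1]
      exact b7.2.2
    · exact b9 _ h1
  refine ⟨cyc (S.inv e :: α), cyc WL, I, ⟨cyc_per _, ?_, ?_, hedg', hchain, ?_, ?_, ?_⟩,
    fun i hi => cyc_of_lt _ i hi, ?_⟩
  · intro i
    rw [← hWLlen]
    exact cyc_per _ i
  · intro i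
    obtain ⟨f1, f2, l, r, hT, hW1, hW2⟩ := hedg' i
    obtain ⟨g1, g2, l', r', hT', hW1', hW2'⟩ := hedg' (i + 1)
    have h1 := hchain (i + 1)
    have h2 : cyc (S.inv e :: α) (i + 1) ∈ cyc WL (i + 1) := by
      rw [hW1']
      simp
    rw [hW2] at h1 h2
    have h3 := src_chain h1 _ h2
    rw [h3, src_inv]
  · intro i
    have h1 := hmem i
    rw [hWL, List.mem_cons, List.mem_cons] at h1
    rw [← hWL] at h1
    rcases h1 with h1 | h1 | h1
    · rw [h1]
      exact H56.red_reverse r2
    · rw [h1]
      exact r1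
    · exact r3 _ h1
  · intro v hv
    exact ⟨(b11 v hv).1, (b11 v hv).2, r4 v hv⟩
  · intro θ hθ
    have h1 := M.gb V E S θ hθ e α _ X Y J I hNS
    have h2 := sum_cyc WL (fun v => 3 - ow θ v)
    rw [hWLlen] at h2
    rw [h2, hWL, List.map_cons, List.map_cons, List.sum_cons, List.sum_cons,
      H31.ow_reverse hθ.symm]
    linarith
  · intro i hi f1 f2 l hT hW
    have hne : 0 < S.ar (S.inv e :: α) := Nat.pos_of_ne_zero hn
    have hA2 := (M.area V E S hSC).2.1
    have key : ∀ {x y : E} {l l' : List E} {z : E}, l ++ [x, z] = l' ++ [y, z] → x = y := by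
      intro x y l l' z h
      have h1 := congrArg List.reverse h
      simp only [List.reverse_append, List.reverse_cons, List.reverse_nil, List.nil_append,
        List.cons_append, List.cons.injEq] at h1
      exact h1.2.1
    cases i with
    | zero =>
      obtain ⟨f', f'', X0, Y0, hT', hX, hY, hD⟩ := hroot
      have c1 : cyc WL 0 = Y.reverse := by
        rw [cyc_of_lt _ 0 (by rw [hWLlen]; exact hi)]
        simp only [hWL, List.getElem_cons_zero]
      have h1 := H56.tri1 hT'
      rw [c1, hY] at hW
      simp only [List.getElem_cons_zero] at hT hW ⊢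
      have h2 : f1 = S.inv f'' := by
        have h3 : (S.inv e :: S.inv f'' :: Y0).reverse = Y0.reverse ++ [S.inv f'', S.inv e] := by
          simp
        rw [h3] at hW
        exact (key hW).symm
      subst h2
      have h3 : f2 = S.inv f' := S.tri_uniq hT h1
      subst h3
      have h4 := hA2 _ _ _ hD
      simp only [List.take_zero, List.nil_append, Nat.zero_add, List.drop_one, List.tail_cons]
      omega
    | succ i =>
      have hi' : i < α.length := by
        simp only [List.length_cons] at hi
        omega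
      have hsplit : α = α.take i ++ α[i] :: α.drop (i + 1) := by
        conv_lhs => rw [← List.take_append_drop i α, List.drop_eq_getElem_cons hi']
      obtain ⟨g1, g2, l', r, hT', hD, hW1, hW2⟩ := hletter (α.take i) α[i] (α.drop (i + 1)) hsplit
      have hti : (α.take i).length = i := by
        rw [List.length_take]; omega
      rw [hti] at hW1 hW2
      have c1 : cyc WL (i + 1) = l' ++ [g1, α[i]] := by
        rw [cyc_of_lt _ _ (by rw [hWLlen]; exact hi)]
        have h1 : WL[i + 1]? = (X :: J ++ [Y.reverse])[i]? := by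
          rw [hWL, List.getElem?_cons_succ, List.getElem?_append_left]
          simp only [List.length_cons]
          omega
        rw [hW1] at h1
        exact (List.getElem?_eq_some_iff.1 h1).2
      simp only [List.getElem_cons_succ] at hT hW
      rw [c1] at hW
      have h2 : f1 = g1 := (key hW).symm
      subst h2
      have h3 : f2 = g2 := S.tri_uniq hT hT'
      subst h3
      have h4 := hA2 _ _ _ hD
      simp only [List.take_succ_cons, List.cons_append, List.drop_succ_cons]
      omega

theorem bdy' (M : Mods) (hSC : S.SC) (w : List E) (hcl : S.Cl w) (hpf : S.PF w)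
    (hw0 : w ≠ []) (hnb : ∀ e, w ≠ [S.inv e, e]) :
    ∃ (a : ℕ → E) (W : ℕ → List E) (I : List (List E)), Bd S w.length a W I ∧
      (∀ i (h : i < w.length), a i = w[i]) := by
  obtain ⟨a, W, I, h1, h2, -⟩ := bdyA M hSC w hcl hpf hw0 hnb
  exact ⟨a, W, I, h1, h2⟩

theorem bdy (M : Mods) (hSC : S.SC) (w : List E) (hcl : S.Cl w) (hpf : S.PF w)
    (hlen : 3 ≤ w.length) :
    ∃ (a : ℕ → E) (W : ℕ → List E) (I : List (List E)), Bd S w.length a W I ∧
      (∀ i (h : i < w.length), a i = w[i]) := by
  refine bdy' M hSC w hcl hpf ?_ ?_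
  · rintro rfl
    simp at hlen
  · rintro e rfl
    simp at hlen

end Pool.Agent.ABA.B.H17
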