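import Pool.Agent.Helper17_ABA.CGc

/-!
Lemma CG (coarse graining) without the connectedness hypothesis.
-/

open Equiv Equiv.Perm H17ABA

namespace Pool.Agent.ABA.H17

open Pool.Agent.ABA

/-- The deletion process. -/
theorem cg_core2 {Ω L Γ : Type} [AddCommGroup L] [Group Γ] [Fintype Ω] [DecidableEq Ω]
    (α : Bool → Multiplicative L →* Γ) (lab : Ω → Bool × L) (Sel Keep : Set Ω) (hSK : Sel ⊆ Keep) (s0 l0 : Perm Ω)
    (ρ : Ω → ℕ) (n : ℕ) :
    ∀ (Del : Set Ω) (S : State Ω L Γ), (∀ w ∈ Del, w ∉ Keep) →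
      Nat.card {w // w ∉ Del ∧ w ∉ Keep} = n →
      S.Inv (pw α) (fun w => (lab w).1) (fun w => (lab w).2) Sel →
      (∀ w ∈ Del, S.s w = w ∧ S.l w = w) →
      Tr (ev α) lab s0 S.s Del S.k →
      Tr (fun w : Wd L => Multiplicative.ofAdd (w.map Prod.snd).sum) lab l0 S.l Del
        (fun w => Multiplicative.ofAdd (S.p w)) →
      (∀ w, w ∉ Del → w ∉ Keep → ∃ w', w' ∉ Del ∧ ρ w' < ρ w ∧
        (SameCycle S.s w w' ∨ SameCycle S.l w w')) →
      ∃ S' : State Ω L Γ, S'.Inv (pw α) (fun w => (lab w).1) (fun w => (lab w).2) Sel ∧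
        (∀ w, w ∉ Keep → S'.s w = w ∧ S'.l w = w) ∧
        Tr (ev α) lab s0 S'.s Keepᶜ S'.k ∧
        Tr (fun w : Wd L => Multiplicative.ofAdd (w.map Prod.snd).sum) lab l0 S'.l Keepᶜ
          (fun w => Multiplicative.ofAdd (S'.p w)) ∧
        S.D (pw α) (fun w => (lab w).1) + 2 * n ≤ S'.D (pw α) (fun w => (lab w).1) := by
  classical
  have pw_add : ∀ (t : Bool) (x y : L), pw α t (x + y) = pw α t x * pw α t y := by
    intro t x y
    rw [pw, pw, pw, ofAdd_add, map_mul]
  induction n with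
  | zero =>
    intro Del S hD hcard hInv hdead hTr hTl hrank
    have hDel : Del = Keepᶜ := by
      ext w
      constructor
      · intro hw
        exact hD w hw
      · intro hw
        by_contra hcon
        have : IsEmpty {w // w ∉ Del ∧ w ∉ Keep} := by
          rcases (Nat.card_eq_zero.1 hcard) with h | h
          · exact h
          · exact absurd h (by simpa using (inferInstance : Finite {w // w ∉ Del ∧ w ∉ Keep}))
        exact this.false ⟨w, hcon, hw⟩
    subst hDel
    exact ⟨S, hInv, fun w hw => hdead w hw, hTr, hTl, by omega⟩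
  | succ n ih =>
    intro Del S hD hcard hInv hdead hTr hTl hrank
    -- choose a point of maximal rank
    have hne : (Finset.univ.filter (fun w => w ∉ Del ∧ w ∉ Keep)).Nonempty := by
      by_contra hcon
      rw [Finset.not_nonempty_iff_eq_empty] at hcon
      have : Nat.card {w // w ∉ Del ∧ w ∉ Keep} = 0 := by
        rw [Nat.card_eq_fintype_card, Fintype.card_subtype, hcon, Finset.card_empty]
      omega
    obtain ⟨w1, hw1, hmax⟩ := Finset.exists_max_image _ ρ hne
    rw [Finset.mem_filter] at hw1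
    obtain ⟨-, hw1D, hw1S⟩ := hw1
    have hmax' : ∀ w, w ∉ Del → w ∉ Keep → ρ w ≤ ρ w1 := fun w h1 h2 =>
      hmax w (Finset.mem_filter.2 ⟨Finset.mem_univ _, h1, h2⟩)
    have hniso : ¬ (S.s w1 = w1 ∧ S.l w1 = w1) := by
      rintro ⟨h1, h2⟩
      obtain ⟨w', -, hlt, hc⟩ := hrank w1 hw1D hw1S
      have : w1 = w' := by
        rcases hc with hc | hc
        · exact hc.eq_of_left h1
        · exact hc.eq_of_left h2
      rw [← this] at hlt
      exact lt_irrefl _ hlt
    have hstep := hInv.del_D pw_add (fun h => hw1S (hSK h)) hniso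
    obtain ⟨S', h1, h2, h3, h4, h5⟩ := ih (insert w1 Del)
      (S.del (pw α) (fun w => (lab w).1) (fun w => (lab w).2) w1)
      (by
        intro w hw
        rcases Set.mem_insert_iff.1 hw with rfl | hw
        · exact hw1S
        · exact hD w hw)
      (by
        have h1 : {w | w ∉ insert w1 Del ∧ w ∉ Keep} = {w | w ∉ Del ∧ w ∉ Keep} \ {w1} := by
          ext w
          simp only [Set.mem_insert_iff, not_or, Set.mem_ofPred_eq, Set.mem_sdiff,
            Set.mem_singleton_iff]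
          tauto
        have h2 : Nat.card {w // w ∉ insert w1 Del ∧ w ∉ Keep} =
            ({w | w ∉ insert w1 Del ∧ w ∉ Keep} : Set Ω).ncard := rfl
        have h3 : Nat.card {w // w ∉ Del ∧ w ∉ Keep} = ({w | w ∉ Del ∧ w ∉ Keep} : Set Ω).ncard := rfl
        rw [h2, h1, Set.ncard_sdiff_singleton_of_mem (by exact ⟨hw1D, hw1S⟩)]
        rw [h3] at hcard
        omega)
      (hInv.del (fun h => hw1S (hSK h)))
      (by
        intro w hw0
        rcases Set.mem_insert_iff.1 hw0 with hw | hw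
        · rw [hw]
          exact ⟨bypass_w _ _, bypass_w _ _⟩
        · have hne : w ≠ w1 := by
            intro hh
            rw [hh] at hw
            exact hw1D hw
          obtain ⟨h1, h2⟩ := hdead w hw
          refine ⟨?_, ?_⟩
          · show (S.s * swap (S.s⁻¹ w1) w1) w = w
            rw [bypass_other S.s (by rw [h1]; exact hne) hne, h1]
          · show (S.l * swap (S.l⁻¹ w1) w1) w = w
            rw [bypass_other S.l (by rw [h2]; exact hne) hne, h2])
      (by
        refine tr_step (ev α) ?_ lab s0 S.s Del S.k _ w1 hw1D hTr ?_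
        · intro u v
          rw [ev, ev, ev, List.map_append, List.prod_append]
        · intro o ho
          show (if o = w1 then (pw α (lab w1).1 (lab w1).2)⁻¹ else
            if S.s o = w1 then S.k o * pw α (lab w1).1 (lab w1).2 * S.k w1 else S.k o) = _
          rw [if_neg ho]
          simp [ev, pw])
      (by
        refine tr_step _ ?_ lab l0 S.l Del _ _ w1 hw1D hTl ?_
        · intro u v
          rw [List.map_append, List.sum_append, ofAdd_add]
        · intro o ho
          show Multiplicative.ofAdd (if o = w1 then -(lab w1).2 else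
            if S.l o = w1 then S.p o + (lab w1).2 + S.p w1 else S.p o) = _
          rw [if_neg ho]
          by_cases h : S.l o = w1
          · rw [if_pos h, if_pos h, ofAdd_add, ofAdd_add]
            simp
          · rw [if_neg h, if_neg h])
      (by
        intro w hwD hwS
        rw [Set.mem_insert_iff, not_or] at hwD
        obtain ⟨w', hw'D, hlt, hc⟩ := hrank w hwD.2 hwS
        have hne : w' ≠ w1 := by
          rintro rfl
          exact absurd hlt (not_lt.2 (hmax' w hwD.2 hwS))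
        refine ⟨w', ?_, hlt, ?_⟩
        · rw [Set.mem_insert_iff, not_or]
          exact ⟨hne, hw'D⟩
        · rcases hc with hc | hc
          · exact Or.inl (same_bypass S.s hwD.1 hne hc)
          · exact Or.inr (same_bypass S.l hwD.1 hne hc))
    exact ⟨S', h1, h2, h3, h4, by omega⟩


/-- LEMMA CG without the connectedness hypothesis. -/
def CG2Stmt : Prop :=
  ∀ (L Γ Ω : Type) [AddCommGroup L] [Group Γ] [Fintype Ω] [DecidableEq Ω]
    (α : Bool → Multiplicative L →* Γ) (fs : List (List Ω)) (D : FC L Ω fs) (Sel : Set Ω),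
    (∃ w, w ∈ Sel) → (∀ w ∈ Sel, w ∈ fs.flatten) →
    (∀ d ∈ fs, (∀ w ∈ d, w ∉ Sel) → ev α (d.map D.lab) = 1) →
    ∃ (σS lS : Perm Sel) (p : Sel → L) (k : Sel → Γ),
      (∀ w : Sel, ∃ n, Ret (facePerm fs) Sel w n ∧ (σS w : Ω) = ((facePerm fs) ^ n) w ∧
        k w = ev α (btw (facePerm fs) D.lab w n)) ∧
      (∀ w : Sel, ∃ n, Ret D.l Sel w n ∧ (lS w : Ω) = (D.l ^ n) w ∧
        p w = ((btw D.l D.lab w n).map Prod.snd).sum) ∧
      Nat.card Sel + 2 ≤ cyc σS + cyc lS +
        good (σS * lS⁻¹) (rstep α (fun w => (D.lab w).1) lS p k)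

theorem cg2_all : CG2Stmt := by
  intro L Γ Ω _ _ _ _ α fs D Sel hne hsel hface
  classical
  have pw_add : ∀ (t : Bool) (x y : L), pw α t (x + y) = pw α t x * pw α t y := by
    intro t x y
    rw [pw, pw, pw, ofAdd_add, map_mul]
  have pw_zero : ∀ t : Bool, pw α t (0 : L) = 1 := by
    intro t
    rw [pw, ofAdd_zero, map_one]
  have hdeadv : ∀ w, w ∉ fs.flatten → (D.lab w).2 = 0 := by
    intro w hw
    have h1 := D.sum_l w
    have h2 := D.dead w hw
    rw [cycSum] at h1
    rw [← h1]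
    symm
    refine Finset.sum_eq_single w ?_ ?_
    · intro b hb hbw
      simp only [Finset.mem_filter, Finset.mem_univ, true_and] at hb
      exact absurd (hb.eq_of_left h2).symm hbw
    · intro hc
      exfalso
      apply hc
      simp only [Finset.mem_filter, Finset.mem_univ, true_and]
      exact SameCycle.refl _ _
  have hfd : ∀ w, w ∉ fs.flatten → facePerm fs w = w := fun w hw => facePerm_apply_not_mem hw
  -- the initial state
  let S0 : State Ω L Γ := { s := facePerm fs, l := D.l, p := fun _ => 0, k := fun _ => 1 }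
  have hInv : S0.Inv (pw α) (fun w => (D.lab w).1) (fun w => (D.lab w).2) Sel := by
    refine ⟨D.ty_l, ?_, ?_⟩
    · obtain ⟨κ, hκ⟩ := exists_potential D.l (fun v => (D.lab v).2) D.sum_l
      exact ⟨κ, fun o => by
        show κ (D.l o) = κ o + (D.lab o).2 + 0
        rw [hκ, add_zero]⟩
    · obtain ⟨φ, hφ⟩ := face_potential α D.lab fs D.nodup Sel hdeadv hface
      exact ⟨φ, fun o ho => by
        show φ (facePerm fs o) = φ o * pw α (D.lab o).1 (D.lab o).2 * 1
        rw [hφ o ho, mul_one]⟩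
  have hl' : ∀ w, w ∉ fs.flatten → D.l⁻¹ w = w := by
    intro w hw
    have := inv_ap D.l w
    rwa [D.dead w hw] at this
  have horbl : orb2 (facePerm fs) D.l⁻¹ = orb2 (facePerm fs) D.l := by
    rw [orb2, orb2, cs_inv]
  obtain ⟨Q, hQ⟩ : ∃ Q : Setoid Ω, Q = orb2 (facePerm fs) D.l := ⟨_, rfl⟩
  have hQdead : ∀ w z, w ∉ fs.flatten → Q w z → z = w := by
    intro w z hw hwz
    rw [hQ] at hwz
    exact orb2_dead _ _ (hfd w hw) (D.dead w hw) hwz
  -- roots of the components which do not meet Sel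
  obtain ⟨Rt, hRt⟩ : ∃ Rt : Set Ω, ∀ w, w ∈ Rt ↔ w ∈ fs.flatten ∧ (∀ z, Q w z → z ∉ Sel) ∧
      (Quotient.mk Q w).out = w := ⟨{w | w ∈ fs.flatten ∧ (∀ z, Q w z → z ∉ Sel) ∧
      (Quotient.mk Q w).out = w}, fun w => Iff.rfl⟩
  have hRS : ∀ w ∈ Rt, w ∉ Sel := fun w hw => ((hRt w).1 hw).2.1 w (Q.refl' w)
  have hSK : Sel ⊆ Sel ∪ Rt := Set.subset_union_left
  have hcon' : ∀ w ∈ {w | w ∈ fs.flatten}, ∃ z ∈ Sel ∪ Rt, (orb2 (facePerm fs) D.l) w z := by
    intro w hw
    rw [← hQ]
    by_cases h : ∃ z ∈ Sel, Q w z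
    · obtain ⟨z, hz, hwz⟩ := h
      exact ⟨z, Or.inl hz, hwz⟩
    · have h1 : Q w (Quotient.mk Q w).out := Q.symm' (Quotient.exact (Quotient.out_eq _))
      refine ⟨(Quotient.mk Q w).out, Or.inr ((hRt _).2 ⟨?_, ?_, ?_⟩), h1⟩
      · by_contra hc
        have := hQdead _ w hc (Q.symm' h1)
        rw [← this] at hc
        exact hc hw
      · intro z hz hzS
        exact h ⟨z, hzS, Q.trans' h1 hz⟩
      · rw [Quotient.out_eq]
  obtain ⟨ρ, hρ⟩ := exists_rank (facePerm fs) D.l (Sel ∪ Rt) {w | w ∈ fs.flatten}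
    (fun w hw => ⟨hfd w hw, D.dead w hw⟩) hcon'
  have hinvflat : ∀ w, w ∈ fs.flatten → facePerm fs w ∈ fs.flatten := by
    intro w hw
    by_contra hc
    have := (facePerm fs).injective (hfd _ hc)
    rw [this] at hc
    exact hc hw
  have hinvflatl : ∀ w, w ∈ fs.flatten → D.l w ∈ fs.flatten := by
    intro w hw
    by_contra hc
    have := D.l.injective (D.dead _ hc)
    rw [this] at hc
    exact hc hw
  obtain ⟨S', hI, hfix, hTr, hTl, hD⟩ := cg_core2 α D.lab Sel (Sel ∪ Rt) hSK (facePerm fs) D.l ρ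
    (Nat.card {w // w ∉ {w | w ∉ fs.flatten} ∧ w ∉ Sel ∪ Rt}) {w | w ∉ fs.flatten} S0
    (by
      intro w hw hs
      rcases hs with hs | hs
      · exact hw (hsel w hs)
      · exact hw ((hRt w).1 hs).1) rfl hInv (fun w hw => ⟨hfd w hw, D.dead w hw⟩)
    (tr_init _ rfl _ _ _ (by
      intro w hw
      rw [Set.mem_ofPred_eq, not_not] at hw ⊢
      exact hinvflat w hw))
    (tr_init _ rfl _ _ _ (by
      intro w hw
      rw [Set.mem_ofPred_eq, not_not] at hw ⊢
      exact hinvflatl w hw))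
    (by
      intro w hw hws
      rw [Set.mem_ofPred_eq, not_not] at hw
      obtain ⟨w', hw', h1, h2⟩ := hρ w hw hws
      exact ⟨w', fun hh => hh hw', h1, h2⟩)
  -- return points stay in the component
  have hpowQs : ∀ (n : ℕ) (w : Ω), Q w (((facePerm fs) ^ n) w) := by
    intro n w
    rw [hQ]
    exact (le_sup_left : cs (facePerm fs) ≤ orb2 (facePerm fs) D.l) ⟨n, by rw [zpow_natCast]⟩
  have hpowQl : ∀ (n : ℕ) (w : Ω), Q w ((D.l ^ n) w) := by
    intro n w
    rw [hQ]
    exact (le_sup_right : cs D.l ≤ orb2 (facePerm fs) D.l) ⟨n, by rw [zpow_natCast]⟩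
  have hQs : ∀ w, w ∈ Sel ∪ Rt → Q w (S'.s w) ∧ S'.s w ∈ Sel ∪ Rt := by
    intro w hw
    obtain ⟨n, h1, h2, h3, h4, h5⟩ := hTr w (fun hh => hh hw)
    rw [Set.mem_compl_iff, not_not] at h3
    refine ⟨?_, h3⟩
    rw [← h2]
    exact hpowQs n w
  have hQl : ∀ w, w ∈ Sel ∪ Rt → Q w (S'.l w) ∧ S'.l w ∈ Sel ∪ Rt := by
    intro w hw
    obtain ⟨n, h1, h2, h3, h4, h5⟩ := hTl w (fun hh => hh hw)
    rw [Set.mem_compl_iff, not_not] at h3
    refine ⟨?_, h3⟩
    rw [← h2]
    exact hpowQl n w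
  -- in a component with a root the root is the only kept point
  have hroot : ∀ w ∈ Rt, ∀ z ∈ Sel ∪ Rt, Q w z → z = w := by
    intro w hw z hz hwz
    obtain ⟨h1, h2, h3⟩ := (hRt w).1 hw
    rcases hz with hz | hz
    · exact absurd hz (h2 z hwz)
    · obtain ⟨k1, k2, k3⟩ := (hRt z).1 hz
      have : Quotient.mk Q z = Quotient.mk Q w := Quotient.sound (Q.symm' hwz)
      rw [← k3, this, h3]
  have hfs : ∀ w, w ∉ Sel → S'.s w = w := by
    intro w hw
    by_cases hwR : w ∈ Rt
    · obtain ⟨h1, h2⟩ := hQs w (Or.inr hwR)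
      exact hroot w hwR _ h2 h1
    · exact (hfix w (fun hh => hh.elim hw hwR)).1
  have hfl : ∀ w, w ∉ Sel → S'.l w = w := by
    intro w hw
    by_cases hwR : w ∈ Rt
    · obtain ⟨h1, h2⟩ := hQl w (Or.inr hwR)
      exact hroot w hwR _ h2 h1
    · exact (hfix w (fun hh => hh.elim hw hwR)).2
  have hselQ : ∀ w ∈ Sel, ∀ z ∈ Sel ∪ Rt, Q w z → z ∈ Sel := by
    intro w hw z hz hwz
    rcases hz with hz | hz
    · exact hz
    · exact absurd hw (((hRt z).1 hz).2.1 w (Q.symm' hwz))
  let σS : Perm Sel := resPerm Sel S'.s hfs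
  let lS : Perm Sel := resPerm Sel S'.l hfl
  refine ⟨σS, lS, fun w => S'.p w, fun w => S'.k w, ?_, ?_, ?_⟩
  · intro w
    obtain ⟨n, h1, h2, h3, h4, h5⟩ := hTr w (fun hh => hh (Or.inl w.2))
    rw [Set.mem_compl_iff, not_not] at h3
    have h3' : S'.s w ∈ Sel := hselQ w w.2 _ h3 (hQs w (Or.inl w.2)).1
    refine ⟨n, ⟨h1, by rw [h2]; exact h3', fun j hj1 hj2 hj3 => h4 j hj1 hj2 (Or.inl hj3)⟩, ?_, h5⟩
    rw [h2]
    rfl
  · intro w
    obtain ⟨n, h1, h2, h3, h4, h5⟩ := hTl w (fun hh => hh (Or.inl w.2))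
    rw [Set.mem_compl_iff, not_not] at h3
    have h3' : S'.l w ∈ Sel := hselQ w w.2 _ h3 (hQl w (Or.inl w.2)).1
    refine ⟨n, ⟨h1, by rw [h2]; exact h3', fun j hj1 hj2 hj3 => h4 j hj1 hj2 (Or.inl hj3)⟩, ?_, ?_⟩
    · rw [h2]
      rfl
    · exact Multiplicative.ofAdd.injective h5
  · -- the count
    have c1 := cyc_res Sel S'.s hfs σS (fun _ => rfl)
    have c2 := cyc_res Sel S'.l hfl lS (fun _ => rfl)
    have hff : ∀ w, w ∉ Sel → S'.f w = w := by
      intro w hw
      show S'.s (S'.l⁻¹ w) = w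
      have : S'.l⁻¹ w = w := by
        have := inv_ap S'.l w
        rwa [hfl w hw] at this
      rw [this, hfs w hw]
    have hinvl : ∀ w : Sel, ((lS⁻¹ w : Sel) : Ω) = S'.l⁻¹ w := resPerm_inv_apply Sel S'.l hfl
    have c3 := numGood_res Sel S'.f hff (S'.r (pw α) (fun w => (D.lab w).1)) (σS * lS⁻¹) (by
      intro w
      rw [Perm.mul_apply]
      show S'.s ((lS⁻¹ w : Sel) : Ω) = S'.s (S'.l⁻¹ w)
      rw [hinvl])
    have hgood : good (σS * lS⁻¹) (rstep α (fun w : Sel => (D.lab w).1) lS (fun w => S'.p w)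
        (fun w => S'.k w)) =
        numGood (σS * lS⁻¹) (fun w : Sel => S'.r (pw α) (fun w => (D.lab w).1) w) := by
      rw [good_eq]
      congr 1
      funext η
      show pw α (D.lab η).1 (-(S'.p ((lS⁻¹ η : Sel) : Ω))) * S'.k ((lS⁻¹ η : Sel) : Ω) =
        pw α (D.lab (S'.l⁻¹ η)).1 (-S'.p (S'.l⁻¹ η)) * S'.k (S'.l⁻¹ η)
      have h1 : (D.lab (S'.l⁻¹ (η : Ω))).1 = (D.lab (η : Ω)).1 := by
        have := hI.ty_l (S'.l⁻¹ η)
        rw [ap_inv] at this
        exact this.symm
      rw [hinvl, h1]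
    rw [hgood]
    have hD0 : S0.D (pw α) (fun w => (D.lab w).1) =
        cyc (facePerm fs) + cyc D.l + cyc (facePerm fs * D.l⁻¹) := by
      rw [State.D]
      congr 1
      refine numGood_one _ _ (fun o => ?_)
      show pw α _ (-0) * 1 = 1
      rw [neg_zero, pw_zero, mul_one]
    have hpl : cyc (facePerm fs) + cyc D.l⁻¹ + cyc (facePerm fs * D.l⁻¹) =
      Nat.card Ω + 2 * nc (orb2 (facePerm fs) D.l⁻¹) := D.planar
    rw [cyc_inv, horbl, ← hQ] at hpl
    -- components
    have horb : Nat.card {w // w ∉ fs.flatten ∨ w ∈ Rt} + 1 ≤ nc Q := by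
      obtain ⟨z, hz⟩ := hne
      have hzf := hsel z hz
      have aux : ∀ w, (w ∉ fs.flatten ∨ w ∈ Rt) → ¬ Q w z := by
        intro w hw hwz
        rcases hw with hw | hw
        · have := hQdead w z hw hwz
          rw [← this] at hw
          exact hw hzf
        · exact ((hRt w).1 hw).2.1 z hwz hz
      have aux2 : ∀ w1 w2, (w1 ∉ fs.flatten ∨ w1 ∈ Rt) → (w2 ∉ fs.flatten ∨ w2 ∈ Rt) →
          Q w1 w2 → w1 = w2 := by
        intro w1 w2 h1 h2 h
        rcases h1 with h1 | h1
        · exact (hQdead w1 w2 h1 h).symm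
        · rcases h2 with h2 | h2
          · exact hQdead w2 w1 h2 (Q.symm' h)
          · exact (hroot w1 h1 w2 (Or.inr h2) h).symm
      let φ : Option {w // w ∉ fs.flatten ∨ w ∈ Rt} → Quotient Q := fun o =>
        match o with
        | none => Quotient.mk _ z
        | some w => Quotient.mk _ w.1
      have hφ : Function.Injective φ := by
        rintro (_ | ⟨w1, h1⟩) (_ | ⟨w2, h2⟩) hh
        · rfl
        · exact absurd (Q.symm' (Quotient.exact hh)) (aux w2 h2)
        · exact absurd (Quotient.exact hh) (aux w1 h1)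
        · have h3 : Q w1 w2 := Quotient.exact hh
          have h4 := aux2 w1 w2 h1 h2 h3
          subst h4
          rfl
      have := Nat.card_le_card_of_injective φ hφ
      rw [Finite.card_option] at this
      exact this
    have hcard1 : Nat.card {w // w ∉ Sel} = Nat.card {w // w ∉ fs.flatten ∨ w ∈ Rt} +
        Nat.card {w // w ∉ {w | w ∉ fs.flatten} ∧ w ∉ Sel ∪ Rt} := by
      have e1 : Nat.card {w // w ∉ Sel} = ({w | w ∉ Sel} : Set Ω).ncard := rfl
      have e2 : Nat.card {w // w ∉ fs.flatten ∨ w ∈ Rt} =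
        ({w | w ∉ fs.flatten ∨ w ∈ Rt} : Set Ω).ncard := rfl
      have e3 : Nat.card {w // w ∉ {w | w ∉ fs.flatten} ∧ w ∉ Sel ∪ Rt} =
        ({w | w ∉ {w | w ∉ fs.flatten} ∧ w ∉ Sel ∪ Rt} : Set Ω).ncard := rfl
      rw [e1, e2, e3, ← Set.ncard_union_eq]
      · congr 1
        ext w
        simp only [Set.mem_ofPred_eq, Set.mem_union, not_not, not_or]
        constructor
        · intro hw
          by_cases h : w ∈ fs.flatten
          · by_cases h' : w ∈ Rt
            · exact Or.inl (Or.inr h')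
            · exact Or.inr ⟨h, hw, h'⟩
          · exact Or.inl (Or.inl h)
        · rintro ((h | h) | h)
          · exact fun hh => h (hsel w hh)
          · exact hRS w h
          · exact h.2.1
      · rw [Set.disjoint_left]
        rintro w (h1 | h1) h2
        · exact h2.1 h1
        · exact h2.2 (Or.inr h1)
    have hcard2 : Nat.card Ω = Nat.card Sel + Nat.card {w // w ∉ Sel} := by
      have := Nat.card_congr (Equiv.sumCompl (fun w => w ∈ Sel))
      rw [Nat.card_sum] at this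
      exact this.symm
    have hD' : S'.D (pw α) (fun w => (D.lab w).1) = cyc S'.s + cyc S'.l +
      numGood S'.f (S'.r (pw α) (fun w => (D.lab w).1)) := rfl
    rw [hD0, hD'] at hD
    omega

end Pool.Agent.ABA.H17
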