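import Pool.Agent.Helper17_ABA.Del
import Pool.Agent.Helper83_ABA.Coarse

/-!
CPStmt, the traces of the deletion process, and restriction to the selected points.
-/

open Equiv Equiv.Perm H17ABA

namespace Pool.Agent.ABA.H17

open Pool.Agent.ABA

theorem good_eq {S Γ : Type} [Group Γ] (φ : Perm S) (r : S → Γ) : good φ r = numGood φ r := by
  refine Nat.card_congr (Equiv.subtypeEquivRight (fun q => ?_))
  constructor
  · rintro ⟨F, hF⟩
    refine ⟨F, fun h hh => hF h ?_⟩
    exact ((out_same_iff φ q h).1 hh).symm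
  · rintro ⟨F, hF⟩
    refine ⟨F, fun h hh => hF h ?_⟩
    exact (out_same_iff φ q h).2 hh.symm

theorem cp_all : CPStmt := by
  intro S Γ _ _ _ φ r r' x y e hxy h1 h2 h3
  rw [good_eq, good_eq]
  have h4 : swap x y * φ = φ * swap (φ⁻¹ x) (φ⁻¹ y) := swap_mul_eq_mul_swap φ x y
  rw [h4]
  exact numGood_le_swap e h3 h1 h2

/-- The trace invariant of the deletion process. -/
def Tr {Ω L M : Type} [Monoid M] (F : Wd L → M) (lab : Ω → Bool × L) (π0 π : Perm Ω)
    (Del : Set Ω) (K : Ω → M) : Prop :=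
  ∀ w, w ∉ Del → ∃ n, 0 < n ∧ (π0 ^ n) w = π w ∧ π w ∉ Del ∧
    (∀ j, 0 < j → j < n → (π0 ^ j) w ∈ Del) ∧ K w = F (btw π0 lab w n)

theorem btw_one {Ω L : Type} (π : Perm Ω) (lab : Ω → Bool × L) (w : Ω) : btw π lab w 1 = [] := rfl

theorem btw_add {Ω L : Type} (π : Perm Ω) (lab : Ω → Bool × L) (w : Ω) {n m : ℕ} (hn : 0 < n)
    (hm : 0 < m) : btw π lab w (n + m) =
      btw π lab w n ++ [lab ((π ^ n) w)] ++ btw π lab ((π ^ n) w) m := by
  obtain ⟨n, rfl⟩ : ∃ k, n = k + 1 := ⟨n - 1, by omega⟩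
  obtain ⟨m, rfl⟩ : ∃ k, m = k + 1 := ⟨m - 1, by omega⟩
  have h1 : n + 1 + (m + 1) - 1 = n + (1 + m) := by omega
  rw [btw, btw, btw, h1, Nat.add_sub_cancel, Nat.add_sub_cancel, List.range_add, List.map_append,
    List.range_add, List.map_append, List.map_append, List.append_assoc]
  congr 1
  congr 1
  simp only [List.map_map]
  refine List.map_congr_left (fun j _ => ?_)
  simp only [Function.comp_apply]
  rw [← Perm.mul_apply, ← pow_add]
  congr 3
  omega

theorem tr_init {Ω L M : Type} [Monoid M] (F : Wd L → M) (hF0 : F [] = 1) (lab : Ω → Bool × L)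
    (π0 : Perm Ω) (Del : Set Ω) (hDel : ∀ w, w ∉ Del → π0 w ∉ Del) :
    Tr F lab π0 π0 Del (fun _ => 1) := by
  intro w hw
  refine ⟨1, one_pos, by rw [pow_one], hDel w hw, ?_, ?_⟩
  · intro j h1 h2
    omega
  · rw [btw_one, hF0]

theorem tr_step {Ω L M : Type} [DecidableEq Ω] [Monoid M] (F : Wd L → M)
    (hF : ∀ u v, F (u ++ v) = F u * F v) (lab : Ω → Bool × L)
    (π0 π : Perm Ω) (Del : Set Ω) (K K' : Ω → M) (w1 : Ω) (hw1 : w1 ∉ Del)
    (h : Tr F lab π0 π Del K)
    (hK' : ∀ o, o ≠ w1 → K' o = if π o = w1 then K o * F [lab w1] * K w1 else K o) :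
    Tr F lab π0 (π * swap (π⁻¹ w1) w1) (insert w1 Del) K' := by
  intro w hw
  rw [Set.mem_insert_iff, not_or] at hw
  obtain ⟨n, hn, hnw, hnD, hj, hk⟩ := h w hw.2
  by_cases h1 : π w = w1
  · obtain ⟨m, hm, hmw, hmD, hmj, hmk⟩ := h w1 hw1
    rw [h1] at hnw
    have hne : π w1 ≠ w1 := by
      intro hh
      exact hw.1 (π.injective (h1.trans hh.symm))
    refine ⟨m + n, by omega, ?_, ?_, ?_, ?_⟩
    · rw [bypass_pred π h1, pow_add, Perm.mul_apply, hnw, hmw]
    · rw [bypass_pred π h1, Set.mem_insert_iff, not_or]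
      exact ⟨hne, hmD⟩
    · intro j hj1 hj2
      rw [Set.mem_insert_iff]
      rcases lt_trichotomy j n with hlt | heq | hgt
      · exact Or.inr (hj j hj1 hlt)
      · rw [heq]
        exact Or.inl hnw
      · right
        have := hmj (j - n) (by omega) (by omega)
        rw [← hnw, ← Perm.mul_apply, ← pow_add] at this
        have h2 : j - n + n = j := by omega
        rwa [h2] at this
    · rw [hK' w hw.1, if_pos h1, add_comm m n, btw_add π0 lab w hn hm, hF, hF, hnw, hk, hmk]
  · refine ⟨n, hn, ?_, ?_, ?_, ?_⟩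
    · rw [bypass_other π h1 hw.1, hnw]
    · rw [bypass_other π h1 hw.1, Set.mem_insert_iff, not_or]
      exact ⟨h1, hnD⟩
    · intro j h2 h3
      exact Set.mem_insert_of_mem _ (hj j h2 h3)
    · rw [hK' w hw.1, if_neg h1, hk]

section restrict

variable {Ω : Type} {Γ : Type} [Group Γ] (Sel : Set Ω) (f : Perm Ω)

/-- Restriction of a permutation which fixes all points outside Sel. -/
def resPerm (hf : ∀ w, w ∉ Sel → f w = w) : Perm Sel :=
  f.subtypePerm (by
    intro x
    constructor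
    · intro hx
      by_contra hc
      rw [hf x hc] at hx
      exact hc hx
    · intro hx
      by_contra hc
      have h1 := hf _ hc
      have := f.injective h1
      rw [this] at hc
      exact hc hx)

theorem resPerm_apply (hf : ∀ w, w ∉ Sel → f w = w) (w : Sel) :
    ((resPerm Sel f hf w : Sel) : Ω) = f w := rfl

theorem resPerm_inv_apply (hf : ∀ w, w ∉ Sel → f w = w) (w : Sel) :
    (((resPerm Sel f hf)⁻¹ w : Sel) : Ω) = f⁻¹ w := by
  have h1 : f (((resPerm Sel f hf)⁻¹ w : Sel) : Ω) = w := by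
    rw [← resPerm_apply Sel f hf, ap_inv]
  rw [← h1, inv_ap]

theorem numGood_res [Finite Ω] (hf : ∀ w, w ∉ Sel → f w = w) (r : Ω → Γ) (g : Perm Sel)
    (hg : ∀ w : Sel, ((g w : Sel) : Ω) = f w) :
    numGood f r ≤ numGood g (fun w => r w) + Nat.card {w // w ∉ Sel} := by
  classical
  have hpow : ∀ (n : ℕ) (w : Sel), (((g ^ n) w : Sel) : Ω) = (f ^ n) w := by
    intro n
    induction n with
    | zero => intro w; rfl
    | succ n ih =>
      intro w
      rw [pow_succ', Perm.mul_apply, hg, ih, ← Perm.mul_apply, ← pow_succ']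
  have hsame : ∀ a b : Sel, SameCycle g a b → SameCycle f a b := by
    intro a b h
    obtain ⟨n, -, hn⟩ := h.exists_pow_eq'
    refine ⟨n, ?_⟩
    rw [zpow_natCast, ← hpow, hn]
  let φ : {q : Quotient (cs f) // GoodAt f r q.out} →
      {q : Quotient (cs g) // GoodAt g (fun w : Sel => r w) q.out} ⊕ {w // w ∉ Sel} := fun q =>
    if h : q.1.out ∈ Sel then
      Sum.inl ⟨Quotient.mk (cs g) ⟨q.1.out, h⟩, by
        obtain ⟨F, hF⟩ := q.2
        refine ⟨fun w => F w, fun w hw => ?_⟩
        have h1 : SameCycle g ⟨q.1.out, h⟩ w := (same_out g _).symm.trans hw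
        have h2 := hF w (hsame _ _ h1)
        simp only
        rw [hg]
        exact h2⟩
    else Sum.inr ⟨q.1.out, h⟩
  have hφ : Function.Injective φ := by
    rintro ⟨q1, h1⟩ ⟨q2, h2⟩ hh
    by_cases c1 : q1.out ∈ Sel <;> by_cases c2 : q2.out ∈ Sel
    · simp only [φ, dif_pos c1, dif_pos c2] at hh
      have h3 := congrArg Subtype.val (Sum.inl.inj hh)
      have h4 : SameCycle g ⟨q1.out, c1⟩ ⟨q2.out, c2⟩ := Quotient.exact h3
      have h5 := hsame _ _ h4
      have h6 : q1 = q2 := by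
        rw [(out_same_iff f q1 q2.out).1 h5]
        exact Quotient.out_eq q2
      exact Subtype.ext h6
    · simp only [φ, dif_pos c1, dif_neg c2] at hh
      exact absurd hh (by simp)
    · simp only [φ, dif_neg c1, dif_pos c2] at hh
      exact absurd hh (by simp)
    · simp only [φ, dif_neg c1, dif_neg c2] at hh
      have h3 := congrArg Subtype.val (Sum.inr.inj hh)
      have h6 : q1 = q2 := by
        rw [← Quotient.out_eq q1, ← Quotient.out_eq q2]
        simp only at h3
        rw [h3]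
      exact Subtype.ext h6
  have := Nat.card_le_card_of_injective φ hφ
  rwa [Nat.card_sum] at this

theorem cyc_res [Finite Ω] (hf : ∀ w, w ∉ Sel → f w = w) (g : Perm Sel)
    (hg : ∀ w : Sel, ((g w : Sel) : Ω) = f w) :
    cyc f ≤ cyc g + Nat.card {w // w ∉ Sel} := by
  have h1 := numGood_res (Γ := Multiplicative ℤ) Sel f hf (fun _ => 1) g hg
  rw [numGood_one f _ (fun _ => rfl), numGood_one g _ (fun _ => rfl)] at h1
  exact h1

end restrict

end Pool.Agent.ABA.H17
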