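import Pool.Agent.Helper17_ABA.CGa

/-!
Lemma CG (coarse graining): the deletion process.
-/

open Equiv Equiv.Perm H17ABA

namespace Pool.Agent.ABA.H17

open Pool.Agent.ABA

/-- A rank function along which every point is connected to Sel. -/
theorem exists_rank {Ω : Type} (s l : Perm Ω) (Sel Live : Set Ω)
    (hlive : ∀ w, w ∉ Live → s w = w ∧ l w = w)
    (hcon : ∀ w ∈ Live, ∃ z ∈ Sel, (orb2 s l) w z) :
    ∃ ρ : Ω → ℕ, ∀ w ∈ Live, w ∉ Sel → ∃ w' ∈ Live, ρ w' < ρ w ∧
      (SameCycle s w w' ∨ SameCycle l w w') := by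
  classical
  let A : ℕ → Set Ω := fun n => Nat.rec Sel
    (fun _ B => B ∪ {w | ∃ w' ∈ B, SameCycle s w w' ∨ SameCycle l w w'}) n
  have hA : ∀ n, A (n + 1) = A n ∪ {w | ∃ w' ∈ A n, SameCycle s w w' ∨ SameCycle l w w'} :=
    fun n => rfl
  let q : Setoid Ω :=
    { r := fun a b => (∃ n, a ∈ A n) ↔ (∃ n, b ∈ A n)
      iseqv := ⟨fun _ => Iff.rfl, fun h => h.symm, fun h h' => h.trans h'⟩ }
  have hq : orb2 s l ≤ q := by
    have aux : ∀ t : Perm Ω, (∀ a b, SameCycle t a b → SameCycle s a b ∨ SameCycle l a b) →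
        cs t ≤ q := by
      intro t ht a b hab
      constructor
      · rintro ⟨n, hn⟩
        exact ⟨n + 1, Or.inr ⟨a, hn, ht b a hab.symm⟩⟩
      · rintro ⟨n, hn⟩
        exact ⟨n + 1, Or.inr ⟨b, hn, ht a b hab⟩⟩
    exact sup_le (aux s (fun a b h => Or.inl h)) (aux l (fun a b h => Or.inr h))
  have hin : ∀ w ∈ Live, ∃ n, w ∈ A n := by
    intro w hw
    obtain ⟨z, hz, hwz⟩ := hcon w hw
    exact (hq hwz).2 ⟨0, hz⟩
  refine ⟨fun w => sInf {n | w ∈ A n}, fun w hw hws => ?_⟩
  have h := hin w hw
  have hmem : w ∈ A (sInf {n | w ∈ A n}) := Nat.sInf_mem (s := {n | w ∈ A n}) h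
  rcases hn : sInf {n | w ∈ A n} with _ | n
  · rw [hn] at hmem
    exact absurd hmem hws
  · rw [hn, hA] at hmem
    have hnot : w ∉ A n := fun hh => by
      have := Nat.sInf_le (s := {n | w ∈ A n}) hh
      omega
    rcases hmem with hmem | ⟨w', hw', hc⟩
    · exact absurd hmem hnot
    · have hne : w ≠ w' := by
        rintro rfl
        exact hnot hw'
      have hw'l : w' ∈ Live := by
        by_contra hcon
        obtain ⟨h1, h2⟩ := hlive w' hcon
        rcases hc with hc | hc
        · exact hne (hc.eq_of_right h1)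
        · exact hne (hc.eq_of_right h2)
      refine ⟨w', hw'l, ?_, hc⟩
      have := Nat.sInf_le (s := {n | w' ∈ A n}) hw'
      simp only
      omega

/-- The deletion process. -/
theorem cg_core {Ω L Γ : Type} [AddCommGroup L] [Group Γ] [Fintype Ω] [DecidableEq Ω]
    (α : Bool → Multiplicative L →* Γ) (lab : Ω → Bool × L) (Sel : Set Ω) (s0 l0 : Perm Ω)
    (ρ : Ω → ℕ) (n : ℕ) :
    ∀ (Del : Set Ω) (S : State Ω L Γ), (∀ w ∈ Del, w ∉ Sel) →
      Nat.card {w // w ∉ Del ∧ w ∉ Sel} = n →
      S.Inv (pw α) (fun w => (lab w).1) (fun w => (lab w).2) Sel →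
      (∀ w ∈ Del, S.s w = w ∧ S.l w = w) →
      Tr (ev α) lab s0 S.s Del S.k →
      Tr (fun w : Wd L => Multiplicative.ofAdd (w.map Prod.snd).sum) lab l0 S.l Del
        (fun w => Multiplicative.ofAdd (S.p w)) →
      (∀ w, w ∉ Del → w ∉ Sel → ∃ w', w' ∉ Del ∧ ρ w' < ρ w ∧
        (SameCycle S.s w w' ∨ SameCycle S.l w w')) →
      ∃ S' : State Ω L Γ, S'.Inv (pw α) (fun w => (lab w).1) (fun w => (lab w).2) Sel ∧
        (∀ w, w ∉ Sel → S'.s w = w ∧ S'.l w = w) ∧
        Tr (ev α) lab s0 S'.s Selᶜ S'.k ∧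
        Tr (fun w : Wd L => Multiplicative.ofAdd (w.map Prod.snd).sum) lab l0 S'.l Selᶜ
          (fun w => Multiplicative.ofAdd (S'.p w)) ∧
        S.D (pw α) (fun w => (lab w).1) + 2 * n ≤ S'.D (pw α) (fun w => (lab w).1) := by
  classical
  have pw_add : ∀ (t : Bool) (x y : L), pw α t (x + y) = pw α t x * pw α t y := by
    intro t x y
    rw [pw, pw, pw, ofAdd_add, map_mul]
  induction n with
  | zero =>
    intro Del S hD hcard hInv hdead hTr hTl hrank
    have hDel : Del = Selᶜ := by
      ext w
      constructor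
      · intro hw
        exact hD w hw
      · intro hw
        by_contra hcon
        have : IsEmpty {w // w ∉ Del ∧ w ∉ Sel} := by
          rcases (Nat.card_eq_zero.1 hcard) with h | h
          · exact h
          · exact absurd h (by simpa using (inferInstance : Finite {w // w ∉ Del ∧ w ∉ Sel}))
        exact this.false ⟨w, hcon, hw⟩
    subst hDel
    exact ⟨S, hInv, fun w hw => hdead w hw, hTr, hTl, by omega⟩
  | succ n ih =>
    intro Del S hD hcard hInv hdead hTr hTl hrank
    -- choose a point of maximal rank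
    have hne : (Finset.univ.filter (fun w => w ∉ Del ∧ w ∉ Sel)).Nonempty := by
      by_contra hcon
      rw [Finset.not_nonempty_iff_eq_empty] at hcon
      have : Nat.card {w // w ∉ Del ∧ w ∉ Sel} = 0 := by
        rw [Nat.card_eq_fintype_card, Fintype.card_subtype, hcon, Finset.card_empty]
      omega
    obtain ⟨w1, hw1, hmax⟩ := Finset.exists_max_image _ ρ hne
    rw [Finset.mem_filter] at hw1
    obtain ⟨-, hw1D, hw1S⟩ := hw1
    have hmax' : ∀ w, w ∉ Del → w ∉ Sel → ρ w ≤ ρ w1 := fun w h1 h2 =>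
      hmax w (Finset.mem_filter.2 ⟨Finset.mem_univ _, h1, h2⟩)
    have hniso : ¬ (S.s w1 = w1 ∧ S.l w1 = w1) := by
      rintro ⟨h1, h2⟩
      obtain ⟨w', -, hlt, hc⟩ := hrank w1 hw1D hw1S
      have : w1 = w' := by
        rcases hc with hc | hc
        · exact hc.eq_of_left h1
        · exact hc.eq_of_left h2
      rw [← this] at hlt
      exact lt_irrefl _ hlt
    have hstep := hInv.del_D pw_add hw1S hniso
    obtain ⟨S', h1, h2, h3, h4, h5⟩ := ih (insert w1 Del)
      (S.del (pw α) (fun w => (lab w).1) (fun w => (lab w).2) w1)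
      (by
        intro w hw
        rcases Set.mem_insert_iff.1 hw with rfl | hw
        · exact hw1S
        · exact hD w hw)
      (by
        have h1 : {w | w ∉ insert w1 Del ∧ w ∉ Sel} = {w | w ∉ Del ∧ w ∉ Sel} \ {w1} := by
          ext w
          simp only [Set.mem_insert_iff, not_or, Set.mem_ofPred_eq, Set.mem_sdiff,
            Set.mem_singleton_iff]
          tauto
        have h2 : Nat.card {w // w ∉ insert w1 Del ∧ w ∉ Sel} =
            ({w | w ∉ insert w1 Del ∧ w ∉ Sel} : Set Ω).ncard := rfl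
        have h3 : Nat.card {w // w ∉ Del ∧ w ∉ Sel} = ({w | w ∉ Del ∧ w ∉ Sel} : Set Ω).ncard := rfl
        rw [h2, h1, Set.ncard_sdiff_singleton_of_mem (by exact ⟨hw1D, hw1S⟩)]
        rw [h3] at hcard
        omega)
      (hInv.del hw1S)
      (by
        intro w hw0
        rcases Set.mem_insert_iff.1 hw0 with hw | hw
        · rw [hw]
          exact ⟨bypass_w _ _, bypass_w _ _⟩
        · have hne : w ≠ w1 := by
            intro hh
            rw [hh] at hw
            exact hw1D hw
          obtain ⟨h1, h2⟩ := hdead w hw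
          refine ⟨?_, ?_⟩
          · show (S.s * swap (S.s⁻¹ w1) w1) w = w
            rw [bypass_other S.s (by rw [h1]; exact hne) hne, h1]
          · show (S.l * swap (S.l⁻¹ w1) w1) w = w
            rw [bypass_other S.l (by rw [h2]; exact hne) hne, h2])
      (by
        refine tr_step (ev α) ?_ lab s0 S.s Del S.k _ w1 hw1D hTr ?_
        · intro u v
          rw [ev, ev, ev, List.map_append, List.prod_append]
        · intro o ho
          show (if o = w1 then (pw α (lab w1).1 (lab w1).2)⁻¹ else
            if S.s o = w1 then S.k o * pw α (lab w1).1 (lab w1).2 * S.k w1 else S.k o) = _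
          rw [if_neg ho]
          simp [ev, pw])
      (by
        refine tr_step _ ?_ lab l0 S.l Del _ _ w1 hw1D hTl ?_
        · intro u v
          rw [List.map_append, List.sum_append, ofAdd_add]
        · intro o ho
          show Multiplicative.ofAdd (if o = w1 then -(lab w1).2 else
            if S.l o = w1 then S.p o + (lab w1).2 + S.p w1 else S.p o) = _
          rw [if_neg ho]
          by_cases h : S.l o = w1
          · rw [if_pos h, if_pos h, ofAdd_add, ofAdd_add]
            simp
          · rw [if_neg h, if_neg h])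
      (by
        intro w hwD hwS
        rw [Set.mem_insert_iff, not_or] at hwD
        obtain ⟨w', hw'D, hlt, hc⟩ := hrank w hwD.2 hwS
        have hne : w' ≠ w1 := by
          rintro rfl
          exact absurd hlt (not_lt.2 (hmax' w hwD.2 hwS))
        refine ⟨w', ?_, hlt, ?_⟩
        · rw [Set.mem_insert_iff, not_or]
          exact ⟨hne, hw'D⟩
        · rcases hc with hc | hc
          · exact Or.inl (same_bypass S.s hwD.1 hne hc)
          · exact Or.inr (same_bypass S.l hwD.1 hne hc))
    exact ⟨S', h1, h2, h3, h4, by omega⟩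

theorem ev_app {L Γ : Type} [AddCommGroup L] [Group Γ] (α : Bool → Multiplicative L →* Γ)
    (u v : Wd L) : ev α (u ++ v) = ev α u * ev α v := by
  rw [ev, ev, ev, List.map_append, List.prod_append]

theorem ev_sing {L Γ : Type} [AddCommGroup L] [Group Γ] (α : Bool → Multiplicative L →* Γ)
    (x : Bool × L) : ev α [x] = pw α x.1 x.2 := by
  simp [ev, pw]

/-- potential from a closed face -/
theorem face_potential {Ω L Γ : Type} [AddCommGroup L] [Group Γ] [DecidableEq Ω]
    (α : Bool → Multiplicative L →* Γ) (lab : Ω → Bool × L) (fs : List (List Ω))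
    (hn : fs.flatten.Nodup) (Sel : Set Ω)
    (hdead : ∀ w, w ∉ fs.flatten → (lab w).2 = 0)
    (hface : ∀ d ∈ fs, (∀ w ∈ d, w ∉ Sel) → ev α (d.map lab) = 1) :
    ∃ φ : Ω → Γ, ∀ o, (∀ z ∈ Sel, ¬ SameCycle (facePerm fs) o z) →
      φ (facePerm fs o) = φ o * pw α (lab o).1 (lab o).2 := by
  classical
  have hex : ∀ o, o ∈ fs.flatten → ∃ d ∈ fs, o ∈ d := fun o ho => List.mem_flatten.1 ho
  let fc : Ω → List Ω := fun o => if h : o ∈ fs.flatten then (hex o h).choose else []
  have hfc : ∀ o d, d ∈ fs → o ∈ d → fc o = d := by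
    intro o d hd ho
    have h : o ∈ fs.flatten := List.mem_flatten.2 ⟨d, hd, ho⟩
    have h1 := (hex o h).choose_spec
    have h2 : fc o = (hex o h).choose := dif_pos h
    rw [h2]
    by_contra hne
    have h3 := (List.nodup_flatten.1 hn).2
    have : Std.Symm (List.Disjoint (α := Ω)) := ⟨fun a b h => h.symm⟩
    have h4 := List.Pairwise.forall h3 h1.1 hd hne
    exact h4 h1.2 ho
  refine ⟨fun o => ev α (((fc o).take ((fc o).idxOf o)).map lab), fun o ho => ?_⟩
  simp only
  by_cases hof : o ∈ fs.flatten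
  · obtain ⟨d, hd, hod⟩ := hex o hof
    obtain ⟨i, hi, rfl⟩ := List.mem_iff_getElem.1 hod
    have hdn : d.Nodup := (List.nodup_flatten.1 hn).1 d hd
    have h1 : facePerm fs d[i] = d[(i + 1) % d.length]'(Nat.mod_lt _ (by omega)) := by
      have := face_pow hn hd 1 i hi
      rwa [pow_one] at this
    have h2 : fc (d[i]) = d := hfc _ d hd (List.getElem_mem _)
    have h3 : fc (d[(i + 1) % d.length]'(Nat.mod_lt _ (by omega))) = d :=
      hfc _ d hd (List.getElem_mem _)
    rw [h1, h2, h3, hdn.idxOf_getElem, hdn.idxOf_getElem]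
    by_cases hlast : i + 1 = d.length
    · rw [hlast, Nat.mod_self, List.take_zero]
      have h4 : ev α (d.map lab) = 1 := by
        refine hface d hd (fun w hw hwS => ?_)
        exact ho w hwS (sameCycle_face hn hd hod hw)
      have h5 : d.take i ++ [d[i]] = d := by
        rw [List.take_append_getElem hi, hlast, List.take_length]
      have h6 : ev α (d.map lab) = ev α ((d.take i).map lab) * pw α (lab d[i]).1 (lab d[i]).2 := by
        conv_lhs => rw [← h5]
        rw [List.map_append, ev_app, List.map_singleton, ev_sing]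
      rw [← h6, h4]
      simp [ev]
    · have h7 : (i + 1) % d.length = i + 1 := Nat.mod_eq_of_lt (by omega)
      rw [h7, ← List.take_append_getElem hi, List.map_append, ev_app, List.map_singleton, ev_sing]
  · rw [facePerm_apply_not_mem hof, hdead o hof]
    simp [pw]

end Pool.Agent.ABA.H17
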