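import Pool.Agent.Helper17_ABA.CGb

/-!
Lemma CG (coarse graining): the final statement.
-/

open Equiv Equiv.Perm H17ABA

namespace Pool.Agent.ABA.H17

open Pool.Agent.ABA

/-- If all cycle sums vanish there is a potential. -/
theorem exists_potential {Ω L : Type} [Fintype Ω] [AddCommGroup L] (π : Perm Ω) (f : Ω → L)
    (h : ∀ w, cycSum π f w = 0) : ∃ κ : Ω → L, ∀ w, κ (π w) = κ w + f w := by
  classical
  let rp : Ω → Ω := fun w => (Quotient.mk (cs π) w).out
  have hrp : ∀ w, SameCycle π (rp w) w := fun w => same_out π w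
  have hrp2 : ∀ w, rp (π w) = rp w := by
    intro w
    show (Quotient.mk (cs π) (π w)).out = (Quotient.mk (cs π) w).out
    congr 1
    exact (Quotient.sound (cs_apply π w)).symm
  have hex : ∀ w, ∃ n : ℕ, (π ^ n) (rp w) = w := by
    intro w
    obtain ⟨n, -, hn⟩ := (hrp w).exists_pow_eq'
    exact ⟨n, hn⟩
  let N : Ω → ℕ := fun w => sInf {n | (π ^ n) (rp w) = w}
  have hN : ∀ w, (π ^ (N w)) (rp w) = w := fun w =>
    Nat.sInf_mem (s := {n | (π ^ n) (rp w) = w}) (hex w)
  have hNmin : ∀ w n, (π ^ n) (rp w) = w → N w ≤ n := fun w n hn =>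
    Nat.sInf_le (s := {n | (π ^ n) (rp w) = w}) hn
  refine ⟨fun w => ∑ i ∈ Finset.range (N w), f ((π ^ i) (rp w)), fun w => ?_⟩
  have h1 : (π ^ (N w + 1)) (rp w) = π w := by
    rw [pow_succ', Perm.mul_apply, hN]
  have h2 : N (π w) ≤ N w + 1 := hNmin _ _ (by rw [hrp2]; exact h1)
  have hfull : ∑ i ∈ Finset.range (N w + 1), f ((π ^ i) (rp w)) =
      (∑ i ∈ Finset.range (N w), f ((π ^ i) (rp w))) + f w := by
    rw [Finset.sum_range_succ, hN]
  simp only
  rw [hrp2, ← hfull]
  by_cases hlt : N (π w) = N w + 1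
  · rw [hlt]
  · -- then π w is the representative
    have h3 : N (π w) = 0 := by
      rcases Nat.eq_zero_or_pos (N (π w)) with h0 | h0
      · exact h0
      · exfalso
        obtain ⟨m, hm⟩ : ∃ m, N (π w) = m + 1 := ⟨N (π w) - 1, by omega⟩
        have h4 := hN (π w)
        rw [hrp2, hm, pow_succ', Perm.mul_apply] at h4
        have h5 := hNmin w m (π.injective h4)
        omega
    have h4 : rp w = π w := by
      have := hN (π w)
      rw [hrp2, h3, pow_zero] at this
      exact this
    rw [h3, Finset.range_zero, Finset.sum_empty]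
    have h5 := h (rp w)
    rw [cycSum] at h5
    rw [← h5]
    refine (Finset.sum_bij (fun (i : ℕ) (_ : i ∈ Finset.range (N w + 1)) => (π ^ i) (rp w))
      ?_ ?_ ?_ ?_).symm
    · intro i _
      simp only [Finset.mem_filter, Finset.mem_univ, true_and]
      exact ⟨i, by rw [zpow_natCast]⟩
    · have key : ∀ i j : ℕ, i < j → j < N w + 1 → (π ^ i) (rp w) = (π ^ j) (rp w) → False := by
        intro i j hij hj hh
        have h6 : (π ^ (N w - (j - i))) (rp w) = w := by
          have e1 : N w - (j - i) = (N w - j) + i := by omega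
          have e2 : N w = (N w - j) + j := by omega
          rw [e1, pow_add, Perm.mul_apply, hh, ← Perm.mul_apply, ← pow_add, ← e2, hN]
        have := hNmin w _ h6
        omega
      intro i hi j hj hh
      rw [Finset.mem_range] at hi hj
      rcases lt_trichotomy i j with hlt | heq | hgt
      · exact absurd hh (fun hh => key i j hlt hj hh)
      · exact heq
      · exact absurd hh (fun hh => key j i hgt hi hh.symm)
    · intro b hb
      simp only [Finset.mem_filter, Finset.mem_univ, true_and] at hb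
      obtain ⟨n, -, hn⟩ := hb.exists_pow_eq'
      have hper : (π ^ (N w + 1)) (rp w) = rp w := by rw [h1, h4]
      refine ⟨n % (N w + 1), Finset.mem_range.2 (Nat.mod_lt _ (by omega)), ?_⟩
      rw [← hn]
      have hmul : ∀ q : ℕ, (π ^ ((N w + 1) * q)) (rp w) = rp w := by
        intro q
        induction q with
        | zero => simp
        | succ q ih =>
          rw [Nat.mul_succ, pow_add, Perm.mul_apply, hper, ih]
      conv_rhs => rw [← Nat.mod_add_div n (N w + 1), pow_add, Perm.mul_apply, hmul]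
    · intro i _
      rfl

theorem orb2_dead {Ω : Type} (s l : Perm Ω) {w z : Ω} (hs : s w = w) (hl : l w = w)
    (h : (orb2 s l) w z) : z = w := by
  let q : Setoid Ω :=
    { r := fun a b => a = b ∨ (a ≠ w ∧ b ≠ w)
      iseqv := by
        refine ⟨fun _ => Or.inl rfl, ?_, ?_⟩
        · rintro a b (h | h)
          · exact Or.inl h.symm
          · exact Or.inr ⟨h.2, h.1⟩
        · rintro a b c (h | h) (h' | h')
          · exact Or.inl (h.trans h')
          · rw [h]
            exact Or.inr h'
          · rw [← h']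
            exact Or.inr h
          · exact Or.inr ⟨h.1, h'.2⟩ }
  have aux : ∀ t : Perm Ω, t w = w → cs t ≤ q := by
    intro t ht
    rw [cs_le_iff]
    intro a
    by_cases ha : a = w
    · left
      rw [ha, ht]
    · right
      refine ⟨ha, fun hh => ha (t.injective (hh.trans ht.symm))⟩
  have hle : orb2 s l ≤ q := sup_le (aux s hs) (aux l hl)
  rcases hle h with h1 | h1
  · exact h1.symm
  · exact absurd rfl h1.1

theorem cg_all : CGStmt := by
  intro L Γ Ω _ _ _ _ α fs D Sel hne hsel hcon hface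
  classical
  have pw_add : ∀ (t : Bool) (x y : L), pw α t (x + y) = pw α t x * pw α t y := by
    intro t x y
    rw [pw, pw, pw, ofAdd_add, map_mul]
  have pw_zero : ∀ t : Bool, pw α t (0 : L) = 1 := by
    intro t
    rw [pw, ofAdd_zero, map_one]
  have hdeadv : ∀ w, w ∉ fs.flatten → (D.lab w).2 = 0 := by
    intro w hw
    have h1 := D.sum_l w
    have h2 := D.dead w hw
    rw [cycSum] at h1
    rw [← h1]
    symm
    refine Finset.sum_eq_single w ?_ ?_
    · intro b hb hbw
      simp only [Finset.mem_filter, Finset.mem_univ, true_and] at hb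
      exact absurd (hb.eq_of_left h2).symm hbw
    · intro hc
      exfalso
      apply hc
      simp only [Finset.mem_filter, Finset.mem_univ, true_and]
      exact SameCycle.refl _ _
  have hfd : ∀ w, w ∉ fs.flatten → facePerm fs w = w := fun w hw => facePerm_apply_not_mem hw
  -- the initial state
  let S0 : State Ω L Γ := { s := facePerm fs, l := D.l, p := fun _ => 0, k := fun _ => 1 }
  have hInv : S0.Inv (pw α) (fun w => (D.lab w).1) (fun w => (D.lab w).2) Sel := by
    refine ⟨D.ty_l, ?_, ?_⟩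
    · obtain ⟨κ, hκ⟩ := exists_potential D.l (fun v => (D.lab v).2) D.sum_l
      exact ⟨κ, fun o => by
        show κ (D.l o) = κ o + (D.lab o).2 + 0
        rw [hκ, add_zero]⟩
    · obtain ⟨φ, hφ⟩ := face_potential α D.lab fs D.nodup Sel hdeadv hface
      exact ⟨φ, fun o ho => by
        show φ (facePerm fs o) = φ o * pw α (D.lab o).1 (D.lab o).2 * 1
        rw [hφ o ho, mul_one]⟩
  -- the rank
  have hcon' : ∀ w ∈ {w | w ∈ fs.flatten}, ∃ z ∈ Sel, (orb2 (facePerm fs) D.l) w z := by
    intro w hw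
    obtain ⟨z, hz, h⟩ := hcon w hw
    refine ⟨z, hz, ?_⟩
    rw [orb2, cs_inv] at h
    exact h
  obtain ⟨ρ, hρ⟩ := exists_rank (facePerm fs) D.l Sel {w | w ∈ fs.flatten}
    (fun w hw => ⟨hfd w hw, D.dead w hw⟩) hcon'
  have hinvflat : ∀ w, w ∈ fs.flatten → facePerm fs w ∈ fs.flatten := by
    intro w hw
    by_contra hc
    have := (facePerm fs).injective (hfd _ hc)
    rw [this] at hc
    exact hc hw
  have hinvflatl : ∀ w, w ∈ fs.flatten → D.l w ∈ fs.flatten := by
    intro w hw
    by_contra hc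
    have := D.l.injective (D.dead _ hc)
    rw [this] at hc
    exact hc hw
  obtain ⟨S', hI, hfix, hTr, hTl, hD⟩ := cg_core α D.lab Sel (facePerm fs) D.l ρ
    (Nat.card {w // w ∉ {w | w ∉ fs.flatten} ∧ w ∉ Sel}) {w | w ∉ fs.flatten} S0
    (fun w hw hs => hw (hsel w hs)) rfl hInv (fun w hw => ⟨hfd w hw, D.dead w hw⟩)
    (tr_init _ rfl _ _ _ (by
      intro w hw
      rw [Set.mem_ofPred_eq, not_not] at hw ⊢
      exact hinvflat w hw))
    (tr_init _ rfl _ _ _ (by
      intro w hw
      rw [Set.mem_ofPred_eq, not_not] at hw ⊢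
      exact hinvflatl w hw))
    (by
      intro w hw hws
      rw [Set.mem_ofPred_eq, not_not] at hw
      obtain ⟨w', hw', h1, h2⟩ := hρ w hw hws
      exact ⟨w', fun hh => hh hw', h1, h2⟩)
  have hfs : ∀ w, w ∉ Sel → S'.s w = w := fun w hw => (hfix w hw).1
  have hfl : ∀ w, w ∉ Sel → S'.l w = w := fun w hw => (hfix w hw).2
  let σS : Perm Sel := resPerm Sel S'.s hfs
  let lS : Perm Sel := resPerm Sel S'.l hfl
  refine ⟨σS, lS, fun w => S'.p w, fun w => S'.k w, ?_, ?_, ?_⟩
  · intro w
    obtain ⟨n, h1, h2, h3, h4, h5⟩ := hTr w (fun hh => hh w.2)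
    rw [Set.mem_compl_iff, not_not] at h3
    refine ⟨n, ⟨h1, by rw [h2]; exact h3, fun j hj1 hj2 => h4 j hj1 hj2⟩, ?_, h5⟩
    rw [h2]
    rfl
  · intro w
    obtain ⟨n, h1, h2, h3, h4, h5⟩ := hTl w (fun hh => hh w.2)
    rw [Set.mem_compl_iff, not_not] at h3
    refine ⟨n, ⟨h1, by rw [h2]; exact h3, fun j hj1 hj2 => h4 j hj1 hj2⟩, ?_, ?_⟩
    · rw [h2]
      rfl
    · exact Multiplicative.ofAdd.injective h5
  · -- the count
    have c1 := cyc_res Sel S'.s hfs σS (fun _ => rfl)
    have c2 := cyc_res Sel S'.l hfl lS (fun _ => rfl)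
    have hff : ∀ w, w ∉ Sel → S'.f w = w := by
      intro w hw
      show S'.s (S'.l⁻¹ w) = w
      have : S'.l⁻¹ w = w := by
        have := inv_ap S'.l w
        rwa [hfl w hw] at this
      rw [this, hfs w hw]
    have hinvl : ∀ w : Sel, ((lS⁻¹ w : Sel) : Ω) = S'.l⁻¹ w := resPerm_inv_apply Sel S'.l hfl
    have c3 := numGood_res Sel S'.f hff (S'.r (pw α) (fun w => (D.lab w).1)) (σS * lS⁻¹) (by
      intro w
      rw [Perm.mul_apply]
      show S'.s ((lS⁻¹ w : Sel) : Ω) = S'.s (S'.l⁻¹ w)
      rw [hinvl])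
    have hgood : good (σS * lS⁻¹) (rstep α (fun w : Sel => (D.lab w).1) lS (fun w => S'.p w)
        (fun w => S'.k w)) =
        numGood (σS * lS⁻¹) (fun w : Sel => S'.r (pw α) (fun w => (D.lab w).1) w) := by
      rw [good_eq]
      congr 1
      funext η
      show pw α (D.lab η).1 (-(S'.p ((lS⁻¹ η : Sel) : Ω))) * S'.k ((lS⁻¹ η : Sel) : Ω) =
        pw α (D.lab (S'.l⁻¹ η)).1 (-S'.p (S'.l⁻¹ η)) * S'.k (S'.l⁻¹ η)
      have h1 : (D.lab (S'.l⁻¹ (η : Ω))).1 = (D.lab (η : Ω)).1 := by
        have := hI.ty_l (S'.l⁻¹ η)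
        rw [ap_inv] at this
        exact this.symm
      rw [hinvl, h1]
    rw [hgood]
    have hD0 : S0.D (pw α) (fun w => (D.lab w).1) =
        cyc (facePerm fs) + cyc D.l + cyc (facePerm fs * D.l⁻¹) := by
      rw [State.D]
      congr 1
      refine numGood_one _ _ (fun o => ?_)
      show pw α _ (-0) * 1 = 1
      rw [neg_zero, pw_zero, mul_one]
    have hpl : cyc (facePerm fs) + cyc D.l⁻¹ + cyc (facePerm fs * D.l⁻¹) =
      Nat.card Ω + 2 * nc (orb2 (facePerm fs) D.l⁻¹) := D.planar
    rw [cyc_inv] at hpl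
    -- components
    have horb : Nat.card {w // w ∉ fs.flatten} + 1 ≤ nc (orb2 (facePerm fs) D.l⁻¹) := by
      obtain ⟨z, hz⟩ := hne
      have hzf := hsel z hz
      have hl' : ∀ w, w ∉ fs.flatten → D.l⁻¹ w = w := by
        intro w hw
        have := inv_ap D.l w
        rwa [D.dead w hw] at this
      let φ : Option {w // w ∉ fs.flatten} → Quotient (orb2 (facePerm fs) D.l⁻¹) := fun o =>
        match o with
        | none => Quotient.mk _ z
        | some w => Quotient.mk _ w.1
      have hφ : Function.Injective φ := by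
        rintro (_ | ⟨w1, h1⟩) (_ | ⟨w2, h2⟩) hh
        · rfl
        · exfalso
          have h3 : (orb2 (facePerm fs) D.l⁻¹) z w2 := Quotient.exact hh
          have h4 := orb2_dead _ _ (hfd w2 h2) (hl' w2 h2) ((orb2 (facePerm fs) D.l⁻¹).symm' h3)
          rw [← h4] at h2
          exact h2 hzf
        · exfalso
          have h3 : (orb2 (facePerm fs) D.l⁻¹) w1 z := Quotient.exact hh
          have h4 := orb2_dead _ _ (hfd w1 h1) (hl' w1 h1) h3
          rw [← h4] at h1
          exact h1 hzf
        · have h3 : (orb2 (facePerm fs) D.l⁻¹) w1 w2 := Quotient.exact hh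
          have h4 := orb2_dead _ _ (hfd w1 h1) (hl' w1 h1) h3
          subst h4
          rfl
      have := Nat.card_le_card_of_injective φ hφ
      rw [Finite.card_option] at this
      exact this
    have hcard1 : Nat.card {w // w ∉ Sel} = Nat.card {w // w ∉ fs.flatten} +
        Nat.card {w // w ∉ {w | w ∉ fs.flatten} ∧ w ∉ Sel} := by
      have e1 : Nat.card {w // w ∉ Sel} = ({w | w ∉ Sel} : Set Ω).ncard := rfl
      have e2 : Nat.card {w // w ∉ fs.flatten} = ({w | w ∉ fs.flatten} : Set Ω).ncard := rfl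
      have e3 : Nat.card {w // w ∉ {w | w ∉ fs.flatten} ∧ w ∉ Sel} =
        ({w | w ∉ {w | w ∉ fs.flatten} ∧ w ∉ Sel} : Set Ω).ncard := rfl
      rw [e1, e2, e3, ← Set.ncard_union_eq]
      · congr 1
        ext w
        simp only [Set.mem_ofPred_eq, Set.mem_union, not_not]
        constructor
        · intro hw
          by_cases h : w ∈ fs.flatten
          · exact Or.inr ⟨h, hw⟩
          · exact Or.inl h
        · rintro (h | h)
          · exact fun hh => h (hsel w hh)
          · exact h.2
      · rw [Set.disjoint_left]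
        intro w h1 h2
        exact h2.1 h1
    have hcard2 : Nat.card Ω = Nat.card Sel + Nat.card {w // w ∉ Sel} := by
      have := Nat.card_congr (Equiv.sumCompl (fun w => w ∈ Sel))
      rw [Nat.card_sum] at this
      exact this.symm
    have hD' : S'.D (pw α) (fun w => (D.lab w).1) = cyc S'.s + cyc S'.l +
      numGood S'.f (S'.r (pw α) (fun w => (D.lab w).1)) := rfl
    rw [hD0, hD'] at hD
    omega

end Pool.Agent.ABA.H17
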