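import Pool.Agent.Helper17_ABA.Fix

/-!
Polygons with flat sides: curvature count.
-/

set_option autoImplicit false

namespace Pool.Agent.ABA.B.H17

open Pool.Agent.ABA.B Pool.Agent.ABA.B.TG

variable {V E : Type} {S : TG V E} {θ : E → E → ℝ}

/-- a curvature weight -/
structure Cv (S : TG V E) (θ : E → E → ℝ) : Prop where
  wt : S.Wt θ
  inner : ∀ v, CRW S v → 6 ≤ cw θ v
  low : ∀ a b, 0.9 ≤ θ a b

/-- flats (as sets of letters) -/
structure Flat (S : TG V E) (θ : E → E → ℝ) (F : E → Prop) : Prop where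
  inv : ∀ e, F e → F (S.inv e)
  tri : ∀ {e f1 f2}, S.Tri e f1 f2 → F e → F f1 → F f2
  ang : ∀ (e x : E) (r l : List E) (y f : E), e :: x :: r = l ++ [y, f] →
    (e :: x :: r).IsChain S.Cor → Red (e :: x :: r) → F e → F f → ¬ F x → ¬ F y → e ≠ f →
    3.1 ≤ ow θ (e :: x :: r)

theorem ow_nn (h : ∀ a b, (0.9 : ℝ) ≤ θ a b) : ∀ v : List E, 0 ≤ ow θ v := by
  intro v
  induction v with
  | nil => simp [ow]
  | cons a v ih =>
    cases v with
    | nil => simp [ow]
    | cons b v =>
      have h1 := h a b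
      rw [ow]
      linarith

theorem ow_low (h : ∀ a b, (0.9 : ℝ) ≤ θ a b) : ∀ v : List E, 2 ≤ v.length → 0.9 ≤ ow θ v := by
  intro v hv
  cases v with
  | nil => simp at hv
  | cons a v =>
    cases v with
    | nil => simp at hv
    | cons b v =>
      have h1 := h a b
      have h2 := ow_nn h (b :: v)
      rw [ow]
      linarith

theorem flat_vertex {N : ℕ} {a : ℕ → E} {W : ℕ → List E} {I : List (List E)} {F : E → Prop}
    (B : Bd S N a W I) (hF : Flat S θ F) (i : ℕ) (h1 : F (a i)) (h2 : F (a (i + 1)))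
    (hnb : S.inv (a i) ≠ a (i + 1))
    (hm1 : ∀ f1 f2 l, S.Tri (a i) f1 f2 → W i = l ++ [f1, a i] → ¬ (F f1 ∧ F f2))
    (hm2 : ∀ f1 f2 l, S.Tri (a (i + 1)) f1 f2 → W (i + 1) = l ++ [f1, a (i + 1)] →
      ¬ (F f1 ∧ F f2)) :
    3.1 ≤ ow θ (W (i + 1)) := by
  obtain ⟨f1, f2, l, r, hT, hW, hW'⟩ := B.edg i
  obtain ⟨g1, g2, l', r', hT', hW1, hW1'⟩ := B.edg (i + 1)
  have k1 : ¬ F (S.inv f2) := by
    intro h
    have h3 : F f2 := by
      have := hF.inv _ h
      rwa [S.inv_inv] at this
    have h4 := hF.tri (H56.tri1 hT) (hF.inv _ h1) (hF.inv _ h3)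
    have h5 : F f1 := by
      have := hF.inv _ h4
      rwa [S.inv_inv] at this
    exact hm1 _ _ _ hT hW ⟨h5, h3⟩
  have k2 : ¬ F g1 := by
    intro h
    exact hm2 _ _ _ hT' hW1 ⟨h, hF.tri hT' h2 h⟩
  have hc := B.chain (i + 1)
  have hr := B.red (i + 1)
  rw [hW'] at hc hr ⊢
  exact hF.ang _ _ _ l' g1 (a (i + 1)) (by rw [← hW', hW1]) hc hr (hF.inv _ h1) h2 k1 k2 hnb

/-- The curvature count. The index i stands for the vertex between the letters i and i + 1. -/
theorem curv (M : Mods) (hSC : S.SC) (hθ : Cv S θ) (w : List E) (hcl : S.Cl w) (hpf : S.PF w)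
    (hw0 : w ≠ []) (hnb : ∀ e, w ≠ [S.inv e, e]) (C : Finset ℕ) (hC : w.length - 1 ∈ C)
    (hflat : ∀ i (h : i + 1 < w.length), i ∉ C → ∃ F, Flat S θ F ∧ F w[i] ∧ F w[i + 1] ∧
      S.inv w[i] ≠ w[i + 1] ∧
      (∀ f1 f2, S.Tri w[i] f1 f2 → F f1 → F f2 →
        S.ar w ≤ S.ar (w.take i ++ f1 :: f2 :: w.drop (i + 1))) ∧
      (∀ f1 f2, S.Tri w[i + 1] f1 f2 → F f1 → F f2 →
        S.ar w ≤ S.ar (w.take (i + 1) ++ f1 :: f2 :: w.drop (i + 1 + 1)))) :
    (6 : ℝ) + 0.1 * (w.length - C.card) ≤ 2.1 * C.card := by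
  obtain ⟨a, W, I, B, ha, hA⟩ := bdyA M hSC w hcl hpf hw0 hnb
  have hgb := B.gb _ hθ.wt
  have hI : (I.map (fun v => 6 - cw θ v)).sum ≤ 0 := by
    apply sum_np
    intro t ht
    obtain ⟨v, hv, rfl⟩ := List.mem_map.1 ht
    have h1 := hθ.inner v (B.inner v hv)
    linarith
  have hshift : ∑ i ∈ Finset.range w.length, (3 - ow θ (W i)) =
      ∑ i ∈ Finset.range w.length, (3 - ow θ (W (i + 1))) := by
    have h1 := Finset.sum_range_succ (fun i => 3 - ow θ (W i)) w.length
    have h2 := Finset.sum_range_succ' (fun i => 3 - ow θ (W i)) w.length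
    have h3 : W w.length = W 0 := by
      have := B.perW 0
      rwa [zero_add] at this
    rw [h3] at h1
    linarith
  have hterm : ∀ i ∈ Finset.range w.length,
      3 - ow θ (W (i + 1)) ≤ (if i ∈ C then (2.2 : ℝ) else 0) - 0.1 := by
    intro i hi
    have hi' := Finset.mem_range.1 hi
    split
    · have := ow_low hθ.low (W (i + 1)) (two_le B (i + 1))
      norm_num at this ⊢
      linarith
    · rename_i hiC
      have h1 : i + 1 < w.length := by
        rcases Nat.lt_or_ge (i + 1) w.length with h | h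
        · exact h
        · exfalso
          apply hiC
          have : i = w.length - 1 := by omega
          rw [this]
          exact hC
      obtain ⟨F, hF, f1, f2, f3, f4, f5⟩ := hflat i h1 hiC
      have e1 := ha i hi'
      have e2 := ha (i + 1) h1
      have := flat_vertex B hF i (by rw [e1]; exact f1) (by rw [e2]; exact f2)
        (by rw [e1, e2]; exact f3)
        (by
          intro g1 g2 l hT hW hg
          rw [e1] at hT hW
          have h5 := hA i hi' g1 g2 l hT hW
          have h6 := f4 g1 g2 hT hg.1 hg.2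
          omega)
        (by
          intro g1 g2 l hT hW hg
          rw [e2] at hT hW
          have h5 := hA (i + 1) h1 g1 g2 l hT hW
          have h6 := f5 g1 g2 hT hg.1 hg.2
          omega)
      norm_num at this ⊢
      linarith
  have hsum := Finset.sum_le_sum hterm
  have hR : ∑ i ∈ Finset.range w.length, ((if i ∈ C then (2.2 : ℝ) else 0) - 0.1) =
      (Finset.filter (fun i => i ∈ C) (Finset.range w.length)).card * 2.2 - w.length * 0.1 := by
    rw [Finset.sum_sub_distrib, ← Finset.sum_filter, Finset.sum_const, Finset.sum_const,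
      Finset.card_range, nsmul_eq_mul, nsmul_eq_mul]
  rw [hR] at hsum
  have hcard : ((Finset.filter (fun i => i ∈ C) (Finset.range w.length)).card : ℝ) ≤ C.card := by
    have : (Finset.filter (fun i => i ∈ C) (Finset.range w.length)).card ≤ C.card := by
      apply Finset.card_le_card
      intro i hi
      exact (Finset.mem_filter.1 hi).2
    exact_mod_cast this
  rw [hshift] at hgb
  linarith

end Pool.Agent.ABA.B.H17
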