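import Pool.Agent.Helper17_ABA.Good

/-!
Coarse graining, one step: deletion of one syllable from a labelled certificate.
-/

open Equiv Equiv.Perm

namespace H17ABA

theorem inv_ap {O : Type*} (f : Perm O) (x : O) : f⁻¹ (f x) = x := by simp

theorem ap_inv {O : Type*} (f : Perm O) (x : O) : f (f⁻¹ x) = x := by simp

/-- Bypassing w keeps the cycles of the other points. -/
theorem same_bypass {O : Type*} [DecidableEq O] (f : Perm O) {w o o' : O} (ho : o ≠ w)
    (ho' : o' ≠ w) (h : SameCycle f o o') : SameCycle (f * swap (f⁻¹ w) w) o o' := by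
  have hw : (f * swap (f⁻¹ w) w) w = w := by simp
  have h1 : cs f ≤ cs (f * swap (f⁻¹ w) w) ⊔ pr (f⁻¹ w) w := by
    rw [cs_mul_swap_sup]
    exact le_sup_left
  have h2 := h1 h
  rw [sup_pr_iff] at h2
  rcases h2 with h2 | ⟨-, h2⟩ | ⟨h2, -⟩
  · exact h2
  · exact absurd (SameCycle.eq_of_right h2 hw) ho'
  · exact absurd (SameCycle.eq_of_right h2 hw) ho

theorem bypass_same {O : Type*} [DecidableEq O] (f : Perm O) {w o o' : O}
    (h : SameCycle (f * swap (f⁻¹ w) w) o o') : SameCycle f o o' := by
  have h1 : cs (f * swap (f⁻¹ w) w) ≤ cs f ⊔ pr (f⁻¹ w) w := cs_mul_swap_le f _ _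
  have h2 : (cs f) (f⁻¹ w) w := by
    have := cs_apply f (f⁻¹ w)
    simpa using this
  rw [sup_pr_of_rel h2] at h1
  exact h1 h

theorem bypass_w {O : Type*} [DecidableEq O] (f : Perm O) (w : O) :
    (f * swap (f⁻¹ w) w) w = w := by simp

theorem bypass_pred {O : Type*} [DecidableEq O] (f : Perm O) {w o : O} (h : f o = w) :
    (f * swap (f⁻¹ w) w) o = f w := by
  have : o = f⁻¹ w := by rw [← h]; simp
  rw [this]
  simp

theorem bypass_other {O : Type*} [DecidableEq O] (f : Perm O) {w o : O} (h : f o ≠ w)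
    (ho : o ≠ w) : (f * swap (f⁻¹ w) w) o = f o := by
  refine mul_swap_z f ?_ ho
  rintro rfl
  exact h (by simp)

theorem cyc_bypass {O : Type*} [Finite O] [DecidableEq O] (f : Perm O) {w : O} (h : f w ≠ w) :
    cyc (f * swap (f⁻¹ w) w) = cyc f + 1 := by
  refine cyc_split f ?_ ?_
  · intro hh
    apply h
    have : f (f⁻¹ w) = w := by simp
    rwa [hh] at this
  · have h1 : f (f⁻¹ w) = w := by simp
    have := cs_apply f (f⁻¹ w)
    rw [h1] at this
    exact this

set_option linter.unusedSectionVars false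

variable {O ι L Γ : Type*} [AddCommGroup L] [Group Γ]

/-- State of the coarse graining: faces s, lines l, pass labels p, corner labels k. -/
structure State (O L Γ : Type*) where
  s : Perm O
  l : Perm O
  p : O → L
  k : O → Γ

/-- The permutation of the region curves. -/
def State.f (S : State O L Γ) : Perm O := S.s * S.l⁻¹

section

variable (ev : ι → L → Γ) (ty : O → ι) (val : O → L)

/-- The label of a step of a region curve. -/
def State.r (S : State O L Γ) (h : O) : Γ := ev (ty (S.l⁻¹ h)) (-S.p (S.l⁻¹ h)) * S.k (S.l⁻¹ h)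

/-- The quantity which grows under deletions. -/
noncomputable def State.D (S : State O L Γ) : ℕ :=
  cyc S.s + cyc S.l + numGood S.f (S.r ev ty)

variable (Sel : Set O)

/-- The invariants. -/
structure State.Inv (S : State O L Γ) : Prop where
  ty_l : ∀ o, ty (S.l o) = ty o
  line : ∃ κ : O → L, ∀ o, κ (S.l o) = κ o + val o + S.p o
  face : ∃ φ : O → Γ, ∀ o, (∀ z ∈ Sel, ¬ SameCycle S.s o z) →
    φ (S.s o) = φ o * ev (ty o) (val o) * S.k o

variable [DecidableEq O]

/-- Deletion of the syllable w. -/
def State.del (S : State O L Γ) (w : O) : State O L Γ where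
  s := S.s * swap (S.s⁻¹ w) w
  l := S.l * swap (S.l⁻¹ w) w
  p := fun o => if o = w then -val w else if S.l o = w then S.p o + val w + S.p w else S.p o
  k := fun o => if o = w then (ev (ty w) (val w))⁻¹ else
    if S.s o = w then S.k o * ev (ty w) (val w) * S.k w else S.k o

theorem ev_zero_of_add (ev_add : ∀ i x y, ev i (x + y) = ev i x * ev i y) (i : ι) :
    ev i 0 = 1 := by
  have := ev_add i 0 0
  rw [add_zero] at this
  exact (left_eq_mul.1 this)

theorem ev_neg_of_add (ev_add : ∀ i x y, ev i (x + y) = ev i x * ev i y) (i : ι) (x : L) :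
    ev i (-x) = (ev i x)⁻¹ := by
  rw [eq_inv_iff_mul_eq_one, ← ev_add, neg_add_cancel, ev_zero_of_add ev ev_add]

variable {ev ty val Sel}

theorem State.Inv.p_eq {S : State O L Γ} (hS : S.Inv ev ty val Sel) {w : O} (h : S.l w = w) :
    S.p w = -val w := by
  obtain ⟨κ, hκ⟩ := hS.line
  have := hκ w
  rw [h, add_assoc, left_eq_add] at this
  exact (neg_eq_of_add_eq_zero_right this).symm

theorem State.Inv.k_eq {S : State O L Γ} (hS : S.Inv ev ty val Sel) {w : O} (hw : w ∉ Sel)
    (h : S.s w = w) : S.k w = (ev (ty w) (val w))⁻¹ := by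
  obtain ⟨φ, hφ⟩ := hS.face
  have := hφ w (fun z hz hwz => hw (by rw [hwz.eq_of_left h]; exact hz))
  rw [h, mul_assoc, left_eq_mul] at this
  exact eq_inv_of_mul_eq_one_right this

theorem State.Inv.del {S : State O L Γ} (hS : S.Inv ev ty val Sel) {w : O} (hw : w ∉ Sel) :
    (S.del ev ty val w).Inv ev ty val Sel := by
  refine ⟨?_, ?_, ?_⟩
  · intro o
    show ty ((S.l * swap (S.l⁻¹ w) w) o) = ty o
    by_cases h1 : o = w
    · rw [h1, bypass_w]
    · by_cases h2 : S.l o = w
      · rw [bypass_pred S.l h2, hS.ty_l, ← h2, hS.ty_l]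
      · rw [bypass_other S.l h2 h1, hS.ty_l]
  · obtain ⟨κ, hκ⟩ := hS.line
    refine ⟨κ, fun o => ?_⟩
    show κ ((S.l * swap (S.l⁻¹ w) w) o) = κ o + val o + (if o = w then -val w else
      if S.l o = w then S.p o + val w + S.p w else S.p o)
    by_cases h1 : o = w
    · rw [h1, bypass_w, if_pos rfl, add_assoc, add_neg_cancel, add_zero]
    · rw [if_neg h1]
      by_cases h2 : S.l o = w
      · rw [bypass_pred S.l h2, if_pos h2, hκ w, ← h2, hκ o, h2]
        abel
      · rw [bypass_other S.l h2 h1, if_neg h2, hκ o]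
  · obtain ⟨φ, hφ⟩ := hS.face
    refine ⟨φ, fun o ho => ?_⟩
    show φ ((S.s * swap (S.s⁻¹ w) w) o) = φ o * ev (ty o) (val o) * (if o = w then
      (ev (ty w) (val w))⁻¹ else if S.s o = w then S.k o * ev (ty w) (val w) * S.k w else S.k o)
    by_cases h1 : o = w
    · rw [h1, bypass_w, if_pos rfl]
      group
    · rw [if_neg h1]
      have ho' : ∀ z ∈ Sel, ¬ SameCycle S.s o z := by
        intro z hz hoz
        refine ho z hz (same_bypass S.s h1 ?_ hoz)
        rintro rfl
        exact hw hz
      by_cases h2 : S.s o = w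
      · have h3 : ∀ z ∈ Sel, ¬ SameCycle S.s w z := by
          intro z hz hwz
          refine ho' z hz ?_
          rw [← h2] at hwz
          exact (sameCycle_apply_left).1 hwz
        rw [bypass_pred S.s h2, if_pos h2, hφ w h3, ← h2, hφ o ho', h2]
        group
      · rw [bypass_other S.s h2 h1, if_neg h2, hφ o ho']

theorem mul_inv_swap (s l : Perm O) (x y : O) :
    s * (l * swap x y)⁻¹ = s * l⁻¹ * swap (l x) (l y) := by
  rw [mul_inv_rev, swap_inv, swap_mul_eq_mul_swap, inv_inv, mul_assoc]

theorem swap_mul_inv (s l : Perm O) (x y : O) :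
    s * swap x y * l⁻¹ = s * l⁻¹ * swap (l x) (l y) := by
  rw [mul_assoc, swap_mul_eq_mul_swap, inv_inv, mul_assoc]

/-- Second stage: w is alone in its face, and is removed from its line. -/
theorem stage2 [Finite O] (ev_add : ∀ i x y, ev i (x + y) = ev i x * ev i y)
    (S S' : State O L Γ) (w : O) (hs : S.s w = w) (hk : S.k w = (ev (ty w) (val w))⁻¹)
    (hl : S.l w ≠ w) (hty : ∀ o, ty (S.l o) = ty o)
    (hs' : S'.s = S.s) (hk' : S'.k = S.k) (hl' : S'.l = S.l * swap (S.l⁻¹ w) w)
    (hp' : S'.p = fun o => if o = w then -val w else if S.l o = w then S.p o + val w + S.p w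
      else S.p o) :
    numGood S.f (S.r ev ty) + 1 ≤ numGood S'.f (S'.r ev ty) := by
  have hf : S'.f = S.f * swap (S.l w) w := by
    rw [State.f, State.f, hs', hl', mul_inv_swap, ap_inv, swap_comm]
  have hinv : ∀ h, S'.l⁻¹ h = S.l⁻¹ (swap (S.l w) w h) := by
    intro h
    have h1 : (1 : Perm O) * S'.l⁻¹ = 1 * S.l⁻¹ * swap (S.l w) w := by
      rw [hl', mul_inv_swap, ap_inv, swap_comm]
    rw [one_mul, one_mul] at h1
    rw [h1, Perm.mul_apply]
  have hpl : S.l (S.l⁻¹ w) = w := by simp
  have hplw : S.l⁻¹ w ≠ w := by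
    intro h
    rw [h] at hpl
    exact hl hpl
  rw [hf]
  refine numGood_bypass hl ?_ ?_ ?_ ?_
  · show S.s (S.l⁻¹ (S.l w)) = w
    rw [inv_ap, hs]
  · intro z h1 h2
    have h3 : S'.l⁻¹ z = S.l⁻¹ z := by rw [hinv, swap_apply_of_ne_of_ne h1 h2]
    have h4 : S.l⁻¹ z ≠ w := by
      intro h
      apply h1
      rw [← h]
      simp
    have h5 : S.l (S.l⁻¹ z) ≠ w := by
      rw [ap_inv]
      exact h2
    rw [State.r, State.r, h3, hp', hk']
    simp only [if_neg h4, if_neg h5]
  · have h3 : S'.l⁻¹ (S.l w) = S.l⁻¹ w := by rw [hinv, swap_apply_left]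
    rw [State.r, State.r, State.r, h3, hp', hk']
    simp only [if_neg hplw, if_pos hpl, inv_ap]
    have h4 : ty (S.l⁻¹ w) = ty w := by
      rw [← hty (S.l⁻¹ w), hpl]
    rw [hk, h4, ← ev_neg_of_add ev ev_add]
    have h5 : -(S.p (S.l⁻¹ w) + val w + S.p w) = -S.p w + -val w + -S.p (S.l⁻¹ w) := by abel
    rw [h5, ev_add, ev_add]
    simp only [mul_assoc]
  · have h3 : S'.l⁻¹ w = w := by rw [hinv, swap_apply_right, inv_ap]
    rw [State.r, h3, hp', hk']
    simp only [if_true, neg_neg]
    rw [hk, mul_inv_cancel]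

/-- Deletion of a syllable which is not isolated. -/
theorem State.Inv.del_D [Finite O] (ev_add : ∀ i x y, ev i (x + y) = ev i x * ev i y)
    {S : State O L Γ} (hS : S.Inv ev ty val Sel) {w : O} (hw : w ∉ Sel)
    (h : ¬ (S.s w = w ∧ S.l w = w)) :
    S.D ev ty + 2 ≤ (S.del ev ty val w).D ev ty := by
  have hls : S.l (S.l⁻¹ w) = w := by simp
  have hss : S.s (S.s⁻¹ w) = w := by simp
  by_cases hsw : S.s w = w
  · -- only the line
    have hlw : S.l w ≠ w := fun hh => h ⟨hsw, hh⟩
    have hinv : S.s⁻¹ w = w := by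
      have := inv_ap S.s w
      rw [hsw] at this
      exact this
    have hk := hS.k_eq hw hsw
    have h2 := stage2 (ev := ev) (ty := ty) (val := val) ev_add S (S.del ev ty val w) w hsw hk hlw
      hS.ty_l (by
        show S.s * swap (S.s⁻¹ w) w = S.s
        rw [hinv, swap_self]
        rfl) (by
        funext o
        show (if o = w then (ev (ty w) (val w))⁻¹ else
          if S.s o = w then S.k o * ev (ty w) (val w) * S.k w else S.k o) = S.k o
        by_cases h1 : o = w
        · rw [h1, if_pos rfl, hk]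
        · rw [if_neg h1, if_neg]
          intro h3
          exact h1 (S.s.injective (h3.trans hsw.symm))) rfl rfl
    have h3 : cyc (S.del ev ty val w).s = cyc S.s := by
      show cyc (S.s * swap (S.s⁻¹ w) w) = cyc S.s
      rw [hinv, swap_self]
      rfl
    have h4 : cyc (S.del ev ty val w).l = cyc S.l + 1 := cyc_bypass S.l hlw
    rw [State.D, State.D, h3, h4]
    omega
  · -- stage 1
    let S1 : State O L Γ :=
      { s := S.s * swap (S.s⁻¹ w) w
        l := S.l
        p := S.p
        k := fun o => if o = w then (ev (ty w) (val w))⁻¹ else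
          if S.s o = w then S.k o * ev (ty w) (val w) * S.k w else S.k o }
    have hsi : S.s⁻¹ w ≠ w := by
      intro hh
      rw [hh] at hss
      exact hsw hss
    have hf1 : S1.f = S.f * swap (S.l (S.s⁻¹ w)) (S.l w) := by
      show S.s * swap (S.s⁻¹ w) w * S.l⁻¹ = _
      rw [swap_mul_inv]
      rfl
    have hc1 : cyc S1.s = cyc S.s + 1 := cyc_bypass S.s hsw
    have hr : ∀ z, z ≠ S.l (S.s⁻¹ w) → z ≠ S.l w → S1.r ev ty z = S.r ev ty z := by
      intro z h1 h2
      have h3 : S.l⁻¹ z ≠ w := by
        intro hh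
        apply h2
        rw [← hh]
        simp
      have h4 : S.s (S.l⁻¹ z) ≠ w := by
        intro hh
        apply h1
        rw [← hh]
        simp
      show ev (ty (S.l⁻¹ z)) (-S.p (S.l⁻¹ z)) * (if S.l⁻¹ z = w then (ev (ty w) (val w))⁻¹ else
          if S.s (S.l⁻¹ z) = w then S.k (S.l⁻¹ z) * ev (ty w) (val w) * S.k w
          else S.k (S.l⁻¹ z)) = _
      rw [if_neg h3, if_neg h4]
      rfl
    have hra : S1.r ev ty (S.l (S.s⁻¹ w)) =
        S.r ev ty (S.l (S.s⁻¹ w)) * (ev (ty w) (val w) * S.k w) := by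
      show ev (ty (S.l⁻¹ (S.l (S.s⁻¹ w)))) (-S.p (S.l⁻¹ (S.l (S.s⁻¹ w)))) *
        (if S.l⁻¹ (S.l (S.s⁻¹ w)) = w then (ev (ty w) (val w))⁻¹ else
          if S.s (S.l⁻¹ (S.l (S.s⁻¹ w))) = w then
            S.k (S.l⁻¹ (S.l (S.s⁻¹ w))) * ev (ty w) (val w) * S.k w
          else S.k (S.l⁻¹ (S.l (S.s⁻¹ w)))) = _
      rw [State.r, inv_ap, if_neg hsi, if_pos hss]
      simp only [mul_assoc]
    have hrb : S1.r ev ty (S.l w) = S.r ev ty (S.l w) * (ev (ty w) (val w) * S.k w)⁻¹ := by
      show ev (ty (S.l⁻¹ (S.l w))) (-S.p (S.l⁻¹ (S.l w))) *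
        (if S.l⁻¹ (S.l w) = w then (ev (ty w) (val w))⁻¹ else
          if S.s (S.l⁻¹ (S.l w)) = w then
            S.k (S.l⁻¹ (S.l w)) * ev (ty w) (val w) * S.k w
          else S.k (S.l⁻¹ (S.l w))) = _
      rw [State.r, inv_ap, if_pos rfl]
      group
    by_cases hlw : S.l w = w
    · -- one stage only
      have hp := hS.p_eq hlw
      have hlinv : S.l⁻¹ w = w := by
        have := inv_ap S.l w
        rw [hlw] at this
        exact this
      rw [hlw] at hf1 hr hrb
      have hne : S.l (S.s⁻¹ w) ≠ w := by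
        intro hh
        rw [← hlw] at hh
        have := S.l.injective hh
        rw [hlw] at this
        exact hsi this
      have hrw : S.r ev ty w = ev (ty w) (val w) * S.k w := by
        rw [State.r, hlinv, hp, neg_neg]
      have h5 : numGood S.f (S.r ev ty) + 1 ≤ numGood S1.f (S1.r ev ty) := by
        rw [hf1]
        refine numGood_bypass hne ?_ hr ?_ ?_
        · show S.s (S.l⁻¹ (S.l (S.s⁻¹ w))) = w
          rw [inv_ap, hss]
        · rw [hra, hrw]
        · rw [hrb, hrw, mul_inv_cancel]
      have h6 : S.del ev ty val w = S1 := by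
        have e1 : (S.del ev ty val w).l = S.l := by
          show S.l * swap (S.l⁻¹ w) w = S.l
          rw [hlinv, swap_self]
          rfl
        have e2 : (S.del ev ty val w).p = S.p := by
          funext o
          show (if o = w then -val w else if S.l o = w then S.p o + val w + S.p w else S.p o) =
            S.p o
          by_cases h1 : o = w
          · rw [h1, if_pos rfl, hp]
          · rw [if_neg h1, if_neg]
            intro h3
            exact h1 (S.l.injective (h3.trans hlw.symm))
        cases hS' : S.del ev ty val w with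
        | mk s' l' p' k' =>
          rw [hS'] at e1 e2
          have e3 : s' = S1.s := by
            have := congrArg State.s hS'
            exact this.symm
          have e4 : k' = S1.k := by
            have := congrArg State.k hS'
            exact this.symm
          simp only at e1 e2
          rw [e1, e2, e3, e4]
      rw [h6, State.D, State.D, hc1]
      have h7 : cyc S1.l = cyc S.l := rfl
      omega
    · -- two stages
      have h5 : numGood S.f (S.r ev ty) ≤ numGood S1.f (S1.r ev ty) + 1 := by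
        rw [hf1]
        exact numGood_le_swap (ev (ty w) (val w) * S.k w) hr hra hrb
      have h6 := stage2 (ev := ev) (ty := ty) (val := val) ev_add S1 (S.del ev ty val w) w
        (by
          show (S.s * swap (S.s⁻¹ w) w) w = w
          exact bypass_w _ _)
        (by
          show (if w = w then (ev (ty w) (val w))⁻¹ else
            if S.s w = w then S.k w * ev (ty w) (val w) * S.k w else S.k w) = _
          rw [if_pos rfl]) hlw hS.ty_l rfl rfl rfl rfl
      have h7 : cyc (S.del ev ty val w).s = cyc S.s + 1 := cyc_bypass S.s hsw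
      have h8 : cyc (S.del ev ty val w).l = cyc S.l + 1 := cyc_bypass S.l hlw
      rw [State.D, State.D, h7, h8]
      omega

end

end H17ABA
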