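import Pool.Agent.Helper17_ABA.T2

/-!
Distances in triangle graphs; group actions.
-/

set_option autoImplicit false

namespace Pool.Agent.ABA.B.H17

open Pool.Agent.ABA.B Pool.Agent.ABA.B.TG

variable {V E : Type}

/-- the distance -/
noncomputable def dst (S : TG V E) (x y : V) : ℕ := sInf {n | ∃ w, S.IsP x w y ∧ w.length = n}

/-- connected -/
def Conn (S : TG V E) : Prop := ∀ x y, ∃ w, S.IsP x w y

variable {S : TG V E}

theorem dst_le {x y : V} {w : List E} (h : S.IsP x w y) : dst S x y ≤ w.length :=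
  Nat.sInf_le ⟨w, h, rfl⟩

theorem exists_geod (hc : Conn S) (x y : V) : ∃ w, S.IsP x w y ∧ w.length = dst S x y := by
  obtain ⟨w, hw⟩ := hc x y
  exact Nat.sInf_mem (s := {n | ∃ w, S.IsP x w y ∧ w.length = n}) ⟨_, w, hw, rfl⟩

theorem dst_self (x : V) : dst S x x = 0 := by
  have := dst_le (S := S) (x := x) (y := x) (w := []) rfl
  simpa using this

theorem eq_of_dst (hc : Conn S) {x y : V} (h : dst S x y = 0) : x = y := by
  obtain ⟨w, hw, hl⟩ := exists_geod hc x y
  rw [h] at hl
  have := List.eq_nil_of_length_eq_zero hl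
  subst this
  exact hw

theorem dst_comm (hc : Conn S) (x y : V) : dst S x y = dst S y x := by
  apply le_antisymm
  · obtain ⟨w, hw, hl⟩ := exists_geod hc y x
    have := dst_le hw.rv
    rwa [rv_length, hl] at this
  · obtain ⟨w, hw, hl⟩ := exists_geod hc x y
    have := dst_le hw.rv
    rwa [rv_length, hl] at this

theorem dst_tri (hc : Conn S) (x y z : V) : dst S x z ≤ dst S x y + dst S y z := by
  obtain ⟨w, hw, hl⟩ := exists_geod hc x y
  obtain ⟨w', hw', hl'⟩ := exists_geod hc y z
  have := dst_le (isP_append.2 ⟨y, hw, hw'⟩)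
  rwa [List.length_append, hl, hl'] at this

theorem isP_split {x y : V} {w : List E} (h : S.IsP x w y) {k : ℕ} (hk : k < w.length) :
    S.IsP x (w.take k) (S.src w[k]) ∧ S.IsP (S.src w[k]) (w.drop k) y := by
  have h1 : S.IsP x (w.take k ++ w.drop k) y := by rw [List.take_append_drop]; exact h
  obtain ⟨z, h2, h3⟩ := isP_append.1 h1
  have h4 : w.drop k = w[k] :: w.drop (k + 1) := List.drop_eq_getElem_cons hk
  have h5 : S.src w[k] = z := by
    rw [h4] at h3
    exact h3.1
  rw [h5]
  exact ⟨h2, h3⟩

/-- distances along a geodesic -/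
theorem geod_dst (hc : Conn S) {x y z : V} {w w' : List E} (h : S.IsP x w z) (h' : S.IsP z w' y)
    (hl : w.length + w'.length = dst S x y) : dst S x z = w.length ∧ dst S z y = w'.length := by
  have h1 := dst_le h
  have h2 := dst_le h'
  have h3 := dst_tri hc x z y
  omega

/-- A group acting on a triangle graph. -/
structure GAct (S : TG V E) (H : Type) [Group H] [MulAction H V] [MulAction H E] : Prop where
  src : ∀ (h : H) (e : E), S.src (h • e) = h • S.src e
  inv : ∀ (h : H) (e : E), S.inv (h • e) = h • S.inv e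
  tri : ∀ (h : H) {e e' e'' : E}, S.Tri e e' e'' → S.Tri (h • e) (h • e') (h • e'')
  δ : ∀ (h : H) (e : E), S.δ (h • e) = S.δ e

section act

variable {H : Type} [Group H] [MulAction H V] [MulAction H E]

/-- the automorphism of a group element -/
def GAct.aut (A : GAct S H) (h : H) : Aut S where
  v := fun x => h • x
  e := fun x => h • x
  src := A.src h
  inv := A.inv h
  δ := A.δ h

theorem GAct.isP (A : GAct S H) (h : H) {x y : V} {w : List E} (hw : S.IsP x w y) :
    S.IsP (h • x) (w.map (fun e => h • e)) (h • y) := (A.aut h).isP hw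

theorem GAct.dst (A : GAct S H) (h : H) (x y : V) : dst S (h • x) (h • y) = dst S x y := by
  have key : ∀ (h : H) (x y : V) (n : ℕ), (∃ w, S.IsP x w y ∧ w.length = n) →
      ∃ w, S.IsP (h • x) w (h • y) ∧ w.length = n := by
    rintro h x y n ⟨w, hw, hl⟩
    exact ⟨_, A.isP h hw, by rw [List.length_map, hl]⟩
  unfold H17.dst
  congr 1
  ext n
  constructor
  · intro hn
    have := key h⁻¹ _ _ n hn
    rwa [inv_smul_smul, inv_smul_smul] at this
  · exact key h x y n

theorem GAct.cor (A : GAct S H) (h : H) {e f : E} (hc : S.Cor e f) : S.Cor (h • e) (h • f) := by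
  obtain ⟨c, hc⟩ := hc
  exact ⟨_, A.tri h hc⟩

end act

end Pool.Agent.ABA.B.H17
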