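import Pool.Agent.Helper17_ABA.Dst

/-!
Polygons with distinct vertices; fixed vertices of a group element are joined by a fixed path.
-/

set_option autoImplicit false

namespace Pool.Agent.ABA.B.H17

open Pool.Agent.ABA.B Pool.Agent.ABA.B.TG

variable {V E : Type} {S : TG V E}

/-- If no proper cyclic block is closed, the path is pinch free. -/
theorem pf_of_inj [Inhabited E] (M : Mods) (hSC : S.SC) {w : List E} {x : V} (hw : S.IsP x w x)
    (hne : 0 < w.length)
    (hinj : ∀ i j, i < w.length → j < w.length → S.src (cyc w i) = S.src (cyc w j) → i = j) :
    S.PF w := by
  have hpath := cyc_path hw hne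
  have hinj' : ∀ i m, 0 < m → m < w.length → S.src (cyc w i) ≠ S.src (cyc w (i + m)) := by
    intro i m h0 h1 h2
    have h3 : cyc w i = cyc w (i % w.length) := by
      unfold cyc
      rw [Nat.mod_mod]
    have h4 : cyc w (i + m) = cyc w ((i + m) % w.length) := by
      unfold cyc
      rw [Nat.mod_mod]
    rw [h3, h4] at h2
    have h5 := hinj _ _ (Nat.mod_lt _ hne) (Nat.mod_lt _ hne) h2
    rw [Nat.add_mod, Nat.mod_eq_of_lt h1] at h5
    have h6 := Nat.mod_lt i hne
    rcases Nat.lt_or_ge (i % w.length + m) w.length with h7 | h7
    · rw [Nat.mod_eq_of_lt h7] at h5
      omega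
    · have h8 : (i % w.length + m) % w.length = i % w.length + m - w.length := by
        rw [Nat.mod_eq_sub_mod h7]
        exact Nat.mod_eq_of_lt (by omega)
      rw [h8] at h5
      omega
  rcases M.pinch V E S hSC w ⟨x, hw⟩ (List.length_pos_iff.1 hne) with h1 | h1
  · exact h1
  · exfalso
    obtain ⟨k, l₁, p, l₂, q', l₃, hr, hp, hq', hp0, hq0, -, -, -, -⟩ := h1
    have hlen : w.length = l₁.length + p.length + l₂.length + q'.length + l₃.length := by
      have := congrArg List.length hr
      rw [List.length_rotate] at this
      simpa [add_assoc] using this
    have hpl : 0 < p.length := List.length_pos_iff.2 hp0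
    have hql : 0 < q'.length := List.length_pos_iff.2 hq0
    have h3 := block_cyc (l := l₁) (p := p) (r := l₂ ++ q' ++ l₃)
      (by rw [hr]; simp) hp0 hp hpath
    exact hinj' _ _ hpl (by omega) h3

theorem ow_one : ∀ v : List E, v ≠ [] → ow (fun _ _ => (1 : ℝ)) v = v.length - 1 := by
  intro v
  induction v with
  | nil => intro h; exact absurd rfl h
  | cons e v ih =>
    intro _
    cases v with
    | nil => simp [ow]
    | cons f v =>
      have := ih (by simp)
      rw [ow, this]
      simp only [List.length_cons]
      push_cast
      ring

/-- Unit weights: the boundary carries at least six. -/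
theorem six_le {N : ℕ} {a : ℕ → E} {W : ℕ → List E} {I : List (List E)} (B : Bd S N a W I)
    (hsys : ∀ v, CRW S v → 6 ≤ v.length) :
    (6 : ℤ) ≤ ∑ i ∈ Finset.range N, ((4 : ℤ) - (W (i + 1)).length) := by
  have hWt : S.Wt (fun _ _ => (1 : ℝ)) := ⟨fun _ _ => rfl, fun _ => by norm_num⟩
  have hgb := B.gb _ hWt
  have hI : (I.map (fun v => 6 - cw (fun _ _ => (1 : ℝ)) v)).sum ≤ 0 := by
    apply sum_np
    intro t ht
    obtain ⟨v, hv, rfl⟩ := List.mem_map.1 ht
    have h1 := hsys v (B.inner v hv)
    have h2 : cw (fun _ _ => (1 : ℝ)) v = v.length := by
      unfold cw
      cases v with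
      | nil => simp at h1
      | cons e v =>
        rw [ow_one _ (by simp)]
        simp
    rw [h2]
    have : (6 : ℝ) ≤ v.length := by exact_mod_cast h1
    linarith
  have hsum : (6 : ℤ) ≤ ∑ i ∈ Finset.range N, ((4 : ℤ) - (W i).length) := by
    have h1 : ∑ i ∈ Finset.range N, (3 - ow (fun _ _ => (1 : ℝ)) (W i)) =
        ((∑ i ∈ Finset.range N, ((4 : ℤ) - (W i).length) : ℤ) : ℝ) := by
      push_cast
      refine Finset.sum_congr rfl (fun i _ => ?_)
      have h2 := two_le B i
      rw [ow_one _ (by
        intro h3
        rw [h3] at h2
        simp at h2)]
      ring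
    rw [h1] at hgb
    have h2 : (6 : ℝ) ≤ ((∑ i ∈ Finset.range N, ((4 : ℤ) - (W i).length) : ℤ) : ℝ) := by
      linarith
    exact_mod_cast h2
  have hshift : ∑ i ∈ Finset.range N, ((4 : ℤ) - (W i).length) =
      ∑ i ∈ Finset.range N, ((4 : ℤ) - (W (i + 1)).length) := by
    have h1 := Finset.sum_range_succ (fun i => (4 : ℤ) - (W i).length) N
    have h2 := Finset.sum_range_succ' (fun i => (4 : ℤ) - (W i).length) N
    have h3 : W N = W 0 := by
      have := B.perW 0
      rwa [zero_add] at this
    rw [h3] at h1
    linarith
  rwa [hshift] at hsum

theorem bd_cyc [Inhabited E] {w : List E} {a : ℕ → E} {W : ℕ → List E} {I : List (List E)}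
    (B : Bd S w.length a W I) (ha : ∀ i (h : i < w.length), a i = w[i]) (hne : 0 < w.length) :
    a = cyc w := by
  funext i
  have h2 : ∀ m j, a (j + m * w.length) = a j := by
    intro m
    induction m with
    | zero => intro j; simp
    | succ m ih =>
      intro j
      have h3 : j + (m + 1) * w.length = (j + m * w.length) + w.length := by ring
      rw [h3, B.per, ih]
  have h3 : a i = a (i % w.length) := by
    conv_lhs => rw [← Nat.mod_add_div i w.length, Nat.mul_comm]
    exact h2 _ _
  have h4 : i % w.length < w.length := Nat.mod_lt _ hne
  rw [h3, ha _ h4, cyc_eq_get w i h4]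

section fix

variable {H : Type} [Group H] [MulAction H V] [MulAction H E]

/-- **FIX**: fixed vertices are joined by a fixed geodesic. -/
theorem fix_path (M : Mods) (hSC : S.SC) (hconn : Conn S) (hsys : ∀ v, CRW S v → 6 ≤ v.length)
    (A : GAct S H) (h : H) (hcor : ∀ e, ¬ S.Cor (h • e) e) :
    ∀ (D : ℕ) (p q : V), dst S p q = D → h • p = p → h • q = q →
      ∃ γ, S.IsP p γ q ∧ γ.length = D ∧ ∀ e ∈ γ, h • e = e := by
  intro D
  induction D using Nat.strong_induction_on with
  | _ D ih =>
    intro p q hD hp hq
    obtain ⟨γ, hγ, hl⟩ := exists_geod hconn p q
    rw [hD] at hl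
    rcases Nat.eq_zero_or_pos D with h0 | h0
    · subst h0
      have h1 := List.eq_nil_of_length_eq_zero hl
      subst h1
      exact ⟨[], hγ, rfl, fun e he => absurd he List.not_mem_nil⟩
    by_cases hmid : ∃ i, ∃ hi : i < γ.length, 0 < i ∧ h • S.src γ[i] = S.src γ[i]
    · obtain ⟨i, hi, hi0, hfix⟩ := hmid
      obtain ⟨h1, h2⟩ := isP_split hγ hi
      obtain ⟨h3, h4⟩ := geod_dst hconn h1 h2 (by
        rw [List.length_take, List.length_drop, hD]
        omega)
      rw [List.length_take] at h3
      rw [List.length_drop] at h4
      obtain ⟨γ₁, g1, g2, g3⟩ := ih _ (by omega) _ _ h3 hp hfix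
      obtain ⟨γ₂, k1, k2, k3⟩ := ih _ (by omega) _ _ h4 hfix hq
      refine ⟨γ₁ ++ γ₂, isP_append.2 ⟨_, g1, k1⟩, by rw [List.length_append]; omega, ?_⟩
      intro e he
      rcases List.mem_append.1 he with he | he
      · exact g3 e he
      · exact k3 e he
    · push Not at hmid
      by_cases hone : D = 1 ∧ γ.map (fun e => h • e) = γ
      · refine ⟨γ, hγ, hl, ?_⟩
        intro e he
        obtain ⟨e', he'⟩ := List.length_eq_one_iff.1 (hl.trans hone.1)
        rw [he'] at he
        rw [List.mem_singleton] at he
        subst he
        have h1 := hone.2
        rw [he'] at h1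
        simpa using h1
      · exfalso
        have hγ2 := A.isP h hγ
        rw [hp, hq] at hγ2
        obtain ⟨γh, hγh⟩ : ∃ γh, γh = γ.map (fun e => h • e) := ⟨_, rfl⟩
        rw [← hγh] at hγ2 hone
        have hlh : γh.length = D := by rw [hγh, List.length_map, hl]
        obtain ⟨w, hw⟩ : ∃ w, w = γ ++ S.rv γh := ⟨_, rfl⟩
        have hwcl : S.IsP p w p := by
          rw [hw]
          exact isP_append.2 ⟨_, hγ, hγ2.rv⟩
        have hwl : w.length = 2 * D := by
          rw [hw, List.length_append, rv_length, hl, hlh]
          ring
        haveI : Inhabited E := ⟨w[0]⟩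
        have hpath := cyc_path hwcl (by omega)
        -- letters
        have hlow : ∀ i (hi : i < D), cyc w i = γ[i]'(by omega) := by
          intro i hi
          rw [cyc_of_lt w i (by omega)]
          have h3 : w[i]? = some (γ[i]'(by omega)) := by
            rw [hw, List.getElem?_append_left (by omega), List.getElem?_eq_getElem (by omega)]
          rw [List.getElem?_eq_getElem (by omega)] at h3
          exact Option.some.inj h3
        have hhigh : ∀ i (hi : i < D), cyc w (D + i) = S.inv (h • (γ[D - 1 - i]'(by omega))) := by
          intro i hi
          rw [cyc_of_lt w (D + i) (by omega)]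
          have h3 : w[D + i]? = some (S.inv (h • (γ[D - 1 - i]'(by omega)))) := by
            rw [hw, List.getElem?_append_right (by omega)]
            have h4 : D + i - γ.length = i := by omega
            have h6 : γh[D - 1 - i]? = (γ[D - 1 - i]?).map (fun e => h • e) := by
              rw [hγh, List.getElem?_map]
            rw [h4, TG.rv, List.getElem?_reverse (by rw [List.length_map, hlh]; exact hi),
              List.getElem?_map]
            have h5 : (List.map S.inv γh).length - 1 - i = D - 1 - i := by
              rw [List.length_map, hlh]
            rw [h5, h6, List.getElem?_eq_getElem (by omega)]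
            rfl
          rw [List.getElem?_eq_getElem (by omega)] at h3
          exact Option.some.inj h3
        -- vertices and distances from p
        obtain ⟨v, hv⟩ : ∃ v : ℕ → V, ∀ i, v i = S.src (cyc w i) := ⟨_, fun i => rfl⟩
        have hvD : v D = q := by
          have h1 := hhigh 0 h0
          rw [Nat.add_zero] at h1
          rw [hv, h1, src_inv]
          have h2 := isP_last hγ (by omega)
          have h3 : S.tgt (h • (γ[D - 1 - 0]'(by omega))) =
              h • S.tgt (γ[D - 1 - 0]'(by omega)) := (A.aut h).tgt _
          rw [h3]
          have h4 : (γ[D - 1 - 0]'(by omega)) = γ[γ.length - 1]'(by omega) := by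
            congr 1
            omega
          rw [h4, h2, hq]
        have hv0 : v 0 = p := by
          rw [hv, hlow 0 h0]
          exact isP_head hγ (by omega)
        have hvhigh : ∀ i, 0 < i → i < D → v (D + i) = h • v (D - i) := by
          intro i hi0 hi
          rw [hv, hv, hhigh i hi, src_inv, hlow (D - i) (by omega)]
          have h3 : S.tgt (h • (γ[D - 1 - i]'(by omega))) =
              h • S.tgt (γ[D - 1 - i]'(by omega)) := (A.aut h).tgt _
          rw [h3]
          congr 1
          have h4 := isP_get hγ (D - 1 - i) (by omega)
          rw [← h4]
          congr 1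
          have h5 : D - 1 - i + 1 = D - i := by omega
          congr 1
        have hdp : ∀ i, i ≤ D → dst S p (v i) = i := by
          intro i hi
          rcases Nat.lt_or_ge i D with h1 | h1
          · rw [hv, hlow i h1]
            obtain ⟨h2, h3⟩ := isP_split hγ (k := i) (by omega)
            have h4 := (geod_dst hconn h2 h3 (by
              rw [List.length_take, List.length_drop, hD]
              omega)).1
            rw [h4, List.length_take]
            omega
          · have : i = D := by omega
            rw [this, hvD, hD]
        have hdp2 : ∀ i, i ≤ D → dst S p (v (D + i)) = D - i ∨ i = D := by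
          intro i hi
          rcases Nat.eq_zero_or_pos i with h1 | h1
          · subst h1
            left
            rw [Nat.add_zero, hdp D le_rfl]
            rfl
          · rcases Nat.lt_or_ge i D with h2 | h2
            · left
              rw [hvhigh i h1 h2]
              have h3 := A.dst h p (v (D - i))
              rw [hp] at h3
              rw [h3, hdp (D - i) (by omega)]
            · right
              omega
        have hseg : ∀ i m, dst S (v i) (v (i + m)) ≤ m := by
          intro i m
          obtain ⟨r, hr, hrl⟩ := seg_path hpath i m
          rw [hv, hv]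
          have := dst_le hr
          omega
        have hgd : ∀ i m, i + m ≤ D → dst S (v i) (v (i + m)) = m := by
          intro i m him
          have h1 := hseg i m
          have h2 := hdp i (by omega)
          have h3 := hdp (i + m) him
          have h4 := dst_tri hconn p (v i) (v (i + m))
          omega
        have hv2D : v (2 * D) = p := by
          rw [hv, ← hwl]
          have := cyc_per w 0
          rw [zero_add] at this
          rw [this, ← hv, hv0]
        have hdp3 : ∀ i, i ≤ D → dst S p (v (D + i)) = D - i := by
          intro i hi
          rcases hdp2 i hi with h1 | h1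
          · exact h1
          · subst h1
            have h2 : i + i = 2 * i := by ring
            rw [h2, hv2D, dst_self]
            omega
        have hgd2 : ∀ i m, D ≤ i → i + m ≤ 2 * D → dst S (v i) (v (i + m)) = m := by
          intro i m hi him
          obtain ⟨j, rfl⟩ := Nat.exists_eq_add_of_le hi
          have h1 := hseg (D + j) m
          have h2 := hdp3 j (by omega)
          have h3 := hdp3 (j + m) (by omega)
          rw [← Nat.add_assoc] at h3
          have h4 := dst_tri hconn p (v (D + j + m)) (v (D + j))
          rw [dst_comm hconn (v (D + j + m)) (v (D + j))] at h4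
          omega
        have hPF : S.PF w := by
          refine pf_of_inj M hSC hwcl (by omega) ?_
          have key : ∀ i j, i < j → j < 2 * D → v i = v j → False := by
            intro i j hij hj he
            rcases Nat.lt_or_ge D j with h1 | h1
            · rcases Nat.lt_or_ge i D with h2 | h2
              · obtain ⟨j', rfl⟩ := Nat.exists_eq_add_of_le h1.le
                have h3 := hdp i h2.le
                have h4 := hdp3 j' (by omega)
                rw [he, h4] at h3
                have h5 : D - j' = i := h3
                have h6 := hvhigh j' (by omega) (by omega)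
                rw [h5, he] at h6
                rw [← he, hv i] at h6
                have h7 : i < γ.length := by omega
                rw [hlow i h2] at h6
                exact hmid i h7 (by omega) h6.symm
              · have h3 := hgd2 i (j - i) h2 (by omega)
                rw [Nat.add_sub_cancel' hij.le, he, dst_self] at h3
                omega
            · have h3 := hgd i (j - i) (by omega)
              rw [Nat.add_sub_cancel' hij.le, he, dst_self] at h3
              omega
          intro i j hi hj he
          rw [hwl] at hi hj
          rw [← hv, ← hv] at he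
          rcases Nat.lt_trichotomy i j with h1 | h1 | h1
          · exact absurd he (fun he => key i j h1 hj he)
          · exact h1
          · exact absurd he (fun he => key j i h1 hi he.symm)
        obtain ⟨a, W, I, B, ha⟩ := bdy' M hSC w ⟨p, hwcl⟩ hPF (by
            intro h1
            rw [h1] at hwl
            simp at hwl
            omega) (by
            intro e he
            apply hone
            have h1 : D = 1 := by
              rw [he] at hwl
              simp at hwl
              omega
            refine ⟨h1, ?_⟩
            obtain ⟨x, hx⟩ := List.length_eq_one_iff.1 (hl.trans h1)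
            obtain ⟨y, hy⟩ := List.length_eq_one_iff.1 (hlh.trans h1)
            rw [hx, hy] at hw
            rw [he] at hw
            simp [TG.rv] at hw
            rw [hx, hy, ← hw.1, hw.2, S.inv_inv])
        have haw := bd_cyc B ha (by omega)
        subst haw
        have hsix := six_le B hsys
        have hG1 : Gd S (cyc w) 0 D := by
          intro k m r _ hkm hr
          rw [← hv, ← hv] at hr
          have := dst_le hr
          rw [hgd k m (by omega)] at this
          exact this
        have hG2 : Gd S (cyc w) D D := by
          intro k m r hk hkm hr
          rw [← hv, ← hv] at hr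
          have := dst_le hr
          rw [hgd2 k m hk (by omega)] at this
          exact this
        -- the two corners
        have hc1 : 3 ≤ (W D).length := by
          by_contra hc
          have h1 := two_le B D
          obtain ⟨f1, f2, l, r, hT, hW, hW'⟩ := B.edg (D - 1)
          obtain ⟨g1, g2, l', r', hT', hW1, hW1'⟩ := B.edg D
          have h2 : D - 1 + 1 = D := by omega
          rw [h2] at hW'
          have h3 : (W D).length = 2 := by omega
          rw [hW'] at h3
          have hr : r = [] := by
            cases r with
            | nil => rfl
            | cons x r => simp at h3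
          subst hr
          obtain ⟨-, h4, h5⟩ := append_two hW1 hW'
          have h6 := B.chain D
          rw [hW', ← h5] at h6
          rw [List.isChain_cons_cons] at h6
          have h7 := h6.1
          have h8 := hhigh 0 h0
          rw [Nat.add_zero] at h8
          rw [h8, hlow (D - 1) (by omega), A.inv] at h7
          obtain ⟨c, hc'⟩ := h7
          exact hcor _ ⟨_, S.tri_swap hc'⟩
        have hc2 : 3 ≤ (W (2 * D)).length := by
          by_contra hc
          have h1 := two_le B (2 * D)
          obtain ⟨f1, f2, l, r, hT, hW, hW'⟩ := B.edg (2 * D - 1)
          obtain ⟨g1, g2, l', r', hT', hW1, hW1'⟩ := B.edg (2 * D)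
          have h2 : 2 * D - 1 + 1 = 2 * D := by omega
          rw [h2] at hW'
          have h3 : (W (2 * D)).length = 2 := by omega
          rw [hW'] at h3
          have hr : r = [] := by
            cases r with
            | nil => rfl
            | cons x r => simp at h3
          subst hr
          obtain ⟨-, h4, h5⟩ := append_two hW1 hW'
          have h6 := B.chain (2 * D)
          rw [hW', ← h5] at h6
          rw [List.isChain_cons_cons] at h6
          have h7 := h6.1
          have h8 := hhigh (D - 1) (by omega)
          have h9 : D + (D - 1) = 2 * D - 1 := by omega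
          rw [h9] at h8
          have h10 : cyc w (2 * D) = cyc w 0 := by
            rw [← hwl]
            have := cyc_per w 0
            rwa [zero_add] at this
          rw [h8, h10, hlow 0 h0, S.inv_inv] at h7
          have h11 : (γ[D - 1 - (D - 1)]'(by omega)) = γ[0]'(by omega) := by
            congr 1
            omega
          rw [h11] at h7
          exact hcor _ h7
        obtain ⟨n, rfl⟩ : ∃ n, D = n + 1 := ⟨D - 1, by omega⟩
        rw [hwl, show 2 * (n + 1) = (n + 1) + (n + 1) by ring, Finset.sum_range_add,
          Finset.sum_range_succ, Finset.sum_range_succ] at hsix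
        have w1 := window B hG1 n 0 le_rfl (by omega)
        have w2 := window B hG2 n (n + 1) le_rfl (by omega)
        have e1 : ∀ m, W (0 + 1 + m) = W (m + 1) := by
          intro m
          congr 1
          ring
        have e2 : ∀ m, W (n + 1 + 1 + m) = W (n + 1 + m + 1) := by
          intro m
          congr 1
          ring
        have e3 : W (n + 1 + n + 1) = W (2 * (n + 1)) := by
          congr 1
          ring
        simp only [e1] at w1
        simp only [e2] at w2
        rw [e3] at hsix
        omega

end fix

end Pool.Agent.ABA.B.H17
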