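import Pool.Agent.Helper17_ABA.Perm

/-!
Potentials on the cycles of a permutation, and the soundness half of the lemma of van Kampen:
in a planar pair of permutations (faces, lines) all faces are trivial if all faces but one are.
-/

open Equiv Equiv.Perm

namespace H17ABA

variable {O : Type*} {H : Type*} [Group H]

/-- The cycles of s on the set S are flat: there is a potential. -/
def FlatOn (s : Perm O) (e : O → H) (S : Set O) : Prop :=
  ∃ φ : O → H, ∀ o ∈ S, φ (s o) = φ o * e (s o)

/-- All cycles of s are flat. -/
def Flat (s : Perm O) (e : O → H) : Prop := ∃ φ : O → H, ∀ o, φ (s o) = φ o * e (s o)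

/-- A function which is constant along a cycle except possibly at one step is constant also
there. -/
theorem cycle_const [Finite O] {X : Type*} (s : Perm O) (c : O → X) (y : O)
    (h : ∀ o, SameCycle s y o → o ≠ y → c (s o) = c o) : c (s y) = c y := by
  classical
  have hex : ∃ m : ℕ, (s ^ (m + 1)) y = y := by
    refine ⟨orderOf s - 1, ?_⟩
    rw [Nat.sub_add_cancel (orderOf_pos s), pow_orderOf_eq_one]
    rfl
  have hm : (s ^ (Nat.find hex + 1)) y = y := Nat.find_spec hex
  have hmin : ∀ i, i < Nat.find hex → (s ^ (i + 1)) y ≠ y := fun i hi => Nat.find_min hex hi
  have key : ∀ k, k ≤ Nat.find hex → c ((s ^ (k + 1)) y) = c (s y) := by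
    intro k
    induction k with
    | zero => intro _; simp
    | succ k ih =>
      intro hk
      rw [pow_succ', Perm.mul_apply, h _ ⟨(k + 1 : ℕ), by rw [zpow_natCast]⟩ (hmin k (by omega))]
      exact ih (by omega)
  have := key _ le_rfl
  rw [hm] at this
  exact this.symm

theorem two_mul_cyc_le [Finite O] (σ : Perm O) :
    2 * cyc σ ≤ Nat.card O + Nat.card {x : O // σ x = x} := by
  classical
  let f : Quotient (cs σ) ⊕ Quotient (cs σ) → O ⊕ {x : O // σ x = x} := fun q =>
    match q with
    | Sum.inl q => Sum.inl q.out
    | Sum.inr q => if h : σ q.out = q.out then Sum.inr ⟨q.out, h⟩ else Sum.inl (σ q.out)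
  have hq : ∀ q : Quotient (cs σ), Quotient.mk (cs σ) q.out = q := fun q => Quotient.out_eq q
  have hs : ∀ q : Quotient (cs σ), Quotient.mk (cs σ) (σ q.out) = q := by
    intro q
    rw [← Quotient.sound (cs_apply σ q.out), hq]
  have hf : Function.Injective f := by
    rintro (q | q) (q' | q') h
    · have h1 : q.out = q'.out := Sum.inl.inj h
      rw [← hq q, h1, hq q']
    · exfalso
      by_cases h0 : σ q'.out = q'.out
      · simp only [f, dif_pos h0] at h
        exact absurd h (by simp)
      · simp only [f, dif_neg h0] at h
        have h1 : q.out = σ q'.out := Sum.inl.inj h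
        have h2 : q = q' := by rw [← hq q, h1, hs q']
        rw [h2] at h1
        exact h0 h1.symm
    · exfalso
      by_cases h0 : σ q.out = q.out
      · simp only [f, dif_pos h0] at h
        exact absurd h (by simp)
      · simp only [f, dif_neg h0] at h
        have h1 : σ q.out = q'.out := Sum.inl.inj h
        have h2 : q = q' := by rw [← hs q, h1, hq q']
        rw [← h2] at h1
        exact h0 h1
    · have h3 : q = q' := by
        by_cases h0 : σ q.out = q.out <;> by_cases h0' : σ q'.out = q'.out
        · simp only [f, dif_pos h0, dif_pos h0'] at h
          have h1 : q.out = q'.out := congrArg Subtype.val (Sum.inr.inj h)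
          rw [← hq q, h1, hq q']
        · simp only [f, dif_pos h0, dif_neg h0'] at h
          exact absurd h (by simp)
        · simp only [f, dif_neg h0, dif_pos h0'] at h
          exact absurd h (by simp)
        · simp only [f, dif_neg h0, dif_neg h0'] at h
          have h1 : σ q.out = σ q'.out := Sum.inl.inj h
          rw [← hs q, h1, hs q']
      rw [h3]
  have := Nat.card_le_card_of_injective f hf
  rw [Nat.card_sum, Nat.card_sum] at this
  have h2 : cyc σ = Nat.card (Quotient (cs σ)) := rfl
  omega

theorem fix_lt_cyc [Finite O] (σ : Perm O) {x0 : O} (h0 : σ x0 ≠ x0) :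
    Nat.card {x : O // σ x = x} < cyc σ := by
  classical
  let f : {x : O // σ x = x} ⊕ Unit → Quotient (cs σ) := fun q =>
    match q with
    | Sum.inl x => Quotient.mk (cs σ) x.1
    | Sum.inr _ => Quotient.mk (cs σ) x0
  have hf : Function.Injective f := by
    rintro (⟨x, hx⟩ | u) (⟨y, hy⟩ | v) h
    · have h1 : SameCycle σ x y := Quotient.exact h
      have : x = y := h1.eq_of_left hx
      subst this
      rfl
    · exfalso
      have h1 : SameCycle σ x x0 := Quotient.exact h
      have : x = x0 := h1.eq_of_left hx
      rw [this] at hx
      exact h0 hx
    · exfalso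
      have h1 : SameCycle σ x0 y := Quotient.exact h
      have : x0 = y := h1.eq_of_right hy
      rw [← this] at hy
      exact h0 hy
    · rfl
  have := Nat.card_le_card_of_injective f hf
  rw [Nat.card_sum, Nat.card_unique (α := Unit)] at this
  have h2 : cyc σ = Nat.card (Quotient (cs σ)) := rfl
  omega

/-- Soundness, first step: if the lines are contained in the faces. -/
theorem flat_of_le [Finite O] {ι L : Type*} [AddCommGroup L]
    (ev : ι → L → H) (ev_add : ∀ i x y, ev i (x + y) = ev i x * ev i y)
    (typ : O → ι) (s l : Perm O) (val κ : O → L)
    (hp : Planar l⁻¹ s) (hle : cs l ≤ cs s) (htyp : ∀ o, typ (l o) = typ o)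
    (hκ : ∀ o, κ (l o) = κ o + val (l o)) :
    Flat s (fun o => ev (typ o) (val o)) := by
  classical
  have ev_zero : ∀ i, ev i 0 = 1 := by
    intro i
    have := ev_add i 0 0
    rw [add_zero] at this
    exact (left_eq_mul.1 this)
  have : Fintype O := Fintype.ofFinite O
  obtain ⟨d, hd⟩ : ∃ d, d = (Finset.univ.filter (fun o => s o ≠ o)).card := ⟨_, rfl⟩
  induction d using Nat.strong_induction_on generalizing s l val κ with
  | _ d ih =>
    -- step (i): a point fixed by l, not fixed by s
    have step1 : ∀ (l : Perm O) (val κ : O → L), Planar l⁻¹ s → cs l ≤ cs s →
        (∀ o, typ (l o) = typ o) → (∀ o, κ (l o) = κ o + val (l o)) →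
        (∃ x, l x = x ∧ s x ≠ x) → Flat s (fun o => ev (typ o) (val o)) := by
      intro l val κ hp hle htyp hκ ⟨x, hlx, hsx⟩
      have hv : val x = 0 := by
        have := hκ x
        rw [hlx] at this
        exact (left_eq_add.1 this)
      obtain ⟨y, hy⟩ : ∃ y, y = s⁻¹ x := ⟨_, rfl⟩
      have hsy : s y = x := by rw [hy]; simp
      have hyx : y ≠ x := by
        intro h
        rw [h] at hsy
        exact hsx hsy
      have hsame : SameCycle s y x := by
        rw [← hsy]
        exact cs_apply s y
      have hs'x : (s * swap y x) x = x := by rw [mul_swap_y, hsy]
      have hs'y : (s * swap y x) y = s x := mul_swap_x s y x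
      have hs'z : ∀ z, z ≠ x → z ≠ y → (s * swap y x) z = s z := by
        intro z h1 h2
        exact mul_swap_z s h2 h1
      have hfix : ∀ z, SameCycle (s * swap y x) z x → z = x := by
        intro z hz
        have h1 : (s * swap y x) x = x := hs'x
        exact (hz.eq_of_right h1)
      have hsle : ∀ z w, z ≠ x → w ≠ x → SameCycle s z w → SameCycle (s * swap y x) z w := by
        intro z w hz hw h
        have h1 : cs s ≤ cs (s * swap y x) ⊔ pr y x := by
          rw [cs_mul_swap_sup]
          exact le_sup_left
        have h2 := h1 h
        rw [sup_pr_iff] at h2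
        rcases h2 with h2 | ⟨-, h2⟩ | ⟨h2, -⟩
        · exact h2
        · exact absurd (hfix _ h2) hw
        · exact absurd (hfix _ h2) hz
      have hle' : cs l ≤ cs (s * swap y x) := by
        rw [cs_le_iff]
        intro o
        by_cases ho : o = x
        · subst ho
          rw [hlx]
        · refine hsle o (l o) ho ?_ (hle (cs_apply l o))
          intro h
          exact ho (l.injective (h.trans hlx.symm))
      have hcard : (Finset.univ.filter (fun o => (s * swap y x) o ≠ o)).card < d := by
        rw [hd]
        refine Finset.card_lt_card ?_
        rw [Finset.ssubset_iff_of_subset]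
        · refine ⟨x, by simp [hsx], ?_⟩
          simp only [Finset.mem_filter, Finset.mem_univ, true_and, not_not]
          exact hs'x
        · intro z hz
          simp only [Finset.mem_filter, Finset.mem_univ, true_and] at hz ⊢
          intro hsz
          apply hz
          by_cases h1 : z = x
          · rw [h1]; exact hs'x
          · by_cases h2 : z = y
            · rw [h2] at hsz
              rw [hsz] at hsy
              exact absurd hsy hyx
            · rw [hs'z z h1 h2, hsz]
      obtain ⟨φ, hφ⟩ := ih _ hcard (s * swap y x) l val κ (planar_split hp hsame) hle' htyp hκ rfl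
      refine ⟨fun o => if o = x then φ y else φ o, ?_⟩
      intro o
      simp only
      by_cases h1 : o = x
      · subst h1
        rw [if_pos rfl, if_neg hsx]
        have := hφ y
        rw [hs'y] at this
        exact this
      · by_cases h2 : o = y
        · subst h2
          rw [hsy, if_pos rfl, if_neg hyx, hv, ev_zero, mul_one]
        · have h3 : s o ≠ x := by
            intro h
            exact h2 (s.injective (h.trans hsy.symm))
          rw [if_neg h3, if_neg h1]
          have := hφ o
          rw [hs'z o h1 h2] at this
          exact this
    by_cases hA : ∃ x, l x = x ∧ s x ≠ x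
    · exact step1 l val κ hp hle htyp hκ hA
    by_cases hB : ∃ x, l x = s x ∧ s x ≠ x
    · -- step (ii): adjacent points of one line
      obtain ⟨x, hlx, hsx⟩ := hB
      obtain ⟨y, hy⟩ : ∃ y, y = l x := ⟨_, rfl⟩
      have hyx : y ≠ x := by rw [hy, hlx]; exact hsx
      -- bypass x in l
      obtain ⟨z, hz⟩ : ∃ z, z = l⁻¹ x := ⟨_, rfl⟩
      have hlz : l z = x := by rw [hz]; simp
      have hzx : z ≠ x := by
        intro h
        rw [h] at hlz
        exact hyx (hy.trans hlz)
      have hl'x : (l * swap z x) x = x := by rw [mul_swap_y, hlz]
      have hl'z : (l * swap z x) z = y := by rw [mul_swap_x, hy]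
      have hl'w : ∀ w, w ≠ x → w ≠ z → (l * swap z x) w = l w := by
        intro w h1 h2
        exact mul_swap_z l h2 h1
      have hsame : SameCycle l z x := by
        rw [← hlz]
        exact cs_apply l z
      have hp' : Planar (l * swap z x)⁻¹ s := by
        have h1 : Planar s⁻¹ l := by
          have := (planar_inv_iff l⁻¹ s).2 hp
          rwa [inv_inv] at this
        have h2 := planar_split h1 hsame
        have := (planar_inv_iff s⁻¹ (l * swap z x)).2 h2
        rwa [inv_inv] at this
      have hle' : cs (l * swap z x) ≤ cs s := by
        refine le_trans (cs_mul_swap_le l z x) (sup_le hle ?_)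
        rw [pr_le_iff]
        exact hle hsame
      have htyp' : ∀ o, typ ((l * swap z x) o) = typ o := by
        intro o
        by_cases h1 : o = x
        · rw [h1, hl'x]
        · by_cases h2 : o = z
          · rw [h2, hl'z, hy, htyp x, ← hlz, htyp z]
          · rw [hl'w o h1 h2, htyp]
      obtain ⟨φ, hφ⟩ := step1 (l * swap z x)
        (fun o => if o = x then 0 else if o = y then val x + val y else val o) κ hp' hle' htyp' (by
          intro o
          by_cases h1 : o = x
          · rw [h1, hl'x]
            simp
          · by_cases h2 : o = z
            · rw [h2, hl'z]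
              simp only [if_neg hyx, if_true]
              have h3 := hκ x
              have h4 := hκ z
              rw [hlz] at h4
              rw [← hy] at h3
              rw [h3, h4, add_assoc]
            · rw [hl'w o h1 h2]
              have h3 : l o ≠ x := by
                intro h
                exact h2 (l.injective (h.trans hlz.symm))
              have h4 : l o ≠ y := by
                intro h
                exact h1 (l.injective (h.trans hy))
              rw [if_neg h3, if_neg h4]
              exact hκ o) ⟨x, hl'x, hsx⟩
      have hsxy : s x = y := by rw [hy, hlx]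
      have hty : typ y = typ x := by rw [hy, htyp]
      have h0 := ev_add (typ x) (val x) (val y)
      refine ⟨fun o => if o = x then φ x * ev (typ x) (val x) else φ o, ?_⟩
      intro o
      simp only
      by_cases h1 : o = x
      · subst h1
        rw [if_pos rfl, hsxy, if_neg hyx]
        have := hφ o
        simp only [hsxy, if_neg hyx, if_true] at this
        rw [hty, h0] at this
        rw [this, hty, mul_assoc]
      · rw [if_neg h1]
        have := hφ o
        simp only at this
        by_cases h2 : s o = x
        · rw [h2] at this ⊢
          rw [if_pos rfl]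
          rw [if_pos rfl, ev_zero, mul_one] at this
          rw [this]
        · have h3 : s o ≠ y := by
            intro h
            exact h1 (s.injective (h.trans hsxy.symm))
          rw [if_neg h2]
          rw [if_neg h2, if_neg h3] at this
          exact this
    · -- no such point: all points are fixed by s
      push Not at hA hB
      have hall : ∀ x, s x = x := by
        by_contra hcon
        push Not at hcon
        obtain ⟨x0, hx0⟩ := hcon
        have e1 : orb2 l⁻¹ s = cs s := by
          rw [orb2, cs_inv]
          exact sup_eq_right.2 hle
        have e2 : cyc l⁻¹ + cyc s + cyc (l⁻¹ * s) = Nat.card O + 2 * nc (orb2 l⁻¹ s) := hp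
        rw [e1, cyc_inv] at e2
        have e3 : nc (cs s) = cyc s := rfl
        have e4 := two_mul_cyc_le l
        have e5 := two_mul_cyc_le (l⁻¹ * s)
        have e6 := fix_lt_cyc s hx0
        have e7 : Nat.card {x : O // l x = x} ≤ Nat.card {x : O // s x = x} :=
          Nat.card_le_card_of_injective (fun x => ⟨x.1, hA x.1 x.2⟩)
            (fun x y h => Subtype.ext (congrArg (fun z => z.1) h))
        have e8 : Nat.card {x : O // (l⁻¹ * s) x = x} ≤ Nat.card {x : O // s x = x} := by
          refine Nat.card_le_card_of_injective (fun x => ⟨x.1, hB x.1 ?_⟩)
            (fun x y h => Subtype.ext (congrArg (fun z => z.1) h))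
          have := x.2
          rw [Perm.mul_apply, Perm.inv_eq_iff_eq] at this
          exact this.symm
        omega
      have hl : ∀ x, l x = x := by
        intro x
        have h1 : SameCycle s x (l x) := hle (cs_apply l x)
        exact (h1.eq_of_left (hall x)).symm
      refine ⟨fun _ => 1, ?_⟩
      intro o
      have h1 : val o = 0 := by
        have := hκ o
        rw [hl o] at this
        exact (left_eq_add.1 this)
      simp only
      rw [hall o, h1, ev_zero, one_mul]

/-- Transfer of a potential from the merged face to one of its two parts, when the other part is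
flat. -/
theorem flat_merge_aux [Finite O] (s : Perm O) (e φ ψ : O → H) (x y : O)
    [DecidableEq O]
    (hψ : ∀ o, SameCycle (s * swap x y) y o → ψ ((s * swap x y) o) =
      ψ o * e ((s * swap x y) o))
    (hxy : ¬ SameCycle s x y)
    (hφ : ∀ o, SameCycle s y o → φ (s o) = φ o * e (s o)) : ψ x = ψ y := by
  have hne : x ≠ y := by
    rintro rfl
    exact hxy (SameCycle.refl _ _)
  have hmerge := merge_same s hxy
  have hin : ∀ o, SameCycle s y o → SameCycle (s * swap x y) y o := by
    intro o ho
    have h1 : cs s ≤ cs (s * swap x y) ⊔ pr x y := by
      rw [cs_mul_swap_sup]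
      exact le_sup_left
    have h2 : cs (s * swap x y) ⊔ pr x y = cs (s * swap x y) := sup_pr_of_rel (r := cs _) hmerge
    rw [h2] at h1
    exact h1 ho
  have hstep := hψ x hmerge.symm
  rw [mul_swap_x] at hstep
  have hsy := hφ y (SameCycle.refl _ _)
  have hc := cycle_const s (fun o => ψ o * (φ o)⁻¹) y (by
    intro o ho hoy
    have hox : o ≠ x := by
      rintro rfl
      exact hxy ho.symm
    have h1 := hψ o (hin o ho)
    rw [mul_swap_z s hox hoy] at h1
    have h2 := hφ o ho
    rw [h1, h2]
    group)
  rw [hstep, hsy] at hc
  have h3 : ψ x * (φ y)⁻¹ = ψ y * (φ y)⁻¹ := by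
    rw [← hc]
    group
  exact mul_right_cancel h3

/-- Soundness half of the lemma of van Kampen. -/
theorem flat_all [Finite O] {ι L : Type*} [AddCommGroup L]
    (ev : ι → L → H) (ev_add : ∀ i x y, ev i (x + y) = ev i x * ev i y)
    (typ : O → ι) (s l : Perm O) (val κ : O → L)
    (hp : Planar l⁻¹ s) (htyp : ∀ o, typ (l o) = typ o)
    (hκ : ∀ o, κ (l o) = κ o + val (l o)) (o0 : O)
    (hflat : FlatOn s (fun o => ev (typ o) (val o)) {o | ¬ SameCycle s o0 o}) :
    Flat s (fun o => ev (typ o) (val o)) := by
  classical
  obtain ⟨d, hd⟩ : ∃ d, d = cyc s := ⟨_, rfl⟩
  induction d using Nat.strong_induction_on generalizing s with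
  | _ d ih =>
    by_cases hle : cs l ≤ cs s
    · exact flat_of_le ev ev_add typ s l val κ hp hle htyp hκ
    · obtain ⟨x, hx⟩ : ∃ x, ¬ SameCycle s x ((l⁻¹ * s) x) := by
        by_contra hcon
        push Not at hcon
        apply hle
        rw [← cs_inv, cs_le_iff]
        intro a
        have h1 := hcon (s⁻¹ a)
        have h2 : (l⁻¹ * s) (s⁻¹ a) = l⁻¹ a := by simp
        rw [h2] at h1
        have h3 : SameCycle s a (s⁻¹ a) := ⟨-1, by simp⟩
        exact h3.trans h1
      obtain ⟨y, hy⟩ : ∃ y, y = (l⁻¹ * s) x := ⟨_, rfl⟩
      rw [← hy] at hx
      have hprod : SameCycle (l⁻¹ * s) x y := by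
        rw [hy]
        exact cs_apply _ x
      have hne : x ≠ y := by
        rintro rfl
        exact hx (SameCycle.refl _ _)
      -- a symmetric statement
      have main : ∀ x y : O, x ≠ y → ¬ SameCycle s x y → SameCycle (l⁻¹ * s) x y →
          ¬ SameCycle s o0 y → Flat s (fun o => ev (typ o) (val o)) := by
        clear hx hy hprod hne x y
        intro x y hne hx hprod hy0
        obtain ⟨φ, hφ⟩ := hflat
        have hp' := planar_merge hp hx hprod
        have hcard := cyc_merge s hx
        have hmerge := merge_same s hx
        have hsup : cs (s * swap x y) = cs s ⊔ pr x y := by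
          rw [← cs_mul_swap_sup]
          exact (sup_pr_of_rel (r := cs _) hmerge).symm
        have hin : ∀ a b, SameCycle s a b → SameCycle (s * swap x y) a b := by
          intro a b h
          have : (cs (s * swap x y)) a b := by
            rw [hsup]
            exact (le_sup_left : cs s ≤ cs s ⊔ pr x y) h
          exact this
        have hφy : ∀ o, SameCycle s y o → φ (s o) = φ o * ev (typ (s o)) (val (s o)) := by
          intro o ho
          exact hφ o (fun h => hy0 (h.trans ho.symm))
        by_cases hx0 : SameCycle s o0 x
        · -- x lies in the special face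
          have hflat' : FlatOn (s * swap x y) (fun o => ev (typ o) (val o))
              {o | ¬ SameCycle (s * swap x y) o0 o} := by
            refine ⟨φ, ?_⟩
            intro o ho
            have h1 : ¬ SameCycle s o0 o := fun h => ho (hin _ _ h)
            have h2 : o ≠ x := by
              rintro rfl
              exact h1 hx0
            have h3 : o ≠ y := by
              rintro rfl
              exact ho ((hin _ _ hx0).trans hmerge)
            rw [mul_swap_z s h2 h3]
            exact hφ o h1
          obtain ⟨ψ, hψ⟩ := ih _ (by omega) (s * swap x y) hp' hflat' rfl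
          have hxy := flat_merge_aux s (fun o => ev (typ o) (val o)) φ ψ x y
            (fun o _ => hψ o) hx hφy
          refine ⟨fun o => if SameCycle s o0 o then ψ o else φ o, ?_⟩
          intro o
          simp only
          by_cases ho : SameCycle s o0 o
          · rw [if_pos ho, if_pos ((sameCycle_apply_right).2 ho)]
            by_cases hox : o = x
            · subst hox
              have := hψ y
              rw [mul_swap_y] at this
              rw [hxy]
              exact this
            · have hoy : o ≠ y := by
                rintro rfl
                exact hy0 ho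
              have := hψ o
              rw [mul_swap_z s hox hoy] at this
              exact this
          · rw [if_neg ho, if_neg (fun h => ho ((sameCycle_apply_right).1 h))]
            exact hφ o ho
        · -- both faces are flat
          have hφx : ∀ o, SameCycle s x o → φ (s o) = φ o * ev (typ (s o)) (val (s o)) := by
            intro o ho
            exact hφ o (fun h => hx0 (h.trans ho.symm))
          have hnew : ∀ o, SameCycle (s * swap x y) o0 o ↔ SameCycle s o0 o := by
            intro o
            constructor
            · intro h
              have h1 : (cs s ⊔ pr x y) o0 o := by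
                rw [← hsup]
                exact h
              rw [sup_pr_iff] at h1
              rcases h1 with h1 | ⟨h1, -⟩ | ⟨h1, -⟩
              · exact h1
              · exact absurd h1 hx0
              · exact absurd h1 hy0
            · exact hin _ _
          have hflat' : FlatOn (s * swap x y) (fun o => ev (typ o) (val o))
              {o | ¬ SameCycle (s * swap x y) o0 o} := by
            refine ⟨fun o => if SameCycle s y o then φ x * (φ y)⁻¹ * φ o else φ o, ?_⟩
            intro o ho
            have ho' : ¬ SameCycle s o0 o := fun h => ho ((hnew o).2 h)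
            simp only
            by_cases h1 : o = x
            · subst h1
              rw [mul_swap_x, if_pos ((sameCycle_apply_right).2 (SameCycle.refl _ _)),
                if_neg (fun h => hx (SameCycle.symm h)), hφy y (SameCycle.refl _ _)]
              group
            · by_cases h2 : o = y
              · subst h2
                rw [mul_swap_y, if_neg (fun h => hx (SameCycle.symm ((sameCycle_apply_right).1 h))),
                  if_pos (SameCycle.refl _ _), hφx x (SameCycle.refl _ _)]
                group
              · rw [mul_swap_z s h1 h2]
                by_cases h3 : SameCycle s y o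
                · rw [if_pos h3, if_pos ((sameCycle_apply_right).2 h3), hφy o h3]
                  simp only [mul_assoc]
                · rw [if_neg h3, if_neg (fun h => h3 ((sameCycle_apply_right).1 h))]
                  exact hφ o ho'
          obtain ⟨ψ, hψ⟩ := ih _ (by omega) (s * swap x y) hp' hflat' rfl
          refine ⟨fun o => if SameCycle s o0 o then ψ o else φ o, ?_⟩
          intro o
          simp only
          by_cases ho : SameCycle s o0 o
          · rw [if_pos ho, if_pos ((sameCycle_apply_right).2 ho)]
            have hox : o ≠ x := by
              rintro rfl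
              exact hx0 ho
            have hoy : o ≠ y := by
              rintro rfl
              exact hy0 ho
            have := hψ o
            rw [mul_swap_z s hox hoy] at this
            exact this
          · rw [if_neg ho, if_neg (fun h => ho ((sameCycle_apply_right).1 h))]
            exact hφ o ho
      by_cases hy0 : SameCycle s o0 y
      · refine main y x hne.symm (fun h => hx h.symm) hprod.symm (fun h => ?_)
        exact hx (h.symm.trans hy0)
      · exact main x y hne hx hprod hy0

end H17ABA
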