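import Pool.Agent.Helper89_ABA.Pres
import Pool.Agent.Helper83_ABA.Conj

/-!
The linear isoperimetric inequality mod 2 and short conjugators from LF (GeomStmt).
-/

open SimpleGraph
open scoped Classical

namespace Pool.Agent.ABA

section loops

variable {L : Type} [AddCommGroup L] {Γ : Type} [Group Γ] (α : Bool → Multiplicative L →* Γ)

/-- The edges of the path of a word (syllables with trivial value are skipped). -/
noncomputable def wE (x : Γ) : Wd L → List (Sym2 Γ)
  | [] => []
  | s :: w => (if pw α s.1 s.2 = 1 then [] else [s(x, x * pw α s.1 s.2)]) ++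
      wE (x * pw α s.1 s.2) w

theorem wE_cons (x : Γ) (s : Bool × L) (w : Wd L) : wE α x (s :: w) =
    wE α x [s] ++ wE α (x * pw α s.1 s.2) w := by
  simp [wE]

theorem wE_append (x : Γ) (u v : Wd L) : wE α x (u ++ v) = wE α x u ++ wE α (x * ev α u) v := by
  induction u generalizing x with
  | nil => simp [wE]
  | cons s u ih =>
    rw [List.cons_append, wE_cons, ih, wE_cons α x s u, ev_cons, List.append_assoc, mul_assoc]

theorem adj_pw (x : Γ) (s : Bool × L) (h : pw α s.1 s.2 ≠ 1) :
    (Cay (α true).range (α false).range).Adj x (x * pw α s.1 s.2) := by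
  refine ⟨fun hh => h (left_eq_mul.1 hh), ?_⟩
  rw [inv_mul_cancel_left]
  obtain ⟨t, k⟩ := s
  cases t
  · right
    exact ⟨_, rfl⟩
  · left
    exact ⟨_, rfl⟩

/-- The walk of a word. -/
theorem exists_walk (x : Γ) (w : Wd L) :
    ∃ p : (Cay (α true).range (α false).range).Walk x (x * ev α w),
      p.edges = wE α x w ∧ p.length ≤ w.length := by
  induction w generalizing x with
  | nil =>
    refine ⟨(Walk.nil : (Cay (α true).range (α false).range).Walk x x).copy rfl
      (by rw [ev_nil, mul_one]), ?_, ?_⟩
    · rw [Walk.edges_copy, Walk.edges_nil]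
      rfl
    · rw [Walk.length_copy]
      exact Nat.zero_le _
  | cons s w ih =>
    obtain ⟨p, hp, hl⟩ := ih (x * pw α s.1 s.2)
    have he : x * pw α s.1 s.2 * ev α w = x * ev α (s :: w) := by rw [ev_cons, mul_assoc]
    by_cases h : pw α s.1 s.2 = 1
    · refine ⟨p.copy (by rw [h, mul_one]) he, ?_, ?_⟩
      · rw [Walk.edges_copy, hp, wE_cons α x s w]
        simp [wE, h]
      · rw [Walk.length_copy, List.length_cons]
        omega
    · refine ⟨(Walk.cons (adj_pw α x s h) p).copy rfl he, ?_, ?_⟩
      · rw [Walk.edges_copy, Walk.edges_cons, hp, wE_cons α x s w]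
        simp [wE, h]
      · rw [Walk.length_copy, Walk.length_cons, List.length_cons]
        omega

theorem exists_loop (x : Γ) (w : Wd L) (h : ev α w = 1) :
    ∃ p : (Cay (α true).range (α false).range).Walk x x,
      p.edges = wE α x w ∧ p.length ≤ w.length := by
  obtain ⟨p, h1, h2⟩ := exists_walk α x w
  refine ⟨p.copy rfl (by rw [h, mul_one]), ?_, ?_⟩
  · rw [Walk.edges_copy, h1]
  · rw [Walk.length_copy]
    exact h2

/-- Walks are words. -/
theorem walk_wd {x y : Γ} (p : (Cay (α true).range (α false).range).Walk x y) :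
    ∃ w : Wd L, w.length = p.length ∧ x * ev α w = y ∧ wE α x w = p.edges := by
  induction p with
  | nil => exact ⟨[], rfl, by rw [ev_nil, mul_one], rfl⟩
  | @cons a b c hab q ih =>
    obtain ⟨w, h1, h2, h3⟩ := ih
    have hne := hab.1
    have hAB := hab.2
    obtain ⟨s, hs⟩ : ∃ s : Bool × L, pw α s.1 s.2 = a⁻¹ * b := by
      rcases hAB with ⟨k, hk⟩ | ⟨k, hk⟩
      · exact ⟨(true, Multiplicative.toAdd k), hk⟩
      · exact ⟨(false, Multiplicative.toAdd k), hk⟩
    have hab' : a * pw α s.1 s.2 = b := by rw [hs, mul_inv_cancel_left]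
    have hs1 : pw α s.1 s.2 ≠ 1 := by
      intro h
      rw [h, mul_one] at hab'
      exact hne hab'
    refine ⟨s :: w, by simp [h1], ?_, ?_⟩
    · rw [ev_cons, ← mul_assoc, hab', h2]
    · rw [wE_cons, hab', h3, Walk.edges_cons]
      simp [wE, hs1, hab']

theorem red_ev {R' : Set (Wd L)} (hR' : ∀ q ∈ R', ev α q = 1) {w : Wd L} {n : ℕ}
    (h : Red R' w n) : ev α w = 1 := by
  induction h with
  | nil => rfl
  | ins u v q n hq _ ih =>
    rw [ev_append, ev_append, hR' q hq, one_mul] at ih
    rw [ev_append]
    exact ih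
  | fold u v t x y n _ ih =>
    rw [ev_append, ev_cons] at ih
    rw [ev_append, ev_cons, ev_cons, ← mul_assoc (pw α _ _), ← pw_add]
    exact ih
  | zero u v t n _ ih =>
    rw [ev_append] at ih
    rw [ev_append, ev_cons]
    simp only [pw_zero, one_mul]
    exact ih
  | rot u v n _ ih => exact ev_rot α ih

/-- A reducible word is a sum mod 2 of short loops. -/
theorem red_loops {R' : Set (Wd L)} (hR' : ∀ q ∈ R', ev α q = 1) {ρ : ℕ}
    (hρ : ∀ q ∈ R', q.length ≤ ρ) (h3 : 3 ≤ ρ) {w : Wd L} {n : ℕ} (h : Red R' w n) (x : Γ) :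
    ∃ cs : List (Σ u : Γ, (Cay (α true).range (α false).range).Walk u u),
      cs.length ≤ n ∧ (∀ c ∈ cs, c.2.length ≤ ρ) ∧
      ∀ e : Sym2 Γ, Even ((wE α x w ++ (cs.map fun c => c.2.edges).flatten).count e) := by
  induction h generalizing x with
  | nil => exact ⟨[], le_rfl, by simp, by simp [wE]⟩
  | ins u v q n hq _ ih =>
    obtain ⟨cs, h1, h2, h4⟩ := ih x
    obtain ⟨p, hp, hpl⟩ := exists_loop α (x * ev α u) q (hR' q hq)
    refine ⟨⟨_, p⟩ :: cs, by simpa using h1, ?_, ?_⟩
    · intro c hc
      rcases List.mem_cons.1 hc with rfl | hc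
      · exact hpl.trans (hρ q hq)
      · exact h2 c hc
    · intro e
      have := h4 e
      rw [wE_append, wE_append, hR' q hq, mul_one] at this
      rw [wE_append, List.map_cons, List.flatten_cons, hp]
      simp only [List.count_append] at this ⊢
      rw [show List.count e (wE α x u) + List.count e (wE α (x * ev α u) v) +
        (List.count e (wE α (x * ev α u) q) +
          List.count e (List.map (fun c => c.snd.edges) cs).flatten) =
        List.count e (wE α x u) + (List.count e (wE α (x * ev α u) q) +
          List.count e (wE α (x * ev α u) v)) +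
          List.count e (List.map (fun c => c.snd.edges) cs).flatten by omega]
      exact this
  | fold u v t k m n _ ih =>
    obtain ⟨cs, h1, h2, h4⟩ := ih x
    obtain ⟨p, hp, hpl⟩ := exists_loop α (x * ev α u) [(t, k), (t, m), (t, -(k + m))] (by
      rw [ev_cons, ev_cons, ev_cons, ev_nil, mul_one]
      simp only [pw_neg, pw_add]
      group)
    refine ⟨⟨_, p⟩ :: cs, by simpa using h1, ?_, ?_⟩
    · intro c hc
      rcases List.mem_cons.1 hc with rfl | hc
      · exact hpl.trans (by simpa using h3)
      · exact h2 c hc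
    · intro e
      have := h4 e
      have e1 : wE α (x * ev α u) ((t, k + m) :: v) = wE α (x * ev α u) [(t, k + m)] ++
          wE α (x * ev α u * pw α t k * pw α t m) v := by
        rw [wE_cons]
        simp only [pw_add, mul_assoc]
      have e2 : wE α (x * ev α u) ((t, k) :: (t, m) :: v) = wE α (x * ev α u) [(t, k), (t, m)] ++
          wE α (x * ev α u * pw α t k * pw α t m) v := by
        have : ((t, k) :: (t, m) :: v) = [(t, k), (t, m)] ++ v := rfl
        rw [this, wE_append, ev_cons, ev_cons, ev_nil, mul_one]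
        simp only [mul_assoc]
      have e3 : wE α (x * ev α u) [(t, k), (t, m), (t, -(k + m))] =
          wE α (x * ev α u) [(t, k), (t, m)] ++ wE α (x * ev α u) [(t, k + m)] := by
        have h5 : [(t, k), (t, m), (t, -(k + m))] = [(t, k), (t, m)] ++ [(t, -(k + m))] := rfl
        rw [h5, wE_append, ev_cons, ev_cons, ev_nil, mul_one, ← pw_add]
        congr 1
        simp only [wE, pw_neg, inv_eq_one, List.append_nil]
        by_cases h6 : pw α t (k + m) = 1
        · rw [if_pos h6, if_pos h6]
        · rw [if_neg h6, if_neg h6, mul_assoc _ (pw α t (k + m)), mul_inv_cancel, mul_one,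
            Sym2.eq_swap]
      rw [wE_append, e1] at this
      rw [wE_append, List.map_cons, List.flatten_cons, hp, e2, e3]
      simp only [List.count_append] at this ⊢
      generalize List.count e (wE α x u) = a at this ⊢
      generalize List.count e (wE α (x * ev α u) [(t, k), (t, m)]) = b at this ⊢
      generalize List.count e (wE α (x * ev α u) [(t, k + m)]) = c at this ⊢
      generalize List.count e (wE α (x * ev α u * pw α t k * pw α t m) v) = d at this ⊢
      generalize List.count e (List.map (fun c => c.snd.edges) cs).flatten = f at this ⊢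
      rw [show a + (b + d) + (b + c + f) = (a + (c + d) + f) + 2 * b by omega]
      exact this.add (even_two_mul b)
  | zero u v t n _ ih =>
    obtain ⟨cs, h1, h2, h4⟩ := ih x
    refine ⟨cs, by omega, h2, ?_⟩
    intro e
    have := h4 e
    rw [wE_append] at this
    rw [wE_append, wE_cons]
    simp only [wE, pw_zero, mul_one, if_true, List.nil_append]
    exact this
  | rot u v n hred ih =>
    obtain ⟨cs, h1, h2, h4⟩ := ih (x * ev α u)
    refine ⟨cs, h1, h2, ?_⟩
    intro e
    have h5 : ev α (u ++ v) = 1 := ev_rot α (red_ev α hR' hred)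
    have := h4 e
    rw [wE_append, mul_assoc, ← ev_append, h5, mul_one] at this
    rw [wE_append]
    simp only [List.count_append] at this ⊢
    rw [add_comm (List.count e (wE α x u))]
    exact this

end loops

theorem presStmt_proved : PresStmt := by
  intro L _ R
  have hlift : Monoid.CoprodI.lift (αP L R) =
      QuotientGroup.mk' (Subgroup.normalClosure (ev (αF L) '' R)) := by
    refine Monoid.CoprodI.ext_hom _ _ (fun t => ?_)
    refine MonoidHom.ext (fun m => ?_)
    exact Monoid.CoprodI.lift_of (M := fun _ : Bool => Multiplicative L) (αP L R) m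
  refine pres_of_ker ?_ ?_
  · rw [hlift]
    exact QuotientGroup.mk'_surjective _
  · rw [hlift]
    exact QuotientGroup.ker_mk' _

/-- the exponent sum -/
theorem exists_deg {L : Type} [AddCommGroup L] (R : Set (Wd L))
    (hR : ∀ r ∈ R, (r.map Prod.snd).sum = 0) :
    ∃ φ : PG L R →* Multiplicative L, ∀ w : Wd L,
      φ (ev (αP L R) w) = Multiplicative.ofAdd (w.map Prod.snd).sum := by
  have key : ∀ w : Wd L, ev (fun _ : Bool => MonoidHom.id (Multiplicative L)) w =
      Multiplicative.ofAdd (w.map Prod.snd).sum := by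
    intro w
    induction w with
    | nil => rfl
    | cons s w ih =>
      rw [ev_cons, ih, List.map_cons, List.sum_cons, ofAdd_add]
      rfl
  refine ⟨QuotientGroup.lift _ (Monoid.CoprodI.lift (fun _ : Bool => MonoidHom.id _)) ?_, ?_⟩
  · intro w hw
    have hle : Subgroup.normalClosure (ev (αF L) '' R) ≤
        (Monoid.CoprodI.lift (fun _ : Bool => MonoidHom.id (Multiplicative L))).ker := by
      refine Subgroup.normalClosure_le_normal ?_
      rintro _ ⟨r, hr, rfl⟩
      show Monoid.CoprodI.lift (fun _ : Bool => MonoidHom.id (Multiplicative L))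
        (ev (αF L) r) = 1
      rw [← ev_factor, key, hR r hr, ofAdd_zero]
    exact hle hw
  · intro w
    have h1 : ev (αP L R) w =
        QuotientGroup.mk' (Subgroup.normalClosure (ev (αF L) '' R)) (ev (αF L) w) := by
      have h2 : ∀ w : Wd L, ev (αP L R) w =
        QuotientGroup.mk' (Subgroup.normalClosure (ev (αF L) '' R)) (ev (αF L) w) := by
        intro w
        induction w with
        | nil => simp
        | cons s w ih =>
          rw [ev_cons, ev_cons, map_mul, ih]
          rfl
      exact h2 w
    rw [h1, ← key, ev_factor (fun _ : Bool => MonoidHom.id (Multiplicative L))]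
    rfl

theorem αP_inj {L : Type} [AddCommGroup L] (R : Set (Wd L))
    (hR : ∀ r ∈ R, (r.map Prod.snd).sum = 0) (t : Bool) : Function.Injective (αP L R t) := by
  obtain ⟨φ, hφ⟩ := exists_deg R hR
  intro m n h
  have h1 : ∀ m : Multiplicative L, φ (αP L R t m) = m := by
    intro m
    have h2 := hφ [(t, Multiplicative.toAdd m)]
    rw [ev_cons, ev_nil, mul_one] at h2
    simpa [pw] using h2
  rw [← h1 m, h, h1 n]

theorem geomStmt_proved : GeomStmt := by
  intro K m
  refine ⟨K + 1 + K * m, max m 3, 2 * (1 + K * m), ?_⟩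
  intro R hm hsum hLF
  have hP : Pres (αP ℤ R) R := presStmt_proved ℤ R
  have hinj := αP_inj R hsum
  have hgen : (αP ℤ R true).range ⊔ (αP ℤ R false).range = ⊤ := by
    rw [Subgroup.eq_top_iff']
    intro x
    obtain ⟨w, rfl⟩ := hP.1 x
    induction w with
    | nil => exact Subgroup.one_mem _
    | cons s w ih =>
      rw [ev_cons]
      refine Subgroup.mul_mem _ ?_ ih
      obtain ⟨t, k⟩ := s
      cases t
      · exact Subgroup.mem_sup_right ⟨_, rfl⟩
      · exact Subgroup.mem_sup_left ⟨_, rfl⟩
  have hconn := Far.cay_connected hgen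
  -- lengths
  have hlen : ∀ w : Wd ℤ, (Cay (αP ℤ R true).range (αP ℤ R false).range).dist 1
      (ev (αP ℤ R) w) ≤ w.length := by
    intro w
    obtain ⟨p, -, hp⟩ := exists_walk (αP ℤ R) 1 w
    have h1 := SimpleGraph.dist_le (p.copy rfl (one_mul _))
    rw [Walk.length_copy] at h1
    exact h1.trans hp
  have hword : ∀ x : PG ℤ R, ∃ w : Wd ℤ, ev (αP ℤ R) w = x ∧ w.length =
      (Cay (αP ℤ R true).range (αP ℤ R false).range).dist 1 x := by
    intro x
    obtain ⟨p, hp⟩ := hconn.exists_walk_length_eq_dist 1 x
    obtain ⟨w, h1, h2, -⟩ := walk_wd (αP ℤ R) p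
    rw [one_mul] at h2
    exact ⟨w, h2, h1.trans hp⟩
  have hconj : ∀ t : Bool, Far.ConjBd (Cay (αP ℤ R true).range (αP ℤ R false).range).dist
      (αP ℤ R t).range (2 * (1 + K * m)) := by
    rintro t y _ ⟨k, rfl⟩ hk
    obtain ⟨w, hw, hwl⟩ := hword (y⁻¹ * αP ℤ R t k * y)
    have hw0 : w ≠ [] := by
      rintro rfl
      rw [ev_nil] at hw
      apply hk
      have : αP ℤ R t k = y * (y⁻¹ * αP ℤ R t k * y) * y⁻¹ := by group
      rw [this, ← hw]
      group
    have hv : ev (αP ℤ R) [(t, Multiplicative.toAdd k)] = αP ℤ R t k := by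
      rw [ev_cons, ev_nil, mul_one]
      rfl
    obtain ⟨y0, h1, h2⟩ := hP.conj_linear hLF hm (w := w) (v := [(t, Multiplicative.toAdd k)])
      (x := y⁻¹) hw0 (by simp) (by rw [hv, hw, inv_inv]) (by rw [hv]; exact hk)
    refine ⟨(ev (αP ℤ R) y0)⁻¹, ?_, ?_⟩
    · have h3 := (Far.met_cay hconn).one_inv (ev (αP ℤ R) y0)
      rw [h3]
      refine (hlen y0).trans (h1.trans ?_)
      rw [hwl, List.length_singleton]
      nlinarith [Nat.zero_le (K * m)]
    · rw [inv_inv, ← hw, h2, hv]
  refine ⟨?_, hconj true, hconj false⟩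
  intro v p
  obtain ⟨w, h1, h2, h3⟩ := walk_wd (αP ℤ R) p
  have hw1 : ev (αP ℤ R) w = 1 := by
    have : v * ev (αP ℤ R) w = v * 1 := by rw [h2, mul_one]
    exact mul_left_cancel this
  by_cases hw0 : w = []
  · subst hw0
    refine ⟨[], by simp, by simp, ?_⟩
    intro e
    rw [← h3]
    simp [wE]
  obtain ⟨Q, hQ, hC⟩ := (hP.2 w).1 hw1
  obtain ⟨Q', hQ', hlenQ, hC'⟩ := hLF [w] (by
    intro u hu
    rw [List.mem_singleton.1 hu]
    exact hw0) Q hQ hC
  have hC'' : Cert (w :: Q') := hC'
  obtain ⟨Ω, _, _, fs, D, hfs⟩ := hC''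
  cases fs with
  | nil => exact absurd hfs (by simp)
  | cons d fs =>
    rw [List.map_cons, List.cons.injEq] at hfs
    obtain ⟨hd, hfs⟩ := hfs
    let R' : Set (Wd ℤ) := {q | ∃ q', q' ~r q ∧ Rel R q'}
    have hR1 : ∀ q ∈ R', ev (αP ℤ R) q = 1 := by
      rintro q ⟨q', hr, hq'⟩
      exact ev_isRotated _ hr (hP.rel hq')
    have hR2 : ∀ q ∈ R', q.length ≤ max m 3 := by
      rintro q ⟨q', hr, hq'⟩
      have h4 : q.length = q'.length := hr.perm.length_eq.symm
      rw [h4]
      rcases hq' with h | h
      · exact (hm _ h).trans (le_max_left _ _)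
      · have := hm _ h
        rw [winv_length] at this
        exact this.trans (le_max_left _ _)
    obtain ⟨n, hn, hred⟩ := FC.red R' (by
      rintro q ⟨q', hr, hq'⟩ q2 h
      exact ⟨q', hr.trans h, hq'⟩) (fs.length + (d :: fs).flatten.length) d fs D (by
      intro e he
      refine ⟨e.map D.lab, List.IsRotated.refl _, hQ' _ ?_⟩
      rw [hfs]
      exact List.mem_map.2 ⟨e, he, rfl⟩) le_rfl
    rw [← hd] at hred
    obtain ⟨cs, hcs1, hcs2, hcs3⟩ := red_loops (αP ℤ R) hR1 hR2 (le_max_right _ _) hred v
    refine ⟨cs, ?_, hcs2, ?_⟩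
    · refine hcs1.trans (hn.trans ?_)
      have e1 : fs.length = Q'.length := by rw [hfs, List.length_map]
      have e2 : d.length = w.length := by rw [hd, List.length_map]
      have e3 : (d :: fs).flatten.length ≤ w.length + Q'.length * m := by
        rw [List.flatten_cons, List.length_append, e2]
        have : fs.flatten.length ≤ fs.length * m := by
          rw [List.length_flatten]
          have h5 : ((fs.map List.length).sum : ℕ) ≤ (fs.map List.length).length • m := by
            refine List.sum_le_card_nsmul _ _ ?_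
            intro n hn
            obtain ⟨e, he, rfl⟩ := List.mem_map.1 hn
            have h6 : e.map D.lab ∈ Q' := by
              rw [hfs]
              exact List.mem_map.2 ⟨e, he, rfl⟩
            rcases hQ' _ h6 with h | h
            · have := hm _ h
              rwa [List.length_map] at this
            · have := hm _ h
              rwa [winv_length, List.length_map] at this
          rw [List.length_map, smul_eq_mul] at h5
          exact h5
        rw [e1] at this
        omega
      have e4 : Q'.length ≤ K * w.length := by simpa using hlenQ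
      rw [e1, ← h1]
      calc Q'.length + (d :: fs).flatten.length ≤ Q'.length + (w.length + Q'.length * m) := by
            omega
        _ ≤ K * w.length + (w.length + (K * w.length) * m) := by gcongr
        _ = (K + 1 + K * m) * w.length := by ring
    · intro e
      rw [← h3]
      exact hcs3 e

end Pool.Agent.ABA
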