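import Pool.Agent.Helper17_ABA.Flat

/-!
Good curves: cycles of a permutation with labels which have a potential; the count of good cycles
under multiplication by a transposition (Lemma CP) and under bypassing a point.
-/

open Equiv Equiv.Perm

namespace H17ABA

variable {O : Type*} {Γ : Type*} [Group Γ]

/-- The cycle of h0 under f, with labels r at the source of the steps, has a potential. -/
def GoodAt (f : Perm O) (r : O → Γ) (h0 : O) : Prop :=
  ∃ F : O → Γ, ∀ h, SameCycle f h0 h → F (f h) = F h * r h

theorem GoodAt.of_same {f : Perm O} {r : O → Γ} {h0 h1 : O} (h : SameCycle f h0 h1)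
    (hg : GoodAt f r h0) : GoodAt f r h1 := by
  obtain ⟨F, hF⟩ := hg
  exact ⟨F, fun z hz => hF z (h.trans hz)⟩

theorem goodAt_iff_of_same {f : Perm O} {r : O → Γ} {h0 h1 : O} (h : SameCycle f h0 h1) :
    GoodAt f r h0 ↔ GoodAt f r h1 := ⟨GoodAt.of_same h, GoodAt.of_same h.symm⟩

/-- The number of good cycles. -/
noncomputable def numGood (f : Perm O) (r : O → Γ) : ℕ :=
  Nat.card {q : Quotient (cs f) // GoodAt f r q.out}

theorem same_out (f : Perm O) (h : O) : SameCycle f (Quotient.mk (cs f) h).out h :=
  Quotient.exact (Quotient.out_eq (Quotient.mk (cs f) h))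

theorem out_same_iff (f : Perm O) (q : Quotient (cs f)) (h : O) :
    SameCycle f q.out h ↔ q = Quotient.mk (cs f) h := by
  constructor
  · intro hh
    rw [← Quotient.out_eq q]
    exact Quotient.sound hh
  · rintro rfl
    exact same_out f h

theorem numGood_le_cyc [Finite O] (f : Perm O) (r : O → Γ) : numGood f r ≤ cyc f :=
  Nat.card_le_card_of_injective (fun q => q.1) Subtype.val_injective

/-- If all labels are trivial all cycles are good. -/
theorem numGood_one [Finite O] (f : Perm O) (r : O → Γ) (hr : ∀ o, r o = 1) :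
    numGood f r = cyc f := by
  refine Nat.card_congr (Equiv.subtypeUnivEquiv (fun q => ?_))
  exact ⟨fun _ => 1, fun h _ => by rw [hr, one_mul]⟩

section swap

variable [DecidableEq O]

/-- Cycles which contain neither a nor b do not change. -/
theorem same_mul_swap_of_not {f : Perm O} {a b h : O} (ha : ¬ SameCycle f h a)
    (hb : ¬ SameCycle f h b) {z : O} (hz : SameCycle (f * swap a b) h z) : SameCycle f h z := by
  have h1 : (cs f ⊔ pr a b) h z := cs_mul_swap_le f a b hz
  rw [sup_pr_iff] at h1
  rcases h1 with h1 | ⟨h1, -⟩ | ⟨h1, -⟩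
  · exact h1
  · exact absurd h1 ha
  · exact absurd h1 hb

theorem goodAt_mul_swap_of_not {f : Perm O} {r r' : O → Γ} {a b h : O}
    (hr : ∀ z, z ≠ a → z ≠ b → r' z = r z) (ha : ¬ SameCycle f h a)
    (hb : ¬ SameCycle f h b) (hg : GoodAt f r h) : GoodAt (f * swap a b) r' h := by
  obtain ⟨F, hF⟩ := hg
  refine ⟨F, fun z hz => ?_⟩
  have h1 := same_mul_swap_of_not ha hb hz
  have hza : z ≠ a := by
    rintro rfl
    exact ha h1
  have hzb : z ≠ b := by
    rintro rfl
    exact hb h1
  rw [mul_swap_z f hza hzb, hr z hza hzb]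
  exact hF z h1

/-- Merging two good cycles gives a good cycle. -/
theorem goodAt_merge {f : Perm O} {r r' : O → Γ} {a b : O} (e : Γ)
    (hr : ∀ z, z ≠ a → z ≠ b → r' z = r z) (hra : r' a = r a * e) (hrb : r' b = r b * e⁻¹)
    (hab : ¬ SameCycle f a b) (ga : GoodAt f r a) (gb : GoodAt f r b) :
    GoodAt (f * swap a b) r' b := by
  classical
  have hne : a ≠ b := by
    rintro rfl
    exact hab (SameCycle.refl _ _)
  obtain ⟨F, hF⟩ := ga
  obtain ⟨G, hG⟩ := gb
  -- potential: F on the cycle of a; c * G on the cycle of b, with c G (f b) = F a r a e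
  let c : Γ := F a * r a * e * (G b * r b)⁻¹
  refine ⟨fun z => if SameCycle f a z then F z else c * G z, fun z hz => ?_⟩
  have hz' : SameCycle f a z ∨ SameCycle f b z := by
    have h1 : (cs f ⊔ pr a b) b z := cs_mul_swap_le f a b hz
    rw [sup_pr_iff] at h1
    rcases h1 with h1 | ⟨h1, -⟩ | ⟨-, h1⟩
    · exact Or.inr h1
    · exact absurd (SameCycle.symm h1) hab
    · exact Or.inl (SameCycle.symm h1)
  simp only
  by_cases hza : z = a
  · subst hza
    rw [mul_swap_x, if_neg (fun h => hab ((sameCycle_apply_right).1 h)),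
      if_pos (SameCycle.refl _ _), hra, hG b (SameCycle.refl _ _)]
    simp only [c]
    group
  · by_cases hzb : z = b
    · subst hzb
      rw [mul_swap_y, if_pos ((sameCycle_apply_right).2 (SameCycle.refl _ _)), if_neg hab, hrb,
        hF a (SameCycle.refl _ _)]
      simp only [c]
      group
    · rw [mul_swap_z f hza hzb, hr z hza hzb]
      rcases hz' with h1 | h1
      · rw [if_pos ((sameCycle_apply_right).2 h1), if_pos h1]
        exact hF z h1
      · have h2 : ¬ SameCycle f a z := fun h => hab (h.trans h1.symm)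
        rw [if_neg (fun h => h2 ((sameCycle_apply_right).1 h)), if_neg h2, hG z h1]
        exact (mul_assoc c (G z) (r z)).symm

/-- Lemma CP. -/
theorem numGood_le_swap [Finite O] {f : Perm O} {r r' : O → Γ} {a b : O} (e : Γ)
    (hr : ∀ z, z ≠ a → z ≠ b → r' z = r z) (hra : r' a = r a * e) (hrb : r' b = r b * e⁻¹) :
    numGood f r ≤ numGood (f * swap a b) r' + 1 := by
  classical
  obtain ⟨c, d, hd, hc⟩ : ∃ (c : Quotient (cs f)) (d : O), (d = a ∨ d = b) ∧
      ∀ q : Quotient (cs f), GoodAt f r q.out → q ≠ c →
      (¬ SameCycle f q.out d ∧ GoodAt (f * swap a b) r' q.out) := by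
    by_cases ha : GoodAt f r a
    · refine ⟨Quotient.mk (cs f) a, a, Or.inl rfl, fun q hq hqc => ?_⟩
      have h1 : ¬ SameCycle f q.out a := fun h => hqc ((out_same_iff f q a).1 h)
      refine ⟨h1, ?_⟩
      by_cases h2 : SameCycle f q.out b
      · have hab : ¬ SameCycle f a b := fun h => h1 (h2.trans h.symm)
        have gb : GoodAt f r b := GoodAt.of_same h2 hq
        have := goodAt_merge e hr hra hrb hab ha gb
        refine GoodAt.of_same ?_ this
        have h3 : cs f ≤ cs (f * swap a b) := by
          have h4 : cs f ≤ cs (f * swap a b) ⊔ pr a b := by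
            rw [cs_mul_swap_sup]
            exact le_sup_left
          rwa [sup_pr_of_rel (r := cs _) (merge_same f hab)] at h4
        exact SameCycle.symm (h3 h2)
      · exact goodAt_mul_swap_of_not hr h1 h2 hq
    · refine ⟨Quotient.mk (cs f) b, b, Or.inr rfl, fun q hq hqc => ?_⟩
      have h1 : ¬ SameCycle f q.out b := fun h => hqc ((out_same_iff f q b).1 h)
      have h2 : ¬ SameCycle f q.out a := fun h => ha (GoodAt.of_same h hq)
      exact ⟨h1, goodAt_mul_swap_of_not hr h2 h1 hq⟩
  have hinj : Function.Injective (fun q : {q : Quotient (cs f) // GoodAt f r q.out ∧ q ≠ c} =>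
      (⟨Quotient.mk (cs (f * swap a b)) q.1.out,
        GoodAt.of_same (same_out _ _).symm (hc q.1 q.2.1 q.2.2).2⟩ :
        {q : Quotient (cs (f * swap a b)) // GoodAt (f * swap a b) r' q.out})) := by
    rintro ⟨q1, hq1, hq1c⟩ ⟨q2, hq2, hq2c⟩ hh
    have h1 : Quotient.mk (cs (f * swap a b)) q1.out = Quotient.mk (cs (f * swap a b)) q2.out :=
      congrArg Subtype.val hh
    have h2 : (cs f ⊔ pr a b) q1.out q2.out := cs_mul_swap_le f a b (Quotient.exact h1)
    rw [sup_pr_iff] at h2
    have n1 := (hc q1 hq1 hq1c).1
    have n2 := (hc q2 hq2 hq2c).1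
    have h3 : q1 = q2 := by
      rcases h2 with h2 | ⟨h2, h2'⟩ | ⟨h2, h2'⟩
      · rw [(out_same_iff f q1 q2.out).1 h2]
        exact Quotient.out_eq q2
      · rcases hd with hd | hd
        · rw [hd] at n1
          exact absurd h2 n1
        · rw [hd] at n2
          exact absurd h2' n2
      · rcases hd with hd | hd
        · rw [hd] at n2
          exact absurd h2' n2
        · rw [hd] at n1
          exact absurd h2 n1
    subst h3
    rfl
  have h1 := Nat.card_le_card_of_injective _ hinj
  have h2 : Nat.card {q : Quotient (cs f) // GoodAt f r q.out} ≤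
      Nat.card (Option {q : Quotient (cs f) // GoodAt f r q.out ∧ q ≠ c}) := by
    refine Nat.card_le_card_of_injective (fun q => if h : q.1 = c then none else
      some ⟨q.1, q.2, h⟩) ?_
    rintro ⟨q1, hq1⟩ ⟨q2, hq2⟩ hh
    by_cases h1 : q1 = c <;> by_cases h2 : q2 = c
    · subst h1
      subst h2
      rfl
    · simp only [dif_pos h1, dif_neg h2] at hh
      exact absurd hh (by simp)
    · simp only [dif_neg h1, dif_pos h2] at hh
      exact absurd hh (by simp)
    · simp only [dif_neg h1, dif_neg h2] at hh
      have := congrArg Subtype.val (Option.some.inj hh)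
      exact Subtype.ext this
  rw [Finite.card_option] at h2
  exact le_trans h2 (Nat.add_le_add_right h1 1)

/-- Bypassing the point b: its predecessor a gets the label r a * r b, and b becomes a fixed point
with trivial label. -/
theorem numGood_bypass [Finite O] {f : Perm O} {r r' : O → Γ} {a b : O} (hne : a ≠ b)
    (hf : f a = b) (hr : ∀ z, z ≠ a → z ≠ b → r' z = r z) (hra : r' a = r a * r b)
    (hrb : r' b = 1) : numGood f r + 1 ≤ numGood (f * swap a b) r' := by
  classical
  have hab : SameCycle f a b := by
    rw [← hf]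
    exact cs_apply f a
  have hfb : (f * swap a b) b = b := by rw [mul_swap_y, hf]
  -- good cycles stay good
  have key : ∀ h, h ≠ b → GoodAt f r h → GoodAt (f * swap a b) r' h := by
    intro h hb ⟨F, hF⟩
    have hsub : ∀ z, SameCycle (f * swap a b) h z → SameCycle f h z ∧ z ≠ b := by
      intro z hz
      refine ⟨?_, ?_⟩
      · have h1 : cs (f * swap a b) ≤ cs f ⊔ pr a b := cs_mul_swap_le f a b
        rw [sup_pr_of_rel (r := cs f) hab] at h1
        exact h1 hz
      · rintro rfl
        exact hb (hz.eq_of_right hfb)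
    refine ⟨F, fun z hz => ?_⟩
    obtain ⟨h1, h2⟩ := hsub z hz
    by_cases hza : z = a
    · subst hza
      rw [mul_swap_x, hra, hF b (h1.trans hab), ← hf, hF z h1, hf, mul_assoc]
    · rw [mul_swap_z f hza h2, hr z hza h2]
      exact hF z h1
  have gb : GoodAt (f * swap a b) r' b := by
    refine ⟨fun _ => 1, fun z hz => ?_⟩
    have : b = z := hz.eq_of_left hfb
    rw [← this, hrb, one_mul]
  -- representatives different from b
  let rep : Quotient (cs f) → O := fun q => if q.out = b then a else q.out
  have hrep : ∀ q, rep q ≠ b := by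
    intro q
    simp only [rep]
    split_ifs with h
    · exact hne
    · exact h
  have hrep' : ∀ q, SameCycle f q.out (rep q) := by
    intro q
    simp only [rep]
    split_ifs with h
    · rw [h]
      exact hab.symm
    · exact SameCycle.refl _ _
  let φ : Option {q : Quotient (cs f) // GoodAt f r q.out} →
      {q : Quotient (cs (f * swap a b)) // GoodAt (f * swap a b) r' q.out} := fun o =>
    match o with
    | none => ⟨Quotient.mk _ b, GoodAt.of_same (same_out _ _).symm gb⟩
    | some q => ⟨Quotient.mk _ (rep q.1), GoodAt.of_same (same_out _ _).symm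
        (key _ (hrep q.1) (GoodAt.of_same (hrep' q.1) q.2))⟩
  have hφ : Function.Injective φ := by
    rintro (_ | ⟨q1, h1⟩) (_ | ⟨q2, h2⟩) hh
    · rfl
    · exfalso
      have h3 : SameCycle (f * swap a b) b (rep q2) := Quotient.exact (congrArg Subtype.val hh)
      exact hrep q2 (h3.eq_of_left hfb).symm
    · exfalso
      have h3 : SameCycle (f * swap a b) (rep q1) b := Quotient.exact (congrArg Subtype.val hh)
      exact hrep q1 (h3.eq_of_right hfb)
    · have h3 : SameCycle (f * swap a b) (rep q1) (rep q2) :=
        Quotient.exact (congrArg Subtype.val hh)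
      have h4 : SameCycle f (rep q1) (rep q2) := by
        have h1 : cs (f * swap a b) ≤ cs f ⊔ pr a b := cs_mul_swap_le f a b
        rw [sup_pr_of_rel (r := cs f) hab] at h1
        exact h1 h3
      have h5 : SameCycle f q1.out q2.out := (hrep' q1).trans (h4.trans (hrep' q2).symm)
      have h6 : q1 = q2 := by
        rw [(out_same_iff f q1 q2.out).1 h5]
        exact Quotient.out_eq q2
      subst h6
      rfl
  have := Nat.card_le_card_of_injective φ hφ
  rw [Finite.card_option] at this
  exact this

end swap

end H17ABA
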