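import Pool.Agent.Helper17_ABA.PDef
import Pool.Agent.Helper89_ABA.Pres

/-!
Identification of the presented group with infinite exponents with an amalgam.
-/

namespace Pool.Agent.ABA

open Monoid

section pull

variable {H K : Type*} [Group H] [Group K] (f : H →* K) (hf : Function.Injective f)
  (A B : Subgroup H)

include hf

theorem R2_pull (h : R2 (A.map f)) : R2 A := by
  intro k x hx hkx hx1
  have h1 := h (f k) (f x) (Subgroup.mem_map_of_mem f hx) (by
    rw [← map_mul, ← map_inv, ← map_mul]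
    exact Subgroup.mem_map_of_mem f hkx) (fun hh => hx1 (hf (hh.trans (map_one f).symm)))
  exact (Subgroup.mem_map_iff_mem hf).1 h1

theorem ne_one_map {x : H} (hx : x ≠ 1) : f x ≠ 1 := fun hh => hx (hf (hh.trans (map_one f).symm))

theorem geo_pull (h : Geo (A.map f) (B.map f)) : Geo A B where
  ab := by
    intro x hx hx'
    have := h.ab (f x) (Subgroup.mem_map_of_mem f hx) (Subgroup.mem_map_of_mem f hx')
    exact hf (this.trans (map_one f).symm)
  aa := R2_pull f hf A h.aa
  bb := R2_pull f hf B h.bb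
  ab' := by
    intro k x hx hkx
    have := h.ab' (f k) (f x) (Subgroup.mem_map_of_mem f hx) (by
      rw [← map_mul, ← map_inv, ← map_mul]
      exact Subgroup.mem_map_of_mem f hkx)
    exact hf (this.trans (map_one f).symm)
  e1 := by
    intro x hx y hy x' hx' y' hy' h1 h2 h3 h4 hh
    refine h.e1 (f x) (Subgroup.mem_map_of_mem f hx) (f y) (Subgroup.mem_map_of_mem f hy) (f x')
      (Subgroup.mem_map_of_mem f hx') (f y') (Subgroup.mem_map_of_mem f hy') (ne_one_map f hf h1)
      (ne_one_map f hf h2) (ne_one_map f hf h3) (ne_one_map f hf h4) ?_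
    rw [← map_mul, ← map_mul, ← map_mul, hh, map_one]
  r3 := by
    intro h₁ h₂ h₃ x₁ x₂ x₃ m1 m2 m3 n1 n2 n3 d1 d2 d3 hh
    refine h.r3 (f h₁) (f h₂) (f h₃) (f x₁) (f x₂) (f x₃) (Subgroup.mem_map_of_mem f m1)
      (Subgroup.mem_map_of_mem f m2) (Subgroup.mem_map_of_mem f m3) (ne_one_map f hf n1)
      (ne_one_map f hf n2) (ne_one_map f hf n3) ?_ ?_ ?_ ?_
    · rw [← map_inv, ← map_mul, Subgroup.mem_map_iff_mem hf]
      exact d1
    · rw [← map_inv, ← map_mul, Subgroup.mem_map_iff_mem hf]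
      exact d2
    · rw [← map_inv, ← map_mul, Subgroup.mem_map_iff_mem hf]
      exact d3
    · simp only [← map_mul, ← map_inv]
      rw [hh, map_one]
  t2 := by
    intro k hk
    have := h.t2 (f k) (by rw [← map_mul, hk, map_one])
    exact hf (this.trans (map_one f).symm)
  el := by
    intro k x hx y hy h1 h2 hh
    refine h.el (f k) (f x) (Subgroup.mem_map_of_mem f hx) (f y) (Subgroup.mem_map_of_mem f hy)
      (ne_one_map f hf h1) (ne_one_map f hf h2) ?_
    simp only [← map_mul, ← map_inv]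
    rw [hh]
  e6 := by
    intro k hk x₁ m1 y₁ m1' x₂ m2 y₂ m2' x₃ m3 y₃ m3' n1 n1' n2 n2' n3 n3' hh
    refine h.e6 (f k) ?_ (f x₁) (Subgroup.mem_map_of_mem f m1) (f y₁)
      (Subgroup.mem_map_of_mem f m1') (f x₂) (Subgroup.mem_map_of_mem f m2) (f y₂)
      (Subgroup.mem_map_of_mem f m2') (f x₃) (Subgroup.mem_map_of_mem f m3) (f y₃)
      (Subgroup.mem_map_of_mem f m3') (ne_one_map f hf n1) (ne_one_map f hf n1')
      (ne_one_map f hf n2) (ne_one_map f hf n2') (ne_one_map f hf n3) (ne_one_map f hf n3') ?_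
    · rintro ⟨a, ⟨a0, ha0, rfl⟩, b, ⟨b0, hb0, rfl⟩, c, ⟨c0, hc0, rfl⟩, hh⟩
      rw [← map_mul, ← map_mul] at hh
      exact hk ⟨a0, ha0, b0, hb0, c0, hc0, hf hh⟩
    · simp only [← map_mul, ← map_inv]
      rw [hh, map_one]

end pull

section ident

variable (R : Set (Wd ℤ)) (g : Wd ℤ) {Λ : Type} [AddCommGroup Λ] (c : ℤ →+ Λ) (x y z : Λ)

theorem ev_wmap {L L' : Type} [AddCommGroup L] [AddCommGroup L'] {Γ : Type} [Group Γ]
    (α : Bool → Multiplicative L' →* Γ) (c : L →+ L') (w : Wd L) :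
    ev α (wmap c w) = ev (fun t => (α t).comp (AddMonoidHom.toMultiplicative c)) w := by
  induction w with
  | nil => rfl
  | cons s w ih =>
    have h1 : wmap c (s :: w) = (s.1, c s.2) :: wmap c w := rfl
    rw [h1, ev_cons, ev_cons, ih]
    rfl

theorem ev_comp17 {L : Type} [AddCommGroup L] {Γ Γ' : Type} [Group Γ] [Group Γ']
    (α : Bool → Multiplicative L →* Γ) (f : Γ →* Γ') (w : Wd L) :
    f (ev α w) = ev (fun t => f.comp (α t)) w := by
  induction w with
  | nil => simp
  | cons s w ih =>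
    rw [ev_cons, ev_cons, map_mul, ih]
    rfl

/-- A homomorphism out of a presented group. -/
def PGlift {L : Type} [AddCommGroup L] (R : Set (Wd L)) {K : Type} [Group K]
    (β : Bool → Multiplicative L →* K) (hβ : ∀ r ∈ R, ev β r = 1) : PG L R →* K :=
  QuotientGroup.lift _ (Monoid.CoprodI.lift β) (by
    intro w hw
    have hle : Subgroup.normalClosure (ev (αF L) '' R) ≤ (Monoid.CoprodI.lift β).ker := by
      refine Subgroup.normalClosure_le_normal ?_
      rintro _ ⟨r, hr, rfl⟩
      show Monoid.CoprodI.lift β (ev (αF L) r) = 1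
      rw [← ev_factor]
      exact hβ r hr
    exact hle hw)

theorem PGlift_α {L : Type} [AddCommGroup L] (R : Set (Wd L)) {K : Type} [Group K]
    (β : Bool → Multiplicative L →* K) (hβ : ∀ r ∈ R, ev β r = 1) (t : Bool) :
    (PGlift R β hβ).comp (αP L R t) = β t := by
  refine MonoidHom.ext (fun m => ?_)
  exact Monoid.CoprodI.lift_of (M := fun _ : Bool => Multiplicative L) β m

theorem PGlift_ev {L : Type} [AddCommGroup L] (R : Set (Wd L)) {K : Type} [Group K]
    (β : Bool → Multiplicative L →* K) (hβ : ∀ r ∈ R, ev β r = 1) (w : Wd L) :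
    PGlift R β hβ (ev (αP L R) w) = ev β w := by
  rw [ev_comp17]
  have h : (fun t => (PGlift R β hβ).comp (αP L R t)) = β := funext (PGlift_α R β hβ)
  rw [h]

theorem PG_hom_ext {L : Type} [AddCommGroup L] {R : Set (Wd L)} {K : Type} [Group K]
    {f f' : PG L R →* K} (h : ∀ t, f.comp (αP L R t) = f'.comp (αP L R t)) : f = f' := by
  refine QuotientGroup.monoidHom_ext _ ?_
  refine Monoid.CoprodI.ext_hom _ _ (fun t => ?_)
  exact h t

theorem ev_αP_one {L : Type} [AddCommGroup L] (R : Set (Wd L)) {r : Wd L} (hr : r ∈ R) :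
    ev (αP L R) r = 1 := by
  have h1 : ev (αP L R) r =
      QuotientGroup.mk' (Subgroup.normalClosure (ev (αF L) '' R)) (ev (αF L) r) := by
    rw [ev_comp17]
    rfl
  rw [h1]
  exact (QuotientGroup.eq_one_iff _).2 (Subgroup.subset_normalClosure ⟨r, hr, rfl⟩)

/-- The homomorphism from G to the group with infinite exponents. -/
def Gmap : PG ℤ R →* PG Λ (Rnew R g c x y z) :=
  PGlift R (fun t => (αP Λ (Rnew R g c x y z) t).comp (AddMonoidHom.toMultiplicative c)) (by
    intro r hr
    rw [← ev_wmap]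
    exact ev_αP_one _ (Or.inl ⟨r, hr, rfl⟩))

theorem Gmap_ev (w : Wd ℤ) : Gmap R g c x y z (ev (αP ℤ R) w) =
    ev (αP Λ (Rnew R g c x y z)) (wmap c w) := by
  rw [Gmap, PGlift_ev, ev_wmap]

theorem Gmap_α (t : Bool) (k : ℤ) : Gmap R g c x y z (αP ℤ R t (Multiplicative.ofAdd k)) =
    αP Λ (Rnew R g c x y z) t (Multiplicative.ofAdd (c k)) := by
  have := DFunLike.congr_fun (PGlift_α R (fun t => (αP Λ (Rnew R g c x y z) t).comp
    (AddMonoidHom.toMultiplicative c)) (by
    intro r hr
    rw [← ev_wmap]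
    exact ev_αP_one _ (Or.inl ⟨r, hr, rfl⟩)) t) (Multiplicative.ofAdd k)
  exact this

theorem Gmap_g : Gmap R g c x y z (ev (αP ℤ R) g) =
    pw (αP Λ (Rnew R g c x y z)) true x * pw (αP Λ (Rnew R g c x y z)) false y *
      pw (αP Λ (Rnew R g c x y z)) true z := by
  rw [Gmap_ev]
  have h := ev_αP_one (Rnew R g c x y z) (r := Tw (wmap c g) x y z) (Or.inr rfl)
  rw [Tw, ev_append, ev_winv, mul_inv_eq_one] at h
  rw [← h, ev_cons, ev_cons, ev_cons, ev_nil, mul_one, mul_assoc]

theorem range_comm17 {L Γ : Type} [AddCommGroup L] [Group Γ] (α : Multiplicative L →* Γ)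
    (m n : Multiplicative L) : α m * α n = α n * α m := by
  rw [← map_mul, mul_comm, map_mul]

/-- The homomorphism from P to the group with infinite exponents. -/
def Pmap : PP (αP ℤ R true).range (αP ℤ R false).range (ev (αP ℤ R) g) →*
    PG Λ (Rnew R g c x y z) :=
  Plift _ _ _ (Gmap R g c x y z) (pw (αP Λ (Rnew R g c x y z)) true x)
    (pw (αP Λ (Rnew R g c x y z)) true z) (pw (αP Λ (Rnew R g c x y z)) false y)
    (range_comm17 _ _ _)
    (by
      rintro _ ⟨k, rfl⟩
      rw [← ofAdd_toAdd k, Gmap_α]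
      exact range_comm17 _ _ _)
    (by
      rintro _ ⟨k, rfl⟩
      rw [← ofAdd_toAdd k, Gmap_α]
      exact range_comm17 _ _ _)
    (by
      rintro _ ⟨k, rfl⟩
      rw [← ofAdd_toAdd k, Gmap_α]
      exact range_comm17 _ _ _)
    (Gmap_g R g c x y z)

theorem Pmap_ι (w : PG ℤ R) : Pmap R g c x y z (Pι _ _ _ w) = Gmap R g c x y z w :=
  Plift_ι _ _ _ _ _ _ _ _ _ _ _ _ w

theorem Pmap_u : Pmap R g c x y z (Pu _ _ _) = pw (αP Λ (Rnew R g c x y z)) true x :=
  Plift_u _ _ _ _ _ _ _ _ _ _ _ _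

theorem Pmap_v : Pmap R g c x y z (Pv _ _ _) = pw (αP Λ (Rnew R g c x y z)) true z :=
  Plift_v _ _ _ _ _ _ _ _ _ _ _ _

theorem Pmap_c : Pmap R g c x y z (Pc _ _ _) = pw (αP Λ (Rnew R g c x y z)) false y :=
  Plift_c _ _ _ _ _ _ _ _ _ _ _ _

/-- IDENT: if the group Y receives P and two copies of Λ compatibly, and maps back to the
presented group, then the geometric properties of Y are inherited by the presented group. -/
theorem ident {Y : Type} [Group Y]
    (jP : PP (αP ℤ R true).range (αP ℤ R false).range (ev (αP ℤ R) g) →* Y)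
    (jL : Bool → Multiplicative Λ →* Y)
    (hc : ∀ (t : Bool) (k : ℤ), jL t (Multiplicative.ofAdd (c k)) =
      jP (Pι _ _ _ (αP ℤ R t (Multiplicative.ofAdd k))))
    (hu : jL true (Multiplicative.ofAdd x) = jP (Pu _ _ _))
    (hv : jL true (Multiplicative.ofAdd z) = jP (Pv _ _ _))
    (hcc : jL false (Multiplicative.ofAdd y) = jP (Pc _ _ _))
    (back : Y →* PG Λ (Rnew R g c x y z))
    (hback : ∀ t, back.comp (jL t) = αP Λ (Rnew R g c x y z) t)
    (hgeo : Geo (jL true).range (jL false).range) :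
    Geo (αP Λ (Rnew R g c x y z) true).range (αP Λ (Rnew R g c x y z) false).range := by
  have hev : ∀ w : Wd ℤ, ev jL (wmap c w) = jP (Pι _ _ _ (ev (αP ℤ R) w)) := by
    intro w
    have h1 : jP (Pι (αP ℤ R true).range (αP ℤ R false).range (ev (αP ℤ R) g)
        (ev (αP ℤ R) w)) = (jP.comp (Pι _ _ _)) (ev (αP ℤ R) w) := rfl
    rw [ev_wmap, h1, ev_comp17]
    congr 1
    funext t
    refine MonoidHom.ext (fun k => ?_)
    exact hc t (Multiplicative.toAdd k)
  have hrel : ∀ r ∈ Rnew R g c x y z, ev jL r = 1 := by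
    rintro r (⟨r, hr, rfl⟩ | rfl)
    · rw [hev, ev_αP_one R hr, map_one, map_one]
    · rw [Tw, ev_append, ev_winv, hev, P_g, ev_cons, ev_cons, ev_cons, ev_nil, mul_one]
      show jL true (Multiplicative.ofAdd x) * (jL false (Multiplicative.ofAdd y) *
        jL true (Multiplicative.ofAdd z)) * _ = 1
      rw [hu, hv, hcc, map_mul, map_mul]
      group
  let f : PG Λ (Rnew R g c x y z) →* Y := PGlift _ jL hrel
  have hf1 : ∀ t, f.comp (αP Λ (Rnew R g c x y z) t) = jL t := fun t => PGlift_α _ _ _ t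
  have hf : Function.Injective f := by
    have h1 : back.comp f = MonoidHom.id _ := by
      refine PG_hom_ext (fun t => ?_)
      rw [MonoidHom.comp_assoc, hf1, hback]
      rfl
    have h2 : Function.LeftInverse back f := fun w => DFunLike.congr_fun h1 w
    exact h2.injective
  refine geo_pull f hf _ _ ?_
  rw [← MonoidHom.range_comp, ← MonoidHom.range_comp, hf1, hf1]
  exact hgeo

end ident

end Pool.Agent.ABA
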