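import Pool.Agent.Helper17_ABA.LobeDefs
import Pool.Agent.Helper49_ABB.Walk

/-!
Lobes, part 1: existence of the minimal disc, flat sides (module LOBE, MP_d857f1_al, part B).
-/

set_option autoImplicit false

namespace Pool.Agent.ABA.B.H17

open Knd Pool.Agent.ABA Pool.Agent.ABA.B Pool.Agent.ABA.B.TG Pool.Agent.ABA.B.H49
  Pool.Agent.ABA.B.H50 Pool.Agent.ABA.B.H89

theorem exists_DW : ExDWStmt := by
  intro V E S M hSC w hcl hpf hw0 hnb
  obtain ⟨a, W, I, h1, h2, h3, h4⟩ := bdyM M hSC w hcl hpf hw0 hnb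
  exact ⟨a, W, I, h1, h2, h3, h4⟩

/-! ## closed words -/

theorem cl_split {V E : Type} {S : TG V E} {l s r : List E} (h : S.Cl (l ++ s ++ r)) :
    ∃ x y z, S.IsP x l y ∧ S.IsP y s z ∧ S.IsP z r x := by
  obtain ⟨x, h⟩ := h
  obtain ⟨z, h1, h2⟩ := isP_append.1 h
  obtain ⟨y, h3, h4⟩ := isP_append.1 h1
  exact ⟨x, y, z, h3, h4, h2⟩

variable {G : Type} [Group G] {A B : Subgroup G} {g : G}
variable {hg : ¬ IsABA A B g} {hgeo : Geo A B} {hι : Function.Injective (Pι A B g)}

theorem tri_line {e f1 f2 : XE A B g} {m : Bool} {q : PP A B g} (he : e = eC m q)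
    (ht : (XX hg hgeo hι).Tri e f1 f2) : (∃ m' q', f1 = eA m' q') ∧ ∃ m' q', f2 = eA m' q' := by
  subst he
  rcases XT.elim' ht with ⟨m, q, h, -, -⟩ | ⟨m, q, h, -, -⟩ | ⟨q, h, -, -⟩ | ⟨q, h, -, -⟩ |
    ⟨q, -, h1, h2⟩ | ⟨q, h, -, -⟩ | ⟨q, h, -, -⟩ | ⟨q, -, h1, h2⟩
  all_goals first
    | exact ⟨⟨_, _, h1⟩, ⟨_, _, h2⟩⟩
    | (exfalso
       have := congrArg kndE h
       rw [kndE_eC, kndE_eA] at this
       exact kndD_ne_kndC this.symm)

/-- the letters before and after a letter of a carrier, if the triangle cannot be pushed inside the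
carrier -/
theorem letter_out {e f1 f2 : XE A B g} (ht : (XX hg hgeo hι).Tri e f1 f2)
    (h : ¬ (car f1 = car e ∧ car f2 = car e)) : car f1 ≠ car e ∧ car f2 ≠ car e := by
  rcases car_cases (car e) with ⟨q, hq⟩ | ⟨q, hq⟩
  · obtain ⟨m, q', he⟩ := plane_letter hq
    constructor
    · intro h1; exact h ⟨h1, tri_car he ht h1⟩
    · intro h1; exact h ⟨tri_car' he ht h1, h1⟩
  · obtain ⟨m, q', he⟩ := line_letter hq
    obtain ⟨⟨m1, q1, h1⟩, ⟨m2, q2, h2⟩⟩ := tri_line he ht
    rw [hq, h1, h2]
    exact ⟨fun h => plane_ne_line h, fun h => plane_ne_line h⟩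

/-- the walk at the start of the letter `i + 1` -/
theorem DW.wk {V E : Type} {S : TG V E} {w : List E} {a : ℕ → E} {W : ℕ → List E}
    {I : List (List E)} (h : DW S w a W I) (i : ℕ) : Wk S (W (i + 1)) (S.inv (a i)) (a (i + 1)) := by
  obtain ⟨f1, f2, l, r, hT, h1, h2⟩ := h.bd.edg i
  obtain ⟨g1, g2, l', r', hT', h1', h2'⟩ := h.bd.edg (i + 1)
  refine ⟨h.bd.chain _, by rw [h2]; rfl, by rw [h1']; simp⟩

theorem DW.two {V E : Type} {S : TG V E} {w : List E} {a : ℕ → E} {W : ℕ → List E}
    {I : List (List E)} (h : DW S w a W I) (i : ℕ) : 2 ≤ (W i).length := by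
  obtain ⟨f1, f2, l, r, hT, h1, h2⟩ := h.bd.edg i
  rw [h1]; simp

theorem FlatMin.letter {c : Car A B g} {x y : XV A B g} {l s r w : List (XE A B g)}
    {a : ℕ → XE A B g} {W : ℕ → List (XE A B g)} {I : List (List (XE A B g))}
    (hw : w = l ++ s ++ r) (hD : DW (XX hg hgeo hι) w a W I)
    (hF : FlatMin hg hgeo hι c x y l s r) (i : ℕ) (h1 : l.length ≤ i)
    (h2 : i < l.length + s.length) : ∃ s1 s2, s = s1 ++ a i :: s2 ∧ i = l.length + s1.length := by
  obtain ⟨j, rfl⟩ : ∃ j, i = l.length + j := ⟨i - l.length, by omega⟩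
  have hj : j < s.length := by omega
  refine ⟨s.take j, s.drop (j + 1), ?_, by rw [List.length_take]; omega⟩
  have h3 : a (l.length + j) = s[j] := by
    have h4 : l.length + j < w.length := by rw [hw]; simp; omega
    rw [hD.get _ h4]
    simp only [hw, List.append_assoc]
    rw [List.getElem_append_right (by omega), List.getElem_append_left (by omega)]
    simp
  rw [h3, List.getElem_cons_drop, List.take_append_drop]

theorem flat_ : FlatStmt hg hgeo hι := by
  intro hA M hSC c x y l s r w a W I hw hcl hD hF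
  have key : ∀ i, l.length ≤ i → i < l.length + s.length → TLst (W i) ∧ TFst (W (i + 1)) := by
    intro i h1 h2
    obtain ⟨s1, s2, hs, hi⟩ := FlatMin.letter hw hD hF i h1 h2
    obtain ⟨f1, f2, L, R, hT, e1, e2⟩ := hD.bd.edg i
    have hc : car (a i) = c := hF.side.2 _ (by rw [hs]; simp)
    have h3 := letter_out hT (by
      rintro ⟨c1, c2⟩
      have hiw : i < w.length := by rw [hw]; simp; omega
      have e3 : w[i] = a i := (hD.get i hiw).symm
      have h4 := hD.red i hiw f1 f2 L (by rw [e3]; exact hT) (by rw [e3]; exact e1)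
      have e4 : w = (l ++ s1) ++ a i :: (s2 ++ r) := by rw [hw, hs]; simp
      have e5 : i = (l ++ s1).length := by rw [List.length_append]; exact hi
      have e6 : w.take i ++ f1 :: f2 :: w.drop (i + 1) = l ++ (s1 ++ f1 :: f2 :: s2) ++ r := by
        conv_lhs => rw [e4, e5]
        rw [List.take_left', List.drop_append]
        · simp
        · rfl
      rw [e6] at h4
      have h5 := (hF.min (s1 ++ f1 :: f2 :: s2) ?_).1
      · rw [hw] at h4; omega
      · have hp := hF.side.1
        rw [hs] at hp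
        obtain ⟨u, p1, p2⟩ := isP_append.1 hp
        refine ⟨isP_append.2 ⟨u, p1, ?_, ?_, ?_⟩, ?_⟩
        · rw [(XX hg hgeo hι).tri_src hT]; exact p2.1
        · exact (XX hg hgeo hι).tri_mid hT
        · rw [Tri.tgt' hT]; exact p2.2
        · intro e he
          rcases List.mem_append.1 he with he | he
          · exact hF.side.2 _ (by rw [hs]; simp [he])
          · rcases List.mem_cons.1 he with rfl | he
            · rw [c1, hc]
            · rcases List.mem_cons.1 he with rfl | he
              · rw [c2, hc]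
              · exact hF.side.2 _ (by rw [hs]; simp [he]))
    constructor
    · exact ⟨L, f1, a i, e1, h3.1⟩
    · refine ⟨xinv (a i), xinv f2, R, e2, ?_⟩
      rw [car_inv, car_inv]; exact h3.2
  refine ⟨key, ?_, ?_⟩
  · intro i h1 h2
    obtain ⟨j, rfl⟩ : ∃ j, i = j + 1 := ⟨i - 1, by omega⟩
    rw [Nat.add_sub_cancel]
    obtain ⟨s1, s2, hs, hi⟩ := FlatMin.letter hw hD hF j (by omega) (by omega)
    obtain ⟨t1, t2, ht, hi'⟩ := FlatMin.letter hw hD hF (j + 1) (by omega) (by omega)
    have hc : car (a j) = c := hF.side.2 _ (by rw [hs]; simp)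
    have hc' : car (a (j + 1)) = c := hF.side.2 _ (by rw [ht]; simp)
    have hs2 : ∃ s3, s2 = a (j + 1) :: s3 := by
      have e1 : s1 ++ [a j] ++ s2 = t1 ++ a (j + 1) :: t2 := by
        rw [← ht]; simp [hs]
      have e2 : (s1 ++ [a j]).length = t1.length := by simp; omega
      obtain ⟨-, e3⟩ := List.append_inj e1 e2
      exact ⟨t2, e3⟩
    obtain ⟨s3, hs3⟩ := hs2
    have hne : a (j + 1) ≠ xinv (a j) := by
      intro he
      rw [hs3, he] at hs
      have hp := hF.side.1
      rw [hs] at hp
      obtain ⟨u, p1, p2⟩ := isP_append.1 hp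
      have hm := hF.min (s1 ++ s3) ⟨isP_append.2 ⟨u, p1, by
          have p3 := p2.2.2
          have p4 : (XX hg hgeo hι).tgt (xinv (a j)) = u := by
            have : (XX hg hgeo hι).tgt ((XX hg hgeo hι).inv (a j)) = (XX hg hgeo hι).src (a j) :=
              (XX hg hgeo hι).tgt_inv _
            rw [← p2.1]; exact this
          rw [p4] at p3; exact p3⟩, by
          intro e he
          rcases List.mem_append.1 he with he | he
          · exact hF.side.2 _ (by rw [hs]; simp [he])
          · exact hF.side.2 _ (by rw [hs]; simp [he])⟩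
      have hcl' : (XX hg hgeo hι).Cl ((l ++ s1) ++ a j :: xinv (a j) :: (s3 ++ r)) := by
        rw [hw, hs] at hcl
        simpa using hcl
      have h3 : (XX hg hgeo hι).ar ((l ++ s1) ++ (s3 ++ r)) ≤
          (XX hg hgeo hι).ar ((l ++ s1) ++ a j :: xinv (a j) :: (s3 ++ r)) :=
        (M.area _ _ _ hSC).2.2.2.2.2.1 _ _ _ hcl'
      have h4 := hm.2 (by
        rw [hs]
        simpa using h3)
      rw [hs] at h4
      simp at h4
    have hwk := hD.wk j
    have hT := (key j (by omega) (by omega)).2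
    have hT' := (key (j + 1) (by omega) (by omega)).1
    have hcc : car (xinv (a j)) = car (a (j + 1)) := by rw [car_inv, hc, hc']
    have hne' : xinv (a j) ≠ a (j + 1) := fun h => hne h.symm
    have hpl : IsPl c → vl W (j + 1) ≤ -2 := by
      rintro ⟨q, rfl⟩
      obtain ⟨m, q', hm⟩ := plane_letter (e := xinv (a j)) (q := q) (by rw [car_inv]; exact hc)
      have h3 := (tw_ G A B g hg hgeo hι hA (W (j + 1)) (xinv (a j)) (a (j + 1)) hwk hT hT' (by
        rw [hm, kndE_eA, kndD_isH]) hcc hne').1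
      unfold vl; omega
    refine ⟨hne, ?_, hpl⟩
    rcases car_cases c with h | ⟨q, rfl⟩
    · have := hpl h; omega
    · obtain ⟨m, q', hm⟩ := line_letter (e := xinv (a j)) (q := q) (by rw [car_inv]; exact hc)
      obtain ⟨m', q'', hm'⟩ := line_letter hc'
      have h3 := ll_ G A B g hg hgeo hι (W (j + 1)) (xinv (a j)) (a (j + 1)) hwk (by
        rw [hm, kndE_eC, kndC_isH]) (by rw [hm', kndE_eC, kndC_isH]) hcc hne'
      unfold vl; omega
  · intro s1 p s2 hs hp hp0
    by_contra hcon
    push Not at hcon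
    have h1 := hF.min (s1 ++ s2) ⟨by
        have hq := hF.side.1
        rw [hs] at hq
        obtain ⟨v, q1, q2⟩ := isP_append.1 hq
        obtain ⟨u, q3, q4⟩ := isP_append.1 q1
        obtain ⟨o, ho⟩ := hp
        have : u = v := by
          cases p with
          | nil => exact absurd rfl hp0
          | cons e p =>
            have e1 : u = o := q4.1.symm.trans ho.1
            subst e1
            exact ho.eq q4
        subst this
        exact isP_append.2 ⟨_, q3, q2⟩, by
        intro e he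
        refine hF.side.2 _ ?_
        rw [hs]
        rcases List.mem_append.1 he with he | he <;> simp [he]⟩
    have h2 := h1.2 hcon
    rw [hs] at h2
    have := List.length_pos_iff.2 hp0
    simp only [List.length_append] at h2
    omega

theorem lobeFlat_ : LobeFlatStmt hg hgeo hι := by
  intro c z p k l γ s r h hz
  obtain ⟨y, h1, h2, h3⟩ := h.lob.mid
  refine ⟨y, h1, h2, h3, ?_⟩
  intro s' hs'
  have h4 := h.min γ s' ⟨h.lob.len, ⟨y, h1, h2, hs'⟩, fun hr => absurd hr hz⟩
  unfold lobe at h4
  simpa [List.append_assoc] using h4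

theorem intF_ : IntFStmt hg hgeo hι := by
  intro hA M hSC c x y l s r w a W I hw hcl hD hF hs
  obtain ⟨-, h2, -⟩ := flat_ hA M hSC c x y l s r w a W I hw hcl hD hF
  have hl := List.length_pos_iff.2 hs
  unfold vsum
  have hcard : ((Finset.Ico (l.length + 1) (l.length + s.length)).card : ℤ) = (s.length : ℤ) - 1 := by
    rw [Nat.card_Ico]; push_cast; omega
  constructor
  · intro hc
    have := Finset.sum_le_card_nsmul (Finset.Ico (l.length + 1) (l.length + s.length)) (vl W) (-2)
      (fun i hi => by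
        rw [Finset.mem_Ico] at hi
        exact (h2 i (by omega) (by omega)).2.2 hc)
    rw [nsmul_eq_mul, hcard] at this
    linarith
  · have := Finset.sum_le_card_nsmul (Finset.Ico (l.length + 1) (l.length + s.length)) (vl W) (-1)
      (fun i hi => by
        rw [Finset.mem_Ico] at hi
        exact (h2 i (by omega) (by omega)).2.1)
    rw [nsmul_eq_mul, hcard] at this
    linarith

end Pool.Agent.ABA.B.H17
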