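import Pool.Agent.Helper17_ABA.Lobe1
import Pool.Agent.Helper70_ABA.Exc2

/-!
Lobes, part 2: the feet of a lobe (module LOBE, MP_d857f1_al, part B).
-/

set_option autoImplicit false

namespace Pool.Agent.ABA.B.H17

open Knd Pool.Agent.ABA Pool.Agent.ABA.B Pool.Agent.ABA.B.TG Pool.Agent.ABA.B.H49
  Pool.Agent.ABA.B.H50 Pool.Agent.ABA.B.H89 Pool.Agent.ABA.B.H83

theorem DW.at {V E : Type} {S : TG V E} {w : List E} {a : ℕ → E} {W : ℕ → List E}
    {I : List (List E)} (h : DW S w a W I) {u v : List E} {e : E} {n : ℕ} (hw : w = u ++ e :: v)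
    (hn : n = u.length) : a n = e := by
  subst hn
  have h1 : u.length < w.length := by rw [hw]; simp
  rw [h.get _ h1]
  simp [hw]

variable {G : Type} [Group G] {A B : Subgroup G} {g : G}
variable {hg : ¬ IsABA A B g} {hgeo : Geo A B} {hι : Function.Injective (Pι A B g)}

/-- the last letter of the slit and the foot -/
theorem LobeMin.last {c : Car A B g} {z : PP A B g} {p : XV A B g} {k : ℕ}
    {l γ s r : List (XE A B g)} (h : LobeMin hg hgeo hι c z p k l γ s r) (hk : 1 ≤ k) :
    ∃ γ0 f, γ = γ0 ++ [f] ∧ γ0.length + 1 = k ∧ On c (xsrc (xinv f)) ∧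
      (XX hg hgeo hι).IsP p γ (xsrc (xinv f)) ∧
      SideP hg hgeo hι c (xsrc (xinv f)) (z • xsrc (xinv f)) s ∧
      car f ≠ c ∧ (XX hg hgeo hι).IsP p γ0 (xsrc f) := by
  obtain ⟨y, h1, h2, h3⟩ := h.lob.mid
  have hl := h.lob.len
  obtain ⟨γ0, f, rfl⟩ : ∃ γ0 f, γ = γ0 ++ [f] := by
    have hne : γ ≠ [] := by
      rintro rfl
      simp at hl; omega
    exact ⟨γ.dropLast, γ.getLast hne, (List.dropLast_append_getLast hne).symm⟩
  obtain ⟨x, p1, p2⟩ := isP_append.1 h2
  have p3 : (XX hg hgeo hι).src f = x := p2.1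
  have p4 : (XX hg hgeo hι).tgt f = y := p2.2
  subst p3; subst p4
  have hl' : γ0.length + 1 = k := by simpa using hl
  refine ⟨γ0, f, rfl, hl', h1, h2, h3, ?_, p1⟩
  intro hc
  have h5 : On c (xsrc f) := by rw [← hc]; exact On_src f
  have h6 := dVC_path (hg := hg) (hgeo := hgeo) (hι := hι) h5 p1
  have h7 := h.dist
  omega

theorem lobe_eq (z : PP A B g) (γ0 s : List (XE A B g)) (f : XE A B g) :
    lobe hg hgeo hι z (γ0 ++ [f]) s =
      γ0 ++ f :: (s ++ actE z (xinv f) :: ((XX hg hgeo hι).rv γ0).map (actE z)) := by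
  unfold lobe
  rw [rv_append, rv_cons, rv_nil]
  simp only [List.nil_append, List.map_append, List.map_cons, List.map_nil, List.append_assoc,
    List.singleton_append, List.cons_append]
  rfl

/-- the walk around a foot of a translation -/
theorem TFst.act {v : List (XE A B g)} (h : TFst v) (p : PP A B g) : TFst (v.map (actE p)) := by
  obtain ⟨e, f, w, rfl, h1⟩ := h
  refine ⟨actE p e, actE p f, w.map (actE p), by simp, ?_⟩
  rw [car_act, car_act]
  intro h2
  exact h1 (MulAction.injective p h2)

theorem TLst.act {v : List (XE A B g)} (h : TLst v) (p : PP A B g) : TLst (v.map (actE p)) := by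
  obtain ⟨w, f, e, rfl, h1⟩ := h
  refine ⟨w.map (actE p), actE p f, actE p e, by simp, ?_⟩
  rw [car_act, car_act]
  intro h2
  exact h1 (MulAction.injective p h2)

/-- the foot of a rotation -/
theorem end_rot {c : Car A B g} {z : PP A B g} {p : XV A B g} {k : ℕ}
    {l γ s r w : List (XE A B g)} {a : ℕ → XE A B g} {W : ℕ → List (XE A B g)}
    {I : List (List (XE A B g))} (hw : w = l ++ lobe hg hgeo hι z γ s ++ r)
    (hD : DW (XX hg hgeo hι) w a W I)
    (h : LobeMin hg hgeo hι c z p k l γ s r) (hk : 1 ≤ k) (hz : Rot z) :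
    vl W (l.length + k) ≤ 1 := by
  obtain ⟨γ0, f, rfl, hl, h1, h2, h3, h4, h5⟩ := h.last hk
  have hs : s = [] := h.lob.rot hz
  subst hs
  rw [lobe_eq] at hw
  have ha1 : a (l.length + γ0.length) = f := hD.at (u := l ++ γ0) (by rw [hw]; simp; rfl) (by simp)
  have ha2 : a (l.length + γ0.length + 1) = actE z (xinv f) :=
    hD.at (u := l ++ γ0 ++ [f]) (by rw [hw]; simp; rfl) (by simp; omega)
  have hwk := hD.wk (l.length + γ0.length)
  rw [ha1, ha2] at hwk
  have hlen := hD.two (l.length + γ0.length + 1)
  rw [← hl, ← add_assoc]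
  unfold vl
  have : (W (l.length + γ0.length + 1)).length ≠ 2 := by
    intro h6
    obtain ⟨x, y, hxy⟩ := List.length_eq_two.1 h6
    rw [hxy] at hwk
    obtain ⟨c1, c2, c3⟩ := hwk
    simp only [List.head?_cons, Option.some.injEq, List.getLast?_cons_cons,
      List.getLast?_singleton] at c2 c3
    subst c2; subst c3
    rw [List.isChain_pair] at c1
    exact (tip_ G A B g hg hgeo hι).1 z (xinv f) c1
  omega

/-- foot sliding -/
theorem foot_slide (M : Mods) (hSC : (XX hg hgeo hι).SC) {c : Car A B g} {z : PP A B g}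
    {p : XV A B g} {k : ℕ} {l γ0 s m r w : List (XE A B g)} {a : ℕ → XE A B g}
    {W : ℕ → List (XE A B g)} {I : List (List (XE A B g))} {f b : XE A B g}
    (hw : w = l ++ lobe hg hgeo hι z (γ0 ++ [f]) s ++ r) (hcl : (XX hg hgeo hι).Cl w)
    (hD : DW (XX hg hgeo hι) w a W I)
    (h : LobeMin hg hgeo hι c z p k l (γ0 ++ [f]) s r) (hz : ¬ Rot z)
    (hs : s = b :: (m ++ [xinv (actE z b)])) (hm : m ≠ [])
    (h1 : W (l.length + γ0.length + 1) = [xinv f, b])
    (h2 : W (l.length + γ0.length + 1 + s.length) = [actE z b, actE z (xinv f)]) : False := by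
  have hpath := h.lob.mid
  obtain ⟨y, hy, hγ, hside⟩ := hpath
  obtain ⟨x, p1, p2⟩ := isP_append.1 hγ
  -- the triangle
  have hch : (XX hg hgeo hι).Cor (xinv f) b := by
    have := hD.bd.chain (l.length + γ0.length + 1)
    rw [h1, List.isChain_pair] at this
    exact this
  obtain ⟨t, ht⟩ := cor_sym hch
  have ht2 : (XX hg hgeo hι).Tri (xinv f) b (xinv t) := (XX hg hgeo hι).tri_swap ht
  have ht3 : (XX hg hgeo hι).Tri (actE z (xinv f)) (actE z b) (actE z (xinv t)) := XT_act z ht2
  have hst : (XX hg hgeo hι).src t = (XX hg hgeo hι).src f := by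
    have := (XX hg hgeo hι).tri_mid ht
    rw [this]
    change (XX hg hgeo hι).src ((XX hg hgeo hι).inv ((XX hg hgeo hι).inv f)) = _
    rw [(XX hg hgeo hι).inv_inv]
  have htt : (XX hg hgeo hι).tgt t = (XX hg hgeo hι).tgt b := Tri.tgt' ht
  have hw' : w = (l ++ γ0) ++ f :: b :: (m ++ xinv (actE z b) :: actE z (xinv f) ::
      (((XX hg hgeo hι).rv γ0).map (actE z) ++ r)) := by
    rw [hw, lobe_eq, hs]
    simp
  have hsl : s.length = m.length + 2 := by rw [hs]; simp
  have hsite := site2 M hSC hD.bd hD.get hD.mask hcl (R := [t]) (R' := [actE z (xinv t)]) hw'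
    (by
      refine Rep.one ?_ ht
      rw [List.length_append]; exact h1)
    (by
      refine Rep.one ?_ (?_ : (XX hg hgeo hι).Tri (actE z (xinv f)) _ _)
      · rw [List.length_append]
        rw [show l.length + γ0.length + 2 + m.length + 1 = l.length + γ0.length + 1 + s.length by
          omega, h2]
        change _ = [xinv (xinv (actE z b)), _]
        rw [xinv_xinv hg hgeo hι]
      · change (XX hg hgeo hι).Tri (actE z (xinv f)) (xinv (xinv (actE z b))) _
        rw [xinv_xinv hg hgeo hι]
        exact ht3)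
    (Or.inl hm) (by
      left
      intro hnil
      have e1 : l = [] := by
        cases l with
        | nil => rfl
        | cons => simp at hnil
      have e2 : γ0 = [] := by
        cases γ0 with
        | nil => rfl
        | cons => simp at hnil
      have e3 : r = [] := by
        cases r with
        | nil => rfl
        | cons => simp at hnil
      subst e1; subst e2; subst e3
      have e4 : w = f :: (s ++ [actE z (xinv f)]) := by
        rw [hw, lobe_eq]; simp
      obtain ⟨o, ho⟩ := hcl
      rw [e4] at ho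
      have o1 := ho.1
      obtain ⟨o2, -, o3⟩ := isP_append.1 ho.2
      have o4 : (XX hg hgeo hι).tgt (actE z (xinv f)) = o := o3.2
      have o5 : xsrc (xinv (actE z (xinv f))) = xsrc f := by
        change (XX hg hgeo hι).tgt (actE z (xinv f)) = (XX hg hgeo hι).src f
        rw [o4, o1]
      rw [xinv_act, xinv_xinv hg hgeo hι, xsrc_act] at o5
      exact not_fix hz _ o5)
  -- the new lobe
  have hp2 := hside.1
  have p3 : (XX hg hgeo hι).src f = x := p2.1
  have p4 : (XX hg hgeo hι).tgt f = y := p2.2
  rw [hs] at hp2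
  obtain ⟨q1, q2⟩ := hp2
  obtain ⟨v, q3, q4⟩ := isP_append.1 q2
  have q5 : (XX hg hgeo hι).src (xinv (actE z b)) = v := q4.1
  have q6 : v = z • (XX hg hgeo hι).tgt b := by
    rw [← q5]
    change xsrc (xinv (actE z b)) = z • xsrc (xinv b)
    rw [xinv_act, xsrc_act]
  have hcb : car b = c := hside.2 b (by rw [hs]; simp)
  have hnew : IsLobe hg hgeo hι c z p k (γ0 ++ [t]) m := by
    refine ⟨?_, ⟨(XX hg hgeo hι).tgt b, ?_, ?_, ?_, ?_⟩, fun hr => absurd hr hz⟩
    · have := h.lob.len
      simpa using this
    · rw [← hcb]; exact On_tgt b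
    · refine isP_append.2 ⟨x, p1, ?_, ?_⟩
      · rw [hst, p3]
      · exact htt
    · rw [← q6]; exact q3
    · intro e he
      exact hside.2 e (by rw [hs]; simp [he])
  have hmin := (h.min _ _ hnew).1
  have e1 : l ++ lobe hg hgeo hι z (γ0 ++ [t]) m ++ r =
      l ++ γ0 ++ [t] ++ m ++ [actE z (xinv t)] ++ (((XX hg hgeo hι).rv γ0).map (actE z) ++ r) := by
    rw [lobe_eq]; simp
  rw [← hw, e1] at hmin
  have h3 := hsite.1
  simp only [List.length_singleton] at h3
  omega

/-- the feet of a translation -/
theorem end_tr (hA : ∀ x ∈ A, ∀ y ∈ A, x * y = y * x) (M : Mods) (hSC : (XX hg hgeo hι).SC)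
    {c : Car A B g} {z : PP A B g} {p : XV A B g} {k : ℕ}
    {l γ s r w : List (XE A B g)} {a : ℕ → XE A B g} {W : ℕ → List (XE A B g)}
    {I : List (List (XE A B g))} (hw : w = l ++ lobe hg hgeo hι z γ s ++ r)
    (hcl : (XX hg hgeo hι).Cl w) (hD : DW (XX hg hgeo hι) w a W I)
    (h : LobeMin hg hgeo hι c z p k l γ s r) (hk : 1 ≤ k) (hz : ¬ Rot z) :
    (IsPl c → ∑ i ∈ Finset.range (s.length + 1), vl W (l.length + k + i) ≤
      if s.length = 1 then 0 else -1) ∧
    (IsLn c → 2 ≤ s.length → ∑ i ∈ Finset.range (s.length + 1), vl W (l.length + k + i) ≤ 1) := by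
  have hfl := lobeFlat_ c z p k l γ s r h hz
  obtain ⟨γ0, f, rfl, hl, h1, h2, h3, h4, h5⟩ := h.last hk
  obtain ⟨y, hy, hγy, hFM⟩ := hfl
  have hcl0 := hcl
  have hw1 : w = (l ++ (γ0 ++ [f])) ++ s ++
      (((XX hg hgeo hι).rv (γ0 ++ [f])).map (actE z) ++ r) := by
    rw [hw]; unfold lobe; simp
  obtain ⟨f1, f2, f3⟩ := flat_ hA M hSC c y (z • y) _ _ _ w a W I hw1 hcl hD hFM
  have hn0 : (l ++ (γ0 ++ [f])).length = l.length + γ0.length + 1 := by simp; omega
  rw [hn0] at f1 f2
  have hs : s ≠ [] := by
    rintro rfl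
    exact not_fix hz _ (Eq.symm h3.1)
  have hs1 := List.length_pos_iff.2 hs
  have hw2 : w = (l ++ γ0) ++ f :: (s ++ actE z (xinv f) ::
      (((XX hg hgeo hι).rv γ0).map (actE z) ++ r)) := by
    rw [hw, lobe_eq]; simp
  obtain ⟨b, s', hsb⟩ : ∃ b s', s = b :: s' := by
    cases s with
    | nil => exact absurd rfl hs
    | cons b s' => exact ⟨b, s', rfl⟩
  obtain ⟨s'', d, hsd⟩ : ∃ s'' d, s = s'' ++ [d] :=
    ⟨s.dropLast, s.getLast hs, (List.dropLast_append_getLast hs).symm⟩
  have hcb : car b = c := h3.2 b (by rw [hsb]; simp)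
  have hcd : car d = c := h3.2 d (by rw [hsd]; simp)
  obtain ⟨n, hn⟩ : ∃ n, n = l.length + γ0.length := ⟨_, rfl⟩
  rw [← hn] at f1 f2
  have ha1 : a n = f := hD.at (u := l ++ γ0) hw2 (by rw [hn]; simp)
  have ha2 : a (n + 1) = b := hD.at (u := l ++ γ0 ++ [f]) (by rw [hw2, hsb]; simp; rfl) (by
    rw [hn]; simp; omega)
  have ha3 : a (n + s.length) = d :=
    hD.at (u := l ++ γ0 ++ [f] ++ s'') (by rw [hw2, hsd]; simp; rfl) (by
      rw [hn, hsd]; simp; omega)
  have ha4 : a (n + s.length + 1) = actE z (xinv f) :=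
    hD.at (u := l ++ γ0 ++ [f] ++ s) (by rw [hw2]; simp; rfl) (by rw [hn]; simp; omega)
  have k1 := hD.wk n
  rw [ha1, ha2] at k1
  have k2 := hD.wk (n + s.length)
  rw [ha3, ha4] at k2
  have t1 : TLst (W (n + 1)) := (f1 (n + 1) (by omega) (by omega)).1
  have t2 : TFst (W (n + s.length + 1)) := (f1 (n + s.length) (by omega) (by omega)).2
  have k3 := Slt.wk_map (k := z⁻¹) k2
  rw [Slt.actE_inv_act] at k3
  have t3 := TFst.act t2 z⁻¹
  obtain ⟨v, hv, hvl, -, ⟨v1, hv1⟩, ⟨v2, hv2⟩⟩ := Exc.wk_join k3 k1
  rw [List.length_map] at hvl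
  have hvT : TFst v := by
    obtain ⟨e, e', u, hu, hc⟩ := t3
    exact ⟨e, e', u ++ v1, by rw [hv1, hu]; simp, hc⟩
  have hvL : TLst v := by
    obtain ⟨u, e, e', hu, hc⟩ := t1
    exact ⟨v2 ++ u, e, e', by rw [hv2, hu]; simp, hc⟩
  obtain ⟨b', hb'⟩ : ∃ b', b' = actE z⁻¹ ((XX hg hgeo hι).inv d) := ⟨_, rfl⟩
  rw [← hb'] at hv k3
  have hbz : actE z b' = xinv d := by
    rw [hb']
    change actE z (actE z⁻¹ (xinv d)) = xinv d
    have := Slt.actE_inv_act z⁻¹ (xinv d)
    rwa [_root_.inv_inv] at this
  have hcb' : car b' = c := by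
    have h6 := car_act z b'
    rw [hbz, car_inv, hcd] at h6
    have h7 : z⁻¹ • c = z⁻¹ • (z • car b') := by rw [← h6]
    rw [inv_smul_smul, stab_inv h.stab] at h7
    exact h7.symm
  have hsum : ∑ i ∈ Finset.range (s.length + 1), vl W (l.length + k + i) =
      vl W (n + 1) + vl W (n + s.length + 1) +
        ∑ i ∈ Finset.Ico 1 s.length, vl W (n + 1 + i) := by
    have e0 : ∀ i, vl W (l.length + k + i) = vl W (n + 1 + i) := by
      intro i; congr 1; omega
    rw [Finset.sum_congr rfl (fun i _ => e0 i), Finset.sum_range_succ, Finset.range_eq_Ico,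
      Finset.sum_eq_sum_Ico_succ_bot hs1, Nat.add_zero]
    have : n + 1 + s.length = n + s.length + 1 := by omega
    rw [this]; ring
  have hinner : ∀ C : ℤ, (∀ i, n + 1 < i → i < n + 1 + s.length → vl W i ≤ C) →
      ∑ i ∈ Finset.Ico 1 s.length, vl W (n + 1 + i) ≤ ((s.length : ℤ) - 1) * C := by
    intro C hC
    have := Finset.sum_le_card_nsmul (Finset.Ico 1 s.length) (fun i => vl W (n + 1 + i)) C
      (fun i hi => by
        rw [Finset.mem_Ico] at hi
        exact hC _ (by omega) (by omega))
    rw [nsmul_eq_mul, Nat.card_Ico, Nat.cast_sub hs1] at this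
    exact_mod_cast this
  have hW1 := hD.two (n + 1)
  have hW2 := hD.two (n + s.length + 1)
  rw [hsum]
  constructor
  · intro hpl
    have hin := hinner (-2) (fun i hi hi' => (f2 i hi hi').2.2 hpl)
    obtain ⟨q, hq⟩ := hpl
    obtain ⟨m, q', hm⟩ := plane_letter (e := b') (q := q) (by rw [hcb', hq])
    have hH : (kndE b').isH = true := by rw [hm, kndE_eA, kndD_isH]
    by_cases hbb : b' = b
    · -- the closed case
      subst hbb
      have hd : d = xinv (actE z b') := by rw [hbz, xinv_xinv hg hgeo hι]
      -- length 1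
      have hlen1 : s.length ≠ 1 := by
        intro h6
        have e1 : s = [b'] := by
          rw [hsb] at h6 ⊢
          have : s'.length = 0 := by simpa using h6
          rw [List.length_eq_zero_iff.1 this]
        have e2 : d = b' := by
          have : s'' ++ [d] = [b'] := by rw [← hsd, e1]
          cases s'' with
          | nil => simpa using this
          | cons x s'' => simp at this
        rw [e2] at hbz
        have h7 := h3.1
        rw [e1] at h7
        obtain ⟨h8, h9⟩ := h7
        have h10 : xsrc (xinv b') = z • xsrc (xinv f) := h9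
        have h11 : xsrc b' = xsrc (xinv f) := h8
        obtain ⟨m1, q1, hm1⟩ := plane_letter (e := b') (q := q) (by rw [hcb, hq])
        have h12 := (opp_stmt hι).1 m1 q1 z (by
          have h13 : car b' = plane q1 := by rw [hm1]; rfl
          rw [← h13, hcb]; exact h.stab) (by
          rw [← hm1, h10, ← h11, hm1]; rfl)
        rw [← hm1, ← hbz, Slt.actE_inv_act, hm1] at h12
        have h14 := congrArg kndE h12
        rw [kndE_eA, kndE_eA] at h14
        revert h14; cases m1 <;> simp [kndD, Dr.inv]
      have hlen2 : s.length ≠ 2 := by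
        intro h6
        obtain ⟨e1, e2, he⟩ := List.length_eq_two.1 h6
        have e3 : e1 = b' := by rw [hsb] at he; simp at he; exact he.1.symm
        have e4 : e2 = d := by
          have : s'' ++ [d] = [e1] ++ [e2] := by rw [← hsd, he]; rfl
          exact (List.append_inj' this rfl).2 |> fun h => by simpa using h.symm
        have h7 := h3.1
        rw [he, e3, e4, hd] at h7
        have h8 : xsrc (xinv (actE z b')) = xsrc (xinv b') := h7.2.1
        rw [xinv_act, xsrc_act] at h8
        exact not_fix hz _ h8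
      have hlen : 3 ≤ s.length := by omega
      rw [if_neg hlen1]
      -- the middle of the side
      obtain ⟨m0, hm0⟩ : ∃ m0, s = b' :: (m0 ++ [d]) := by
        have e1 : s'' ≠ [] := by
          rintro rfl
          rw [hsd] at hlen1
          simp at hlen1
        cases s'' with
        | nil => exact absurd rfl e1
        | cons x m0 =>
          rw [hsd] at hsb
          simp only [List.cons_append, List.cons.injEq] at hsb
          exact ⟨m0, by rw [hsd, hsb.1]; rfl⟩
      have hm0' : m0 ≠ [] := by
        rintro rfl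
        rw [hm0] at hlen
        simp at hlen
      have hxe : b' ≠ xinv f := by
        intro h6
        apply h4
        rw [← hcb, h6, car_inv]
      have hred1 : Red (W (n + 1)) := hD.bd.red _
      have hred2 : Red ((W (n + s.length + 1)).map (actE z⁻¹)) := Slt.red_map (hD.bd.red _)
      have hatt := att_ _ _ (XX hg hgeo hι) (hsysX hA) _ _ b' (xinv f) k3 k1 hred2 hred1 hxe
      rw [List.length_map] at hatt
      have hin' : ((s.length : ℤ) - 1) * (-2) ≤ -4 := by
        have : (3 : ℤ) ≤ (s.length : ℤ) := by exact_mod_cast hlen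
        linarith
      have hfin : vl W (n + 1) + vl W (n + s.length + 1) ≤ 3 → vl W (n + 1) +
          vl W (n + s.length + 1) + ∑ i ∈ Finset.Ico 1 s.length, vl W (n + 1 + i) ≤ -1 := by
        intro h; linarith
      refine hfin ?_
      clear hfin hin hin'
      unfold vl
      rcases hatt with ⟨g1, g2, g3⟩ | ⟨g1, g2⟩ | g1
      · exfalso
        refine foot_slide M hSC hw hcl hD h hz (b := b') (m := m0) (by rw [← hd]; exact hm0) hm0'
          ?_ ?_
        · rw [← hn]
          obtain ⟨x, y, hxy⟩ := List.length_eq_two.1 g2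
          rw [hxy] at k1 ⊢
          obtain ⟨-, c2, c3⟩ := k1
          simp only [List.head?_cons, Option.some.injEq, List.getLast?_cons_cons,
            List.getLast?_singleton] at c2 c3
          rw [c2, c3]; rfl
        · rw [← hn, show n + 1 + s.length = n + s.length + 1 by omega]
          obtain ⟨x, y, hxy⟩ := List.length_eq_two.1 g1
          rw [hxy] at k2 ⊢
          obtain ⟨-, c2, c3⟩ := k2
          simp only [List.head?_cons, Option.some.injEq, List.getLast?_cons_cons,
            List.getLast?_singleton] at c2 c3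
          rw [c2, c3, hbz]; rfl
      · omega
      · omega
    · have htw := tw_ G A B g hg hgeo hι hA v b' b hv hvT hvL hH (by rw [hcb', hcb]) hbb
      split_ifs with hlen1
      · have e1 : s = [b] := by
          rw [hsb] at hlen1 ⊢
          have : s'.length = 0 := by simpa using hlen1
          rw [List.length_eq_zero_iff.1 this]
        have e2 : d = b := by
          have : s'' ++ [d] = [b] := by rw [← hsd, e1]
          cases s'' with
          | nil => simpa using this
          | cons x s'' => simp at this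
        have h7 := h3.1
        rw [e1] at h7
        obtain ⟨h8, h9⟩ := h7
        have h10 : xsrc (xinv b) = z • xsrc (xinv f) := h9
        have h11 : xsrc b = xsrc (xinv f) := h8
        obtain ⟨m1, q1, hm1⟩ := plane_letter (e := b) (q := q) (by rw [hcb, hq])
        have h12 := (opp_stmt hι).1 m1 q1 z (by
          have h13 : car b = plane q1 := by rw [hm1]; rfl
          rw [← h13, hcb]; exact h.stab) (by
          rw [← hm1, h10, ← h11, hm1]; rfl)
        have h15 : b' = eA m1.inv q1 := by
          rw [hb', e2, ← h12, hm1]; rfl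
        have h16 : kndE b = kinv (kndE b') := by
          rw [h15, hm1, kndE_eA, kndE_eA]
          cases m1 <;> rfl
        have h17 := htw.2 (Or.inl h16)
        rw [hlen1]
        simp only [Finset.Ico_self, Finset.sum_empty, add_zero]
        rw [hlen1] at hvl
        unfold vl
        omega
      · have h18 : 2 ≤ s.length := by omega
        have hin' : ((s.length : ℤ) - 1) * (-2) ≤ -2 := by
          have : (2 : ℤ) ≤ (s.length : ℤ) := by exact_mod_cast h18
          linarith
        have h19 := htw.1
        have h20 : vl W (n + 1) + vl W (n + s.length + 1) ≤ 1 := by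
          unfold vl; omega
        linarith
  · intro hln hlen
    have hin := hinner (-1) (fun i hi hi' => (f2 i hi hi').2.1)
    obtain ⟨q, hq⟩ := hln
    have hin' : ((s.length : ℤ) - 1) * (-1) ≤ -1 := by
      have : (2 : ℤ) ≤ (s.length : ℤ) := by exact_mod_cast hlen
      linarith
    have hL : ∀ e : XE A B g, car e = c → (kndE e).isH = false := by
      intro e he
      obtain ⟨m, q', hm⟩ := line_letter (e := e) (q := q) (by rw [he, hq])
      rw [hm, kndE_eC, kndC_isH]
    -- all letters have the same direction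
    have hdir : ∀ j, j < s.length → kndE (a (n + 1 + j)) = kndE b := by
      intro j
      induction j with
      | zero => intro _; rw [Nat.add_zero, ha2]
      | succ j ih =>
        intro hj
        rw [← ih (by omega)]
        have g1 := (f2 (n + 1 + (j + 1)) (by omega) (by omega)).1
        rw [show n + 1 + (j + 1) - 1 = n + 1 + j by omega] at g1
        have hc1 : ∀ i, n + 1 ≤ i → i < n + 1 + s.length → car (a i) = c := by
          intro i hi hi'
          obtain ⟨u1, u2, hu, -⟩ := FlatMin.letter hw1 hD hFM i (by rw [hn0, ← hn]; exact hi) (by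
            rw [hn0, ← hn]; exact hi')
          exact h3.2 _ (by rw [hu]; simp)
        have c1 := hc1 (n + 1 + j) (by omega) (by omega)
        have c2 := hc1 (n + 1 + (j + 1)) (by omega) (by omega)
        obtain ⟨m1, q1, e1⟩ := line_letter (e := xinv (a (n + 1 + j))) (q := q) (by
          rw [car_inv, c1, hq])
        obtain ⟨m2, e2⟩ := same_line' hι e1 (e' := a (n + 1 + (j + 1))) (by
          have := hD.bd.path (n + 1 + j)
          exact this) (by rw [car_inv, c1, c2])
        have hm12 : m2 ≠ m1 := by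
          rintro rfl
          exact g1 (by rw [e1, e2])
        have e3 : kndE (a (n + 1 + j)) = kinv (kndC m1) := by
          have : a (n + 1 + j) = xinv (eC m1 q1) := by rw [← e1, xinv_xinv hg hgeo hι]
          rw [this, kndE_xinv, kndE_eC]
        rw [e2, kndE_eC, e3]
        revert hm12
        cases m1 <;> cases m2 <;> simp [kndC, kinv]
    have hkd : kndE d = kndE b := by
      have := hdir (s.length - 1) (by omega)
      rwa [show n + 1 + (s.length - 1) = n + s.length by omega, ha3] at this
    have hkb' : kndE b' = kinv (kndE b) := by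
      have h6 := kndE_act z b'
      rw [hbz, kndE_xinv, hkd] at h6
      exact h6.symm
    have hne : b' ≠ b := by
      intro h6
      rw [h6] at hkb'
      have := hL b hcb
      revert hkb' this
      cases kndE b <;> simp [kinv, isH]
    have hll := ll_ G A B g hg hgeo hι v b' b hv (hL b' hcb') (hL b hcb) (by rw [hcb', hcb]) hne
    have h20 : vl W (n + 1) + vl W (n + s.length + 1) ≤ 2 := by
      unfold vl; omega
    linarith

theorem end_ : EndLStmt hg hgeo hι := by
  intro hA M hSC c z p k l γ s r w a W I hw hcl hD h hk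
  refine ⟨fun hz => end_rot hw hD h hk hz, ?_, ?_, ?_⟩
  · intro hz hc
    have := (end_tr hA M hSC hw hcl hD h hk hz).1 hc
    split_ifs at this <;> omega
  · intro hz hc hn
    have h1 := (end_tr hA M hSC hw hcl hD h hk hz).1 hc
    obtain ⟨γ0, f, rfl, hl, -, -, h3, -, -⟩ := h.last hk
    have h2 := hn _ _ h3
    rw [if_neg (by omega)] at h1
    exact h1
  · intro hz hc hn
    obtain ⟨γ0, f, rfl, hl, -, -, h3, -, -⟩ := h.last hk
    exact (end_tr hA M hSC hw hcl hD h hk hz).2 hc (hn _ _ h3)

end Pool.Agent.ABA.B.H17
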