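import Pool.Agent.Helper17_ABA.Lobe2

/-!
Lobes, part 3: the corners at a hub (module LOBE, MP_d857f1_al, part B).
-/

set_option autoImplicit false

namespace Pool.Agent.ABA.B.H17

open Knd Pool.Agent.ABA Pool.Agent.ABA.B Pool.Agent.ABA.B.TG Pool.Agent.ABA.B.H49
  Pool.Agent.ABA.B.H50 Pool.Agent.ABA.B.H89 Pool.Agent.ABA.B.H83

variable {G : Type} [Group G] {A B : Subgroup G} {g : G}
variable {hg : ¬ IsABA A B g} {hgeo : Geo A B} {hι : Function.Injective (Pι A B g)}

theorem wk_back {z : PP A B g} {v : List (XE A B g)} {e e' : XE A B g}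
    (h : Wk (XX hg hgeo hι) v (actE z e) (actE z e')) :
    Wk (XX hg hgeo hι) (v.map (actE z⁻¹)) e e' := by
  have := Slt.wk_map (k := z⁻¹) h
  rwa [Slt.actE_inv_act, Slt.actE_inv_act] at this

theorem wk_pair {V E : Type} {S : TG V E} {v : List E} {x y : E} (h : Wk S v x y)
    (hl : v.length = 2) : v = [x, y] ∧ S.Cor x y := by
  obtain ⟨a, b, rfl⟩ := List.length_eq_two.1 hl
  obtain ⟨c1, c2, c3⟩ := h
  simp only [List.head?_cons, Option.some.injEq, List.getLast?_cons_cons,
    List.getLast?_singleton] at c2 c3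
  subst c2; subst c3
  rw [List.isChain_pair] at c1
  exact ⟨rfl, c1⟩

theorem hub3_ : Hub3Stmt hg hgeo hι := by
  intro hA e1 e2 e3 h1 h2 h3 W1 W2 W3 k1 k2 k3 n1 n2 n3
  have := hub_ _ _ (XX hg hgeo hι) (hsysX hA) _ _ _ e1 e2 e3 (wk_back k1) (wk_back k2) (wk_back k3)
    n1 n2 n3
  simp only [List.length_map] at this
  rcases this with h | h
  · left; omega
  · exact Or.inr h

theorem attach_ : AttachStmt hg hgeo hι := by
  intro hA H z x x' e Wa Wb hx hx' he ka kb ra rb ta tb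
  have kb' := wk_back kb
  have rb' : Red (Wb.map (actE z⁻¹)) := Slt.red_map rb
  have tb' := TLst.act tb z⁻¹
  by_cases hxx : x = x'
  · subst hxx
    have hxe : x ≠ e := by
      rintro rfl
      exact he hx
    rcases att_ _ _ (XX hg hgeo hι) (hsysX hA) _ _ x e ka kb' ra rb' hxe with
      ⟨g1, g2, g3⟩ | ⟨g1, g2⟩ | g1
    · rw [List.length_map] at g2
      exact Or.inl ⟨rfl, (wk_pair ka g1).1, (wk_pair kb g2).1, g3⟩
    · rw [List.length_map] at g2
      exact Or.inr ⟨by omega, fun _ h => absurd rfl h⟩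
    · rw [List.length_map] at g1
      exact Or.inr ⟨by omega, fun _ h => absurd rfl h⟩
  · right
    obtain ⟨v, hv, hvl, -, ⟨v1, hv1⟩, ⟨v2, hv2⟩⟩ := Exc.wk_join ka kb'
    rw [List.length_map] at hvl
    have hvT : TFst v := by
      obtain ⟨e, e', u, hu, hc⟩ := ta
      exact ⟨e, e', u ++ v1, by rw [hv1, hu]; simp, hc⟩
    have hvL : TLst v := by
      obtain ⟨u, e, e', hu, hc⟩ := tb'
      exact ⟨v2 ++ u, e, e', by rw [hv2, hu]; simp, hc⟩
    have hne : x' ≠ x := fun h => hxx h.symm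
    have hpl : IsPl H → (4 - (Wa.length : ℤ)) + (4 - (Wb.length : ℤ)) ≤ 1 := by
      rintro ⟨q, hq⟩
      obtain ⟨m, q', hm⟩ := plane_letter (e := x') (q := q) (by rw [hx', hq])
      have := (tw_ G A B g hg hgeo hι hA v x' x hv hvT hvL (by rw [hm, kndE_eA, kndD_isH])
        (by rw [hx, hx']) hne).1
      omega
    refine ⟨?_, fun h _ => hpl h⟩
    rcases car_cases H with h | ⟨q, hq⟩
    · have := hpl h
      omega
    · obtain ⟨m, q', hm⟩ := line_letter (e := x') (q := q) (by rw [hx', hq])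
      obtain ⟨m1, q1, hm1⟩ := line_letter (e := x) (q := q) (by rw [hx, hq])
      have := ll_ G A B g hg hgeo hι v x' x hv (by rw [hm, kndE_eC, kndC_isH]) (by
        rw [hm1, kndE_eC, kndC_isH]) (by rw [hx, hx']) hne
      omega

end Pool.Agent.ABA.B.H17
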