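import Pool.Agent.Helper50_ABB.CvDefs
import Pool.Agent.Helper49_ABB.WalkSt
import Pool.Agent.Helper83_ABA.Push

/-!
# Lobes: definitions and statements (module LOBE, MP_d857f1_al, part B, section 3)

Value of a position = 3 - number of corners = `4 - (W i).length`.
Word `w = l ++ lobe z γ s ++ r`, `γ : p → y` of length `k = d(p, c)`, `s` from `y` to `z y` in `c`.
Positions: vertex number `j` of the slit: `l.length + j`; the same vertex on the way back:
`l.length + k + s.length + (k - j)`; the feet: `l.length + k`, `l.length + k + s.length`.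
-/

set_option autoImplicit false

namespace Pool.Agent.ABA.B.H17

open Knd Pool.Agent.ABA Pool.Agent.ABA.B Pool.Agent.ABA.B.TG Pool.Agent.ABA.B.H49
  Pool.Agent.ABA.B.H50

/-- value of a position -/
def vl {E : Type} (W : ℕ → List E) (i : ℕ) : ℤ := 4 - ((W i).length : ℤ)

/-- sum of the values at the positions strictly between `a` and `b` -/
def vsum {E : Type} (W : ℕ → List E) (a b : ℕ) : ℤ := ∑ i ∈ Finset.Ico (a + 1) b, vl W i

/-- the minimal disc of a closed word, with everything we know about it (see `Mask.bdyM`) -/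
structure DW {V E : Type} (S : TG V E) (w : List E) (a : ℕ → E) (W : ℕ → List E)
    (I : List (List E)) : Prop where
  bd : Bd S w.length a W I
  get : ∀ i (h : i < w.length), a i = w[i]
  red : AreaRed S w W
  mask : MaskRed S w W

/-- existence (proved: `Lobe.exists_DW`) -/
def ExDWStmt : Prop := ∀ (V E : Type) (S : TG V E), Mods → S.SC → ∀ w : List E, S.Cl w → S.PF w →
  w ≠ [] → (∀ e, w ≠ [S.inv e, e]) → ∃ a W I, DW S w a W I

section

variable {G : Type} [Group G] {A B : Subgroup G} {g : G}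
variable (hg : ¬ IsABA A B g) (hgeo : Geo A B) (hι : Function.Injective (Pι A B g))

/-- flat side of a word: minimal area, then minimal length, among the sides with the same ends -/
structure FlatMin (c : Car A B g) (x y : XV A B g) (l s r : List (XE A B g)) : Prop where
  side : SideP hg hgeo hι c x y s
  min : ∀ s', SideP hg hgeo hι c x y s' →
    (XX hg hgeo hι).ar (l ++ s ++ r) ≤ (XX hg hgeo hι).ar (l ++ s' ++ r) ∧
    ((XX hg hgeo hι).ar (l ++ s' ++ r) ≤ (XX hg hgeo hι).ar (l ++ s ++ r) → s.length ≤ s'.length)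

/-- (FLAT) flat sides: the corners next to a plane letter are T-corners, the side is reduced, inner
vertices have value at most -2 (plane), -1 (line); no closed block can be cut off for free -/
def FlatStmt : Prop := (∀ x ∈ A, ∀ y ∈ A, x * y = y * x) → Mods → (XX hg hgeo hι).SC →
  ∀ (c : Car A B g) (x y : XV A B g) (l s r w : List (XE A B g)) (a : ℕ → XE A B g)
    (W : ℕ → List (XE A B g)) (I : List (List (XE A B g))),
  w = l ++ s ++ r → (XX hg hgeo hι).Cl w → DW (XX hg hgeo hι) w a W I →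
  FlatMin hg hgeo hι c x y l s r →
    (∀ i, l.length ≤ i → i < l.length + s.length → TLst (W i) ∧ TFst (W (i + 1))) ∧
    (∀ i, l.length < i → i < l.length + s.length → a i ≠ xinv (a (i - 1)) ∧ vl W i ≤ -1 ∧
      (IsPl c → vl W i ≤ -2)) ∧
    (∀ s1 p s2, s = s1 ++ p ++ s2 → (XX hg hgeo hι).Cl p → p ≠ [] →
      (XX hg hgeo hι).ar (l ++ s ++ r) < (XX hg hgeo hι).ar (l ++ (s1 ++ s2) ++ r))

/-- A lobe of a closed word with minimal data: `k = d(p, c)`, `z ≠ 1` stabilizes `c`, area minimal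
among the lobes with the same `p` and `k`, then minimal length of the flat side. -/
structure LobeMin (c : Car A B g) (z : PP A B g) (p : XV A B g) (k : ℕ)
    (l γ s r : List (XE A B g)) : Prop where
  lob : IsLobe hg hgeo hι c z p k γ s
  dist : k ≤ dVC hg hgeo hι p c
  stab : z • c = c
  ne : z ≠ 1
  min : ∀ γ' s', IsLobe hg hgeo hι c z p k γ' s' →
    (XX hg hgeo hι).ar (l ++ lobe hg hgeo hι z γ s ++ r) ≤
      (XX hg hgeo hι).ar (l ++ lobe hg hgeo hι z γ' s' ++ r) ∧
    ((XX hg hgeo hι).ar (l ++ lobe hg hgeo hι z γ' s' ++ r) ≤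
      (XX hg hgeo hι).ar (l ++ lobe hg hgeo hι z γ s ++ r) → s.length ≤ s'.length)

/-- the flat side of a minimal lobe is a minimal flat side -/
def LobeFlatStmt : Prop := ∀ (c : Car A B g) (z : PP A B g) (p : XV A B g) (k : ℕ)
  (l γ s r : List (XE A B g)), LobeMin hg hgeo hι c z p k l γ s r → ¬ Rot z → ∃ y, On c y ∧
    (XX hg hgeo hι).IsP p γ y ∧
    FlatMin hg hgeo hι c y (z • y) (l ++ γ) s (((XX hg hgeo hι).rv γ).map (actE z) ++ r)

/-- (PAIR) the two copies of an inner vertex of the slit have together at least six corners -/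
def PairLStmt : Prop := (∀ x ∈ A, ∀ y ∈ A, x * y = y * x) → Mods → (XX hg hgeo hι).SC →
  ∀ (c : Car A B g) (z : PP A B g) (p : XV A B g) (k : ℕ) (l γ s r w : List (XE A B g))
    (a : ℕ → XE A B g) (W : ℕ → List (XE A B g)) (I : List (List (XE A B g))),
  w = l ++ lobe hg hgeo hι z γ s ++ r → (XX hg hgeo hι).Cl w → DW (XX hg hgeo hι) w a W I →
  LobeMin hg hgeo hι c z p k l γ s r → ∀ j, 0 < j → j < k →
    vl W (l.length + j) + vl W (l.length + k + s.length + (k - j)) ≤ 0

/-- (END) the feet and the inner vertices of the flat side: rotation 1, plane translation 0 (-1 if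
every translation path has length at least two), line translation with length at least two 1 -/
def EndLStmt : Prop := (∀ x ∈ A, ∀ y ∈ A, x * y = y * x) → Mods → (XX hg hgeo hι).SC →
  ∀ (c : Car A B g) (z : PP A B g) (p : XV A B g) (k : ℕ) (l γ s r w : List (XE A B g))
    (a : ℕ → XE A B g) (W : ℕ → List (XE A B g)) (I : List (List (XE A B g))),
  w = l ++ lobe hg hgeo hι z γ s ++ r → (XX hg hgeo hι).Cl w → DW (XX hg hgeo hι) w a W I →
  LobeMin hg hgeo hι c z p k l γ s r → 1 ≤ k →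
    (Rot z → vl W (l.length + k) ≤ 1) ∧
    (¬ Rot z → IsPl c → ∑ i ∈ Finset.range (s.length + 1), vl W (l.length + k + i) ≤ 0) ∧
    (¬ Rot z → IsPl c → NTwo hg hgeo hι c z →
      ∑ i ∈ Finset.range (s.length + 1), vl W (l.length + k + i) ≤ -1) ∧
    (¬ Rot z → IsLn c → NTwo hg hgeo hι c z →
      ∑ i ∈ Finset.range (s.length + 1), vl W (l.length + k + i) ≤ 1)

/-- (INT) the sum of the values strictly inside a lobe with a slit -/
def IntLStmt : Prop := (∀ x ∈ A, ∀ y ∈ A, x * y = y * x) → Mods → (XX hg hgeo hι).SC →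
  ∀ (c : Car A B g) (z : PP A B g) (p : XV A B g) (k : ℕ) (l γ s r w : List (XE A B g))
    (a : ℕ → XE A B g) (W : ℕ → List (XE A B g)) (I : List (List (XE A B g))),
  w = l ++ lobe hg hgeo hι z γ s ++ r → (XX hg hgeo hι).Cl w → DW (XX hg hgeo hι) w a W I →
  LobeMin hg hgeo hι c z p k l γ s r → 1 ≤ k →
    (Rot z → vsum W l.length (l.length + (lobe hg hgeo hι z γ s).length) ≤ 1) ∧
    (¬ Rot z → IsPl c → vsum W l.length (l.length + (lobe hg hgeo hι z γ s).length) ≤ 0) ∧
    (¬ Rot z → IsPl c → NTwo hg hgeo hι c z →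
      vsum W l.length (l.length + (lobe hg hgeo hι z γ s).length) ≤ -1) ∧
    (¬ Rot z → IsLn c → NTwo hg hgeo hι c z →
      vsum W l.length (l.length + (lobe hg hgeo hι z γ s).length) ≤ 1)

/-- (INT0) the sum of the values strictly inside a flat side (lobe without slit) -/
def IntFStmt : Prop := (∀ x ∈ A, ∀ y ∈ A, x * y = y * x) → Mods → (XX hg hgeo hι).SC →
  ∀ (c : Car A B g) (x y : XV A B g) (l s r w : List (XE A B g)) (a : ℕ → XE A B g)
    (W : ℕ → List (XE A B g)) (I : List (List (XE A B g))),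
  w = l ++ s ++ r → (XX hg hgeo hι).Cl w → DW (XX hg hgeo hι) w a W I →
  FlatMin hg hgeo hι c x y l s r → s ≠ [] →
    (IsPl c → vsum W l.length (l.length + s.length) ≤ -2 * ((s.length : ℤ) - 1)) ∧
    vsum W l.length (l.length + s.length) ≤ -((s.length : ℤ) - 1)

/-- (TIP) a rotation with slit: the walk at the tip; if it has two corners, then the middle letter is
not in `c` and the strict weight is 2.1 -/
def TipLStmt : Prop := (∀ x ∈ A, ∀ y ∈ A, x * y = y * x) → Mods → (XX hg hgeo hι).SC →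
  ∀ (c : Car A B g) (z : PP A B g) (p : XV A B g) (k : ℕ) (l γ s r w : List (XE A B g))
    (a : ℕ → XE A B g) (W : ℕ → List (XE A B g)) (I : List (List (XE A B g))),
  w = l ++ lobe hg hgeo hι z γ s ++ r → (XX hg hgeo hι).Cl w → DW (XX hg hgeo hι) w a W I →
  LobeMin hg hgeo hι c z p k l γ s r → 1 ≤ k → Rot z → IsPl c →
    ∃ γ0 f, γ = γ0 ++ [f] ∧ Wk (XX hg hgeo hι) (W (l.length + k)) (xinv f) (actE z (xinv f)) ∧
      3 ≤ (W (l.length + k)).length ∧
      ((W (l.length + k)).length = 3 → ∃ n, W (l.length + k) = [xinv f, n, actE z (xinv f)] ∧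
        car n ≠ c ∧ ow θR (W (l.length + k)) = 2.1 ∧
        ((kndE (xinv f) = um ∧ kndE n = cp) ∨ (kndE (xinv f) = cp ∧ kndE n = um) ∨
          (kndE (xinv f) = vp ∧ kndE n = cm) ∨ (kndE (xinv f) = cm ∧ kndE n = vp)))

/-- (HUB3) three lobes with slits at one vertex, first letters `e1, e2, e3` (different), copies of the
hub moved by `h1`, `h2`, `h3` -/
def Hub3Stmt : Prop := (∀ x ∈ A, ∀ y ∈ A, x * y = y * x) →
  ∀ (e1 e2 e3 : XE A B g) (h1 h2 h3 : PP A B g) (W1 W2 W3 : List (XE A B g)),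
    Wk (XX hg hgeo hι) W1 (actE h1 e1) (actE h1 e2) →
    Wk (XX hg hgeo hι) W2 (actE h2 e2) (actE h2 e3) →
    Wk (XX hg hgeo hι) W3 (actE h3 e3) (actE h3 e1) → e1 ≠ e2 → e2 ≠ e3 → e3 ≠ e1 →
    (4 - (W1.length : ℤ)) + (4 - (W2.length : ℤ)) + (4 - (W3.length : ℤ)) ≤ 3 ∨
      ((XX hg hgeo hι).Cor e3 e1 ∧ (XX hg hgeo hι).Cor e1 e2) ∨
      ((XX hg hgeo hι).Cor e1 e2 ∧ (XX hg hgeo hι).Cor e2 e3) ∨
      ((XX hg hgeo hι).Cor e2 e3 ∧ (XX hg hgeo hι).Cor e3 e1)

/-- (ATTACH) a slit with first letter `e` between two hub sides in `H`; `x'` = inverse of the last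
letter of the first side, `x` = first letter of the second side (moved by `z`), both at `p` -/
def AttachStmt : Prop := (∀ x ∈ A, ∀ y ∈ A, x * y = y * x) →
  ∀ (H : Car A B g) (z : PP A B g) (x x' e : XE A B g) (Wa Wb : List (XE A B g)),
    car x = H → car x' = H → car e ≠ H → Wk (XX hg hgeo hι) Wa x' e →
    Wk (XX hg hgeo hι) Wb (actE z e) (actE z x) → Red Wa → Red Wb → TFst Wa → TLst Wb →
    (x = x' ∧ Wa = [x, e] ∧ Wb = [actE z e, actE z x] ∧ (XX hg hgeo hι).Cor x e) ∨
      ((4 - (Wa.length : ℤ)) + (4 - (Wb.length : ℤ)) ≤ 2 ∧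
        (IsPl H → x ≠ x' → (4 - (Wa.length : ℤ)) + (4 - (Wb.length : ℤ)) ≤ 1))

/-- (FOOT MOVING) both corners at a foot have one triangle: the slit can be moved; the area drops by
two -/
def FootStmt : Prop := Mods → (XX hg hgeo hι).SC →
  ∀ (z : PP A B g) (x e : XE A B g) (l m r w : List (XE A B g)) (a : ℕ → XE A B g)
    (W : ℕ → List (XE A B g)) (I : List (List (XE A B g))),
  w = l ++ xinv x :: e :: (m ++ actE z (xinv e) :: actE z x :: r) → (XX hg hgeo hι).Cl w →
  DW (XX hg hgeo hι) w a W I → W (l.length + 1) = [x, e] →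
  W (l.length + 2 + m.length + 1) = [actE z e, actE z x] →
    ∃ f, xsrc f = xsrc (xinv x) ∧ xsrc (xinv f) = xsrc (xinv e) ∧
      (XX hg hgeo hι).Tri e x f ∧
      (XX hg hgeo hι).Cl (l ++ f :: (m ++ actE z (xinv f) :: r)) ∧
      (XX hg hgeo hι).ar (l ++ f :: (m ++ actE z (xinv f) :: r)) + 2 ≤ (XX hg hgeo hι).ar w

end

end Pool.Agent.ABA.B.H17
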