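import Pool.Agent.Helper17_ABA.Bdy

/-!
Several triangles behind the boundary of a minimal disc can be removed at the same time
(MP_d857f1_al, part B).
-/

set_option autoImplicit false

namespace Pool.Agent.ABA.B.H17

open Pool.Agent.ABA.B Pool.Agent.ABA.B.TG

variable {V E : Type} {S : TG V E}

/-- The letter number i is replaced by the two other sides F i of a triangle, if μ i is true. -/
def rp (F : ℕ → E × E) (μ : ℕ → Bool) : ℕ → List E → List E
  | _, [] => []
  | k, a :: α => (if μ k = true then [(F k).1, (F k).2] else [a]) ++ rp F μ (k + 1) α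

/-- The number of the replaced letters with the numbers k, ..., k + n - 1. -/
def ct (μ : ℕ → Bool) : ℕ → ℕ → ℕ
  | _, 0 => 0
  | k, n + 1 => (if μ k = true then 1 else 0) + ct μ (k + 1) n

theorem rp_append (F : ℕ → E × E) (μ : ℕ → Bool) (α β : List E) (k : ℕ) :
    rp F μ k (α ++ β) = rp F μ k α ++ rp F μ (k + α.length) β := by
  induction α generalizing k with
  | nil => simp [rp]
  | cons a α ih =>
    simp only [List.cons_append, rp, ih, List.length_cons, List.append_assoc]
    have : k + 1 + α.length = k + (α.length + 1) := by omega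
    rw [this]

theorem ct_add (μ : ℕ → Bool) (k m n : ℕ) : ct μ k (m + n) = ct μ k m + ct μ (k + m) n := by
  induction m generalizing k with
  | zero => simp [ct]
  | succ m ih =>
    have h1 : m + 1 + n = (m + n) + 1 := by omega
    have h2 : k + (m + 1) = k + 1 + m := by omega
    rw [h1, h2]
    simp only [ct, ih]
    omega

theorem rp_false {F : ℕ → E × E} {μ : ℕ → Bool} {α : List E} {k : ℕ}
    (h : ∀ i < α.length, μ (k + i) = false) : rp F μ k α = α := by
  induction α generalizing k with
  | nil => rfl
  | cons a α ih =>
    have h0 : μ k = false := h 0 (by simp)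
    have h1 : rp F μ (k + 1) α = α := by
      apply ih
      intro i hi
      have := h (i + 1) (by simpa using hi)
      rwa [show k + 1 + i = k + (i + 1) by omega]
    simp [rp, h0, h1]

theorem ct_false {μ : ℕ → Bool} {n k : ℕ} (h : ∀ i < n, μ (k + i) = false) : ct μ k n = 0 := by
  induction n generalizing k with
  | zero => rfl
  | succ n ih =>
    have h0 : μ k = false := h 0 (by omega)
    have h1 : ct μ (k + 1) n = 0 := by
      apply ih
      intro i hi
      have := h (i + 1) (by omega)
      rwa [show k + 1 + i = k + (i + 1) by omega]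
    simp [ct, h0, h1]

theorem last_two {A : Type} {x y : A} {l l' : List A} {z z' : A} (h : l ++ [x, z] = l' ++ [y, z']) :
    x = y ∧ z = z' := by
  have h1 := congrArg List.reverse h
  simp only [List.reverse_append, List.reverse_cons, List.reverse_nil, List.nil_append,
    List.cons_append, List.cons.injEq] at h1
  exact ⟨h1.2.1, h1.1⟩

/-- a prefix does not change the last two letters -/
theorem cut_pre {A : Type} {e x z : A} {l X : List A} (hX : 2 ≤ X.length)
    (h : e :: X = l ++ [x, z]) : ∃ l', X = l' ++ [x, z] := by
  cases l with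
  | nil =>
    rw [List.nil_append, List.cons.injEq] at h
    rw [h.2] at hX
    simp at hX
  | cons y l =>
    rw [List.cons_append, List.cons.injEq] at h
    exact ⟨l, h.2⟩

/-- The hypothesis about the faces. -/
def HF (S : TG V E) (F : ℕ → E × E) (μ : ℕ → Bool) (k : ℕ) (α : List E) (WL : List (List E)) :
    Prop :=
  ∀ i a W, α[i]? = some a → WL[i]? = some W → μ (k + i) = true →
    S.Tri a (F (k + i)).1 (F (k + i)).2 ∧ ∃ l, W = l ++ [(F (k + i)).1, a]

/-- The hypothesis about neighbours. -/
def HC (μ : ℕ → Bool) (k : ℕ) (J : List (List E)) : Prop :=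
  ∀ i v, J[i]? = some v → μ (k + i) = true → μ (k + i + 1) = true → v.length ≠ 2

/-- The mask lemma for nonsingular discs, with the root as it is; the second part is the version
without the triangle of the root. -/
theorem mask_ns (hI : InsStmt) (hR : RotStmt) (hN : NsBasicStmt) {e : E} {α : List E} {n : ℕ}
    {X Y : List E} {J I : List (List E)} (h : S.NS e α n X Y J I) :
    ∀ (F : ℕ → E × E) (μ : ℕ → Bool) (k : ℕ), HF S F μ k α (X :: J) → HC μ k J →
      (n ≠ 0 ∨ μ k = false) →
      ct μ k α.length ≤ n ∧
        S.D (S.tgt e) (S.inv e :: rp F μ k α) (n - ct μ k α.length) ∧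
      (n ≠ 0 → (μ k = true → X.length ≠ 2) → (μ (k + J.length) = true → Y.length ≠ 2) →
        ∀ f' f'', S.Tri e f' f'' → (∃ X0, X = e :: f' :: X0) → ct μ k α.length + 1 ≤ n ∧
          S.D (S.tgt e) (S.inv f'' :: S.inv f' :: rp F μ k α) (n - ct μ k α.length - 1)) := by
  induction h with
  | triv e =>
    intro F μ k hF hC hn
    rcases hn with hn | hn
    · exact absurd rfl hn
    · refine ⟨?_, ?_, fun h => absurd rfl h⟩
      · simp [ct, hn]
      · have h1 := D.br (S := S) (e := S.inv e) (b := []) (a := []) (m := 0) (n := 0)
          (D.nil _) (D.nil _)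
        rw [src_inv, S.inv_inv] at h1
        simpa [rp, ct, hn] using h1
  | @tb e e' e'' α' α'' n' n'' X' Y' X'' Y'' J' I' J'' I'' ht h' h'' ih' ih'' =>
    obtain ⟨b1, b2, b3, b4, b5, b6, b7, b8, b9, b10, b11⟩ := hN _ _ _ _ _ _ _ _ _ _ h'
    obtain ⟨c1, c2, c3, c4, c5, c6, c7, c8, c9, c10, c11⟩ := hN _ _ _ _ _ _ _ _ _ _ h''
    intro F μ k hF hC _
    have hJ'len : J'.length + 1 = α'.length := b4
    have hJ''len : J''.length + 1 = α''.length := c4
    -- first part
    have P1 : (n' = 0 ∧ μ k = true ∧ F k = (e, S.inv e'')) ∨
        (ct μ k α'.length ≤ n' ∧ S.D (S.tgt e') (S.inv e' :: rp F μ k α') (n' - ct μ k α'.length)) := by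
      by_cases hc : n' = 0 ∧ μ k = true
      · obtain ⟨hn', hm⟩ := hc
        left
        refine ⟨hn', hm, ?_⟩
        obtain ⟨d1, d2, d3⟩ := b5 hn'
        obtain ⟨hT, l, hl⟩ := hF 0 e' (e :: X') (by rw [d1]; simp) (by simp) (by simpa using hm)
        rw [d2] at hl
        have hl' : ([] : List E) ++ [e, e'] = l ++ [(F (k + 0)).1, e'] := by simpa using hl
        have h1 := (last_two hl').1
        simp only [Nat.add_zero] at h1 hT
        have h2 : S.inv e'' = (F k).2 := by
          have h3 := S.tri_swap ht
          rw [h1] at h3
          exact S.tri_uniq h3 hT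
        exact Prod.ext h1.symm h2.symm
      · right
        have hor : n' ≠ 0 ∨ μ k = false := by
          by_cases hn' : n' = 0
          · right
            rcases Bool.eq_false_or_eq_true (μ k) with h1 | h1
            · exact absurd ⟨hn', h1⟩ hc
            · exact h1
          · exact Or.inl hn'
        have hF' : HF S F μ k α' (X' :: J') := by
          intro i a W ha hW hm
          have hi : i < α'.length := (List.getElem?_eq_some_iff.1 ha).1
          have ha' : (α' ++ α'')[i]? = some a := by
            rw [List.getElem?_append_left hi]; exact ha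
          cases i with
          | zero =>
            simp only [List.getElem?_cons_zero, Option.some.injEq] at hW
            subst hW
            obtain ⟨hT, l, hl⟩ := hF 0 a (e :: X') ha' (by simp) hm
            refine ⟨hT, ?_⟩
            rcases hor with hn' | hf
            · exact cut_pre (b6 hn').1 hl
            · simp only [Nat.add_zero] at hm
              rw [hf] at hm
              exact absurd hm (by decide)
          | succ i =>
            rw [List.getElem?_cons_succ] at hW
            have hi2 : i < J'.length := by omega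
            refine hF (i + 1) a W ha' ?_ hm
            rw [List.getElem?_cons_succ, List.getElem?_append_left hi2]
            exact hW
        have hC' : HC μ k J' := by
          intro i v hv
          have hi : i < J'.length := (List.getElem?_eq_some_iff.1 hv).1
          refine hC i v ?_
          rw [List.getElem?_append_left hi]
          exact hv
        have h1 := ih' F μ k hF' hC' hor
        exact ⟨h1.1, h1.2.1⟩
    have P2 : (n'' = 0 ∧ μ (k + α'.length) = true ∧ F (k + α'.length) = (S.inv e', e)) ∨
        (ct μ (k + α'.length) α''.length ≤ n'' ∧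
          S.D (S.tgt e'') (S.inv e'' :: rp F μ (k + α'.length) α'')
            (n'' - ct μ (k + α'.length) α''.length)) := by
      have hmid : ((e :: X') :: (J' ++ (Y'.reverse ++ X'') :: J''))[α'.length]? =
          some (Y'.reverse ++ X'') := by
        rw [← hJ'len, List.getElem?_cons_succ, List.getElem?_append_right le_rfl]
        simp
      by_cases hc : n'' = 0 ∧ μ (k + α'.length) = true
      · obtain ⟨hn'', hm⟩ := hc
        left
        refine ⟨hn'', hm, ?_⟩
        obtain ⟨d1, d2, d3⟩ := c5 hn''
        obtain ⟨Y0, hY0⟩ := H56.head_cons b8.1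
        obtain ⟨hT, l, hl⟩ := hF α'.length e'' (Y'.reverse ++ X'') (by rw [d1]; simp) hmid hm
        rw [d2, hY0] at hl
        have hl' : Y0.reverse ++ [S.inv e', e''] = l ++ [(F (k + α'.length)).1, e''] := by
          simpa using hl
        have h1 := (last_two hl').1
        have h2 : e = (F (k + α'.length)).2 := by
          have h3 := H56.tri2 ht
          rw [h1] at h3
          exact S.tri_uniq h3 hT
        exact Prod.ext h1.symm h2.symm
      · right
        have hor : n'' ≠ 0 ∨ μ (k + α'.length) = false := by
          by_cases hn'' : n'' = 0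
          · right
            rcases Bool.eq_false_or_eq_true (μ (k + α'.length)) with h1 | h1
            · exact absurd ⟨hn'', h1⟩ hc
            · exact h1
          · exact Or.inl hn''
        have hF' : HF S F μ (k + α'.length) α'' (X'' :: J'') := by
          intro i a W ha hW hm
          have ha' : (α' ++ α'')[α'.length + i]? = some a := by
            rw [List.getElem?_append_right (by omega), Nat.add_sub_cancel_left]; exact ha
          have hk : k + (α'.length + i) = k + α'.length + i := by omega
          cases i with
          | zero =>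
            simp only [List.getElem?_cons_zero, Option.some.injEq] at hW
            subst hW
            obtain ⟨hT, l, hl⟩ := hF α'.length a (Y'.reverse ++ X'') (by simpa using ha') hmid
              (by simpa using hm)
            refine ⟨by simpa using hT, ?_⟩
            rcases hor with hn'' | hf
            · have hX2 := (c6 hn'').1
              obtain ⟨X1, x, z, hX1⟩ : ∃ X1 x z, X'' = X1 ++ [x, z] := by
                have h5 : X'' ≠ [] := by
                  intro h6; rw [h6] at hX2; simp at hX2
                obtain ⟨X2, z, h7⟩ : ∃ X2 z, X'' = X2 ++ [z] :=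
                  ⟨X''.dropLast, X''.getLast h5, (List.dropLast_append_getLast h5).symm⟩
                have h8 : X2 ≠ [] := by
                  intro h6; rw [h7, h6] at hX2; simp at hX2
                refine ⟨X2.dropLast, X2.getLast h8, z, ?_⟩
                rw [h7]
                conv_lhs => rw [← List.dropLast_append_getLast h8]
                simp
              rw [hX1] at hl
              have hl' : (Y'.reverse ++ X1) ++ [x, z] = l ++ [(F (k + α'.length)).1, a] := by
                rw [← hl]; simp
              obtain ⟨q1, q2⟩ := last_two hl'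
              refine ⟨X1, ?_⟩
              rw [hX1, q1, q2]
              simp
            · simp only [Nat.add_zero] at hm
              rw [hf] at hm
              exact absurd hm (by decide)
          | succ i =>
            rw [List.getElem?_cons_succ] at hW
            have h9 := hF (α'.length + (i + 1)) a W ha' ?_ (by rw [hk]; exact hm)
            · rw [hk] at h9
              exact h9
            · rw [show α'.length + (i + 1) = (J'.length + 1 + i) + 1 by omega,
                List.getElem?_cons_succ, List.getElem?_append_right (by omega),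
                show J'.length + 1 + i - J'.length = i + 1 by omega, List.getElem?_cons_succ]
              exact hW
        have hC' : HC μ (k + α'.length) J'' := by
          intro i v hv
          have h9 := hC (J'.length + 1 + i) v ?_
          · rw [show k + (J'.length + 1 + i) = k + α'.length + i by omega] at h9
            exact h9
          · rw [List.getElem?_append_right (by omega),
                show J'.length + 1 + i - J'.length = i + 1 by omega, List.getElem?_cons_succ]
            exact hv
        have h1 := ih'' F μ (k + α'.length) hF' hC' hor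
        exact ⟨h1.1, h1.2.1⟩
    have hlen : (α' ++ α'').length = α'.length + α''.length := List.length_append
    have hct : ct μ k (α' ++ α'').length =
        ct μ k α'.length + ct μ (k + α'.length) α''.length := by rw [hlen, ct_add]
    have one : ∀ j, μ j = true → ct μ j 1 = 1 := by
      intro j hj
      simp [ct, hj]
    have rpo : ∀ j a, μ j = true → rp F μ j [a] = [(F j).1, (F j).2] := by
      intro j a hj
      simp [rp, hj]
    rcases P1 with ⟨z1, z2, z3⟩ | ⟨p1, p2⟩
    · obtain ⟨d1, d2, d3⟩ := b5 z1
      have hl1 : α'.length = 1 := by rw [d1]; simp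
      have hJ0 : J' = [] := by
        apply List.eq_nil_of_length_eq_zero
        omega
      rcases P2 with ⟨y1, y2, y3⟩ | ⟨q1, q2⟩
      · exfalso
        obtain ⟨g1, g2, g3⟩ := c5 y1
        refine hC 0 (Y'.reverse ++ X'') ?_ (by simpa using z2) ?_ ?_
        · rw [hJ0]; simp
        · rw [hl1] at y2
          simpa using y2
        · rw [d3, g2]; simp
      · rw [hct, rp_append, hl1]
        rw [hl1] at q1 q2
        have e2 : rp F μ k α' = [e, S.inv e''] := by
          rw [d1, rpo k e' z2, z3]
        rw [e2, one k z2]
        refine ⟨by omega, ?_, ?_⟩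
        · have h1 := D.br (e := S.inv e) (b := []) (a := S.inv e'' :: rp F μ (k + 1) α'') (m := 0)
            (n := n'' - ct μ (k + 1) α''.length)
            (D.nil _) (by rw [src_inv, ← Tri.tgt' ht]; exact q2)
          rw [src_inv, S.inv_inv] at h1
          rw [show n' + n'' + 1 - (1 + ct μ (k + 1) α''.length) =
            0 + (n'' - ct μ (k + 1) α''.length) by omega]
          simpa using h1
        · intro _ hX2
          exfalso
          refine hX2 z2 ?_
          rw [d2]; simp
    · rcases P2 with ⟨y1, y2, y3⟩ | ⟨q1, q2⟩
      · obtain ⟨g1, g2, g3⟩ := c5 y1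
        have hl1 : α''.length = 1 := by rw [g1]; simp
        have hJ0 : J'' = [] := by
          apply List.eq_nil_of_length_eq_zero
          omega
        rw [hct, rp_append, hl1]
        have e2 : rp F μ (k + α'.length) α'' = [S.inv e', e] := by
          rw [g1, rpo _ e'' y2, y3]
        rw [e2, one _ y2]
        refine ⟨by omega, ?_, ?_⟩
        · have h1 : S.D (S.tgt (S.inv e)) (rp F μ k α' ++ [S.inv e']) (n' - ct μ k α'.length) := by
            have := hR V E S (S.tgt e') (S.src e') [S.inv e'] (rp F μ k α') _ (by simpa using p2)
              ⟨by rw [src_inv], by rw [tgt_inv]; rfl⟩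
            rw [tgt_inv, ← Tri.src' ht]; exact this
          have h2 := D.br h1 (D.nil (S.src (S.inv e)))
          rw [src_inv, S.inv_inv] at h2
          rw [show n' + n'' + 1 - (ct μ k α'.length + 1) = n' - ct μ k α'.length + 0 by omega]
          simpa using h2
        · intro _ _ hY2
          exfalso
          refine hY2 ?_ ?_
          · have : (J' ++ (Y'.reverse ++ X'') :: J'').length = α'.length := by
              rw [hJ0]; simp; omega
            rw [this]; exact y2
          · rw [g3]; simp
      · rw [hct, rp_append]
        refine ⟨by omega, ?_, ?_⟩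
        · have h1 := H56.min_tb hI ht p2 q2
          rw [show n' + n'' + 1 - (ct μ k α'.length + ct μ (k + α'.length) α''.length) =
            n' - ct μ k α'.length + (n'' - ct μ (k + α'.length) α''.length) + 1 by omega]
          simpa using h1
        · rintro _ _ _ f' f'' hT ⟨X0, hX0⟩
          obtain ⟨X1, hX1⟩ := H56.head_cons b7.1
          rw [hX1] at hX0
          simp only [List.cons.injEq, true_and] at hX0
          obtain ⟨r1, -⟩ := hX0
          subst r1
          have r2 : e'' = f'' := S.tri_uniq ht hT
          subst r2
          refine ⟨by omega, ?_⟩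
          have h1 := H56.glue_tb hI ht p2 q2
          rw [show n' + n'' + 1 - (ct μ k α'.length + ct μ (k + α'.length) α''.length) - 1 =
            n' - ct μ k α'.length + (n'' - ct μ (k + α'.length) α''.length) by omega]
          simpa using h1
  | @ta e e' e'' α n X Y v J I ht h' hα ih =>
    obtain ⟨b1, b2, b3, b4, b5, b6, b7, b8, b9, b10, b11⟩ := hN _ _ _ _ _ _ _ _ _ _ h'
    have hn0 : n ≠ 0 := by
      intro hn0
      have := congrArg List.length (b5 hn0).1
      simp at this
      exact hα this
    intro F μ k hF hC _
    have hlen : J.length + 1 = α.length := by simpa using b4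
    -- the mask which is false at the last letter
    obtain ⟨ν, hν⟩ : ∃ ν : ℕ → Bool, ν = fun j => if j = k + α.length then false else μ j := ⟨_, rfl⟩
    have hν1 : ∀ i < α.length, ν (k + i) = μ (k + i) := by
      intro i hi
      rw [hν]
      simp only
      rw [if_neg (by omega)]
    have hν2 : ν (k + α.length) = false := by
      rw [hν]
      simp
    have hrp : ∀ (β : List E) (j : ℕ), (∀ i < β.length, ν (j + i) = μ (j + i)) →
        rp F ν j β = rp F μ j β ∧ ct ν j β.length = ct μ j β.length := by
      intro β
      induction β with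
      | nil => intro j _; exact ⟨rfl, rfl⟩
      | cons b β ihb =>
        intro j hj
        have h0 : ν j = μ j := hj 0 (by simp)
        obtain ⟨h1, h2⟩ := ihb (j + 1) (by
          intro i hi
          rw [show j + 1 + i = j + (i + 1) by omega]
          exact hj (i + 1) (by simpa using hi))
        simp only [rp, h0, h1, List.length_cons, ct, h2, and_self]
    have hF' : HF S F ν k (α ++ [S.inv e'']) (X :: (J ++ [v])) := by
      intro i a W ha hW hm
      have hi0 : i < (α ++ [S.inv e'']).length := (List.getElem?_eq_some_iff.1 ha).1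
      have hi : i < α.length := by
        by_contra hc
        have : i = α.length := by
          simp only [List.length_append, List.length_cons, List.length_nil] at hi0
          omega
        rw [this, hν2] at hm
        exact absurd hm (by decide)
      rw [hν1 i hi] at hm
      have ha' : α[i]? = some a := by
        rw [List.getElem?_append_left hi] at ha; exact ha
      cases i with
      | zero =>
        simp only [List.getElem?_cons_zero, Option.some.injEq] at hW
        subst hW
        obtain ⟨hT, l, hl⟩ := hF 0 a (e :: X) ha' (by simp) hm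
        exact ⟨hT, cut_pre (b6 hn0).1 hl⟩
      | succ i =>
        rw [List.getElem?_cons_succ] at hW
        have hi2 : i < J.length := by omega
        rw [List.getElem?_append_left hi2] at hW
        exact hF (i + 1) a W ha' (by rw [List.getElem?_cons_succ]; exact hW) hm
    have hC' : HC ν k (J ++ [v]) := by
      intro i w hw m1 m2
      have hi0 : i < (J ++ [v]).length := (List.getElem?_eq_some_iff.1 hw).1
      have hi1 : i < α.length := by
        simp only [List.length_append, List.length_cons, List.length_nil] at hi0
        omega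
      have hi : i < J.length := by
        by_contra hc
        have : k + i + 1 = k + α.length := by omega
        rw [this, hν2] at m2
        exact absurd m2 (by decide)
      rw [hν1 i hi1] at m1
      rw [show k + i + 1 = k + (i + 1) by omega, hν1 (i + 1) (by omega)] at m2
      rw [List.getElem?_append_left hi] at hw
      exact hC i w hw m1 m2
    obtain ⟨i1, i2, -⟩ := ih F ν k hF' hC' (Or.inl hn0)
    obtain ⟨e1, e2⟩ := hrp α k hν1
    have hα1 : (α ++ [S.inv e'']).length = α.length + 1 := by simp
    have e3 : ct ν k (α ++ [S.inv e'']).length = ct μ k α.length := by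
      rw [hα1, ct_add, e2]
      simp [ct, hν2]
    have e4 : rp F ν k (α ++ [S.inv e'']) = rp F μ k α ++ [S.inv e''] := by
      rw [rp_append, e1]
      simp [rp, hν2]
    rw [e3] at i1 i2
    rw [e4] at i2
    refine ⟨by omega, ?_, ?_⟩
    · have h1 := H56.min_ta hR ht i2
      rw [show n + 1 - ct μ k α.length = n - ct μ k α.length + 1 by omega]
      exact h1
    · rintro _ _ _ f' f'' hT ⟨X0, hX0⟩
      obtain ⟨X1, hX1⟩ := H56.head_cons b7.1
      rw [hX1] at hX0
      simp only [List.cons.injEq, true_and] at hX0
      obtain ⟨r1, -⟩ := hX0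
      subst r1
      have r2 : e'' = f'' := S.tri_uniq ht hT
      subst r2
      refine ⟨by omega, ?_⟩
      have h1 := H56.glue_ta hR ht i2
      rw [show n + 1 - ct μ k α.length - 1 = n - ct μ k α.length by omega]
      exact h1

/-- The boundary data, together with the disc. -/
theorem bdyB (M : Mods) (hSC : S.SC) (e : E) (α : List E) (hcl : S.Cl (S.inv e :: α))
    (hpf : S.PF (S.inv e :: α)) (hnb : ∀ e', S.inv e :: α ≠ [S.inv e', e']) :
    ∃ (X Y : List E) (J I : List (List E)),
      S.NS e α (S.ar (S.inv e :: α)) X Y J I ∧ ∃ (a : ℕ → E) (W : ℕ → List E),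
      Bd S (S.inv e :: α).length a W I ∧
      (∀ i (h : i < (S.inv e :: α).length), a i = (S.inv e :: α)[i]) ∧
      AreaRed S (S.inv e :: α) W ∧ W 0 = Y.reverse ∧
      ∀ i, i ≤ J.length → (X :: J)[i]? = some (W (i + 1)) := by
  obtain ⟨X, Y, J, I, hNS⟩ := M.nsx V E S hSC e α hcl hpf
  obtain ⟨r1, r2, r3, r4⟩ := M.mir V E S hSC e α X Y J I hNS
  obtain ⟨b1, b2, b3, b4, b5, b6, b7, b8, b9, b10, b11⟩ := M.nsb _ _ _ _ _ _ _ _ _ _ hNS
  have hn : S.ar (S.inv e :: α) ≠ 0 := by
    intro h
    have h1 := (b5 h).1
    exact hnb e (by rw [h1])
  haveI : Inhabited E := ⟨e⟩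
  haveI : Inhabited (List E) := ⟨[]⟩
  obtain ⟨WL, hWL⟩ : ∃ WL, WL = Y.reverse :: X :: J := ⟨_, rfl⟩
  have hWLlen : WL.length = (S.inv e :: α).length := by
    rw [hWL]
    simp only [List.length_cons]
    omega
  -- edges, as a statement about lists
  have hroot := H56.root M.ins M.rot M.nsb hNS hn
  have hletter := H56.letter M.ins M.rot M.nsb hNS hn
  have hedg : ∀ i, i < WL.length → ∃ f1 f2 l r, S.Tri (cyc (S.inv e :: α) i) f1 f2 ∧
      cyc WL i = l ++ [f1, cyc (S.inv e :: α) i] ∧
      cyc WL (i + 1) = S.inv (cyc (S.inv e :: α) i) :: S.inv f2 :: r := by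
    intro i hi
    rw [hWLlen] at hi
    cases i with
    | zero =>
      obtain ⟨f', f'', X0, Y0, hT, hX, hY, -⟩ := hroot
      have c0 : cyc (S.inv e :: α) 0 = S.inv e := by rw [cyc_of_lt _ 0 hi]; rfl
      have c1 : cyc WL 0 = Y.reverse := by
        rw [cyc_of_lt _ 0 (by rw [hWLlen]; exact hi)]
        simp only [hWL, List.getElem_cons_zero]
      have c2 : cyc WL (0 + 1) = X := by
        rw [cyc_of_lt _ (0 + 1) (by rw [hWL]; simp)]
        simp only [hWL, zero_add, List.getElem_cons_succ, List.getElem_cons_zero]
      rw [c0, c1, c2, hX, hY]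
      refine ⟨S.inv f'', S.inv f', Y0.reverse, X0, H56.tri1 hT, ?_, ?_⟩
      · simp
      · rw [S.inv_inv, S.inv_inv]
    | succ i =>
      have hi' : i < α.length := by
        simp only [List.length_cons] at hi
        omega
      have hsplit : α = α.take i ++ α[i] :: α.drop (i + 1) := by
        conv_lhs => rw [← List.take_append_drop i α, List.drop_eq_getElem_cons hi']
      obtain ⟨f1, f2, l, r, hT, -, hW1, hW2⟩ := hletter (α.take i) α[i] (α.drop (i + 1)) hsplit
      have c0 : cyc (S.inv e :: α) (i + 1) = α[i] := by rw [cyc_of_lt _ _ hi]; rfl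
      have hti : (α.take i).length = i := by
        rw [List.length_take]; omega
      rw [hti] at hW1 hW2
      have c1 : cyc WL (i + 1) = l ++ [f1, α[i]] := by
        rw [cyc_of_lt _ _ (by rw [hWLlen]; exact hi)]
        have h1 : WL[i + 1]? = (X :: J ++ [Y.reverse])[i]? := by
          rw [hWL, List.getElem?_cons_succ, List.getElem?_append_left]
          simp only [List.length_cons]
          omega
        rw [hW1] at h1
        exact (List.getElem?_eq_some_iff.1 h1).2
      have c2 : cyc WL (i + 1 + 1) = S.inv α[i] :: S.inv f2 :: r := by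
        by_cases hl : i + 1 + 1 < WL.length
        · rw [cyc_of_lt _ _ hl]
          have h1 : WL[i + 1 + 1]? = (X :: J ++ [Y.reverse])[i + 1]? := by
            rw [hWL, List.getElem?_cons_succ, List.getElem?_append_left]
            rw [hWL] at hl
            simp only [List.length_cons] at hl ⊢
            omega
          rw [hW2] at h1
          exact (List.getElem?_eq_some_iff.1 h1).2
        · have h2 : i + 1 + 1 = WL.length := by
            rw [hWLlen] at hl ⊢
            omega
          have h3 : cyc WL (i + 1 + 1) = cyc WL 0 := by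
            rw [h2]
            have := cyc_per WL 0
            rwa [zero_add] at this
          have h4 : cyc WL 0 = Y.reverse := by
            rw [cyc_of_lt _ 0 (by omega)]
            simp only [hWL, List.getElem_cons_zero]
          rw [h3, h4]
          have h5 : i + 1 = (X :: J).length := by
            rw [hWL] at h2
            simp only [List.length_cons] at h2 ⊢
            omega
          rw [h5, List.getElem?_append_right le_rfl] at hW2
          simpa using hW2
      rw [c0, c1, c2]
      exact ⟨f1, f2, l, r, hT, rfl, rfl⟩
  have hmem : ∀ i, cyc WL i ∈ WL := by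
    intro i
    have h1 : i % WL.length < WL.length := Nat.mod_lt _ (by rw [hWLlen]; simp)
    have h2 : cyc WL i = WL[i % WL.length] := by
      unfold cyc
      rw [List.getD_eq_getElem?_getD, List.getElem?_eq_getElem h1]
      rfl
    rw [h2]
    exact List.getElem_mem _
  have hmod : ∀ {A : Type} [Inhabited A] (w : List A) (i : ℕ), cyc w (i % w.length) = cyc w i := by
    intro A _ w i
    unfold cyc
    rw [Nat.mod_mod]
  have hedg' : ∀ i, ∃ f1 f2 l r, S.Tri (cyc (S.inv e :: α) i) f1 f2 ∧
      cyc WL i = l ++ [f1, cyc (S.inv e :: α) i] ∧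
      cyc WL (i + 1) = S.inv (cyc (S.inv e :: α) i) :: S.inv f2 :: r := by
    intro i
    have h1 : i % WL.length < WL.length := Nat.mod_lt _ (by rw [hWLlen]; simp)
    obtain ⟨f1, f2, l, r, hT, hW1, hW2⟩ := hedg _ h1
    have h2 : cyc (S.inv e :: α) (i % WL.length) = cyc (S.inv e :: α) i := by
      rw [hWLlen]
      exact hmod _ i
    have h3 : cyc WL (i % WL.length + 1) = cyc WL (i + 1) := by
      unfold cyc
      rw [Nat.mod_add_mod]
    rw [h2, h3] at hW2
    rw [h2, hmod] at hW1
    rw [h2] at hT
    exact ⟨f1, f2, l, r, hT, hW1, hW2⟩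
  have hchain : ∀ i, (cyc WL i).IsChain S.Cor := by
    intro i
    have h1 := hmem i
    rw [hWL, List.mem_cons, List.mem_cons] at h1
    rw [← hWL] at h1
    rcases h1 with h1 | h1 | h1
    · rw [h1, List.isChain_reverse]
      refine b8.2.2.imp ?_
      intro x y hxy
      obtain ⟨c, hc⟩ := hxy
      exact ⟨_, S.tri_swap hc⟩
    · rw [h1]
      exact b7.2.2
    · exact b9 _ h1
  refine ⟨X, Y, J, I, hNS, cyc (S.inv e :: α), cyc WL, ⟨cyc_per _, ?_, ?_, hedg', hchain, ?_, ?_, ?_⟩,
    fun i hi => cyc_of_lt _ i hi, ?_, ?_, ?_⟩
  · intro i
    rw [← hWLlen]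
    exact cyc_per _ i
  · intro i
    obtain ⟨f1, f2, l, r, hT, hW1, hW2⟩ := hedg' i
    obtain ⟨g1, g2, l', r', hT', hW1', hW2'⟩ := hedg' (i + 1)
    have h1 := hchain (i + 1)
    have h2 : cyc (S.inv e :: α) (i + 1) ∈ cyc WL (i + 1) := by
      rw [hW1']
      simp
    rw [hW2] at h1 h2
    have h3 := src_chain h1 _ h2
    rw [h3, src_inv]
  · intro i
    have h1 := hmem i
    rw [hWL, List.mem_cons, List.mem_cons] at h1
    rw [← hWL] at h1
    rcases h1 with h1 | h1 | h1
    · rw [h1]
      exact H56.red_reverse r2
    · rw [h1]
      exact r1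
    · exact r3 _ h1
  · intro v hv
    exact ⟨(b11 v hv).1, (b11 v hv).2, r4 v hv⟩
  · intro θ hθ
    have h1 := M.gb V E S θ hθ e α _ X Y J I hNS
    have h2 := sum_cyc WL (fun v => 3 - ow θ v)
    rw [hWLlen] at h2
    rw [h2, hWL, List.map_cons, List.map_cons, List.sum_cons, List.sum_cons,
      H31.ow_reverse hθ.symm]
    linarith
  · intro i hi f1 f2 l hT hW
    have hne : 0 < S.ar (S.inv e :: α) := Nat.pos_of_ne_zero hn
    have hA2 := (M.area V E S hSC).2.1
    have key : ∀ {x y : E} {l l' : List E} {z : E}, l ++ [x, z] = l' ++ [y, z] → x = y := by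
      intro x y l l' z h
      have h1 := congrArg List.reverse h
      simp only [List.reverse_append, List.reverse_cons, List.reverse_nil, List.nil_append,
        List.cons_append, List.cons.injEq] at h1
      exact h1.2.1
    cases i with
    | zero =>
      obtain ⟨f', f'', X0, Y0, hT', hX, hY, hD⟩ := hroot
      have c1 : cyc WL 0 = Y.reverse := by
        rw [cyc_of_lt _ 0 (by rw [hWLlen]; exact hi)]
        simp only [hWL, List.getElem_cons_zero]
      have h1 := H56.tri1 hT'
      rw [c1, hY] at hW
      simp only [List.getElem_cons_zero] at hT hW ⊢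
      have h2 : f1 = S.inv f'' := by
        have h3 : (S.inv e :: S.inv f'' :: Y0).reverse = Y0.reverse ++ [S.inv f'', S.inv e] := by
          simp
        rw [h3] at hW
        exact (key hW).symm
      subst h2
      have h3 : f2 = S.inv f' := S.tri_uniq hT h1
      subst h3
      have h4 := hA2 _ _ _ hD
      simp only [List.take_zero, List.nil_append, Nat.zero_add, List.drop_one, List.tail_cons]
      omega
    | succ i =>
      have hi' : i < α.length := by
        simp only [List.length_cons] at hi
        omega
      have hsplit : α = α.take i ++ α[i] :: α.drop (i + 1) := by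
        conv_lhs => rw [← List.take_append_drop i α, List.drop_eq_getElem_cons hi']
      obtain ⟨g1, g2, l', r, hT', hD, hW1, hW2⟩ := hletter (α.take i) α[i] (α.drop (i + 1)) hsplit
      have hti : (α.take i).length = i := by
        rw [List.length_take]; omega
      rw [hti] at hW1 hW2
      have c1 : cyc WL (i + 1) = l' ++ [g1, α[i]] := by
        rw [cyc_of_lt _ _ (by rw [hWLlen]; exact hi)]
        have h1 : WL[i + 1]? = (X :: J ++ [Y.reverse])[i]? := by
          rw [hWL, List.getElem?_cons_succ, List.getElem?_append_left]
          simp only [List.length_cons]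
          omega
        rw [hW1] at h1
        exact (List.getElem?_eq_some_iff.1 h1).2
      simp only [List.getElem_cons_succ] at hT hW
      rw [c1] at hW
      have h2 : f1 = g1 := (key hW).symm
      subst h2
      have h3 : f2 = g2 := S.tri_uniq hT hT'
      subst h3
      have h4 := hA2 _ _ _ hD
      simp only [List.take_succ_cons, List.cons_append, List.drop_succ_cons]
      omega
  · rw [cyc_of_lt _ 0 (by rw [hWLlen]; simp)]
    simp only [hWL, List.getElem_cons_zero]
  · intro i hi
    rw [cyc_of_lt _ (i + 1) (by rw [hWL]; simp only [List.length_cons]; omega)]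
    simp only [hWL, List.getElem_cons_succ]
    rw [List.getElem?_eq_getElem (by simp only [List.length_cons]; omega)]

/-- Cyclic form: the triangles behind the letters i with μ i can be removed at the same time. -/
def MaskRed (S : TG V E) (w : List E) (W : ℕ → List E) : Prop :=
  ∀ (F : ℕ → E × E) (μ : ℕ → Bool),
    (∀ i (h : i < w.length), μ i = true →
      S.Tri w[i] (F i).1 (F i).2 ∧ ∃ l, W i = l ++ [(F i).1, w[i]]) →
    (∀ i, i + 1 < w.length → μ i = true → μ (i + 1) = true → (W (i + 1)).length ≠ 2) →
    (μ (w.length - 1) = true → μ 0 = true → (W 0).length ≠ 2) →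
    S.ar (rp F μ 0 w) + ct μ 0 w.length ≤ S.ar w

theorem bdyM (M : Mods) (hSC : S.SC) (w : List E) (hcl : S.Cl w) (hpf : S.PF w)
    (hw0 : w ≠ []) (hnb : ∀ e, w ≠ [S.inv e, e]) :
    ∃ (a : ℕ → E) (W : ℕ → List E) (I : List (List E)), Bd S w.length a W I ∧
      (∀ i (h : i < w.length), a i = w[i]) ∧ AreaRed S w W ∧ MaskRed S w W := by
  obtain ⟨e0, α, rfl⟩ : ∃ e0 α, w = e0 :: α := by
    cases w with
    | nil => exact absurd rfl hw0
    | cons e0 α => exact ⟨e0, α, rfl⟩
  obtain ⟨e, rfl⟩ : ∃ e, e0 = S.inv e := ⟨S.inv e0, by simp⟩
  obtain ⟨X, Y, J, I, hNS, a, W, hBd, ha, hA, hW0, hW1⟩ := bdyB M hSC e α hcl hpf hnb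
  refine ⟨a, W, I, hBd, ha, hA, ?_⟩
  obtain ⟨b1, b2, b3, b4, b5, b6, b7, b8, b9, b10, b11⟩ := M.nsb _ _ _ _ _ _ _ _ _ _ hNS
  have hn : S.ar (S.inv e :: α) ≠ 0 := by
    intro h
    have h1 := (b5 h).1
    exact hnb e (by rw [h1])
  obtain ⟨f', f'', X0, Y0, hT, hX, hY, -⟩ := H56.root M.ins M.rot M.nsb hNS hn
  have hA2 := (M.area V E S hSC).2.1
  intro F μ hF hC hC0
  have hlen : (S.inv e :: α).length = α.length + 1 := rfl
  have hα0 : α.length ≠ 0 := by
    intro h
    exact b1 (List.eq_nil_of_length_eq_zero h)
  have hF' : HF S F μ 1 α (X :: J) := by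
    intro i b W' hb hW' hm
    have hi : i < α.length := (List.getElem?_eq_some_iff.1 hb).1
    have hb' : α[i] = b := (List.getElem?_eq_some_iff.1 hb).2
    have h1 := hF (i + 1) (by omega) (by rwa [show i + 1 = 1 + i by omega])
    rw [List.getElem_cons_succ, hb'] at h1
    have h2 := hW1 i (by omega)
    rw [hW'] at h2
    rw [Option.some.injEq] at h2
    rw [show 1 + i = i + 1 by omega, h2]
    exact h1
  have hC' : HC μ 1 J := by
    intro i v hv m1 m2
    have hi : i < J.length := (List.getElem?_eq_some_iff.1 hv).1
    have h1 := hC (i + 1) (by omega) (by rwa [show i + 1 = 1 + i by omega])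
      (by rwa [show i + 1 + 1 = 1 + i + 1 by omega])
    have h2 := hW1 (i + 1) (by omega)
    rw [List.getElem?_cons_succ, hv, Option.some.injEq] at h2
    rw [h2]
    exact h1
  obtain ⟨r1, r2, r3⟩ := mask_ns M.ins M.rot M.nsb hNS F μ 1 hF' hC' (Or.inl hn)
  have r3' := r3 hn
  rw [hlen, show α.length + 1 = 1 + α.length by omega, ct_add]
  by_cases hm : μ 0 = true
  · -- the root is masked
    have hF0 := hF 0 (by omega) hm
    rw [hW0, hY, List.getElem_cons_zero] at hF0
    obtain ⟨hT0, l, hl⟩ := hF0
    have hl' : Y0.reverse ++ [S.inv f'', S.inv e] = l ++ [(F 0).1, S.inv e] := by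
      rw [← hl]; simp
    have q1 := (last_two hl').1
    have q2 : S.inv f' = (F 0).2 := by
      have h3 := H56.tri1 hT
      rw [q1] at h3
      exact S.tri_uniq h3 hT0
    have s1 : μ 1 = true → X.length ≠ 2 := by
      intro m1
      have h6 := hC 0 (by omega) hm m1
      have h7 := hW1 0 (by omega)
      rw [List.getElem?_cons_zero, Option.some.injEq] at h7
      rw [h7]
      exact h6
    have s2 : μ (1 + J.length) = true → Y.length ≠ 2 := by
      intro m1
      have h6 := hC0 (by
        rw [hlen]
        rw [show α.length + 1 - 1 = 1 + J.length by omega]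
        exact m1) hm
      rw [hW0, List.length_reverse] at h6
      exact h6
    obtain ⟨t1, t2⟩ := r3' s1 s2 f' f'' hT ⟨X0, hX⟩
    · have h4 : rp F μ 0 (S.inv e :: α) = S.inv f'' :: S.inv f' :: rp F μ 1 α := by
        simp [rp, hm, q1, q2]
      have h5 : ct μ 0 1 = 1 := by simp [ct, hm]
      rw [h4, h5]
      have h6 := hA2 _ _ _ t2
      simp only [Nat.zero_add]
      omega
  · have h4 : rp F μ 0 (S.inv e :: α) = S.inv e :: rp F μ 1 α := by
      simp [rp, hm]
    have h5 : ct μ 0 1 = 0 := by simp [ct, hm]
    rw [h4, h5]
    have h6 := hA2 _ _ _ r2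
    simp only [Nat.zero_add]
    omega

end Pool.Agent.ABA.B.H17
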