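import Pool.Agent.Helper17_ABA.Bdy
import Pool.Agent.Helper76_ABA.Area
import Pool.Agent.Helper76_ABA.Nsb
import Pool.Agent.Helper10_ABA.Nsx
import Pool.Agent.Helper56_ABA.Mir
import Pool.Agent.Helper56_ABA.Close
import Pool.Agent.Helper18_ABA.Glue
import Pool.Agent.Helper18_ABA.RotCol
import Pool.Agent.Helper81_ABA.Fan
import Pool.Agent.Helper31_ABA.Pinch
import Pool.Agent.Helper31_ABA.Gb
import Pool.Agent.Helper63_ABA.Ins
import Pool.Agent.Helper63_ABA.Add
import Pool.Agent.Helper19_ABA.Rev
import Pool.Agent.Helper83_ABA.PXSC

/-!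
All library modules of the theory of triangle graphs, and the simple connectivity of the triangle graph
of `P`, without hypotheses (MP_d857f1_al, part B).
-/

set_option autoImplicit false

namespace Pool.Agent.ABA.B.H17

open Pool.Agent.ABA Pool.Agent.ABA.B Pool.Agent.ABA.B.TG

theorem rotAll : RotStmt := H18.rot H63.ins

theorem colAll : ColStmt := H18.col H63.ins

theorem revAll : RevStmt := H19.rev colAll

theorem addAll : AddStmt := H63.add H63.ins

theorem closeAll : CloseStmt :=
  H56.close H63.ins rotAll colAll (H18.glue H63.ins) (H81.fan H63.ins addAll colAll)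

theorem areaAll : AreaStmt := H76.area H63.ins addAll rotAll colAll revAll closeAll

theorem nsbAll : NsBasicStmt := H76.nsb H63.ins rotAll colAll

/-- all modules of the library -/
theorem modsAll : Mods where
  ins := H63.ins
  rot := rotAll
  area := areaAll
  nsb := nsbAll
  gb := H31.gb
  nsx := H10.nsx H63.ins rotAll areaAll nsbAll
  mir := H56.mir H63.ins rotAll colAll areaAll nsbAll
  pinch := H31.pinch areaAll

variable {G : Type} [Group G] {A B : Subgroup G} {g : G}

/-- simple connectivity of the triangle graph of `P` -/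
theorem scAll (hg : ¬ IsABA A B g) (hgeo : Geo A B) (hι : Function.Injective (Pι A B g)) :
    (XX hg hgeo hι).SC := px_sc hg hgeo hι revAll closeAll H63.ins

end Pool.Agent.ABA.B.H17
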