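import Mathlib

/-!
The group P = ⟨G, u, v, c | [u,v], [u,A], [v,A], [c,B], g = u c v⟩ and its universal property.
-/

namespace Pool.Agent.ABA

open Monoid

section

variable {G : Type} [Group G] (A B : Subgroup G) (g : G)

/-- letters u, v, c -/
def Pu0 : Coprod G (FreeGroup (Fin 3)) := Coprod.inr (FreeGroup.of 0)
/-- letters u, v, c -/
def Pv0 : Coprod G (FreeGroup (Fin 3)) := Coprod.inr (FreeGroup.of 1)
/-- letters u, v, c -/
def Pc0 : Coprod G (FreeGroup (Fin 3)) := Coprod.inr (FreeGroup.of 2)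

/-- The relators of P. -/
def PRel : Set (Coprod G (FreeGroup (Fin 3))) :=
  {x | x = Pu0 * Pv0 * Pu0⁻¹ * Pv0⁻¹ ∨ (∃ a ∈ A, x = Pu0 * Coprod.inl a * Pu0⁻¹ * (Coprod.inl a)⁻¹) ∨
    (∃ a ∈ A, x = Pv0 * Coprod.inl a * Pv0⁻¹ * (Coprod.inl a)⁻¹) ∨
    (∃ b ∈ B, x = Pc0 * Coprod.inl b * Pc0⁻¹ * (Coprod.inl b)⁻¹) ∨
    x = Pu0 * Pc0 * Pv0 * (Coprod.inl g)⁻¹}

/-- The group P. -/
abbrev PP : Type := Coprod G (FreeGroup (Fin 3)) ⧸ Subgroup.normalClosure (PRel A B g)

/-- The map G → P. -/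
def Pι : G →* PP A B g := (QuotientGroup.mk' (Subgroup.normalClosure (PRel A B g))).comp Coprod.inl

/-- the translation u -/
def Pu : PP A B g := QuotientGroup.mk' (Subgroup.normalClosure (PRel A B g)) Pu0
/-- the translation v -/
def Pv : PP A B g := QuotientGroup.mk' (Subgroup.normalClosure (PRel A B g)) Pv0
/-- the translation c -/
def Pc : PP A B g := QuotientGroup.mk' (Subgroup.normalClosure (PRel A B g)) Pc0

theorem P_one {x : Coprod G (FreeGroup (Fin 3))} (hx : x ∈ PRel A B g) :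
    QuotientGroup.mk' (Subgroup.normalClosure (PRel A B g)) x = 1 :=
  (QuotientGroup.eq_one_iff x).2 (Subgroup.subset_normalClosure hx)

theorem comm_of_one {K : Type*} [Group K] {x y : K} (h : x * y * x⁻¹ * y⁻¹ = 1) :
    x * y = y * x := by
  have := mul_inv_eq_one.1 h
  exact mul_inv_eq_iff_eq_mul.1 this

theorem P_uv : Pu A B g * Pv A B g = Pv A B g * Pu A B g := by
  refine comm_of_one ?_
  have := P_one A B g (x := Pu0 * Pv0 * Pu0⁻¹ * Pv0⁻¹) (Or.inl rfl)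
  simpa [Pu, Pv] using this

theorem P_ua {a : G} (ha : a ∈ A) : Pu A B g * Pι A B g a = Pι A B g a * Pu A B g := by
  refine comm_of_one ?_
  have := P_one A B g (x := Pu0 * Coprod.inl a * Pu0⁻¹ * (Coprod.inl a)⁻¹)
    (Or.inr (Or.inl ⟨a, ha, rfl⟩))
  simpa [Pu, Pι] using this

theorem P_va {a : G} (ha : a ∈ A) : Pv A B g * Pι A B g a = Pι A B g a * Pv A B g := by
  refine comm_of_one ?_
  have := P_one A B g (x := Pv0 * Coprod.inl a * Pv0⁻¹ * (Coprod.inl a)⁻¹)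
    (Or.inr (Or.inr (Or.inl ⟨a, ha, rfl⟩)))
  simpa [Pv, Pι] using this

theorem P_cb {b : G} (hb : b ∈ B) : Pc A B g * Pι A B g b = Pι A B g b * Pc A B g := by
  refine comm_of_one ?_
  have := P_one A B g (x := Pc0 * Coprod.inl b * Pc0⁻¹ * (Coprod.inl b)⁻¹)
    (Or.inr (Or.inr (Or.inr (Or.inl ⟨b, hb, rfl⟩))))
  simpa [Pc, Pι] using this

theorem P_g : Pι A B g g = Pu A B g * Pc A B g * Pv A B g := by
  have := P_one A B g (x := Pu0 * Pc0 * Pv0 * (Coprod.inl g)⁻¹)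
    (Or.inr (Or.inr (Or.inr (Or.inr rfl))))
  have h : Pu A B g * Pc A B g * Pv A B g * (Pι A B g g)⁻¹ = 1 := by
    simpa [Pu, Pc, Pv, Pι] using this
  exact (mul_inv_eq_one.1 h).symm

/-- The universal property. -/
def Plift {K : Type*} [Group K] (φ : G →* K) (u v c : K) (huv : u * v = v * u)
    (hua : ∀ a ∈ A, u * φ a = φ a * u) (hva : ∀ a ∈ A, v * φ a = φ a * v)
    (hcb : ∀ b ∈ B, c * φ b = φ b * c) (hg : φ g = u * c * v) : PP A B g →* K :=
  QuotientGroup.lift _ (Coprod.lift φ (FreeGroup.lift ![u, v, c])) (by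
    intro x hx
    have hle : Subgroup.normalClosure (PRel A B g) ≤
        (Coprod.lift φ (FreeGroup.lift ![u, v, c])).ker := by
      refine Subgroup.normalClosure_le_normal ?_
      rintro x (rfl | ⟨a, ha, rfl⟩ | ⟨a, ha, rfl⟩ | ⟨b, hb, rfl⟩ | rfl)
      · simp [Pu0, Pv0, MonoidHom.mem_ker, huv]
      · simp [Pu0, MonoidHom.mem_ker, hua a ha]
      · simp [Pv0, MonoidHom.mem_ker, hva a ha]
      · simp [Pc0, MonoidHom.mem_ker, hcb b hb]
      · simp [Pu0, Pv0, Pc0, MonoidHom.mem_ker, hg]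
    exact hle hx)

section lift

variable {K : Type*} [Group K] (φ : G →* K) (u v c : K) (huv : u * v = v * u)
    (hua : ∀ a ∈ A, u * φ a = φ a * u) (hva : ∀ a ∈ A, v * φ a = φ a * v)
    (hcb : ∀ b ∈ B, c * φ b = φ b * c) (hg : φ g = u * c * v)

theorem Plift_ι (x : G) : Plift A B g φ u v c huv hua hva hcb hg (Pι A B g x) = φ x := by
  simp [Plift, Pι]

theorem Plift_u : Plift A B g φ u v c huv hua hva hcb hg (Pu A B g) = u := by
  simp [Plift, Pu, Pu0]

theorem Plift_v : Plift A B g φ u v c huv hua hva hcb hg (Pv A B g) = v := by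
  simp [Plift, Pv, Pv0]

theorem Plift_c : Plift A B g φ u v c huv hua hva hcb hg (Pc A B g) = c := by
  simp [Plift, Pc, Pc0]

end lift

/-- The enlarged subgroup ⟨A, u, v⟩. -/
def PA : Subgroup (PP A B g) := (A.map (Pι A B g)) ⊔ Subgroup.closure {Pu A B g, Pv A B g}

/-- The enlarged subgroup ⟨B, c⟩. -/
def PB : Subgroup (PP A B g) := (B.map (Pι A B g)) ⊔ Subgroup.closure {Pc A B g}

end

end Pool.Agent.ABA
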