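import Pool.Agent.Helper83_ABA.PXAct

/-!
The group P: normal forms in the enlarged subgroups, degrees, induction.
-/

set_option autoImplicit false

namespace Pool.Agent.ABA.B.H17

open Pool.Agent.ABA

section

variable {G : Type} [Group G] {A B : Subgroup G} {g : G}

/-- elements of the plane group -/
theorem mem_PA_iff (q : PP A B g) : q ∈ PA A B g ↔
    ∃ i j : ℤ, ∃ a ∈ A, q = Pu A B g ^ i * Pv A B g ^ j * Pι A B g a := by
  have huv : Commute (Pu A B g) (Pv A B g) := P_uv A B g
  have hua : ∀ {a : G}, a ∈ A → Commute (Pu A B g) (Pι A B g a) := fun ha => P_ua A B g ha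
  have hva : ∀ {a : G}, a ∈ A → Commute (Pv A B g) (Pι A B g a) := fun ha => P_va A B g ha
  have hK : ∀ q ∈ PA A B g, ∃ i j : ℤ, ∃ a ∈ A,
      q = Pu A B g ^ i * Pv A B g ^ j * Pι A B g a := by
    let K : Subgroup (PP A B g) :=
      { carrier := {q | ∃ i j : ℤ, ∃ a ∈ A, q = Pu A B g ^ i * Pv A B g ^ j * Pι A B g a}
        one_mem' := ⟨0, 0, 1, A.one_mem, by simp⟩
        mul_mem' := by
          rintro x y ⟨i, j, a, ha, rfl⟩ ⟨k, l, a', ha', rfl⟩
          refine ⟨i + k, j + l, a * a', A.mul_mem ha ha', ?_⟩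
          have h1 : Commute (Pι A B g a) (Pu A B g ^ k * Pv A B g ^ l) :=
            (((hua ha).symm.zpow_right k).mul_right ((hva ha).symm.zpow_right l))
          have h2 : Commute (Pv A B g ^ j) (Pu A B g ^ k) := (huv.symm.zpow_zpow j k)
          rw [map_mul, zpow_add, zpow_add]
          calc Pu A B g ^ i * Pv A B g ^ j * Pι A B g a * (Pu A B g ^ k * Pv A B g ^ l * Pι A B g a')
              = Pu A B g ^ i * Pv A B g ^ j * (Pι A B g a * (Pu A B g ^ k * Pv A B g ^ l)) *
                Pι A B g a' := by group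
            _ = Pu A B g ^ i * Pv A B g ^ j * ((Pu A B g ^ k * Pv A B g ^ l) * Pι A B g a) *
                Pι A B g a' := by rw [h1.eq]
            _ = Pu A B g ^ i * (Pv A B g ^ j * Pu A B g ^ k) * Pv A B g ^ l * Pι A B g a *
                Pι A B g a' := by group
            _ = Pu A B g ^ i * (Pu A B g ^ k * Pv A B g ^ j) * Pv A B g ^ l * Pι A B g a *
                Pι A B g a' := by rw [h2.eq]
            _ = _ := by group
        inv_mem' := by
          rintro x ⟨i, j, a, ha, rfl⟩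
          refine ⟨-i, -j, a⁻¹, A.inv_mem ha, ?_⟩
          have h1 : Commute (Pι A B g a) (Pu A B g ^ i * Pv A B g ^ j) :=
            (((hua ha).symm.zpow_right i).mul_right ((hva ha).symm.zpow_right j))
          have h2 : Commute (Pu A B g ^ i) (Pv A B g ^ j) := huv.zpow_zpow i j
          rw [← h1.eq, h2.eq, map_inv, zpow_neg, zpow_neg]
          simp only [mul_inv_rev] }
    have hle : PA A B g ≤ K := by
      refine sup_le ?_ ?_
      · rintro _ ⟨a, ha, rfl⟩
        exact ⟨0, 0, a, ha, by simp⟩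
      · rw [Subgroup.closure_le]
        rintro x hx
        rcases hx with rfl | rfl
        · exact ⟨1, 0, 1, A.one_mem, by simp⟩
        · exact ⟨0, 1, 1, A.one_mem, by simp⟩
    exact fun q hq => hle hq
  constructor
  · exact hK q
  · rintro ⟨i, j, a, ha, rfl⟩
    have hu : Pu A B g ∈ PA A B g :=
      Subgroup.mem_sup_right (Subgroup.subset_closure (by simp))
    have hv : Pv A B g ∈ PA A B g :=
      Subgroup.mem_sup_right (Subgroup.subset_closure (by simp))
    have ha' : Pι A B g a ∈ PA A B g := Subgroup.mem_sup_left ⟨a, ha, rfl⟩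
    exact mul_mem (mul_mem (zpow_mem hu i) (zpow_mem hv j)) ha'

theorem mem_PB_iff (q : PP A B g) : q ∈ PB A B g ↔
    ∃ i : ℤ, ∃ b ∈ B, q = Pc A B g ^ i * Pι A B g b := by
  have hcb : ∀ {b : G}, b ∈ B → Commute (Pc A B g) (Pι A B g b) := fun hb => P_cb A B g hb
  have hK : ∀ q ∈ PB A B g, ∃ i : ℤ, ∃ b ∈ B, q = Pc A B g ^ i * Pι A B g b := by
    let K : Subgroup (PP A B g) :=
      { carrier := {q | ∃ i : ℤ, ∃ b ∈ B, q = Pc A B g ^ i * Pι A B g b}
        one_mem' := ⟨0, 1, B.one_mem, by simp⟩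
        mul_mem' := by
          rintro x y ⟨i, a, ha, rfl⟩ ⟨k, a', ha', rfl⟩
          refine ⟨i + k, a * a', B.mul_mem ha ha', ?_⟩
          have h1 : Commute (Pι A B g a) (Pc A B g ^ k) := (hcb ha).symm.zpow_right k
          rw [map_mul, zpow_add]
          calc Pc A B g ^ i * Pι A B g a * (Pc A B g ^ k * Pι A B g a')
              = Pc A B g ^ i * (Pι A B g a * Pc A B g ^ k) * Pι A B g a' := by group
            _ = Pc A B g ^ i * (Pc A B g ^ k * Pι A B g a) * Pι A B g a' := by rw [h1.eq]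
            _ = _ := by group
        inv_mem' := by
          rintro x ⟨i, a, ha, rfl⟩
          refine ⟨-i, a⁻¹, B.inv_mem ha, ?_⟩
          have h1 : Commute (Pι A B g a) (Pc A B g ^ i) := (hcb ha).symm.zpow_right i
          rw [← h1.eq, map_inv, zpow_neg]
          simp only [mul_inv_rev] }
    have hle : PB A B g ≤ K := by
      refine sup_le ?_ ?_
      · rintro _ ⟨a, ha, rfl⟩
        exact ⟨0, a, ha, by simp⟩
      · rw [Subgroup.closure_le]
        rintro x hx
        rw [Set.mem_singleton_iff] at hx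
        subst hx
        exact ⟨1, 1, B.one_mem, by simp⟩
    exact fun q hq => hle hq
  constructor
  · exact hK q
  · rintro ⟨i, b, hb, rfl⟩
    have hc : Pc A B g ∈ PB A B g :=
      Subgroup.mem_sup_right (Subgroup.subset_closure (by simp))
    have hb' : Pι A B g b ∈ PB A B g := Subgroup.mem_sup_left ⟨b, hb, rfl⟩
    exact mul_mem (zpow_mem hc i) hb'

theorem ι_mem_PA {a : G} (ha : a ∈ A) : Pι A B g a ∈ PA A B g :=
  Subgroup.mem_sup_left ⟨a, ha, rfl⟩

theorem ι_mem_PB {b : G} (hb : b ∈ B) : Pι A B g b ∈ PB A B g :=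
  Subgroup.mem_sup_left ⟨b, hb, rfl⟩

theorem u_mem : Pu A B g ∈ PA A B g := Subgroup.mem_sup_right (Subgroup.subset_closure (by simp))
theorem v_mem : Pv A B g ∈ PA A B g := Subgroup.mem_sup_right (Subgroup.subset_closure (by simp))
theorem c_mem : Pc A B g ∈ PB A B g := Subgroup.mem_sup_right (Subgroup.subset_closure (by simp))

theorem trn_mem (m : Dr) : trn A B g m ∈ PA A B g := by
  cases m
  · exact u_mem
  · exact v_mem
  · exact mul_mem v_mem (inv_mem u_mem)
  · exact inv_mem u_mem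
  · exact inv_mem v_mem
  · exact mul_mem u_mem (inv_mem v_mem)

theorem trc_mem (s : Bool) : trc A B g s ∈ PB A B g := by
  cases s
  · exact inv_mem c_mem
  · exact c_mem

variable (A B g)

/-- degree homomorphisms -/
noncomputable def Pdeg (d e : ℤ) : PP A B g →* Multiplicative ℤ :=
  Plift A B g (1 : G →* Multiplicative ℤ) (Multiplicative.ofAdd d) (Multiplicative.ofAdd e)
    (Multiplicative.ofAdd (-d - e)) (mul_comm _ _) (fun _ _ => mul_comm _ _)
    (fun _ _ => mul_comm _ _) (fun _ _ => mul_comm _ _) (by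
      rw [MonoidHom.one_apply, ← ofAdd_add, ← ofAdd_add, ← ofAdd_zero]
      congr 1
      ring)

theorem Pdeg_ι (d e : ℤ) (x : G) : Pdeg A B g d e (Pι A B g x) = 1 := by
  unfold Pdeg
  rw [Plift_ι]
  rfl

theorem Pdeg_u (d e : ℤ) : Pdeg A B g d e (Pu A B g) = Multiplicative.ofAdd d := by
  unfold Pdeg
  rw [Plift_u]

theorem Pdeg_v (d e : ℤ) : Pdeg A B g d e (Pv A B g) = Multiplicative.ofAdd e := by
  unfold Pdeg
  rw [Plift_v]

theorem Pdeg_c (d e : ℤ) : Pdeg A B g d e (Pc A B g) = Multiplicative.ofAdd (-d - e) := by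
  unfold Pdeg
  rw [Plift_c]

/-- integral degree -/
noncomputable def dg (d e : ℤ) (p : PP A B g) : ℤ := Multiplicative.toAdd (Pdeg A B g d e p)

variable {A B g}

theorem dg_one (d e : ℤ) : dg A B g d e 1 = 0 := by simp [dg]
theorem dg_mul (d e : ℤ) (p q : PP A B g) : dg A B g d e (p * q) = dg A B g d e p + dg A B g d e q := by
  simp [dg]
theorem dg_inv (d e : ℤ) (p : PP A B g) : dg A B g d e p⁻¹ = - dg A B g d e p := by
  simp [dg]
theorem dg_zpow (d e : ℤ) (p : PP A B g) (i : ℤ) : dg A B g d e (p ^ i) = i * dg A B g d e p := by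
  simp [dg]
theorem dg_pow (d e : ℤ) (p : PP A B g) (i : ℕ) : dg A B g d e (p ^ i) = i * dg A B g d e p := by
  simp [dg]
theorem dg_ι (d e : ℤ) (x : G) : dg A B g d e (Pι A B g x) = 0 := by
  simp [dg, Pdeg_ι]
theorem dg_u (d e : ℤ) : dg A B g d e (Pu A B g) = d := by simp [dg, Pdeg_u]
theorem dg_v (d e : ℤ) : dg A B g d e (Pv A B g) = e := by simp [dg, Pdeg_v]
theorem dg_c (d e : ℤ) : dg A B g d e (Pc A B g) = -d - e := by simp [dg, Pdeg_c]

theorem dg_conj (d e : ℤ) (h p : PP A B g) : dg A B g d e (h * p * h⁻¹) = dg A B g d e p := by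
  rw [dg_mul, dg_mul, dg_inv]; ring

/-- an element of the plane group of degree zero -/
theorem PA_deg_zero {q : PP A B g} (hq : q ∈ PA A B g) (h1 : dg A B g 1 0 q = 0)
    (h2 : dg A B g 0 1 q = 0) : ∃ a ∈ A, q = Pι A B g a := by
  obtain ⟨i, j, a, ha, rfl⟩ := (mem_PA_iff q).1 hq
  rw [dg_mul, dg_mul, dg_zpow, dg_zpow, dg_u, dg_v, dg_ι] at h1 h2
  have hi : i = 0 := by linarith
  have hj : j = 0 := by linarith
  subst hi hj
  exact ⟨a, ha, by simp⟩

theorem PB_deg_zero {q : PP A B g} (hq : q ∈ PB A B g) (h1 : dg A B g 1 0 q = 0) :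
    ∃ b ∈ B, q = Pι A B g b := by
  obtain ⟨i, b, hb, rfl⟩ := (mem_PB_iff q).1 hq
  rw [dg_mul, dg_zpow, dg_c, dg_ι] at h1
  have hi : i = 0 := by linarith
  subst hi
  exact ⟨b, hb, by simp⟩

theorem PA_ι (hι : Function.Injective (Pι A B g)) {k : G} (h : Pι A B g k ∈ PA A B g) : k ∈ A := by
  obtain ⟨a, ha, h2⟩ := PA_deg_zero h (dg_ι _ _ _) (dg_ι _ _ _)
  rw [hι h2]
  exact ha

theorem PB_ι (hι : Function.Injective (Pι A B g)) {k : G} (h : Pι A B g k ∈ PB A B g) : k ∈ B := by
  obtain ⟨a, ha, h2⟩ := PB_deg_zero h (dg_ι _ _ _)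
  rw [hι h2]
  exact ha

/-- induction over P -/
theorem PP_ind {C : PP A B g → Prop} (h1 : C 1) (hG : ∀ p (x : G), C p → C (p * Pι A B g x))
    (hu : ∀ p, C p → C (p * Pu A B g)) (hv : ∀ p, C p → C (p * Pv A B g))
    (hc : ∀ p, C p → C (p * Pc A B g)) (hu' : ∀ p, C p → C (p * (Pu A B g)⁻¹))
    (hv' : ∀ p, C p → C (p * (Pv A B g)⁻¹)) (hc' : ∀ p, C p → C (p * (Pc A B g)⁻¹)) :
    ∀ p, C p := by
  have key : ∀ x p : PP A B g, C p → C (p * x) := by
    intro x
    obtain ⟨y, rfl⟩ := QuotientGroup.mk'_surjective _ x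
    refine Monoid.Coprod.induction_on
      (motive := fun y => ∀ p : PP A B g, C p → C (p * QuotientGroup.mk' _ y)) y ?_ ?_ ?_
    · intro a p hp
      exact hG p a hp
    · intro z
      refine FreeGroup.induction_on
        (C := fun z => ∀ p : PP A B g, C p → C (p * QuotientGroup.mk' _ (Monoid.Coprod.inr z)))
        z ?_ ?_ ?_ ?_
      · intro p hp
        rw [map_one, map_one, mul_one]
        exact hp
      · intro i p hp
        fin_cases i
        · exact hu p hp
        · exact hv p hp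
        · exact hc p hp
      · intro i _ p hp
        rw [map_inv, map_inv]
        fin_cases i
        · exact hu' p hp
        · exact hv' p hp
        · exact hc' p hp
      · intro a b ha hb p hp
        rw [map_mul, map_mul, ← mul_assoc]
        exact hb _ (ha _ hp)
    · intro a b ha hb p hp
      rw [map_mul, ← mul_assoc]
      exact hb _ (ha _ hp)
  intro p
  have := key p 1 h1
  rwa [one_mul] at this

end

end Pool.Agent.ABA.B.H17
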