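import Pool.Agent.Helper17_ABA.Two
import Pool.Agent.Helper17_ABA.PGrp
import Pool.Agent.Helper89_ABA.PLink4

/-!
Planes and lines in the triangle graph of P.
-/

set_option autoImplicit false

namespace Pool.Agent.ABA.B.H17

open Pool.Agent.ABA Pool.Agent.ABA.B Pool.Agent.ABA.B.TG

section general

variable {V E : Type} {S : TG V E} {θ : E → E → ℝ}

theorem ow_ge (h : ∀ a b, (0.9 : ℝ) ≤ θ a b) : ∀ v : List E, v ≠ [] →
    0.9 * ((v.length : ℝ) - 1) ≤ ow θ v := by
  intro v
  induction v with
  | nil => intro h; exact absurd rfl h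
  | cons a v ih =>
    intro _
    cases v with
    | nil => simp [ow]
    | cons b v =>
      have h1 := h a b
      have h2 := ih (by simp)
      rw [ow]
      simp only [List.length_cons] at h2 ⊢
      push_cast at h2 ⊢
      linarith

theorem ow_split (θ : E → E → ℝ) (l : List E) (c : E) (r : List E) :
    ow θ (l ++ c :: r) = ow θ (l ++ [c]) + ow θ (c :: r) := by
  induction l with
  | nil => simp [ow]
  | cons a l ih =>
    cases l with
    | nil => simp [ow]
    | cons b l =>
      simp only [List.cons_append, ow] at ih ⊢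
      rw [ih]
      ring

theorem red_join {l : List E} {a b : E} {r : List E} (h1 : Red (l ++ [a, b]))
    (h2 : Red (a :: b :: r)) : Red (l ++ a :: b :: r) := by
  induction l with
  | nil => exact h2
  | cons c l ih =>
    have h3 : Red (l ++ [a, b]) := by
      intro l' x y z r' he
      exact h1 (c :: l') x y z r' (by rw [List.cons_append, he]; rfl)
    refine H56.red_cons (ih h3) ?_
    have h4 := (H56.red_iff _).1 h1 0 c (by simp)
    have h5 : (l ++ a :: b :: r)[1]? = (l ++ [a, b])[1]? := by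
      have h6 : l ++ a :: b :: r = (l ++ [a, b]) ++ r := by simp
      rw [h6, List.getElem?_append_left (by simp)]
    change (l ++ a :: b :: r)[1]? ≠ some c
    rw [h5]
    intro h7
    apply h4
    rw [← h7]
    simp

/-- closing a walk by an arc of a flat -/
theorem close_arc {F : E → Prop} {e x : E} {r l : List E} {y f : E} {P : List E}
    (hX : e :: x :: r = l ++ [y, f]) (hc : (e :: x :: r).IsChain S.Cor) (hr : Red (e :: x :: r))
    (he : F e) (hx : ¬ F x) (hy : ¬ F y) (hP : (f :: (P ++ [e])).IsChain S.Cor)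
    (hPr : Red (f :: (P ++ [e]))) (hPF : ∀ z ∈ P, F z) (hf : F f) :
    (((e :: x :: r) ++ P) ++ ((e :: x :: r) ++ P).take 1).IsChain S.Cor ∧
    Red (((e :: x :: r) ++ P) ++ ((e :: x :: r) ++ P).take 2) ∧
    cw θ ((e :: x :: r) ++ P) = ow θ (e :: x :: r) + ow θ (f :: (P ++ [e])) := by
  have h1 : ((e :: x :: r) ++ P) ++ ((e :: x :: r) ++ P).take 1 =
      (l ++ [y]) ++ f :: (P ++ [e]) := by
    have : ((e :: x :: r) ++ P).take 1 = [e] := by simp
    rw [this, hX]
    simp
  have h2 : ((e :: x :: r) ++ P) ++ ((e :: x :: r) ++ P).take 2 =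
      l ++ y :: f :: (P ++ [e, x]) := by
    have : ((e :: x :: r) ++ P).take 2 = [e, x] := by simp
    rw [this, hX]
    simp
  have h3 : (l ++ [y]) ++ [f] = e :: x :: r := by rw [hX]; simp
  refine ⟨?_, ?_, ?_⟩
  · rw [h1, List.isChain_split, h3]
    exact ⟨hc, hP⟩
  · rw [h2]
    have hA : Red (f :: (P ++ [e, x])) := by
      rcases List.eq_nil_or_concat P with h4 | ⟨P', z, h4⟩
      · subst h4
        rw [List.nil_append]
        refine H56.red_cons (H56.red_short (by simp)) ?_
        simp only [List.getElem?_cons_succ, List.getElem?_cons_zero, ne_eq, Option.some.injEq]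
        rintro rfl
        exact hx hf
      · have h5 : P = P' ++ [z] := by rw [h4, List.concat_eq_append]
        have h6 : f :: (P ++ [e, x]) = (f :: P') ++ z :: e :: [x] := by rw [h5]; simp
        rw [h6]
        refine red_join ?_ ?_
        · have h7 : (f :: P') ++ [z, e] = f :: (P ++ [e]) := by rw [h5]; simp
          rw [h7]
          exact hPr
        · refine H56.red_cons (H56.red_short (by simp)) ?_
          simp only [List.getElem?_cons_succ, List.getElem?_cons_zero, ne_eq, Option.some.injEq]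
          rintro rfl
          exact hx (hPF _ (by rw [h5]; simp))
    refine red_join (by rw [← hX]; exact hr) (H56.red_cons hA ?_)
    intro h4
    cases P with
    | nil =>
      simp only [List.nil_append, List.getElem?_cons_succ, List.getElem?_cons_zero,
        Option.some.injEq] at h4
      exact hy (h4 ▸ he)
    | cons z P =>
      simp only [List.cons_append, List.getElem?_cons_succ, List.getElem?_cons_zero,
        Option.some.injEq] at h4
      exact hy (h4 ▸ hPF z (by simp))
  · unfold cw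
    rw [h1, ow_split, h3]

end general

/-! ## the hexagon -/

/-- neighbours in the hexagon -/
def hxD (a b : Dr) : Bool := decide (a.nxt = b) || decide (b.nxt = a)

/-- weights in the hexagon -/
def dwD (a b : Dr) : ℕ := Knd.wt (kndD a) (kndD b)

theorem arcs (a b : Dr) (h : a ≠ b) : (hxD a b = true ∧ dwD a b ≤ 60) ∨
    (∃ c, hxD a c = true ∧ hxD c b = true ∧ dwD a c + dwD c b ≤ 60) ∨
    (∃ c d, hxD a c = true ∧ hxD c d = true ∧ hxD d b = true ∧ a ≠ d ∧ c ≠ b ∧
      dwD a c + dwD c d + dwD d b ≤ 60) := by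
  revert a b
  decide

section P

variable {G : Type} [Group G] {A B : Subgroup G} {g : G}

/-- the plane of r -/
def PlF (r : PP A B g) (e : XE A B g) : Prop := ∃ m q, r⁻¹ * q ∈ PA A B g ∧ e = eA m q

/-- the line of r -/
def LnF (r : PP A B g) (e : XE A B g) : Prop := ∃ s q, r⁻¹ * q ∈ PB A B g ∧ e = eC s q

theorem PlF_eA {r : PP A B g} {m : Dr} {q : PP A B g} :
    PlF r (eA m q) ↔ r⁻¹ * q ∈ PA A B g := by
  constructor
  · rintro ⟨m', q', h1, h2⟩
    obtain ⟨-, a, ha, rfl⟩ := eA_eq.1 h2
    rw [← mul_assoc] at h1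
    exact (Subgroup.mul_mem_cancel_right _ (ι_mem_PA ha)).1 h1
  · intro h
    exact ⟨m, q, h, rfl⟩

theorem PlF_eC {r : PP A B g} {s : Bool} {q : PP A B g} : ¬ PlF r (eC s q) := by
  rintro ⟨m', q', h1, h2⟩
  exact eA_ne_eC h2.symm

theorem LnF_eC {r : PP A B g} {s : Bool} {q : PP A B g} :
    LnF r (eC s q) ↔ r⁻¹ * q ∈ PB A B g := by
  constructor
  · rintro ⟨m', q', h1, h2⟩
    obtain ⟨-, a, ha, rfl⟩ := eC_eq.1 h2
    rw [← mul_assoc] at h1
    exact (Subgroup.mul_mem_cancel_right _ (ι_mem_PB ha)).1 h1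
  · intro h
    exact ⟨s, q, h, rfl⟩

theorem LnF_eA {r : PP A B g} {m : Dr} {q : PP A B g} : ¬ LnF r (eA m q) := by
  rintro ⟨m', q', h1, h2⟩
  exact eA_ne_eC h2

variable {hg : ¬ IsABA A B g} {hgeo : Geo A B} {hι : Function.Injective (Pι A B g)}

theorem cor_adj {e f : XE A B g} (h : (XX hg hgeo hι).Cor e f) :
    Knd.adj (kndE e) (kndE f) = true := by
  rcases (cor_iff e f).1 h with ⟨m, p, rfl, rfl⟩ | ⟨m, p, rfl, rfl⟩ | ⟨p, rfl, rfl⟩ |
    ⟨p, rfl, rfl⟩ | ⟨p, rfl, rfl⟩ | ⟨p, rfl, rfl⟩ | ⟨p, rfl, rfl⟩ | ⟨p, rfl, rfl⟩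
  · cases m <;> rfl
  · cases m <;> rfl
  all_goals rfl

theorem cor_hx {a b : Dr} (h : hxD a b = true) (q : PP A B g) :
    (XX hg hgeo hι).Cor (eA a q) (eA b q) := by
  unfold hxD at h
  rw [Bool.or_eq_true, decide_eq_true_eq, decide_eq_true_eq] at h
  rcases h with h | h
  · subst h
    exact (cor_iff _ _).2 (Or.inr (Or.inl ⟨a, q, rfl, rfl⟩))
  · subst h
    exact (cor_iff _ _).2 (Or.inl ⟨b, q, rfl, rfl⟩)

theorem θR_low (a b : XE A B g) : (0.9 : ℝ) ≤ θR a b := by
  unfold θR
  have h1 : ((18 : ℕ) : ℝ) ≤ (Knd.wt (kndE a) (kndE b) : ℝ) := by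
    exact_mod_cast Knd.wt_ge _ _
  push_cast at h1
  norm_num
  linarith

theorem θR_dw (a b : Dr) (q q' : PP A B g) : θR (eA a q) (eA b q') = (dwD a b : ℝ) / 20 := rfl

theorem cvR (hA : ∀ x ∈ A, ∀ y ∈ A, x * y = y * x) : Cv (XX hg hgeo hι) θR where
  wt := θR_Wt hg hgeo hι
  low := θR_low
  inner := by
    intro v hv
    have hv0 : v ≠ [] := by
      rintro rfl
      have := hv.1
      simp at this
    rcases (link_X' hg hgeo hι hA v hv0 hv.2.1 hv.2.2).2 with h | ⟨-, h, -⟩
    · norm_num at h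
      linarith
    · rw [h]

theorem chain_same {e : XE A B g} {v : List (XE A B g)}
    (hc : (e :: v).IsChain (XX hg hgeo hι).Cor) : ∀ f ∈ e :: v, xsrc f = xsrc e :=
  src_chain hc

/-- two letters of a plane at the same vertex -/
theorem PlF_same (hι : Function.Injective (Pι A B g)) {r q q' : PP A B g} {m m' : Dr}
    (h1 : PlF r (eA m q)) (h2 : PlF r (eA m' q'))
    (hs : xsrc (eA m q) = xsrc (eA m' q')) : eA m' q' = eA m' q := by
  rw [PlF_eA] at h1 h2
  rw [xsrc_eA, xsrc_eA] at hs
  obtain ⟨k, rfl⟩ := vx_eq.1 hs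
  have h3 : Pι A B g k ∈ PA A B g := by
    rw [← mul_assoc] at h2
    exact (Subgroup.mul_mem_cancel_left _ h1).1 h2
  exact (eA_eq.2 ⟨rfl, k, PA_ι hι h3, rfl⟩).symm

theorem LnF_same (hι : Function.Injective (Pι A B g)) {r q q' : PP A B g} {m m' : Bool}
    (h1 : LnF r (eC m q)) (h2 : LnF r (eC m' q'))
    (hs : xsrc (eC m q) = xsrc (eC m' q')) : eC m' q' = eC m' q := by
  rw [LnF_eC] at h1 h2
  rw [xsrc_eC, xsrc_eC] at hs
  obtain ⟨k, rfl⟩ := vx_eq.1 hs
  have h3 : Pι A B g k ∈ PB A B g := by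
    rw [← mul_assoc] at h2
    exact (Subgroup.mul_mem_cancel_left _ h1).1 h2
  exact (eC_eq.2 ⟨rfl, k, PB_ι hι h3, rfl⟩).symm

theorem plane_flat (hA : ∀ x ∈ A, ∀ y ∈ A, x * y = y * x) (r : PP A B g) :
    Flat (XX hg hgeo hι) θR (PlF r) where
  inv := by
    rintro e ⟨m, q, h, rfl⟩
    refine ⟨m.inv, q * trn A B g m, ?_, xinv_eA m q⟩
    rw [← mul_assoc]
    exact mul_mem h (trn_mem m)
  tri := by
    intro e f1 f2 hT h1 h2
    have hT : XT e f1 f2 := hT
    rcases hT.elim' with ⟨m, p, rfl, rfl, rfl⟩ | ⟨m, p, rfl, rfl, rfl⟩ | ⟨p, rfl, rfl, rfl⟩ |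
      ⟨p, rfl, rfl, rfl⟩ | ⟨p, rfl, rfl, rfl⟩ | ⟨p, rfl, rfl, rfl⟩ | ⟨p, rfl, rfl, rfl⟩ |
      ⟨p, rfl, rfl, rfl⟩
    · rw [PlF_eA] at h1 ⊢
      rw [← mul_assoc]
      exact mul_mem h1 (trn_mem m)
    · rw [PlF_eA] at h1 ⊢
      rw [← mul_assoc]
      exact mul_mem h1 (trn_mem _)
    · exfalso
      rw [PlF_eA] at h1 h2
      rw [← mul_assoc] at h1
      exact not_mem_A hg (PA_ι hι ((Subgroup.mul_mem_cancel_left _ h2).1 h1))
    · exfalso
      rw [PlF_eA] at h1 h2
      rw [← mul_assoc] at h2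
      exact not_mem_A hg (PA_ι hι ((Subgroup.mul_mem_cancel_left _ h1).1 h2))
    · exact absurd h1 PlF_eC
    · exact absurd h2 PlF_eC
    · exact absurd h2 PlF_eC
    · exact absurd h1 PlF_eC
  ang := by
    rintro e x r' l y f hX hc hr he hf hx hy hne
    obtain ⟨m, q, hq, rfl⟩ := he
    obtain ⟨m', q', hq', rfl⟩ := hf
    have hPe : PlF r (eA m q) := PlF_eA.2 hq
    have hPf : PlF r (eA m' q') := PlF_eA.2 hq'
    have hs : xsrc (eA m q) = xsrc (eA m' q') := by
      have := chain_same hc (eA m' q') (by rw [hX]; simp)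
      exact this.symm
    have hf' := PlF_same hι hPe hPf hs
    rw [hf'] at hX hne hPf
    have hmm : m' ≠ m := by
      rintro rfl
      exact hne rfl
    have hall : ∀ c : Dr, PlF r (eA c q) := fun c => PlF_eA.2 hq
    have key : ∀ P : List (XE A B g), (∀ z ∈ P, PlF r z) →
        (eA m' q :: (P ++ [eA m q])).IsChain (XX hg hgeo hι).Cor →
        Red (eA m' q :: (P ++ [eA m q])) → ow θR (eA m' q :: (P ++ [eA m q])) ≤ 3 →
        3.1 ≤ ow θR (eA m q :: x :: r') := by
      intro P hPF hP hPr hPw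
      obtain ⟨h1, h2, h3⟩ := close_arc (θ := θR) (F := PlF r) hX hc hr hPe hx hy hP hPr hPF hPf
      have h4 := (link_X' hg hgeo hι hA _ (by simp) h1 h2).2
      rw [h3] at h4
      rcases h4 with h4 | ⟨-, -, q0, h5, -⟩
      · norm_num at h4 ⊢
        linarith
      · exfalso
        obtain ⟨m1, h6⟩ := h5 (eA m q) (by simp)
        obtain ⟨m2, h7⟩ := h5 x (by simp)
        obtain ⟨-, a, ha, rfl⟩ := eA_eq.1 h6
        apply hx
        rw [h7, PlF_eA, ← mul_assoc]
        exact mul_mem hq (ι_mem_PA ha)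
    rcases arcs m' m hmm with ⟨h1, h2⟩ | ⟨c, h1, h2, h3⟩ | ⟨c, d, h1, h2, h3, h4, h5, h6⟩
    · refine key [] (by simp) ?_ (H56.red_short (by simp)) ?_
      · simp only [List.nil_append, List.isChain_cons_cons, List.isChain_singleton, and_true]
        exact cor_hx h1 q
      · simp only [List.nil_append, ow, θR_dw, add_zero]
        have : (dwD m' m : ℝ) ≤ (60 : ℕ) := by exact_mod_cast h2
        push_cast at this
        linarith
    · refine key [eA c q] (by simpa using hall c) ?_ ?_ ?_
      · simp only [List.cons_append, List.nil_append, List.isChain_cons_cons,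
          List.isChain_singleton, and_true]
        exact ⟨cor_hx h1 q, cor_hx h2 q⟩
      · refine H56.red_cons (H56.red_short (by simp)) ?_
        simp only [List.cons_append, List.nil_append, List.getElem?_cons_succ,
          List.getElem?_cons_zero, ne_eq, Option.some.injEq]
        intro h4
        exact hmm (eA_eq.1 h4).1.symm
      · simp only [List.cons_append, List.nil_append, ow, θR_dw, add_zero]
        have : ((dwD m' c + dwD c m : ℕ) : ℝ) ≤ (60 : ℕ) := by exact_mod_cast h3
        push_cast at this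
        linarith
    · refine key [eA c q, eA d q] ?_ ?_ ?_ ?_
      · intro z hz
        simp only [List.mem_cons, List.not_mem_nil, or_false] at hz
        rcases hz with rfl | rfl
        · exact hall c
        · exact hall d
      · simp only [List.cons_append, List.nil_append, List.isChain_cons_cons,
          List.isChain_singleton, and_true]
        exact ⟨cor_hx h1 q, cor_hx h2 q, cor_hx h3 q⟩
      · refine H56.red_cons (H56.red_cons (H56.red_short (by simp)) ?_) ?_
        · intro h7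
          have h8 : some (eA m q) = some (eA c q) := h7
          exact h5 (eA_eq.1 (Option.some.inj h8)).1.symm
        · intro h7
          have h8 : some (eA d q) = some (eA m' q) := h7
          exact h4 (eA_eq.1 (Option.some.inj h8)).1.symm
      · simp only [List.cons_append, List.nil_append, ow, θR_dw, add_zero]
        have : ((dwD m' c + dwD c d + dwD d m : ℕ) : ℝ) ≤ (60 : ℕ) := by exact_mod_cast h6
        push_cast at this
        linarith

theorem line_flat (r : PP A B g) : Flat (XX hg hgeo hι) θR (LnF r) where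
  inv := by
    rintro e ⟨m, q, h, rfl⟩
    refine ⟨!m, q * trc A B g m, ?_, xinv_eC m q⟩
    rw [← mul_assoc]
    exact mul_mem h (trc_mem m)
  tri := by
    intro e f1 f2 hT h1 h2
    have hT : XT e f1 f2 := hT
    rcases hT.elim' with ⟨m, p, rfl, rfl, rfl⟩ | ⟨m, p, rfl, rfl, rfl⟩ | ⟨p, rfl, rfl, rfl⟩ |
      ⟨p, rfl, rfl, rfl⟩ | ⟨p, rfl, rfl, rfl⟩ | ⟨p, rfl, rfl, rfl⟩ | ⟨p, rfl, rfl, rfl⟩ |
      ⟨p, rfl, rfl, rfl⟩
    · exact absurd h1 LnF_eA
    · exact absurd h1 LnF_eA
    · exact absurd h1 LnF_eA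
    · exact absurd h1 LnF_eA
    · exact absurd h2 LnF_eA
    · exact absurd h1 LnF_eA
    · exact absurd h1 LnF_eA
    · exact absurd h2 LnF_eA
  ang := by
    rintro e x r' l y f hX hc hr he hf hx hy hne
    obtain ⟨m, q, hq, rfl⟩ := he
    obtain ⟨m', q', hq', rfl⟩ := hf
    have hPe : LnF r (eC m q) := LnF_eC.2 hq
    have hPf : LnF r (eC m' q') := LnF_eC.2 hq'
    have hs : xsrc (eC m q) = xsrc (eC m' q') := by
      have := chain_same hc (eC m' q') (by rw [hX]; simp)
      exact this.symm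
    have hf' := LnF_same hι hPe hPf hs
    rw [hf'] at hX hne
    have hmm : m ≠ m' := by
      rintro rfl
      exact hne rfl
    have h1 := ow_ge θR_low (eC m q :: x :: r') (by simp)
    suffices h2 : 5 ≤ (eC m q :: x :: r').length by
      have h3 : (5 : ℝ) ≤ ((eC m q :: x :: r').length : ℝ) := by exact_mod_cast h2
      norm_num at h1 h3 ⊢
      linarith
    -- kinds
    have a1 : (XX hg hgeo hι).Cor (eC m q) x := by
      rw [List.isChain_cons_cons] at hc
      exact hc.1
    have a2 : (XX hg hgeo hι).Cor y (eC m' q) := by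
      rw [hX] at hc
      have := (List.isChain_append_cons_cons.1 hc).2.1
      exact this
    have b1 := cor_adj a1
    have b2 := cor_adj a2
    rw [kndE_eC] at b1 b2
    match r', hX with
    | [], hX =>
      exfalso
      obtain ⟨-, h3, h4⟩ := append_two (l := l) (x := y) (y := eC m' q) rfl hX.symm
      rw [← h4] at b1
      rw [kndE_eC] at b1
      revert b1 hmm
      cases m <;> cases m' <;> simp [kndC, Knd.adj, Knd.hex, Knd.tee]
    | [z], hX =>
      exfalso
      obtain ⟨h3, h4⟩ := append_three (l := l) (x := y) (y := eC m' q) rfl hX.symm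
      rw [h3] at b2
      revert b1 b2 hmm
      generalize kndE x = k
      cases m <;> cases m' <;> cases k <;> simp [kndC, Knd.adj, Knd.hex, Knd.tee]
    | [z, z'], hX =>
      exfalso
      obtain ⟨h3, h4⟩ := append_four (l := l) (x := y) (y := eC m' q) rfl hX.symm
      have a3 : (XX hg hgeo hι).Cor x z := by
        rw [List.isChain_cons_cons, List.isChain_cons_cons] at hc
        exact hc.2.1
      have b3 := cor_adj a3
      rw [h3] at b2
      revert b1 b2 b3 hmm
      generalize kndE x = k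
      generalize kndE z = k'
      cases m <;> cases m' <;> cases k <;> cases k' <;> simp [kndC, Knd.adj, Knd.hex, Knd.tee]
    | _ :: _ :: _ :: _, _ => simp

end P

end Pool.Agent.ABA.B.H17
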