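import Pool.Agent.Helper17_ABA.Ident
import Pool.Agent.Helper17_ABA.Geom
import Pool.Agent.Helper94_ABA.Push

/-!
Assembly of PLamStmt from the P-level theorem and the amalgam lemma.
-/

namespace Pool.Agent.ABA

open Monoid AM

/-- The facts about P = PP A B g which are needed. -/
structure PFacts {G : Type} [Group G] (A B : Subgroup G) (g : G) : Prop where
  uv : ∀ a ∈ A, ∀ i j : ℤ, Pι A B g a * Pu A B g ^ i * Pv A B g ^ j = 1 → a = 1 ∧ i = 0 ∧ j = 0
  cc : ∀ b ∈ B, ∀ i : ℤ, Pι A B g b * Pc A B g ^ i = 1 → b = 1 ∧ i = 0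
  geo : Geo (PA A B g) (PB A B g)

/-- The P-level theorem for presented groups. -/
def PLevelStmt : Prop :=
  ∀ (R : Set (Wd ℤ)) (g : Wd ℤ), (∀ r ∈ R, (r.map Prod.snd).sum = 0) →
    Geo (αP ℤ R true).range (αP ℤ R false).range →
    ¬ IsABA (αP ℤ R true).range (αP ℤ R false).range (ev (αP ℤ R) g) →
    PFacts (αP ℤ R true).range (αP ℤ R false).range (ev (αP ℤ R) g)

section homs

variable {K : Type*} [Group K]

/-- The homomorphism (i, j) ↦ α i * u ^ j. -/
def hom2 (α : Multiplicative ℤ →* K) (u : K) (hu : ∀ k, u * α k = α k * u) :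
    Multiplicative (ℤ × ℤ) →* K :=
  MonoidHom.mk' (fun t => α (Multiplicative.ofAdd (Multiplicative.toAdd t).1) *
    u ^ (Multiplicative.toAdd t).2) (by
    intro s t
    have h1 : Commute (u ^ (Multiplicative.toAdd s).2)
        (α (Multiplicative.ofAdd (Multiplicative.toAdd t).1)) :=
      Commute.zpow_left (hu _) _
    have h2 : α (Multiplicative.ofAdd (Multiplicative.toAdd (s * t)).1) =
        α (Multiplicative.ofAdd (Multiplicative.toAdd s).1) *
          α (Multiplicative.ofAdd (Multiplicative.toAdd t).1) := by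
      rw [← map_mul]
      rfl
    have h3 : u ^ (Multiplicative.toAdd (s * t)).2 = u ^ (Multiplicative.toAdd s).2 *
        u ^ (Multiplicative.toAdd t).2 := by
      rw [← zpow_add]
      rfl
    show _ * _ = (_ * _) * (_ * _)
    rw [h2, h3]
    have h4 := h1.eq
    calc _ = α (Multiplicative.ofAdd (Multiplicative.toAdd s).1) *
          (α (Multiplicative.ofAdd (Multiplicative.toAdd t).1) * u ^ (Multiplicative.toAdd s).2) *
          u ^ (Multiplicative.toAdd t).2 := by group
      _ = _ := by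
        rw [← h4]
        group)

theorem hom2_apply (α : Multiplicative ℤ →* K) (u : K) (hu : ∀ k, u * α k = α k * u)
    (t : Multiplicative (ℤ × ℤ)) : hom2 α u hu t =
      α (Multiplicative.ofAdd (Multiplicative.toAdd t).1) * u ^ (Multiplicative.toAdd t).2 := rfl

/-- The homomorphism (i, j, k) ↦ α i * u ^ j * v ^ k. -/
def hom3 (α : Multiplicative ℤ →* K) (u v : K) (hu : ∀ k, u * α k = α k * u)
    (hv : ∀ k, v * α k = α k * v) (huv : u * v = v * u) :
    Multiplicative (ℤ × ℤ × ℤ) →* K :=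
  MonoidHom.mk' (fun t => α (Multiplicative.ofAdd (Multiplicative.toAdd t).1) *
    u ^ (Multiplicative.toAdd t).2.1 * v ^ (Multiplicative.toAdd t).2.2) (by
    intro s t
    have h1 : Commute (u ^ (Multiplicative.toAdd s).2.1)
        (α (Multiplicative.ofAdd (Multiplicative.toAdd t).1)) :=
      Commute.zpow_left (hu _) _
    have h1' : Commute (v ^ (Multiplicative.toAdd s).2.2)
        (α (Multiplicative.ofAdd (Multiplicative.toAdd t).1)) :=
      Commute.zpow_left (hv _) _
    have h0 : Commute v u := huv.symm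
    have h1'' : Commute (v ^ (Multiplicative.toAdd s).2.2) (u ^ (Multiplicative.toAdd t).2.1) :=
      (h0.zpow_left _).zpow_right _
    have h2 : α (Multiplicative.ofAdd (Multiplicative.toAdd (s * t)).1) =
        α (Multiplicative.ofAdd (Multiplicative.toAdd s).1) *
          α (Multiplicative.ofAdd (Multiplicative.toAdd t).1) := by
      rw [← map_mul]
      rfl
    have h3 : u ^ (Multiplicative.toAdd (s * t)).2.1 = u ^ (Multiplicative.toAdd s).2.1 *
        u ^ (Multiplicative.toAdd t).2.1 := by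
      rw [← zpow_add]
      rfl
    have h3' : v ^ (Multiplicative.toAdd (s * t)).2.2 = v ^ (Multiplicative.toAdd s).2.2 *
        v ^ (Multiplicative.toAdd t).2.2 := by
      rw [← zpow_add]
      rfl
    show _ * _ * _ = (_ * _ * _) * (_ * _ * _)
    rw [h2, h3, h3']
    have h4 := h1.eq
    have h5 := h1'.eq
    have h6 := h1''.eq
    calc _ = α (Multiplicative.ofAdd (Multiplicative.toAdd s).1) *
          (α (Multiplicative.ofAdd (Multiplicative.toAdd t).1) *
          u ^ (Multiplicative.toAdd s).2.1) *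
          u ^ (Multiplicative.toAdd t).2.1 * v ^ (Multiplicative.toAdd s).2.2 *
          v ^ (Multiplicative.toAdd t).2.2 := by group
      _ = α (Multiplicative.ofAdd (Multiplicative.toAdd s).1) * u ^ (Multiplicative.toAdd s).2.1 *
          (α (Multiplicative.ofAdd (Multiplicative.toAdd t).1) *
          (u ^ (Multiplicative.toAdd t).2.1 * v ^ (Multiplicative.toAdd s).2.2)) *
          v ^ (Multiplicative.toAdd t).2.2 := by
        rw [← h4]
        group
      _ = α (Multiplicative.ofAdd (Multiplicative.toAdd s).1) * u ^ (Multiplicative.toAdd s).2.1 *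
          ((α (Multiplicative.ofAdd (Multiplicative.toAdd t).1) *
          v ^ (Multiplicative.toAdd s).2.2) * u ^ (Multiplicative.toAdd t).2.1) *
          v ^ (Multiplicative.toAdd t).2.2 := by
        rw [← h6]
        group
      _ = _ := by
        rw [← h5]
        group)

theorem hom3_apply (α : Multiplicative ℤ →* K) (u v : K) (hu : ∀ k, u * α k = α k * u)
    (hv : ∀ k, v * α k = α k * v) (huv : u * v = v * u)
    (t : Multiplicative (ℤ × ℤ × ℤ)) : hom3 α u v hu hv huv t =
      α (Multiplicative.ofAdd (Multiplicative.toAdd t).1) * u ^ (Multiplicative.toAdd t).2.1 *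
        v ^ (Multiplicative.toAdd t).2.2 := rfl

end homs

section asm

variable (R : Set (Wd ℤ)) (g : Wd ℤ)

/-- The group P for the presented group. -/
abbrev PPR : Type := PP (αP ℤ R true).range (αP ℤ R false).range (ev (αP ℤ R) g)

/-- The embedding of C₁. -/
noncomputable def f1 : Multiplicative (ℤ × ℤ × ℤ) →* PPR R g :=
  hom3 ((Pι _ _ _).comp (αP ℤ R true)) (Pu _ _ _) (Pv _ _ _)
    (fun k => P_ua _ _ _ ⟨k, rfl⟩) (fun k => P_va _ _ _ ⟨k, rfl⟩) (P_uv _ _ _)

/-- The embedding of C₂. -/
noncomputable def f2 : Multiplicative (ℤ × ℤ) →* PPR R g :=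
  hom2 ((Pι _ _ _).comp (αP ℤ R false)) (Pc _ _ _) (fun k => P_cb _ _ _ ⟨k, rfl⟩)

theorem f1_range : (f1 R g).range = PA (αP ℤ R true).range (αP ℤ R false).range
    (ev (αP ℤ R) g) := by
  apply le_antisymm
  · rintro _ ⟨t, rfl⟩
    rw [f1, hom3_apply]
    refine mul_mem (mul_mem ?_ ?_) ?_
    · exact Subgroup.mem_sup_left ⟨_, ⟨_, rfl⟩, rfl⟩
    · exact zpow_mem (Subgroup.mem_sup_right (Subgroup.subset_closure (by simp))) _
    · exact zpow_mem (Subgroup.mem_sup_right (Subgroup.subset_closure (by simp))) _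
  · rw [PA, sup_le_iff]
    constructor
    · rintro _ ⟨_, ⟨k, rfl⟩, rfl⟩
      refine ⟨Multiplicative.ofAdd (Multiplicative.toAdd k, 0, 0), ?_⟩
      rw [f1, hom3_apply]
      simp
    · rw [Subgroup.closure_le]
      rintro _ (rfl | rfl)
      · refine ⟨Multiplicative.ofAdd (0, 1, 0), ?_⟩
        rw [f1, hom3_apply]
        simp
      · refine ⟨Multiplicative.ofAdd (0, 0, 1), ?_⟩
        rw [f1, hom3_apply]
        simp

theorem f2_range : (f2 R g).range = PB (αP ℤ R true).range (αP ℤ R false).range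
    (ev (αP ℤ R) g) := by
  apply le_antisymm
  · rintro _ ⟨t, rfl⟩
    rw [f2, hom2_apply]
    refine mul_mem ?_ ?_
    · exact Subgroup.mem_sup_left ⟨_, ⟨_, rfl⟩, rfl⟩
    · exact zpow_mem (Subgroup.mem_sup_right (Subgroup.subset_closure (by simp))) _
  · rw [PB, sup_le_iff]
    constructor
    · rintro _ ⟨_, ⟨k, rfl⟩, rfl⟩
      refine ⟨Multiplicative.ofAdd (Multiplicative.toAdd k, 0), ?_⟩
      rw [f2, hom2_apply]
      simp
    · rw [Subgroup.closure_le]
      rintro _ rfl
      refine ⟨Multiplicative.ofAdd (0, 1), ?_⟩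
      rw [f2, hom2_apply]
      simp

variable {Λ : Type} [AddCommGroup Λ] (c : ℤ →+ Λ) (x y z : Λ)

/-- C₁ → Λ -/
def g1 : Multiplicative (ℤ × ℤ × ℤ) →* Multiplicative Λ :=
  hom3 (AddMonoidHom.toMultiplicative c) (Multiplicative.ofAdd x) (Multiplicative.ofAdd z)
    (fun _ => mul_comm _ _) (fun _ => mul_comm _ _) (mul_comm _ _)

/-- C₂ → Λ -/
def g2 : Multiplicative (ℤ × ℤ) →* Multiplicative Λ :=
  hom2 (AddMonoidHom.toMultiplicative c) (Multiplicative.ofAdd y) (fun _ => mul_comm _ _)

theorem g1_injective (h : ∀ i j k : ℤ, c i + j • x + k • z = 0 → i = 0 ∧ j = 0 ∧ k = 0) :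
    Function.Injective (g1 c x z) := by
  rw [injective_iff_map_eq_one]
  intro t ht
  rw [g1, hom3_apply] at ht
  obtain ⟨h1, h2, h3⟩ := h _ _ _ (congrArg Multiplicative.toAdd ht)
  apply Multiplicative.toAdd.injective
  exact Prod.ext h1 (Prod.ext h2 h3)

theorem g2_injective (h : ∀ i j : ℤ, c i + j • y = 0 → i = 0 ∧ j = 0) :
    Function.Injective (g2 c y) := by
  rw [injective_iff_map_eq_one]
  intro t ht
  rw [g2, hom2_apply] at ht
  obtain ⟨h1, h2⟩ := h _ _ (congrArg Multiplicative.toAdd ht)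
  apply Multiplicative.toAdd.injective
  exact Prod.ext h1 h2

variable {R g}

theorem f1_injective (hR : ∀ r ∈ R, (r.map Prod.snd).sum = 0)
    (hP : PFacts (αP ℤ R true).range (αP ℤ R false).range (ev (αP ℤ R) g)) :
    Function.Injective (f1 R g) := by
  rw [injective_iff_map_eq_one]
  intro t ht
  rw [f1, hom3_apply] at ht
  obtain ⟨h1, h2, h3⟩ := hP.uv _ ⟨_, rfl⟩ _ _ ht
  have h4 := αP_inj R hR true (h1.trans (map_one _).symm)
  apply Multiplicative.toAdd.injective
  exact Prod.ext (congrArg Multiplicative.toAdd h4) (Prod.ext h2 h3)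

theorem f2_injective (hR : ∀ r ∈ R, (r.map Prod.snd).sum = 0)
    (hP : PFacts (αP ℤ R true).range (αP ℤ R false).range (ev (αP ℤ R) g)) :
    Function.Injective (f2 R g) := by
  rw [injective_iff_map_eq_one]
  intro t ht
  rw [f2, hom2_apply] at ht
  obtain ⟨h1, h2⟩ := hP.cc _ ⟨_, rfl⟩ _ ht
  have h4 := αP_inj R hR false (h1.trans (map_one _).symm)
  apply Multiplicative.toAdd.injective
  exact Prod.ext (congrArg Multiplicative.toAdd h4) h2




variable (R g)

/-- The first amalgam. -/
abbrev Y1 : Type := Push (f1 R g) (g1 c x z)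

/-- The second homomorphism from C₂. -/
noncomputable def f2' : Multiplicative (ℤ × ℤ) →* Y1 R g c x z :=
  (inX (f1 R g) (g1 c x z)).comp (f2 R g)

/-- The second amalgam. -/
abbrev Y2 : Type := Push (f2' R g c x z) (g2 c y)

theorem htf_of (htor : ∀ (n : ℕ) (t : Λ), n ≠ 0 → n • t = 0 → t = 0) :
    ∀ t : Multiplicative Λ, t * t = 1 → t = 1 := by
  intro t ht
  have h1 : (2 : ℕ) • (Multiplicative.toAdd t) = 0 := by
    rw [two_nsmul]
    exact congrArg Multiplicative.toAdd ht
  exact Multiplicative.toAdd.injective (htor 2 _ (by norm_num) h1)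

/-- The two copies of Λ in the second amalgam. -/
noncomputable def jL : Bool → Multiplicative Λ →* Y2 R g c x y z
  | true => (inX (f2' R g c x z) (g2 c y)).comp (inM (f1 R g) (g1 c x z))
  | false => inM (f2' R g c x z) (g2 c y)

/-- P in the second amalgam. -/
noncomputable def jP : PPR R g →* Y2 R g c x y z :=
  (inX (f2' R g c x z) (g2 c y)).comp (inX (f1 R g) (g1 c x z))

variable {R g} in
theorem geo_Y2 (hR : ∀ r ∈ R, (r.map Prod.snd).sum = 0)
    (hP : PFacts (αP ℤ R true).range (αP ℤ R false).range (ev (αP ℤ R) g))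
    (htor : ∀ (n : ℕ) (t : Λ), n ≠ 0 → n • t = 0 → t = 0)
    (hxz : ∀ i j k : ℤ, c i + j • x + k • z = 0 → i = 0 ∧ j = 0 ∧ k = 0)
    (hy : ∀ i j : ℤ, c i + j • y = 0 → i = 0 ∧ j = 0) :
    Geo (jL R g c x y z true).range (jL R g c x y z false).range := by
  have h1 : Geo (inM (f1 R g) (g1 c x z)).range
      ((PB (αP ℤ R true).range (αP ℤ R false).range (ev (αP ℤ R) g)).map
        (inX (f1 R g) (g1 c x z))) := by
    refine am1 (f1_injective hR hP) (g1_injective c x z hxz) (fun _ _ => mul_comm _ _)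
      (htf_of htor) _ ?_
    rw [f1_range]
    exact hP.geo
  have h2 : (PB (αP ℤ R true).range (αP ℤ R false).range (ev (αP ℤ R) g)).map
        (inX (f1 R g) (g1 c x z)) = (f2' R g c x z).range := by
    rw [f2', MonoidHom.range_comp, f2_range]
  rw [h2] at h1
  have hinj : Function.Injective (f2' R g c x z) :=
    (inX_injective (f1_injective hR hP) (g1_injective c x z hxz)).comp (f2_injective hR hP)
  have h3 := am2 hinj (g2_injective c y hy) (fun _ _ => mul_comm _ _) (htf_of htor) _ h1
  have h4 : (jL R g c x y z true).range =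
      (inM (f1 R g) (g1 c x z)).range.map (inX (f2' R g c x z) (g2 c y)) :=
    MonoidHom.range_comp _ _
  rw [h4]
  exact h3

theorem back1 (t : Multiplicative (ℤ × ℤ × ℤ)) : Pmap R g c x y z (f1 R g t) =
    αP Λ (Rnew R g c x y z) true (g1 c x z t) := by
  rw [f1, g1, hom3_apply, hom3_apply, map_mul, map_mul, map_zpow, map_zpow, map_mul, map_mul,
    map_zpow, map_zpow, Pmap_u, Pmap_v]
  congr 2

theorem back2 (t : Multiplicative (ℤ × ℤ)) : Pmap R g c x y z (f2 R g t) =
    αP Λ (Rnew R g c x y z) false (g2 c y t) := by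
  rw [f2, g2, hom2_apply, hom2_apply, map_mul, map_zpow, map_mul, map_zpow, Pmap_c]
  congr 1

/-- The retraction of Y1. -/
noncomputable def ret1 : Y1 R g c x z →* PG Λ (Rnew R g c x y z) :=
  pushLift (Pmap R g c x y z) (αP Λ (Rnew R g c x y z) true) (back1 R g c x y z)

/-- The retraction of Y2. -/
noncomputable def ret2 : Y2 R g c x y z →* PG Λ (Rnew R g c x y z) :=
  pushLift (ret1 R g c x y z) (αP Λ (Rnew R g c x y z) false) (by
    intro t
    rw [f2', MonoidHom.comp_apply, ret1, pushLift_inX]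
    exact back2 R g c x y z t)

theorem ret2_jL (t : Bool) : (ret2 R g c x y z).comp (jL R g c x y z t) =
    αP Λ (Rnew R g c x y z) t := by
  refine MonoidHom.ext (fun m => ?_)
  cases t
  · show ret2 R g c x y z (inM (f2' R g c x z) (g2 c y) m) = _
    rw [ret2, pushLift_inM]
  · show ret2 R g c x y z (inX (f2' R g c x z) (g2 c y) (inM (f1 R g) (g1 c x z) m)) = _
    rw [ret2, pushLift_inX, ret1, pushLift_inM]

theorem jL_true (t : Multiplicative (ℤ × ℤ × ℤ)) :
    jL R g c x y z true (g1 c x z t) = jP R g c x y z (f1 R g t) := by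
  show inX (f2' R g c x z) (g2 c y) (inM (f1 R g) (g1 c x z) _) =
    inX (f2' R g c x z) (g2 c y) (inX (f1 R g) (g1 c x z) _)
  rw [inX_inM]

theorem jL_false (t : Multiplicative (ℤ × ℤ)) :
    jL R g c x y z false (g2 c y t) = jP R g c x y z (f2 R g t) := by
  show inM (f2' R g c x z) (g2 c y) _ =
    inX (f2' R g c x z) (g2 c y) (inX (f1 R g) (g1 c x z) _)
  rw [← inX_inM]
  rfl

end asm

theorem f1_val (R : Set (Wd ℤ)) (g : Wd ℤ) (i j k : ℤ) :
    f1 R g (Multiplicative.ofAdd (i, j, k)) =
      Pι _ _ _ (αP ℤ R true (Multiplicative.ofAdd i)) * Pu _ _ _ ^ j * Pv _ _ _ ^ k := rfl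

theorem f2_val (R : Set (Wd ℤ)) (g : Wd ℤ) (i j : ℤ) :
    f2 R g (Multiplicative.ofAdd (i, j)) =
      Pι _ _ _ (αP ℤ R false (Multiplicative.ofAdd i)) * Pc _ _ _ ^ j := rfl

theorem g1_val {Λ : Type} [AddCommGroup Λ] (c : ℤ →+ Λ) (x z : Λ) (i j k : ℤ) :
    g1 c x z (Multiplicative.ofAdd (i, j, k)) = Multiplicative.ofAdd (c i + j • x + k • z) := rfl

theorem g2_val {Λ : Type} [AddCommGroup Λ] (c : ℤ →+ Λ) (y : Λ) (i j : ℤ) :
    g2 c y (Multiplicative.ofAdd (i, j)) = Multiplicative.ofAdd (c i + j • y) := rfl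

/-- **Assembly.** -/
theorem pLamStmt_of (h : PLevelStmt) : PLamStmt := by
  intro R g Λ _ c x y z hR hgeo hg htor hxz hy
  have hP := h R g hR hgeo hg
  refine ident R g c x y z (jP R g c x y z) (jL R g c x y z) ?_ ?_ ?_ ?_ (ret2 R g c x y z)
    (ret2_jL R g c x y z) (geo_Y2 c x y z hR hP htor hxz hy)
  · intro t k
    cases t
    · have := jL_false R g c x y z (Multiplicative.ofAdd (k, 0))
      rw [g2_val, f2_val, zero_smul, add_zero, zpow_zero, mul_one] at this
      exact this
    · have := jL_true R g c x y z (Multiplicative.ofAdd (k, 0, 0))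
      rw [g1_val, f1_val, zero_smul, zero_smul, add_zero, add_zero, zpow_zero, zpow_zero, mul_one,
        mul_one] at this
      exact this
  · have := jL_true R g c x y z (Multiplicative.ofAdd (0, 1, 0))
    rw [g1_val, f1_val, zero_smul, one_smul, add_zero, map_zero, zero_add, zpow_zero, zpow_one,
      mul_one, ofAdd_zero, map_one, map_one, one_mul] at this
    exact this
  · have := jL_true R g c x y z (Multiplicative.ofAdd (0, 0, 1))
    rw [g1_val, f1_val, zero_smul, one_smul, add_zero, map_zero, zero_add, zpow_zero, zpow_one,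
      mul_one, ofAdd_zero, map_one, map_one, one_mul] at this
    exact this
  · have := jL_false R g c x y z (Multiplicative.ofAdd (0, 1))
    rw [g2_val, f2_val, one_smul, map_zero, zero_add, zpow_one, ofAdd_zero, map_one, map_one,
      one_mul] at this
    exact this

end Pool.Agent.ABA
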