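import Pool.Agent.Helper17_ABA.PFlat

/-!
R2 for the enlarged subgroups of P.
-/

set_option autoImplicit false

namespace Pool.Agent.ABA.B.H17

open Pool.Agent.ABA Pool.Agent.ABA.B Pool.Agent.ABA.B.TG

section

variable {G : Type} [Group G] {A B : Subgroup G} {g : G}

noncomputable instance xeAct : MulAction (PP A B g) (XE A B g) where
  smul p e := actE p e
  one_smul e := congrFun actE_one e
  mul_smul p q e := congrFun (actE_mul p q) e

theorem smul_actE (p : PP A B g) (e : XE A B g) : p • e = actE p e := rfl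

variable {hg : ¬ IsABA A B g} {hgeo : Geo A B} {hι : Function.Injective (Pι A B g)}

theorem gactX : GAct (XX hg hgeo hι) (PP A B g) where
  src h e := xsrc_act h e
  inv h e := xinv_act h e
  tri h _ _ _ hT := XT_act h hT
  δ h e := xδ_act h e

theorem tgt_eA (m : Dr) (p : PP A B g) : (XX hg hgeo hι).tgt (eA m p) = vx (p * trn A B g m) := rfl
theorem tgt_eC (s : Bool) (p : PP A B g) : (XX hg hgeo hι).tgt (eC s p) = vx (p * trc A B g s) := rfl

theorem connX : Conn (XX hg hgeo hι) := by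
  have key : ∀ p : PP A B g, ∃ w, (XX hg hgeo hι).IsP (vx 1) w (vx p) := by
    have ext : ∀ (p q : PP A B g) (e : XE A B g), xsrc e = vx p →
        (XX hg hgeo hι).tgt e = vx q → (∃ w, (XX hg hgeo hι).IsP (vx 1) w (vx p)) →
        ∃ w, (XX hg hgeo hι).IsP (vx 1) w (vx q) := by
      rintro p q e h1 h2 ⟨w, hw⟩
      exact ⟨w ++ [e], isP_append.2 ⟨_, hw, h1, h2⟩⟩
    refine PP_ind ⟨[], rfl⟩ ?_ ?_ ?_ ?_ ?_ ?_ ?_
    · rintro p x ⟨w, hw⟩
      refine ⟨w, ?_⟩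
      have : (vx (p * Pι A B g x) : XV A B g) = vx p := (vx_eq.2 ⟨x, rfl⟩).symm
      rw [this]
      exact hw
    · intro p hp
      exact ext p _ (eA .U p) rfl rfl hp
    · intro p hp
      exact ext p _ (eA .V p) rfl rfl hp
    · intro p hp
      exact ext p _ (eC true p) rfl rfl hp
    · intro p hp
      exact ext p _ (eA .U' p) rfl rfl hp
    · intro p hp
      exact ext p _ (eA .V' p) rfl rfl hp
    · intro p hp
      exact ext p _ (eC false p) rfl rfl hp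
  intro x y
  obtain ⟨p, rfl⟩ := QuotientGroup.mk_surjective x
  obtain ⟨q, rfl⟩ := QuotientGroup.mk_surjective y
  obtain ⟨w1, h1⟩ := key p
  obtain ⟨w2, h2⟩ := key q
  exact ⟨_, isP_append.2 ⟨_, h1.rv, h2⟩⟩

theorem hsysX (hA : ∀ x ∈ A, ∀ y ∈ A, x * y = y * x) (v : List (XE A B g))
    (hv : CRW (XX hg hgeo hι) v) : 6 ≤ v.length := by
  have hv0 : v ≠ [] := by
    rintro rfl
    have := hv.1
    simp at this
  exact (link_X' hg hgeo hι hA v hv0 hv.2.1 hv.2.2).1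

theorem kndE_act (p : PP A B g) (e : XE A B g) : kndE (actE p e) = kndE e := by
  refine XE.ind (P := fun e => kndE (actE p e) = kndE e) ?_ ?_ e
  · intro m q; rfl
  · intro s q; rfl

theorem hcorX (p : PP A B g) (e : XE A B g) : ¬ (XX hg hgeo hι).Cor (p • e) e := by
  intro h
  have h1 := cor_adj h
  rw [smul_actE, kndE_act] at h1
  exact Knd.adj_ne h1 rfl

/-! ## degrees of vertices -/

/-- degree of a vertex -/
noncomputable def vdg (d e : ℤ) : XV A B g → ℤ :=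
  Quotient.lift (s := QuotientGroup.leftRel (Pι A B g).range) (dg A B g d e) (by
    intro x y h
    have h' : x⁻¹ * y ∈ (Pι A B g).range := QuotientGroup.leftRel_apply.1 h
    obtain ⟨k, hk⟩ := h'
    have h1 : y = x * Pι A B g k := by rw [hk, mul_inv_cancel_left]
    rw [h1, dg_mul, dg_ι, add_zero])

theorem vdg_vx (d e : ℤ) (p : PP A B g) : vdg d e (vx p : XV A B g) = dg A B g d e p := rfl

theorem vdg_smul (d e : ℤ) (p : PP A B g) (x : XV A B g) :
    vdg d e (p • x) = dg A B g d e p + vdg d e x := by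
  obtain ⟨q, rfl⟩ := QuotientGroup.mk_surjective x
  change vdg d e (vx (p * q)) = _
  rw [vdg_vx, dg_mul]
  rfl

theorem lip_path {V E : Type} {S : TG V E} {f : V → ℤ} (hf : ∀ e, |f (S.tgt e) - f (S.src e)| ≤ 1) :
    ∀ (w : List E) (x y : V), S.IsP x w y → |f y - f x| ≤ w.length := by
  intro w
  induction w with
  | nil =>
    intro x y h
    rw [← show x = y from h]
    simp
  | cons e w ih =>
    intro x y h
    have h1 := ih _ _ h.2
    have h2 := hf e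
    rw [h.1] at h2
    rw [abs_le] at h1 h2 ⊢
    simp only [List.length_cons]
    push_cast
    constructor <;> linarith [h1.1, h1.2, h2.1, h2.2]

theorem lip_dst {V E : Type} {S : TG V E} {f : V → ℤ} (hc : Conn S)
    (hf : ∀ e, |f (S.tgt e) - f (S.src e)| ≤ 1) (x y : V) : |f y - f x| ≤ dst S x y := by
  obtain ⟨w, hw, hl⟩ := exists_geod hc x y
  have := lip_path hf w x y hw
  rw [hl] at this
  exact this

theorem lipX (d e : ℤ) (hde : (d = 1 ∧ e = 0) ∨ (d = 0 ∧ e = 1)) (x : XE A B g) :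
    |vdg d e ((XX hg hgeo hι).tgt x) - vdg d e ((XX hg hgeo hι).src x)| ≤ 1 := by
  refine XE.ind (P := fun x => |vdg d e ((XX hg hgeo hι).tgt x) -
    vdg d e ((XX hg hgeo hι).src x)| ≤ 1) ?_ ?_ x
  · intro m p
    have h1 : (XX hg hgeo hι).src (eA m p) = vx p := rfl
    rw [tgt_eA, h1, vdg_vx, vdg_vx, dg_mul, add_sub_cancel_left]
    rcases hde with ⟨rfl, rfl⟩ | ⟨rfl, rfl⟩ <;> cases m <;>
      simp [trn, dg_mul, dg_inv, dg_u, dg_v]
  · intro m p
    have h1 : (XX hg hgeo hι).src (eC m p) = vx p := rfl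
    rw [tgt_eC, h1, vdg_vx, vdg_vx, dg_mul, add_sub_cancel_left]
    rcases hde with ⟨rfl, rfl⟩ | ⟨rfl, rfl⟩ <;> cases m <;>
      simp [trc, dg_inv, dg_c]

theorem far_pow {α : PP A B g} (hα : dg A B g 1 0 α ≠ 0 ∨ dg A B g 0 1 α ≠ 0) (m : ℕ)
    (x : XV A B g) : m ≤ dst (XX hg hgeo hι) x (α ^ m • x) := by
  have key : ∀ d e : ℤ, ((d = 1 ∧ e = 0) ∨ (d = 0 ∧ e = 1)) → dg A B g d e α ≠ 0 →
      m ≤ dst (XX hg hgeo hι) x (α ^ m • x) := by
    intro d e hde hne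
    have h1 := lip_dst connX (lipX (hg := hg) (hgeo := hgeo) (hι := hι) d e hde) x (α ^ m • x)
    rw [vdg_smul, dg_pow, add_sub_cancel_right, abs_mul] at h1
    have h2 : 1 ≤ |dg A B g d e α| := Int.one_le_abs hne
    have h3 : |(m : ℤ)| = m := abs_of_nonneg (by positivity)
    rw [h3] at h1
    have h4 : (m : ℤ) * 1 ≤ m * |dg A B g d e α| := by
      apply mul_le_mul_of_nonneg_left h2 (by positivity)
    have : (m : ℤ) ≤ dst (XX hg hgeo hι) x (α ^ m • x) := by linarith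
    exact_mod_cast this
  rcases hα with h | h
  · exact key 1 0 (Or.inl ⟨rfl, rfl⟩) h
  · exact key 0 1 (Or.inr ⟨rfl, rfl⟩) h

/-- **Hyperbolic elements**: two flats preserved by an element of nonzero degree have a common
letter. -/
theorem hyp (M : Mods) (hSC : (XX hg hgeo hι).SC) (hA : ∀ x ∈ A, ∀ y ∈ A, x * y = y * x)
    {α : PP A B g} (hα : dg A B g 1 0 α ≠ 0 ∨ dg A B g 0 1 α ≠ 0) {F1 F2 : XE A B g → Prop}
    (h1 : Flat (XX hg hgeo hι) θR F1) (h2 : Flat (XX hg hgeo hι) θR F2)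
    (i1 : ∀ e, F1 e → F1 (actE α e)) (i2 : ∀ e, F2 e → F2 (actE α e))
    (c1 : ∀ e e', F1 e → F1 e' → ∃ w, (XX hg hgeo hι).IsP (xsrc e) w (xsrc e') ∧ ∀ z ∈ w, F1 z)
    (c2 : ∀ e e', F2 e → F2 e' → ∃ w, (XX hg hgeo hι).IsP (xsrc e) w (xsrc e') ∧ ∀ z ∈ w, F2 z)
    (n1 : ∃ e, F1 e) (n2 : ∃ e, F2 e) : ∃ e, F1 e ∧ F2 e := by
  classical
  by_contra hno
  push Not at hno
  have hex : ∃ n, ∃ e f, F1 e ∧ F2 f ∧ dst (XX hg hgeo hι) (xsrc e) (xsrc f) = n := by
    obtain ⟨e, he⟩ := n1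
    obtain ⟨f, hf⟩ := n2
    exact ⟨_, e, f, he, hf, rfl⟩
  obtain ⟨D, ⟨e, f, he, hf, hD⟩, hmin⟩ : ∃ D, (∃ e f, F1 e ∧ F2 f ∧
      dst (XX hg hgeo hι) (xsrc e) (xsrc f) = D) ∧
      ∀ m, (∃ e f, F1 e ∧ F2 f ∧ dst (XX hg hgeo hι) (xsrc e) (xsrc f) = m) → D ≤ m :=
    ⟨Nat.find hex, Nat.find_spec hex, fun m hm => Nat.find_min' hex hm⟩
  have pow1 : ∀ (m : ℕ) e, F1 e → F1 (α ^ m • e) := by
    intro m
    induction m with
    | zero => intro e he; rw [pow_zero, one_smul]; exact he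
    | succ m ih =>
      intro e he
      rw [pow_succ', mul_smul]
      exact i1 _ (ih e he)
  have pow2 : ∀ (m : ℕ) e, F2 e → F2 (α ^ m • e) := by
    intro m
    induction m with
    | zero => intro e he; rw [pow_zero, one_smul]; exact he
    | succ m ih =>
      intro e he
      rw [pow_succ', mul_smul]
      exact i2 _ (ih e he)
  have src : ∀ (m : ℕ) (e : XE A B g), xsrc (α ^ m • e) = α ^ m • xsrc e :=
    fun m e => xsrc_act _ _
  rcases Nat.eq_zero_or_pos D with h0 | h0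
  · -- a common vertex
    rw [h0] at hD
    have hxy := eq_of_dst connX hD
    obtain ⟨σ, hσ, hσF⟩ := c1 e (α ^ 1 • e) he (pow1 1 e he)
    obtain ⟨τ, hτ, hτF⟩ := c2 (α ^ 1 • f) f (pow2 1 f hf) hf
    rw [src, ← hxy, ← src] at hτ
    have h3 := two_flats M hSC (cvR hA) h1 h2 (fun e h h' => hno e h h') hσ hσF hτ hτF
    have h4 := far_pow (hg := hg) (hgeo := hgeo) (hι := hι) hα 1 (xsrc e)
    rw [← src, ← h3, dst_self] at h4
    omega
  · obtain ⟨κ, hκ, hκl⟩ := exists_geod connX (xsrc e) (xsrc f)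
    rw [hD] at hκl
    obtain ⟨σ, hσ, hσF⟩ := c1 e (α ^ (44 * D) • e) he (pow1 _ e he)
    obtain ⟨τ, hτ, hτF⟩ := c2 (α ^ (44 * D) • f) f (pow2 _ f hf) hf
    have hκ' := (gactX (hg := hg) (hgeo := hgeo) (hι := hι)).isP (α ^ (44 * D)) hκ
    rw [← src, ← src] at hκ'
    refine quad_flats M hSC connX (cvR hA) h1 h2 (D := D) h0 ?_ hσ hσF hκ'
      (by rw [List.length_map, hκl]) hτ hτF hκ.rv (by rw [rv_length, hκl])
      ⟨e, he, rfl⟩ ⟨f, hf, rfl⟩ ?_
    · rintro u v ⟨e', he', rfl⟩ ⟨f', hf', rfl⟩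
      exact hmin _ ⟨e', f', he', hf', rfl⟩
    · rw [src]
      exact far_pow hα _ _

/-! ## planes and lines -/

theorem plane_inv {r α : PP A B g} (h : r⁻¹ * α * r ∈ PA A B g) (e : XE A B g)
    (he : PlF r e) : PlF r (actE α e) := by
  obtain ⟨m, q, hq, rfl⟩ := he
  rw [actE_eA, PlF_eA]
  have : r⁻¹ * (α * q) = (r⁻¹ * α * r) * (r⁻¹ * q) := by group
  rw [this]
  exact mul_mem h hq

theorem line_inv {r α : PP A B g} (h : r⁻¹ * α * r ∈ PB A B g) (e : XE A B g)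
    (he : LnF r e) : LnF r (actE α e) := by
  obtain ⟨m, q, hq, rfl⟩ := he
  rw [actE_eC, LnF_eC]
  have : r⁻¹ * (α * q) = (r⁻¹ * α * r) * (r⁻¹ * q) := by group
  rw [this]
  exact mul_mem h hq

theorem plane_path (r q : PP A B g) (hq : q ∈ PA A B g) :
    ∃ w, (XX hg hgeo hι).IsP (vx r) w (vx (r * q)) ∧ ∀ z ∈ w, PlF r z := by
  have step : ∀ (m : Dr) (s : PP A B g), s ∈ PA A B g →
      (∃ w, (XX hg hgeo hι).IsP (vx r) w (vx (r * s)) ∧ ∀ z ∈ w, PlF r z) →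
      ∃ w, (XX hg hgeo hι).IsP (vx r) w (vx (r * (s * trn A B g m))) ∧ ∀ z ∈ w, PlF r z := by
    rintro m s hs ⟨w, hw, hz⟩
    refine ⟨w ++ [eA m (r * s)], isP_append.2 ⟨_, hw, rfl, ?_⟩, ?_⟩
    · rw [tgt_eA, ← mul_assoc]
      rfl
    · intro z hz'
      rcases List.mem_append.1 hz' with h | h
      · exact hz z h
      · rw [List.mem_singleton] at h
        rw [h, PlF_eA, inv_mul_cancel_left]
        exact hs
  have pw : ∀ (m : Dr) (n : ℕ) (s : PP A B g), s ∈ PA A B g →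
      (∃ w, (XX hg hgeo hι).IsP (vx r) w (vx (r * s)) ∧ ∀ z ∈ w, PlF r z) →
      ∃ w, (XX hg hgeo hι).IsP (vx r) w (vx (r * (s * trn A B g m ^ n))) ∧
        ∀ z ∈ w, PlF r z := by
    intro m n
    induction n with
    | zero => intro s _ h; rw [pow_zero, mul_one]; exact h
    | succ n ih =>
      intro s hs h
      have := step m _ (mul_mem hs (pow_mem (trn_mem m) n)) (ih s hs h)
      rw [pow_succ, ← mul_assoc s]
      exact this
  have pz : ∀ (m : Dr) (n : ℤ) (s : PP A B g), s ∈ PA A B g →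
      (∃ w, (XX hg hgeo hι).IsP (vx r) w (vx (r * s)) ∧ ∀ z ∈ w, PlF r z) →
      ∃ w, (XX hg hgeo hι).IsP (vx r) w (vx (r * (s * trn A B g m ^ n))) ∧
        ∀ z ∈ w, PlF r z := by
    intro m n s hs h
    obtain ⟨k, rfl | rfl⟩ := n.eq_nat_or_neg
    · rw [zpow_natCast]
      exact pw m k s hs h
    · rw [zpow_neg, zpow_natCast, ← inv_pow, ← trn_inv]
      exact pw m.inv k s hs h
  obtain ⟨i, j, a, ha, rfl⟩ := (mem_PA_iff q).1 hq
  have h1 : (vx (r * (Pu A B g ^ i * Pv A B g ^ j * Pι A B g a)) : XV A B g) =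
      vx (r * (1 * trn A B g .U ^ i * trn A B g .V ^ j)) := by
    refine (vx_eq.2 ⟨a, ?_⟩).symm
    simp only [trn, one_mul, mul_assoc]
  rw [h1]
  refine pz .V j _ (mul_mem (one_mem _) (zpow_mem (trn_mem _) _))
    (pz .U i 1 (one_mem _) ⟨[], ?_, by simp⟩)
  rw [mul_one]
  rfl

theorem line_path (r q : PP A B g) (hq : q ∈ PB A B g) :
    ∃ w, (XX hg hgeo hι).IsP (vx r) w (vx (r * q)) ∧ ∀ z ∈ w, LnF r z := by
  have step : ∀ (m : Bool) (s : PP A B g), s ∈ PB A B g →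
      (∃ w, (XX hg hgeo hι).IsP (vx r) w (vx (r * s)) ∧ ∀ z ∈ w, LnF r z) →
      ∃ w, (XX hg hgeo hι).IsP (vx r) w (vx (r * (s * trc A B g m))) ∧ ∀ z ∈ w, LnF r z := by
    rintro m s hs ⟨w, hw, hz⟩
    refine ⟨w ++ [eC m (r * s)], isP_append.2 ⟨_, hw, rfl, ?_⟩, ?_⟩
    · rw [tgt_eC, ← mul_assoc]
      rfl
    · intro z hz'
      rcases List.mem_append.1 hz' with h | h
      · exact hz z h
      · rw [List.mem_singleton] at h
        rw [h, LnF_eC, inv_mul_cancel_left]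
        exact hs
  have pw : ∀ (m : Bool) (n : ℕ) (s : PP A B g), s ∈ PB A B g →
      (∃ w, (XX hg hgeo hι).IsP (vx r) w (vx (r * s)) ∧ ∀ z ∈ w, LnF r z) →
      ∃ w, (XX hg hgeo hι).IsP (vx r) w (vx (r * (s * trc A B g m ^ n))) ∧
        ∀ z ∈ w, LnF r z := by
    intro m n
    induction n with
    | zero => intro s _ h; rw [pow_zero, mul_one]; exact h
    | succ n ih =>
      intro s hs h
      have := step m _ (mul_mem hs (pow_mem (trc_mem m) n)) (ih s hs h)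
      rw [pow_succ, ← mul_assoc s]
      exact this
  obtain ⟨i, a, ha, rfl⟩ := (mem_PB_iff q).1 hq
  have h1 : (vx (r * (Pc A B g ^ i * Pι A B g a)) : XV A B g) =
      vx (r * (1 * trc A B g true ^ i)) := by
    refine (vx_eq.2 ⟨a, ?_⟩).symm
    simp only [trc, one_mul, mul_assoc]
  rw [h1]
  have h0 : ∃ w, (XX hg hgeo hι).IsP (vx r) w (vx (r * 1)) ∧ ∀ z ∈ w, LnF r z := by
    refine ⟨[], ?_, by simp⟩
    rw [mul_one]
    rfl
  obtain ⟨k, rfl | rfl⟩ := i.eq_nat_or_neg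
  · rw [zpow_natCast]
    exact pw true k 1 (one_mem _) h0
  · rw [zpow_neg, zpow_natCast, ← inv_pow, ← trc_inv]
    exact pw _ k 1 (one_mem _) h0

theorem plane_conn (r : PP A B g) (e e' : XE A B g) (he : PlF r e) (he' : PlF r e') :
    ∃ w, (XX hg hgeo hι).IsP (xsrc e) w (xsrc e') ∧ ∀ z ∈ w, PlF r z := by
  obtain ⟨m, q, hq, rfl⟩ := he
  obtain ⟨m', q', hq', rfl⟩ := he'
  obtain ⟨w, hw, hz⟩ := plane_path (hg := hg) (hgeo := hgeo) (hι := hι) q (q⁻¹ * q') (by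
    have : q⁻¹ * q' = (r⁻¹ * q)⁻¹ * (r⁻¹ * q') := by group
    rw [this]
    exact mul_mem (inv_mem hq) hq')
  rw [mul_inv_cancel_left] at hw
  refine ⟨w, hw, fun z hz' => ?_⟩
  obtain ⟨m1, q1, h1, rfl⟩ := hz z hz'
  rw [PlF_eA]
  have : r⁻¹ * q1 = (r⁻¹ * q) * (q⁻¹ * q1) := by group
  rw [this]
  exact mul_mem hq h1

theorem line_conn (r : PP A B g) (e e' : XE A B g) (he : LnF r e) (he' : LnF r e') :
    ∃ w, (XX hg hgeo hι).IsP (xsrc e) w (xsrc e') ∧ ∀ z ∈ w, LnF r z := by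
  obtain ⟨m, q, hq, rfl⟩ := he
  obtain ⟨m', q', hq', rfl⟩ := he'
  obtain ⟨w, hw, hz⟩ := line_path (hg := hg) (hgeo := hgeo) (hι := hι) q (q⁻¹ * q') (by
    have : q⁻¹ * q' = (r⁻¹ * q)⁻¹ * (r⁻¹ * q') := by group
    rw [this]
    exact mul_mem (inv_mem hq) hq')
  rw [mul_inv_cancel_left] at hw
  refine ⟨w, hw, fun z hz' => ?_⟩
  obtain ⟨m1, q1, h1, rfl⟩ := hz z hz'
  rw [LnF_eC]
  have : r⁻¹ * q1 = (r⁻¹ * q) * (q⁻¹ * q1) := by group
  rw [this]
  exact mul_mem hq h1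

/-! ## elliptic elements -/

theorem PA_comm_ι {q : PP A B g} (hq : q ∈ PA A B g) {a : G} (ha : a ∈ A) (h1 : a ≠ 1) :
    ∃ a1 ∈ A, a1 ≠ 1 ∧ Pι A B g a * q = q * Pι A B g a1 := by
  obtain ⟨i, j, a0, ha0, rfl⟩ := (mem_PA_iff q).1 hq
  refine ⟨a0⁻¹ * a * a0, A.mul_mem (A.mul_mem (A.inv_mem ha0) ha) ha0, ?_, ?_⟩
  · intro h
    apply h1
    have : a = a0 * (a0⁻¹ * a * a0) * a0⁻¹ := by group
    rw [this, h]
    group
  · have hu : Commute (Pu A B g) (Pι A B g a) := P_ua A B g ha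
    have hv : Commute (Pv A B g) (Pι A B g a) := P_va A B g ha
    have h2 : Commute (Pι A B g a) (Pu A B g ^ i * Pv A B g ^ j) :=
      (hu.symm.zpow_right i).mul_right (hv.symm.zpow_right j)
    rw [map_mul, map_mul, map_inv]
    calc Pι A B g a * (Pu A B g ^ i * Pv A B g ^ j * Pι A B g a0)
        = (Pι A B g a * (Pu A B g ^ i * Pv A B g ^ j)) * Pι A B g a0 := by group
      _ = ((Pu A B g ^ i * Pv A B g ^ j) * Pι A B g a) * Pι A B g a0 := by rw [h2.eq]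
      _ = _ := by group

theorem PB_comm_ι {q : PP A B g} (hq : q ∈ PB A B g) {a : G} (ha : a ∈ B) (h1 : a ≠ 1) :
    ∃ a1 ∈ B, a1 ≠ 1 ∧ Pι A B g a * q = q * Pι A B g a1 := by
  obtain ⟨i, a0, ha0, rfl⟩ := (mem_PB_iff q).1 hq
  refine ⟨a0⁻¹ * a * a0, B.mul_mem (B.mul_mem (B.inv_mem ha0) ha) ha0, ?_, ?_⟩
  · intro h
    apply h1
    have : a = a0 * (a0⁻¹ * a * a0) * a0⁻¹ := by group
    rw [this, h]
    group
  · have hu : Commute (Pc A B g) (Pι A B g a) := P_cb A B g ha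
    have h2 : Commute (Pι A B g a) (Pc A B g ^ i) := hu.symm.zpow_right i
    rw [map_mul, map_mul, map_inv]
    calc Pι A B g a * (Pc A B g ^ i * Pι A B g a0)
        = (Pι A B g a * Pc A B g ^ i) * Pι A B g a0 := by group
      _ = (Pc A B g ^ i * Pι A B g a) * Pι A B g a0 := by rw [h2.eq]
      _ = _ := by group

/-- solving the fixed point equation -/
theorem fix_eq (hι : Function.Injective (Pι A B g)) {q : PP A B g} {a a1 k c : G}
    (h1 : Pι A B g a * q = q * Pι A B g a1)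
    (h2 : q * Pι A B g k = Pι A B g a * (q * Pι A B g k) * Pι A B g c) :
    k⁻¹ * a1 * k⁻¹⁻¹ = c⁻¹ := by
  rw [← mul_assoc, h1, mul_assoc, mul_assoc, ← map_mul] at h2
  have h3 : Pι A B g k = Pι A B g (a1 * (k * c)) := by
    rw [map_mul]
    have := mul_left_cancel h2
    exact this
  have h4 := hι h3
  rw [_root_.inv_inv]
  have h5 : a1 = k * c⁻¹ * k⁻¹ := by
    have : a1 = (a1 * (k * c)) * (c⁻¹ * k⁻¹) := by group
    rw [this, ← h4]
    group
  rw [h5]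
  group

theorem ell_plane (M : Mods) (hSC : (XX hg hgeo hι).SC) (hA : ∀ x ∈ A, ∀ y ∈ A, x * y = y * x)
    {a : G} (ha : a ∈ A) (h1 : a ≠ 1) {r : PP A B g}
    (hr : (vx (Pι A B g a * r) : XV A B g) = vx r) :
    ∃ q ∈ PA A B g, ∃ k : G, r = q * Pι A B g k := by
  obtain ⟨γ, hγ, -, hfix⟩ := fix_path M hSC (connX (hg := hg) (hgeo := hgeo) (hι := hι))
    (hsysX hA) gactX (Pι A B g a) (hcorX _) _ (vx 1) (vx r) rfl
    (by
      change vx (Pι A B g a * 1) = vx 1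
      rw [mul_one]
      exact (vx_eq.2 ⟨a, by rw [one_mul]⟩).symm) hr
  have key : ∀ (γ : List (XE A B g)) (q0 : PP A B g), q0 ∈ PA A B g →
      (XX hg hgeo hι).IsP (vx q0) γ (vx r) → (∀ e ∈ γ, actE (Pι A B g a) e = e) →
      ∃ q ∈ PA A B g, ∃ k : G, r = q * Pι A B g k := by
    intro γ
    induction γ with
    | nil =>
      intro q0 hq0 h2 _
      obtain ⟨k, hk⟩ := vx_eq.1 (show vx q0 = vx r from h2)
      exact ⟨q0, hq0, k, hk⟩
    | cons e γ ih =>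
      intro q0 hq0 h2 h3
      have h4 : xsrc e = vx q0 := h2.1
      have h5 := h3 e List.mem_cons_self
      obtain ⟨a1, ha1, hne, hcomm⟩ := PA_comm_ι hq0 ha h1
      rcases edge_at h4 with ⟨m, k, rfl⟩ | ⟨s, k, rfl⟩
      · rw [actE_eA] at h5
        obtain ⟨-, c, hc, h6⟩ := eA_eq.1 h5
        have h7 := fix_eq hι hcomm h6
        have hk : k ∈ A := by
          have := hgeo.aa k⁻¹ a1 ha1 (by rw [h7]; exact A.inv_mem hc) hne
          exact (A.inv_mem_iff).1 this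
        have h8 := h2.2
        rw [tgt_eA] at h8
        exact ih _ (mul_mem (mul_mem hq0 (ι_mem_PA hk)) (trn_mem m)) h8
          (fun f hf => h3 f (List.mem_cons_of_mem _ hf))
      · exfalso
        rw [actE_eC] at h5
        obtain ⟨-, c, hc, h6⟩ := eC_eq.1 h5
        have h7 := fix_eq hι hcomm h6
        exact hne (hgeo.ab' k⁻¹ a1 ha1 (by rw [h7]; exact B.inv_mem hc))
  exact key γ 1 (one_mem _) hγ hfix

theorem ell_line (M : Mods) (hSC : (XX hg hgeo hι).SC) (hA : ∀ x ∈ A, ∀ y ∈ A, x * y = y * x)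
    {b : G} (hb : b ∈ B) (h1 : b ≠ 1) {r : PP A B g}
    (hr : (vx (Pι A B g b * r) : XV A B g) = vx r) :
    ∃ q ∈ PB A B g, ∃ k : G, r = q * Pι A B g k := by
  obtain ⟨γ, hγ, -, hfix⟩ := fix_path M hSC (connX (hg := hg) (hgeo := hgeo) (hι := hι))
    (hsysX hA) gactX (Pι A B g b) (hcorX _) _ (vx 1) (vx r) rfl
    (by
      change vx (Pι A B g b * 1) = vx 1
      rw [mul_one]
      exact (vx_eq.2 ⟨b, by rw [one_mul]⟩).symm) hr
  have key : ∀ (γ : List (XE A B g)) (q0 : PP A B g), q0 ∈ PB A B g →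
      (XX hg hgeo hι).IsP (vx q0) γ (vx r) → (∀ e ∈ γ, actE (Pι A B g b) e = e) →
      ∃ q ∈ PB A B g, ∃ k : G, r = q * Pι A B g k := by
    intro γ
    induction γ with
    | nil =>
      intro q0 hq0 h2 _
      obtain ⟨k, hk⟩ := vx_eq.1 (show vx q0 = vx r from h2)
      exact ⟨q0, hq0, k, hk⟩
    | cons e γ ih =>
      intro q0 hq0 h2 h3
      have h4 : xsrc e = vx q0 := h2.1
      have h5 := h3 e List.mem_cons_self
      obtain ⟨a1, ha1, hne, hcomm⟩ := PB_comm_ι hq0 hb h1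
      rcases edge_at h4 with ⟨m, k, rfl⟩ | ⟨s, k, rfl⟩
      · exfalso
        rw [actE_eA] at h5
        obtain ⟨-, c, hc, h6⟩ := eA_eq.1 h5
        have h7 := fix_eq hι hcomm h6
        have h8 : k * c⁻¹ * k⁻¹ = a1 := by
          rw [← h7]
          group
        have h9 := hgeo.ab' k c⁻¹ (A.inv_mem hc) (by rw [h8]; exact ha1)
        rw [h9] at h8
        apply hne
        rw [← h8]
        group
      · rw [actE_eC] at h5
        obtain ⟨-, c, hc, h6⟩ := eC_eq.1 h5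
        have h7 := fix_eq hι hcomm h6
        have hk : k ∈ B := by
          have := hgeo.bb k⁻¹ a1 ha1 (by rw [h7]; exact B.inv_mem hc) hne
          exact (B.inv_mem_iff).1 this
        have h8 := h2.2
        rw [tgt_eC] at h8
        exact ih _ (mul_mem (mul_mem hq0 (ι_mem_PB hk)) (trc_mem s)) h8
          (fun f hf => h3 f (List.mem_cons_of_mem _ hf))
  exact key γ 1 (one_mem _) hγ hfix

/-- conjugates in terms of the decomposition of h -/
theorem conj_dec {h q : PP A B g} {k a a1 : G} (hr : h⁻¹ = q * Pι A B g k)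
    (hc : Pι A B g a * q = q * Pι A B g a1) :
    h * Pι A B g a * h⁻¹ = Pι A B g (k⁻¹ * a1 * k⁻¹⁻¹) := by
  have h1 : h = Pι A B g k⁻¹ * q⁻¹ := by
    have : h = (h⁻¹)⁻¹ := by group
    rw [this, hr, mul_inv_rev, map_inv]
  rw [hr, h1, map_mul, map_mul, _root_.inv_inv]
  calc Pι A B g k⁻¹ * q⁻¹ * Pι A B g a * (q * Pι A B g k)
      = Pι A B g k⁻¹ * q⁻¹ * (Pι A B g a * q) * Pι A B g k := by group
    _ = Pι A B g k⁻¹ * q⁻¹ * (q * Pι A B g a1) * Pι A B g k := by rw [hc]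
    _ = _ := by group

theorem vx_conj {h y : PP A B g} {a c : G} (hy : h * Pι A B g a * h⁻¹ = y)
    (h1 : y = Pι A B g c) : (vx (Pι A B g a * h⁻¹) : XV A B g) = vx h⁻¹ := by
  refine (vx_eq.2 ⟨c, ?_⟩).symm
  rw [← h1, ← hy]
  group

/-- **R2** for the planes. -/
theorem field_aa (M : Mods) (hSC : (XX hg hgeo hι).SC) (hA : ∀ x ∈ A, ∀ y ∈ A, x * y = y * x) :
    R2 (PA A B g) := by
  intro h x hx hxh hne
  by_cases hd : dg A B g 1 0 x ≠ 0 ∨ dg A B g 0 1 x ≠ 0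
  · obtain ⟨e, h1, h2⟩ := hyp (hg := hg) (hgeo := hgeo) (hι := hι) M hSC hA hd
      (plane_flat hA 1) (plane_flat hA h⁻¹)
      (plane_inv (by simpa using hx)) (plane_inv (by simpa using hxh))
      (plane_conn 1) (plane_conn h⁻¹) ⟨eA .U 1, PlF_eA.2 (by simp)⟩
      ⟨eA .U h⁻¹, PlF_eA.2 (by simp)⟩
    obtain ⟨m, q, hq, rfl⟩ := h1
    rw [PlF_eA, _root_.inv_inv] at h2
    rw [inv_one, one_mul] at hq
    exact (Subgroup.mul_mem_cancel_right _ hq).1 h2
  · push Not at hd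
    obtain ⟨a, ha, rfl⟩ := PA_deg_zero hx hd.1 hd.2
    have ha1 : a ≠ 1 := by
      rintro rfl
      exact hne (map_one _)
    obtain ⟨a', ha', h1⟩ := PA_deg_zero hxh (by rw [dg_conj]; exact hd.1)
      (by rw [dg_conj]; exact hd.2)
    obtain ⟨q, hq, k, hr⟩ := ell_plane (hg := hg) (hgeo := hgeo) (hι := hι) M hSC hA ha ha1
      (vx_conj rfl h1)
    obtain ⟨a1, ha1', hne1, hcomm⟩ := PA_comm_ι hq ha ha1
    have h2 := conj_dec hr hcomm
    rw [h1] at h2
    have h3 := hι h2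
    have hk : k⁻¹ ∈ A := hgeo.aa k⁻¹ a1 ha1' (by rw [← h3]; exact ha') hne1
    have h4 : h⁻¹ ∈ PA A B g := by
      rw [hr]
      exact mul_mem hq (ι_mem_PA ((A.inv_mem_iff).1 hk))
    exact (Subgroup.inv_mem_iff _).1 h4

/-- **R2** for the lines. -/
theorem field_bb (M : Mods) (hSC : (XX hg hgeo hι).SC) (hA : ∀ x ∈ A, ∀ y ∈ A, x * y = y * x) :
    R2 (PB A B g) := by
  intro h x hx hxh hne
  by_cases hd : dg A B g 1 0 x ≠ 0
  · obtain ⟨e, h1, h2⟩ := hyp (hg := hg) (hgeo := hgeo) (hι := hι) M hSC hA (Or.inl hd)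
      (line_flat 1) (line_flat h⁻¹)
      (line_inv (by simpa using hx)) (line_inv (by simpa using hxh))
      (line_conn 1) (line_conn h⁻¹) ⟨eC true 1, LnF_eC.2 (by simp)⟩
      ⟨eC true h⁻¹, LnF_eC.2 (by simp)⟩
    obtain ⟨m, q, hq, rfl⟩ := h1
    rw [LnF_eC, _root_.inv_inv] at h2
    rw [inv_one, one_mul] at hq
    exact (Subgroup.mul_mem_cancel_right _ hq).1 h2
  · push Not at hd
    obtain ⟨a, ha, rfl⟩ := PB_deg_zero hx hd
    have ha1 : a ≠ 1 := by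
      rintro rfl
      exact hne (map_one _)
    obtain ⟨a', ha', h1⟩ := PB_deg_zero hxh (by rw [dg_conj]; exact hd)
    obtain ⟨q, hq, k, hr⟩ := ell_line (hg := hg) (hgeo := hgeo) (hι := hι) M hSC hA ha ha1
      (vx_conj rfl h1)
    obtain ⟨a1, ha1', hne1, hcomm⟩ := PB_comm_ι hq ha ha1
    have h2 := conj_dec hr hcomm
    rw [h1] at h2
    have h3 := hι h2
    have hk : k⁻¹ ∈ B := hgeo.bb k⁻¹ a1 ha1' (by rw [← h3]; exact ha') hne1
    have h4 : h⁻¹ ∈ PB A B g := by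
      rw [hr]
      exact mul_mem hq (ι_mem_PB ((B.inv_mem_iff).1 hk))
    exact (Subgroup.inv_mem_iff _).1 h4

/-- no conjugate of the plane group meets the line group -/
theorem field_ab' (M : Mods) (hSC : (XX hg hgeo hι).SC) (hA : ∀ x ∈ A, ∀ y ∈ A, x * y = y * x) :
    ∀ h : PP A B g, ∀ x ∈ PA A B g, h * x * h⁻¹ ∈ PB A B g → x = 1 := by
  intro h x hx hxh
  by_contra hne
  by_cases hd : dg A B g 1 0 x ≠ 0 ∨ dg A B g 0 1 x ≠ 0
  · obtain ⟨e, h1, h2⟩ := hyp (hg := hg) (hgeo := hgeo) (hι := hι) M hSC hA hd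
      (plane_flat hA 1) (line_flat h⁻¹)
      (plane_inv (by simpa using hx)) (line_inv (by simpa using hxh))
      (plane_conn 1) (line_conn h⁻¹) ⟨eA .U 1, PlF_eA.2 (by simp)⟩
      ⟨eC true h⁻¹, LnF_eC.2 (by simp)⟩
    obtain ⟨m, q, hq, rfl⟩ := h1
    exact LnF_eA h2
  · push Not at hd
    obtain ⟨a, ha, rfl⟩ := PA_deg_zero hx hd.1 hd.2
    have ha1 : a ≠ 1 := by
      rintro rfl
      exact hne (map_one _)
    obtain ⟨b, hb, h1⟩ := PB_deg_zero hxh (by rw [dg_conj]; exact hd.1)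
    obtain ⟨q, hq, k, hr⟩ := ell_plane (hg := hg) (hgeo := hgeo) (hι := hι) M hSC hA ha ha1
      (vx_conj rfl h1)
    obtain ⟨a1, ha1', hne1, hcomm⟩ := PA_comm_ι hq ha ha1
    have h2 := conj_dec hr hcomm
    rw [h1] at h2
    have h3 := hι h2
    exact hne1 (hgeo.ab' k⁻¹ a1 ha1' (by rw [← h3]; exact hb))

end

end Pool.Agent.ABA.B.H17
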