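import Pool.Agent.Helper17_ABA.PR2

/-!
P has no involutions.
-/

set_option autoImplicit false

namespace Pool.Agent.ABA.B.H17

open Pool.Agent.ABA Pool.Agent.ABA.B Pool.Agent.ABA.B.TG

section

variable {G : Type} [Group G] {A B : Subgroup G} {g : G}
variable {hg : ¬ IsABA A B g} {hgeo : Geo A B} {hι : Function.Injective (Pι A B g)}

/-- **T2** for P. -/
theorem field_t2 (M : Mods) (hSC : (XX hg hgeo hι).SC) (hA : ∀ x ∈ A, ∀ y ∈ A, x * y = y * x) :
    ∀ h : PP A B g, h * h = 1 → h = 1 := by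
  intro h hh
  haveI : Nonempty (XV A B g) := ⟨vx 1⟩
  obtain ⟨x, hx⟩ := t2 M hSC (connX (hg := hg) (hgeo := hgeo) (hι := hι)) (hsysX hA)
    ((gactX (hg := hg) (hgeo := hgeo) (hι := hι)).aut h) (by
      intro x
      change h • h • x = x
      rw [smul_smul, hh, one_smul])
  obtain ⟨p, rfl⟩ := QuotientGroup.mk_surjective x
  have h1 : (vx (h * p) : XV A B g) = vx p := hx
  obtain ⟨k, hk⟩ := vx_eq.1 h1.symm
  have h2 : Pι A B g (k * k) = Pι A B g 1 := by
    have h3 : Pι A B g k = p⁻¹ * h * p := by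
      rw [mul_assoc, hk, inv_mul_cancel_left]
    rw [map_mul, map_one, h3]
    calc p⁻¹ * h * p * (p⁻¹ * h * p) = p⁻¹ * (h * h) * p := by group
      _ = 1 := by rw [hh]; group
  have h4 : k = 1 := hgeo.t2 k (hι h2)
  rw [h4, map_one, mul_one] at hk
  exact mul_eq_right.1 hk

end

end Pool.Agent.ABA.B.H17
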