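import Mathlib

/-!
Permutation library: numbers of cycles, multiplication by a transposition, the inequality of Ree
for pairs of permutations, planarity and elementary moves.
-/

open Equiv Equiv.Perm

namespace H17ABA

variable {α : Type*}

/-- The setoid which identifies the two points x and y (and nothing else). -/
def pr (x y : α) : Setoid α := Relation.EqvGen.setoid (fun a b => a = x ∧ b = y)

theorem pr_rel (x y : α) : (pr x y) x y := Relation.EqvGen.rel x y ⟨rfl, rfl⟩

theorem pr_le_iff (x y : α) (r : Setoid α) : pr x y ≤ r ↔ r x y := by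
  constructor
  · intro h
    exact h (pr_rel x y)
  · intro h
    refine Setoid.eqvGen_le ?_
    rintro a b ⟨rfl, rfl⟩
    exact h

/-- The cycles of a permutation as a setoid. -/
def cs (σ : Perm α) : Setoid α := SameCycle.setoid σ

theorem cs_iff (σ : Perm α) (a b : α) : (cs σ) a b ↔ SameCycle σ a b := Iff.rfl

theorem cs_apply (σ : Perm α) (a : α) : (cs σ) a (σ a) :=
  (cs_iff σ a (σ a)).2 ((sameCycle_apply_right).2 (SameCycle.refl σ a))

theorem cs_le_iff (σ : Perm α) (r : Setoid α) : cs σ ≤ r ↔ ∀ a, r a (σ a) := by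
  constructor
  · intro h a
    exact h (cs_apply σ a)
  · intro h a b hab
    obtain ⟨n, hn⟩ := hab
    have key : ∀ (m : ℕ) (c : α), r c ((σ ^ m) c) := by
      intro m
      induction m with
      | zero => intro c; exact r.refl' c
      | succ k ih =>
        intro c
        rw [pow_succ', Perm.mul_apply]
        exact r.trans' (ih c) (h _)
    rcases n with m | m
    · rw [← hn]
      simpa using key m a
    · have h2 : (σ ^ (m + 1)) b = a := by
        rw [← hn]
        simp [zpow_negSucc]
      have := key (m + 1) b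
      rw [h2] at this
      exact r.symm' this

theorem cs_one : cs (1 : Perm α) = ⊥ := by
  refine le_antisymm ?_ bot_le
  rw [cs_le_iff]
  intro a
  exact (⊥ : Setoid α).refl' a

theorem cs_inv (σ : Perm α) : cs σ⁻¹ = cs σ := by
  refine Setoid.ext (fun a b => ?_)
  exact sameCycle_inv

/-- The number of classes of a setoid. -/
noncomputable def nc (r : Setoid α) : ℕ := Nat.card (Quotient r)

/-- The number of cycles of a permutation (fixed points are cycles). -/
noncomputable def cyc (σ : Perm α) : ℕ := nc (cs σ)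

theorem nc_bot : nc (⊥ : Setoid α) = Nat.card α := by
  refine (Nat.card_congr ?_).symm
  refine Equiv.ofBijective (fun a => (Quotient.mk (⊥ : Setoid α) a)) ⟨?_, ?_⟩
  · intro a b h
    exact Quotient.exact h
  · exact Quotient.mk_surjective

theorem cyc_one : cyc (1 : Perm α) = Nat.card α := by
  rw [cyc, cs_one, nc_bot]

theorem cyc_inv (σ : Perm α) : cyc σ⁻¹ = cyc σ := by
  rw [cyc, cyc, cs_inv]

theorem sup_pr_iff (r : Setoid α) (x y a b : α) :
    (r ⊔ pr x y) a b ↔ r a b ∨ (r a x ∧ r b y) ∨ (r a y ∧ r b x) := by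
  let q : Setoid α :=
    { r := fun a b => r a b ∨ (r a x ∧ r b y) ∨ (r a y ∧ r b x)
      iseqv :=
        { refl := fun a => Or.inl (r.refl' a)
          symm := by
            intro a b h
            rcases h with h | ⟨h1, h2⟩ | ⟨h1, h2⟩
            · exact Or.inl (r.symm' h)
            · exact Or.inr (Or.inr ⟨h2, h1⟩)
            · exact Or.inr (Or.inl ⟨h2, h1⟩)
          trans := by
            intro a b c h h'
            rcases h with h | ⟨h1, h2⟩ | ⟨h1, h2⟩ <;> rcases h' with k | ⟨k1, k2⟩ | ⟨k1, k2⟩
            · exact Or.inl (r.trans' h k)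
            · exact Or.inr (Or.inl ⟨r.trans' h k1, k2⟩)
            · exact Or.inr (Or.inr ⟨r.trans' h k1, k2⟩)
            · exact Or.inr (Or.inl ⟨h1, r.trans' (r.symm' k) h2⟩)
            · exact Or.inl (r.trans' h1 (r.trans' (r.symm' k1) (r.trans' h2 (r.symm' k2))))
            · exact Or.inl (r.trans' h1 (r.symm' k2))
            · exact Or.inr (Or.inr ⟨h1, r.trans' (r.symm' k) h2⟩)
            · exact Or.inl (r.trans' h1 (r.symm' k2))
            · exact Or.inl (r.trans' h1 (r.trans' (r.symm' k1) (r.trans' h2 (r.symm' k2)))) } }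
  have hq : r ⊔ pr x y = q := by
    refine le_antisymm (sup_le ?_ ?_) ?_
    · intro a b h
      exact Or.inl h
    · rw [pr_le_iff]
      exact Or.inr (Or.inl ⟨r.refl' x, r.refl' y⟩)
    · intro a b h
      have h0 : (r ⊔ pr x y) x y := (le_sup_right : pr x y ≤ r ⊔ pr x y) (pr_rel x y)
      have hr : ∀ {c d : α}, r c d → (r ⊔ pr x y) c d := fun h => (le_sup_left : r ≤ r ⊔ pr x y) h
      rcases h with h | ⟨h1, h2⟩ | ⟨h1, h2⟩
      · exact hr h
      · exact (r ⊔ pr x y).trans' (hr h1) ((r ⊔ pr x y).trans' h0 (hr (r.symm' h2)))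
      · exact (r ⊔ pr x y).trans' (hr h1)
          ((r ⊔ pr x y).trans' ((r ⊔ pr x y).symm' h0) (hr (r.symm' h2)))
  rw [hq]
  exact Iff.rfl

theorem sup_pr_of_rel {r : Setoid α} {x y : α} (h : r x y) : r ⊔ pr x y = r :=
  sup_eq_left.2 ((pr_le_iff x y r).2 h)

theorem nc_sup_pr_of_not [Finite α] {r : Setoid α} {x y : α} (h : ¬ r x y) :
    nc r = nc (r ⊔ pr x y) + 1 := by
  classical
  have : Fintype (Quotient r) := Fintype.ofFinite _
  have e : {q : Quotient r // q ≠ Quotient.mk r y} ≃ Quotient (r ⊔ pr x y) := by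
    refine Equiv.ofBijective
      (fun q => Quotient.map' (s₁ := r) (s₂ := r ⊔ pr x y) id
        (fun a b hab => (le_sup_left : r ≤ r ⊔ pr x y) hab) q.1) ⟨?_, ?_⟩
    · rintro ⟨q, hq⟩ ⟨q', hq'⟩ hh
      induction q using Quotient.inductionOn with
      | h a =>
      induction q' using Quotient.inductionOn with
      | h b =>
      have h1 : (r ⊔ pr x y) a b := Quotient.exact hh
      rw [sup_pr_iff] at h1
      have h2 : Quotient.mk r a = Quotient.mk r b := by
        rcases h1 with h1 | ⟨h1, h2⟩ | ⟨h1, h2⟩
        · exact Quotient.sound h1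
        · exact absurd (Quotient.sound h2) hq'
        · exact absurd (Quotient.sound h1) hq
      exact Subtype.ext h2
    · intro q
      induction q using Quotient.inductionOn with
      | h a =>
      by_cases ha : r a y
      · refine ⟨⟨Quotient.mk r x, fun hh => h (Quotient.exact hh)⟩, ?_⟩
        have : (r ⊔ pr x y) x a := by
          rw [sup_pr_iff]
          exact Or.inr (Or.inl ⟨r.refl' x, ha⟩)
        exact Quotient.sound this
      · refine ⟨⟨Quotient.mk r a, fun hh => ha (Quotient.exact hh)⟩, ?_⟩
        rfl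
  have h1 : nc (r ⊔ pr x y) = Nat.card {q : Quotient r // q ≠ Quotient.mk r y} :=
    (Nat.card_congr e).symm
  rw [h1, nc, Nat.card_eq_fintype_card, Nat.card_eq_fintype_card]
  have h2 := Fintype.card_subtype_compl (fun q : Quotient r => q = Quotient.mk r y)
  have h3 : Fintype.card {q : Quotient r // q = Quotient.mk r y} = 1 := Fintype.card_subtype_eq _
  have h4 : 0 < Fintype.card (Quotient r) := Fintype.card_pos_iff.2 ⟨Quotient.mk r y⟩
  rw [h3] at h2
  have h5 : Fintype.card {q : Quotient r // q ≠ Quotient.mk r y} =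
      Fintype.card {q : Quotient r // ¬ q = Quotient.mk r y} := rfl
  rw [h5, h2]
  omega

theorem nc_sup_pr_of_rel {r : Setoid α} {x y : α} (h : r x y) :
    nc (r ⊔ pr x y) = nc r := by rw [sup_pr_of_rel h]

section swap

variable [DecidableEq α]

theorem mul_swap_x (σ : Perm α) (x y : α) : (σ * swap x y) x = σ y := by simp

theorem mul_swap_y (σ : Perm α) (x y : α) : (σ * swap x y) y = σ x := by simp

theorem mul_swap_z (σ : Perm α) {x y z : α} (h1 : z ≠ x) (h2 : z ≠ y) :
    (σ * swap x y) z = σ z := by
  rw [Perm.mul_apply, swap_apply_of_ne_of_ne h1 h2]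

theorem cs_mul_swap_le (σ : Perm α) (x y : α) : cs (σ * swap x y) ≤ cs σ ⊔ pr x y := by
  rw [cs_le_iff]
  have h0 : (cs σ ⊔ pr x y) x y := (le_sup_right : pr x y ≤ cs σ ⊔ pr x y) (pr_rel x y)
  have hr : ∀ {c d : α}, (cs σ) c d → (cs σ ⊔ pr x y) c d :=
    fun h => (le_sup_left : cs σ ≤ cs σ ⊔ pr x y) h
  intro a
  by_cases hx : a = x
  · subst hx
    rw [mul_swap_x]
    exact (cs σ ⊔ pr a y).trans' h0 (hr (cs_apply σ y))
  · by_cases hy : a = y
    · subst hy
      rw [mul_swap_y]
      exact (cs σ ⊔ pr x a).trans' ((cs σ ⊔ pr x a).symm' h0) (hr (cs_apply σ x))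
    · rw [mul_swap_z σ hx hy]
      exact hr (cs_apply σ a)

theorem mul_swap_mul_swap (σ : Perm α) (x y : α) : σ * swap x y * swap x y = σ := by
  rw [mul_assoc, swap_mul_self, mul_one]

theorem cs_mul_swap_sup (σ : Perm α) (x y : α) :
    cs (σ * swap x y) ⊔ pr x y = cs σ ⊔ pr x y := by
  refine le_antisymm (sup_le (cs_mul_swap_le σ x y) le_sup_right) (sup_le ?_ le_sup_right)
  have := cs_mul_swap_le (σ * swap x y) x y
  rwa [mul_swap_mul_swap] at this

/-- Multiplication by a transposition of points of different cycles merges the two cycles. -/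
theorem merge_same [Finite α] (σ : Perm α) {x y : α} (h : ¬ SameCycle σ x y) :
    SameCycle (σ * swap x y) x y := by
  have key : ∀ k : ℕ, SameCycle (σ * swap x y) y x ∨
      SameCycle (σ * swap x y) y ((σ ^ (k + 1)) x) := by
    intro k
    induction k with
    | zero =>
      right
      have h1 : SameCycle (σ * swap x y) y ((σ * swap x y) y) :=
        (sameCycle_apply_right).2 (SameCycle.refl _ _)
      rw [mul_swap_y] at h1
      simpa using h1
    | succ k ih =>
      rcases ih with ih | ih
      · exact Or.inl ih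
      · by_cases hx : (σ ^ (k + 1)) x = x
        · rw [hx] at ih
          exact Or.inl ih
        · right
          have hy : (σ ^ (k + 1)) x ≠ y := fun hh => h ⟨(k + 1 : ℕ), by rw [zpow_natCast]; exact hh⟩
          have h1 : SameCycle (σ * swap x y) y ((σ * swap x y) ((σ ^ (k + 1)) x)) :=
            (sameCycle_apply_right).2 ih
          rw [mul_swap_z σ hx hy] at h1
          rw [pow_succ', Perm.mul_apply]
          exact h1
  obtain ⟨n, hn0, hn⟩ : ∃ n : ℕ, 0 < n ∧ (σ ^ n) x = x := by
    refine ⟨orderOf σ, orderOf_pos σ, ?_⟩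
    rw [pow_orderOf_eq_one]
    rfl
  obtain ⟨k, rfl⟩ : ∃ k, n = k + 1 := ⟨n - 1, by omega⟩
  rcases key k with hk | hk
  · exact hk.symm
  · rw [hn] at hk
    exact hk.symm

/-- Multiplication by a transposition of two points of one cycle splits this cycle. -/
theorem split_not_same [Finite α] (σ : Perm α) {x y : α} (hxy : x ≠ y) (h : SameCycle σ x y) :
    ¬ SameCycle (σ * swap x y) x y := by
  classical
  obtain ⟨m0, hm0⟩ : ∃ m : ℕ, (σ ^ m) x = y := by
    obtain ⟨m, -, hm⟩ := h.exists_pow_eq'
    exact ⟨m, hm⟩
  let m := Nat.find (⟨m0, hm0⟩ : ∃ m : ℕ, (σ ^ m) x = y)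
  have hm : (σ ^ m) x = y := Nat.find_spec (⟨m0, hm0⟩ : ∃ m : ℕ, (σ ^ m) x = y)
  have hmin : ∀ i, i < m → (σ ^ i) x ≠ y := fun i hi => Nat.find_min _ hi
  have hmpos : 0 < m := by
    rcases Nat.eq_zero_or_pos m with h0 | h0
    · rw [h0] at hm
      exact absurd hm hxy
    · exact h0
  have hnx : ∀ i, 1 ≤ i → i ≤ m → (σ ^ i) x ≠ x := by
    intro i hi1 hi2 hix
    rcases Nat.lt_or_ge i m with hlt | hge
    · refine hmin (m - i) (by omega) ?_
      have : (σ ^ (m - i)) ((σ ^ i) x) = y := by
        rw [← Perm.mul_apply, ← pow_add, Nat.sub_add_cancel hlt.le]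
        exact hm
      rwa [hix] at this
    · have : i = m := le_antisymm hi2 hge
      subst this
      rw [hm] at hix
      exact hxy hix.symm
  let S : Set α := {z | ∃ i, 1 ≤ i ∧ i ≤ m ∧ (σ ^ i) x = z}
  have hS : ∀ z, z ∈ S → (σ * swap x y) z ∈ S := by
    rintro z ⟨i, hi1, hi2, rfl⟩
    rcases Nat.lt_or_ge i m with hlt | hge
    · refine ⟨i + 1, by omega, by omega, ?_⟩
      rw [mul_swap_z σ (hnx i hi1 hi2) (hmin i hlt), pow_succ', Perm.mul_apply]
    · have : i = m := le_antisymm hi2 hge
      subst this
      rw [hm, mul_swap_y]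
      exact ⟨1, le_rfl, hmpos, by simp⟩
  have hpow : ∀ k : ℕ, ((σ * swap x y) ^ k) y ∈ S := by
    intro k
    induction k with
    | zero => exact ⟨m, hmpos, le_rfl, hm⟩
    | succ k ih =>
      rw [pow_succ', Perm.mul_apply]
      exact hS _ ih
  intro hc
  obtain ⟨k, -, hk⟩ := hc.symm.exists_pow_eq'
  have := hpow k
  rw [hk] at this
  obtain ⟨i, hi1, hi2, hi⟩ := this
  exact hnx i hi1 hi2 hi

theorem same_mul_swap_iff [Finite α] (σ : Perm α) {x y : α} (hxy : x ≠ y) :
    SameCycle (σ * swap x y) x y ↔ ¬ SameCycle σ x y := by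
  constructor
  · intro h h'
    exact split_not_same σ hxy h' h
  · exact merge_same σ

theorem cyc_merge [Finite α] (σ : Perm α) {x y : α} (h : ¬ SameCycle σ x y) :
    cyc σ = cyc (σ * swap x y) + 1 := by
  have h1 : nc (cs (σ * swap x y) ⊔ pr x y) = cyc (σ * swap x y) :=
    nc_sup_pr_of_rel (merge_same σ h)
  rw [← h1, cs_mul_swap_sup]
  exact nc_sup_pr_of_not h

theorem cyc_split [Finite α] (σ : Perm α) {x y : α} (hxy : x ≠ y) (h : SameCycle σ x y) :
    cyc (σ * swap x y) = cyc σ + 1 := by
  have := cyc_merge (σ * swap x y) (split_not_same σ hxy h)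
  rwa [mul_swap_mul_swap] at this

end swap

theorem cyc_le [Finite α] (σ : Perm α) : cyc σ ≤ Nat.card α :=
  Nat.card_le_card_of_surjective (Quotient.mk (cs σ)) Quotient.mk_surjective

/-- The orbits of a pair of permutations. -/
def orb2 (s t : Perm α) : Setoid α := cs s ⊔ cs t

theorem cs_mul_le (s t : Perm α) : cs (s * t) ≤ orb2 s t := by
  rw [cs_le_iff]
  intro a
  have h1 : (orb2 s t) a (t a) := (le_sup_right : cs t ≤ orb2 s t) (cs_apply t a)
  have h2 : (orb2 s t) (t a) (s (t a)) := (le_sup_left : cs s ≤ orb2 s t) (cs_apply s (t a))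
  exact (orb2 s t).trans' h1 h2

theorem orb2_split [Finite α] [DecidableEq α] (s t : Perm α) {x y : α} (h : SameCycle t x y) :
    orb2 s t = orb2 s (t * swap x y) ⊔ pr x y := by
  have h1 : cs t = cs (t * swap x y) ⊔ pr x y := by
    rw [cs_mul_swap_sup, sup_pr_of_rel (r := cs t) h]
  rw [orb2, h1, orb2, sup_assoc]

/-- The inequality of Ree (Riemann-Hurwitz). -/
theorem ree [Finite α] (s t : Perm α) :
    cyc s + cyc t + cyc (s * t) ≤ Nat.card α + 2 * nc (orb2 s t) := by
  classical
  obtain ⟨d, hd⟩ : ∃ d, d = Nat.card α - cyc t := ⟨_, rfl⟩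
  induction d using Nat.strong_induction_on generalizing t with
  | _ d ih =>
    by_cases ht : t = 1
    · subst ht
      rw [mul_one, cyc_one, orb2, cs_one, sup_bot_eq]
      have : nc (cs s) = cyc s := rfl
      omega
    · obtain ⟨x, hx⟩ : ∃ x, t x ≠ x := by
        by_contra hc
        push Not at hc
        exact ht (Equiv.ext hc)
      have hsame : SameCycle t x (t x) := cs_apply t x
      have hne : x ≠ t x := fun h => hx h.symm
      obtain ⟨y, hy⟩ : ∃ y, y = t x := ⟨_, rfl⟩
      rw [← hy] at hsame hne
      have h1 := cyc_split t hne hsame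
      have hle := cyc_le (t * swap x y)
      have h2 := ih (Nat.card α - cyc (t * swap x y)) (by omega) (t * swap x y) rfl
      have h3 : orb2 s t = orb2 s (t * swap x y) ⊔ pr x y := orb2_split s t hsame
      have h4 : s * (t * swap x y) = (s * t) * swap x y := by rw [mul_assoc]
      rw [h4] at h2
      by_cases hc : SameCycle (s * t) x y
      · have h5 := cyc_split (s * t) hne hc
        by_cases ho : (orb2 s (t * swap x y)) x y
        · have h6 : nc (orb2 s t) = nc (orb2 s (t * swap x y)) := by
            rw [h3, nc_sup_pr_of_rel ho]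
          omega
        · have h6 := nc_sup_pr_of_not ho
          rw [← h3] at h6
          omega
      · have h5 := cyc_merge (s * t) hc
        have ho : (orb2 s (t * swap x y)) x y := by
          have := cs_mul_le s (t * swap x y)
          rw [h4] at this
          exact this (merge_same (s * t) hc)
        have h6 : nc (orb2 s t) = nc (orb2 s (t * swap x y)) := by
          rw [h3, nc_sup_pr_of_rel ho]
        omega

/-- Planarity of a pair of permutations (every component of the map is a sphere). -/
def Planar (s t : Perm α) : Prop :=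
  cyc s + cyc t + cyc (s * t) = Nat.card α + 2 * nc (orb2 s t)

theorem orb2_inv (s t : Perm α) : orb2 t⁻¹ s⁻¹ = orb2 s t := by
  rw [orb2, cs_inv, cs_inv, sup_comm, orb2]

theorem planar_inv_iff (s t : Perm α) : Planar t⁻¹ s⁻¹ ↔ Planar s t := by
  rw [Planar, Planar, cyc_inv, cyc_inv, orb2_inv, ← mul_inv_rev, cyc_inv, add_comm (cyc t)]

theorem planar_one_left [Finite α] (t : Perm α) : Planar 1 t := by
  rw [Planar, one_mul, cyc_one, orb2, cs_one, bot_sup_eq]
  have : nc (cs t) = cyc t := rfl
  omega

theorem planar_one_right [Finite α] (s : Perm α) : Planar s 1 := by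
  rw [Planar, mul_one, cyc_one, orb2, cs_one, sup_bot_eq]
  have : nc (cs s) = cyc s := rfl
  omega

section moves

variable [Finite α] [DecidableEq α]

theorem orb2_merge (s t : Perm α) {x y : α} (h : ¬ SameCycle t x y) :
    orb2 s (t * swap x y) = orb2 s t ⊔ pr x y := by
  have h1 := orb2_split s (t * swap x y) (merge_same t h)
  rwa [mul_swap_mul_swap] at h1

/-- Splitting a cycle of the second permutation keeps planarity. -/
theorem planar_split {s t : Perm α} (hp : Planar s t) {x y : α} (h : SameCycle t x y) :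
    Planar s (t * swap x y) := by
  by_cases hxy : x = y
  · subst hxy
    rw [swap_self]
    exact hp
  · have hp' : cyc s + cyc t + cyc (s * t) = Nat.card α + 2 * nc (orb2 s t) := hp
    have h1 := cyc_split t hxy h
    have h3 := orb2_split s t h
    have h4 : s * (t * swap x y) = (s * t) * swap x y := by rw [mul_assoc]
    have hr := ree s (t * swap x y)
    rw [h4] at hr
    rw [Planar, h4]
    by_cases hc : SameCycle (s * t) x y
    · have h5 := cyc_split (s * t) hxy hc
      by_cases ho : (orb2 s (t * swap x y)) x y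
      · have h6 : nc (orb2 s t) = nc (orb2 s (t * swap x y)) := by
          rw [h3, nc_sup_pr_of_rel ho]
        omega
      · have h6 := nc_sup_pr_of_not ho
        rw [← h3] at h6
        omega
    · have h5 := cyc_merge (s * t) hc
      have ho : (orb2 s (t * swap x y)) x y := by
        have := cs_mul_le s (t * swap x y)
        rw [h4] at this
        exact this (merge_same (s * t) hc)
      have h6 : nc (orb2 s t) = nc (orb2 s (t * swap x y)) := by
        rw [h3, nc_sup_pr_of_rel ho]
      omega

/-- After splitting a cycle of t, either the product is split too and the orbits are split, or the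
product is merged and the orbits do not change. -/
theorem planar_split_cases {s t : Perm α} (hp : Planar s t) {x y : α} (hxy : x ≠ y)
    (h : SameCycle t x y) :
    (SameCycle (s * t) x y ∧ ¬ (orb2 s (t * swap x y)) x y ∧
        cyc (s * (t * swap x y)) = cyc (s * t) + 1 ∧
        nc (orb2 s (t * swap x y)) = nc (orb2 s t) + 1) ∨
      (¬ SameCycle (s * t) x y ∧ (orb2 s (t * swap x y)) x y ∧
        cyc (s * t) = cyc (s * (t * swap x y)) + 1 ∧
        nc (orb2 s (t * swap x y)) = nc (orb2 s t)) := by
  have hp' : cyc s + cyc t + cyc (s * t) = Nat.card α + 2 * nc (orb2 s t) := hp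
  have h1 := cyc_split t hxy h
  have h3 := orb2_split s t h
  have h4 : s * (t * swap x y) = (s * t) * swap x y := by rw [mul_assoc]
  have hr := ree s (t * swap x y)
  rw [h4] at hr
  by_cases hc : SameCycle (s * t) x y
  · left
    have h5 := cyc_split (s * t) hxy hc
    by_cases ho : (orb2 s (t * swap x y)) x y
    · have h6 : nc (orb2 s t) = nc (orb2 s (t * swap x y)) := by
        rw [h3, nc_sup_pr_of_rel ho]
      omega
    · have h6 := nc_sup_pr_of_not ho
      rw [← h3] at h6
      refine ⟨hc, ho, ?_, h6⟩
      rw [h4]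
      exact h5
  · right
    have h5 := cyc_merge (s * t) hc
    have ho : (orb2 s (t * swap x y)) x y := by
      have := cs_mul_le s (t * swap x y)
      rw [h4] at this
      exact this (merge_same (s * t) hc)
    have h6 : nc (orb2 s t) = nc (orb2 s (t * swap x y)) := by
      rw [h3, nc_sup_pr_of_rel ho]
    refine ⟨hc, ho, ?_, h6.symm⟩
    rw [h4]
    exact h5

/-- Merging two cycles of the second permutation inside one cycle of the product keeps
planarity. -/
theorem planar_merge {s t : Perm α} (hp : Planar s t) {x y : α} (h : ¬ SameCycle t x y)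
    (hst : SameCycle (s * t) x y) : Planar s (t * swap x y) := by
  have hxy : x ≠ y := by
    rintro rfl
    exact h (SameCycle.refl _ _)
  have hp' : cyc s + cyc t + cyc (s * t) = Nat.card α + 2 * nc (orb2 s t) := hp
  have h1 := cyc_merge t h
  have h3 := orb2_merge s t h
  have h4 : s * (t * swap x y) = (s * t) * swap x y := by rw [mul_assoc]
  have h5 := cyc_split (s * t) hxy hst
  have ho : (orb2 s t) x y := cs_mul_le s t hst
  have h6 : nc (orb2 s (t * swap x y)) = nc (orb2 s t) := by
    rw [h3, nc_sup_pr_of_rel ho]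
  rw [Planar, h4]
  omega

/-- Merging two cycles of the second permutation in different orbits keeps planarity. -/
theorem planar_join {s t : Perm α} (hp : Planar s t) {x y : α} (h : ¬ (orb2 s t) x y) :
    Planar s (t * swap x y) := by
  have hp' : cyc s + cyc t + cyc (s * t) = Nat.card α + 2 * nc (orb2 s t) := hp
  have ht : ¬ SameCycle t x y := fun hh => h ((le_sup_right : cs t ≤ orb2 s t) hh)
  have hst : ¬ SameCycle (s * t) x y := fun hh => h (cs_mul_le s t hh)
  have h1 := cyc_merge t ht
  have h3 := orb2_merge s t ht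
  have h4 : s * (t * swap x y) = (s * t) * swap x y := by rw [mul_assoc]
  have h5 := cyc_merge (s * t) hst
  have h6 := nc_sup_pr_of_not h
  rw [← h3] at h6
  rw [Planar, h4]
  omega

/-- In a planar pair two points of one orbit, of different cycles of t and of different cycles of
s * t cannot be merged (the result is not planar). -/
theorem not_planar_merge {s t : Perm α} {x y : α} (h : ¬ SameCycle t x y)
    (hst : ¬ SameCycle (s * t) x y) (ho : (orb2 s t) x y) : ¬ Planar s (t * swap x y) := by
  intro hp'
  have hp2 : cyc s + cyc (t * swap x y) + cyc (s * (t * swap x y)) =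
    Nat.card α + 2 * nc (orb2 s (t * swap x y)) := hp'
  have h1 := cyc_merge t h
  have h3 := orb2_merge s t h
  have h4 : s * (t * swap x y) = (s * t) * swap x y := by rw [mul_assoc]
  have h5 := cyc_merge (s * t) hst
  have h6 : nc (orb2 s (t * swap x y)) = nc (orb2 s t) := by
    rw [h3, nc_sup_pr_of_rel ho]
  have hr := ree s t
  rw [h4] at hp2
  omega

end moves

end H17ABA
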