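import Pool.Agent.Helper17_ABA.Curv

/-!
Minimal flat sides of polygons; two flats.
-/

set_option autoImplicit false

namespace Pool.Agent.ABA.B.H17

open Pool.Agent.ABA.B Pool.Agent.ABA.B.TG

variable {V E : Type} {S : TG V E} {θ : E → E → ℝ}

theorem split_le {A : Type} {a b c d : List A} (h : a ++ b = c ++ d) (hl : a.length ≤ c.length) :
    ∃ s, c = a ++ s ∧ b = s ++ d := by
  rcases List.append_eq_append_iff.1 h with ⟨s, h1, h2⟩ | ⟨s, h1, h2⟩
  · exact ⟨s, h1, h2⟩
  · have h3 : s = [] := by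
      have := congrArg List.length h1
      rw [List.length_append] at this
      exact List.eq_nil_of_length_eq_zero (by omega)
    subst h3
    rw [List.append_nil] at h1
    rw [List.nil_append] at h2
    exact ⟨[], by rw [h1, List.append_nil], by rw [h2, List.nil_append]⟩

theorem lex_min {A : Type} (P : A → Prop) (f g : A → ℕ) (h : ∃ x, P x) :
    ∃ x, P x ∧ ∀ y, P y → f x ≤ f y ∧ (f y ≤ f x → g x ≤ g y) := by
  classical
  have hex : ∃ n, ∃ x, P x ∧ f x = n := by
    obtain ⟨x, hx⟩ := h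
    exact ⟨_, x, hx, rfl⟩
  obtain ⟨n, hn, hmin⟩ : ∃ n, (∃ x, P x ∧ f x = n) ∧ ∀ m, (∃ x, P x ∧ f x = m) → n ≤ m :=
    ⟨Nat.find hex, Nat.find_spec hex, fun m hm => Nat.find_min' hex hm⟩
  have hex2 : ∃ k, ∃ x, P x ∧ f x = n ∧ g x = k := by
    obtain ⟨x, hx, hf⟩ := hn
    exact ⟨_, x, hx, hf, rfl⟩
  obtain ⟨k, ⟨x, hx, hf, hg⟩, hmin2⟩ : ∃ k, (∃ x, P x ∧ f x = n ∧ g x = k) ∧
      ∀ m, (∃ x, P x ∧ f x = n ∧ g x = m) → k ≤ m :=
    ⟨Nat.find hex2, Nat.find_spec hex2, fun m hm => Nat.find_min' hex2 hm⟩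
  refine ⟨x, hx, fun y hy => ⟨?_, ?_⟩⟩
  · rw [hf]
    exact hmin _ ⟨y, hy, rfl⟩
  · intro h1
    have h2 := hmin _ ⟨y, hy, rfl⟩
    rw [hg]
    exact hmin2 _ ⟨y, hy, by omega, rfl⟩

/-- A flat side of a polygon, of minimal area and minimal length. -/
structure MinSide (S : TG V E) (F : E → Prop) (L σ R : List E) : Prop where
  cl : S.Cl (L ++ σ ++ R)
  mem : ∀ e ∈ σ, F e
  min : ∀ σ', (∀ e ∈ σ', F e) → (∀ x y, S.IsP x σ y → S.IsP x σ' y) →
    S.ar (L ++ σ ++ R) ≤ S.ar (L ++ σ' ++ R) ∧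
    (S.ar (L ++ σ' ++ R) ≤ S.ar (L ++ σ ++ R) → σ.length ≤ σ'.length)

theorem cl_block_path {x y : V} {s p t : List E} (h : S.IsP x (s ++ p ++ t) y) (hp : S.Cl p)
    (hp0 : p ≠ []) : S.IsP x (s ++ t) y := by
  obtain ⟨z, h1, h2⟩ := isP_append.1 h
  obtain ⟨z', h3, h4⟩ := isP_append.1 h1
  obtain ⟨u, hu⟩ := hp
  obtain ⟨e, p', rfl⟩ : ∃ e p', p = e :: p' := by
    cases p with
    | nil => exact absurd rfl hp0
    | cons e p' => exact ⟨e, p', rfl⟩
  have h5 : z' = u := h4.1.symm.trans hu.1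
  subst h5
  have h6 : z = z' := IsP.eq h4 hu
  subst h6
  exact isP_append.2 ⟨z, h3, h2⟩

/-- no closed block can be cut off a minimal side -/
theorem MinSide.block {F : E → Prop} {L σ R : List E} (h : MinSide S F L σ R) {s p t : List E}
    (hσ : σ = s ++ p ++ t) (hp : S.Cl p) (hp0 : p ≠ []) :
    S.ar (L ++ σ ++ R) < S.ar (L ++ (s ++ t) ++ R) := by
  by_contra hcon
  push Not at hcon
  have h1 := (h.min (s ++ t) (by
    intro e he
    apply h.mem
    rw [hσ]
    rcases List.mem_append.1 he with h2 | h2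
    · exact List.mem_append_left _ (List.mem_append_left _ h2)
    · exact List.mem_append_right _ h2) (by
    intro x y hxy
    rw [hσ] at hxy
    exact cl_block_path hxy hp hp0)).2 hcon
  rw [hσ] at h1
  have h2 := List.length_pos_iff.2 hp0
  simp only [List.length_append] at h1
  omega

/-- the flat vertices of a minimal side -/
theorem MinSide.flat (M : Mods) (hSC : S.SC) {F : E → Prop} {L σ R w : List E}
    (hm : MinSide S F L σ R) (hF : Flat S θ F) (hw : w = L ++ σ ++ R) (i : ℕ)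
    (h : i + 1 < w.length) (h1 : L.length ≤ i) (h2 : i + 1 < L.length + σ.length) :
    ∃ F, Flat S θ F ∧ F w[i] ∧ F w[i + 1] ∧
      S.inv w[i] ≠ w[i + 1] ∧
      (∀ f1 f2, S.Tri w[i] f1 f2 → F f1 → F f2 →
        S.ar w ≤ S.ar (w.take i ++ f1 :: f2 :: w.drop (i + 1))) ∧
      (∀ f1 f2, S.Tri w[i + 1] f1 f2 → F f1 → F f2 →
        S.ar w ≤ S.ar (w.take (i + 1) ++ f1 :: f2 :: w.drop (i + 1 + 1))) := by
  obtain ⟨k, rfl⟩ := Nat.exists_eq_add_of_le h1
  have get : ∀ k (hk : k < σ.length) (hk' : L.length + k < w.length),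
      w[L.length + k] = σ[k] := by
    intro k hk hk'
    subst hw
    rw [List.getElem_append_left (by rw [List.length_append]; omega),
      List.getElem_append_right (by omega)]
    congr 1
    omega
  have take : ∀ k, k ≤ σ.length → w.take (L.length + k) = L ++ σ.take k := by
    intro k hk
    subst hw
    rw [List.append_assoc, List.take_append, List.take_of_length_le (by omega),
      Nat.add_sub_cancel_left, List.take_append_of_le_length hk]
  have drop : ∀ k, k ≤ σ.length → w.drop (L.length + k) = σ.drop k ++ R := by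
    intro k hk
    subst hw
    rw [List.append_assoc, List.drop_append, List.drop_of_length_le (by omega),
      Nat.add_sub_cancel_left, List.drop_append_of_le_length hk, List.nil_append]
  have e1 := get k (by omega) (by omega)
  have e2 := get (k + 1) (by omega) (by omega)
  have s1 : σ = σ.take k ++ σ[k] :: σ.drop (k + 1) := by
    conv_lhs => rw [← List.take_append_drop k σ, List.drop_eq_getElem_cons (by omega)]
  have repl : ∀ j (hj : j < σ.length) f1 f2, S.Tri σ[j] f1 f2 → F f1 → F f2 →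
      S.ar w ≤ S.ar (w.take (L.length + j) ++ f1 :: f2 :: w.drop (L.length + j + 1)) := by
    intro j hj f1 f2 hT h3 h4
    have s2 : σ = σ.take j ++ σ[j] :: σ.drop (j + 1) := by
      conv_lhs => rw [← List.take_append_drop j σ, List.drop_eq_getElem_cons hj]
    have h5 := (hm.min (σ.take j ++ f1 :: f2 :: σ.drop (j + 1)) (by
      intro e he
      rcases List.mem_append.1 he with h6 | h6
      · exact hm.mem _ (List.mem_of_mem_take h6)
      · rcases List.mem_cons.1 h6 with h7 | h7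
        · rw [h7]; exact h3
        · rcases List.mem_cons.1 h7 with h8 | h8
          · rw [h8]; exact h4
          · exact hm.mem _ (List.mem_of_mem_drop h8)) (by
      intro x y hxy
      rw [s2] at hxy
      obtain ⟨z, h6, h7⟩ := isP_append.1 hxy
      refine isP_append.2 ⟨z, h6, ?_, ?_, ?_⟩
      · rw [Tri.src' hT]; exact h7.1
      · exact Tri.mid' hT
      · rw [Tri.tgt' hT]; exact h7.2)).1
    rw [take j (by omega), show L.length + j + 1 = L.length + (j + 1) by ring,
      drop (j + 1) (by omega)]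
    rw [hw]
    refine h5.trans (le_of_eq ?_)
    congr 1
    simp
  refine ⟨F, hF, ?_, ?_, ?_, ?_, ?_⟩
  · rw [e1]; exact hm.mem _ (List.getElem_mem _)
  · have e3 : w[L.length + k + 1] = σ[k + 1] := e2
    rw [e3]; exact hm.mem _ (List.getElem_mem _)
  · have e3 : w[L.length + k + 1] = σ[k + 1] := e2
    rw [e1, e3]
    intro h3
    have s2 : σ = σ.take k ++ σ[k] :: S.inv σ[k] :: σ.drop (k + 1 + 1) := by
      conv_lhs => rw [s1, List.drop_eq_getElem_cons (by omega : k + 1 < σ.length), ← h3]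
    have h4 := hm.block (s := σ.take k) (p := [σ[k], S.inv σ[k]]) (t := σ.drop (k + 1 + 1))
      (by rw [List.append_assoc]; exact s2)
      ⟨S.src σ[k], rfl, by rw [src_inv], by rw [tgt_inv]; rfl⟩ (by simp)
    have h5 := (M.area V E S hSC).2.2.2.2.2.1 (L ++ σ.take k) (σ.drop (k + 1 + 1) ++ R) σ[k] (by
      obtain ⟨x, hx⟩ := hm.cl
      refine ⟨x, ?_⟩
      rw [s2] at hx
      simpa using hx)
    have h6 : L ++ σ.take k ++ σ[k] :: S.inv σ[k] :: (σ.drop (k + 1 + 1) ++ R) = L ++ σ ++ R := by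
      conv_rhs => rw [s2]
      simp
    rw [h6] at h5
    have h7 : L ++ σ.take k ++ (σ.drop (k + 1 + 1) ++ R) =
        L ++ (σ.take k ++ σ.drop (k + 1 + 1)) ++ R := by simp
    rw [h7] at h5
    omega
  · intro f1 f2 hT h3 h4
    rw [e1] at hT
    exact repl k (by omega) f1 f2 hT h3 h4
  · intro f1 f2 hT h3 h4
    have e3 : w[L.length + k + 1] = σ[k + 1] := e2
    rw [e3] at hT
    exact repl (k + 1) (by omega) f1 f2 hT h3 h4

/-- vertices of a flat -/
def VF (S : TG V E) (F : E → Prop) (x : V) : Prop := ∃ e, F e ∧ S.src e = x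

theorem VF.path {F : E → Prop} (hinv : ∀ e, F e → F (S.inv e)) {x y : V} {σ : List E}
    (hx : VF S F x) (hσ : ∀ e ∈ σ, F e) (h : S.IsP x σ y) : VF S F y := by
  induction σ generalizing x with
  | nil =>
    rw [← show x = y from h]
    exact hx
  | cons e σ ih =>
    refine ih (x := S.tgt e) ⟨S.inv e, hinv e (hσ e List.mem_cons_self), src_inv _ _⟩
      (fun f hf => hσ f (List.mem_cons_of_mem _ hf)) h.2

end Pool.Agent.ABA.B.H17
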