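import Pool.Agent.Helper17_ABA.Bdy

/-!
Pushing a geodesic side of a disc across a strip; windows.
-/

set_option autoImplicit false

namespace Pool.Agent.ABA.B.H17

open Pool.Agent.ABA.B Pool.Agent.ABA.B.TG

variable {V E : Type} {S : TG V E} {N : ℕ} {a : ℕ → E} {W : ℕ → List E} {I : List (List E)}

theorem append_two {A : Type} {l : List A} {x y : A} {w : List A} (h : w = l ++ [x, y])
    {u v : A} (h2 : w = [u, v]) : l = [] ∧ x = u ∧ y = v := by
  rw [h] at h2
  cases l with
  | nil =>
    simp only [List.nil_append, List.cons.injEq, and_true] at h2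
    exact ⟨rfl, h2.1, h2.2⟩
  | cons a l =>
    have := congrArg List.length h2
    simp at this

theorem append_three {A : Type} {l : List A} {x y : A} {w : List A} (h : w = l ++ [x, y])
    {t u v : A} (h2 : w = [t, u, v]) : x = u ∧ y = v := by
  rw [h] at h2
  cases l with
  | nil =>
    have := congrArg List.length h2
    simp at this
  | cons a l =>
    cases l with
    | nil =>
      simp only [List.cons_append, List.nil_append, List.cons.injEq, and_true] at h2
      exact ⟨h2.2.1, h2.2.2⟩
    | cons b l =>
      have := congrArg List.length h2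
      simp at this

theorem append_four {A : Type} {l : List A} {x y : A} {w : List A} (h : w = l ++ [x, y])
    {s t u v : A} (h2 : w = [s, t, u, v]) : x = u ∧ y = v := by
  rw [h] at h2
  cases l with
  | nil =>
    have := congrArg List.length h2
    simp at this
  | cons a l =>
    cases l with
    | nil =>
      have := congrArg List.length h2
      simp at this
    | cons b l =>
      cases l with
      | nil =>
        simp only [List.cons_append, List.nil_append, List.cons.injEq, and_true] at h2
        exact ⟨h2.2.2.1, h2.2.2.2⟩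
      | cons c l =>
        have := congrArg List.length h2
        simp at this

theorem two_le (B : Bd S N a W I) (i : ℕ) : 2 ≤ (W i).length := by
  obtain ⟨f1, f2, l, r, hT, hW, hW'⟩ := B.edg i
  rw [hW]
  simp

/-- One triangle: the two letters can be replaced by one. -/
theorem strip1 (B : Bd S N a W I) (i : ℕ) (h : (W (i + 1)).length = 2) :
    ∃ f, S.src f = S.src (a i) ∧ S.tgt f = S.tgt (a (i + 1)) := by
  obtain ⟨f1, f2, l, r, hT, hW, hW'⟩ := B.edg i
  obtain ⟨g1, g2, l', r', hT', hW1, hW1'⟩ := B.edg (i + 1)
  rw [hW'] at h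
  have hr : r = [] := by
    cases r with
    | nil => rfl
    | cons x r => simp at h
  subst hr
  obtain ⟨-, h1, h2⟩ := append_two hW1 hW'
  refine ⟨g2, ?_, ?_⟩
  · rw [Tri.mid' hT', h1, tgt_inv]
  · rw [Tri.tgt' hT']

/-- The invariant of the strip. -/
theorem strip_front (B : Bd S N a W I) (i : ℕ) (hi : (W (i + 1)).length = 3) (d : ℕ)
    (hk : ∀ k, i + 1 < k → k ≤ i + 1 + d → (W k).length = 4) :
    ∃ q s r, S.IsP (S.src (a i)) q (S.tgt s) ∧ q.length = d + 1 ∧
      W (i + 1 + d + 1) = S.inv (a (i + 1 + d)) :: s :: r := by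
  induction d with
  | zero =>
    obtain ⟨f1, f2, l, r, hT, hW, hW'⟩ := B.edg i
    obtain ⟨g1, g2, l', r', hT', hW1, hW1'⟩ := B.edg (i + 1)
    rw [hW'] at hi
    obtain ⟨x, hx⟩ : ∃ x, r = [x] := by
      cases r with
      | nil => simp at hi
      | cons x r =>
        cases r with
        | nil => exact ⟨x, rfl⟩
        | cons y r => simp at hi
    subst hx
    obtain ⟨h1, h2⟩ := append_three hW1 hW'
    refine ⟨[f1], S.inv g2, r', ⟨Tri.src' hT, ?_⟩, rfl, hW1'⟩
    show S.tgt f1 = S.tgt (S.inv g2)
    rw [tgt_inv, Tri.mid' hT', h1, tgt_inv, Tri.mid' hT]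
  | succ d ih =>
    obtain ⟨q, s, r, hq, hql, hW⟩ := ih (fun k h1 h2 => hk k h1 (by omega))
    obtain ⟨g1, g2, l', r', hT', hW1, hW1'⟩ := B.edg (i + 1 + d + 1)
    have h4 := hk (i + 1 + d + 1) (by omega) (by omega)
    rw [hW] at h4
    obtain ⟨x, y, hx⟩ : ∃ x y, r = [x, y] := by
      cases r with
      | nil => simp at h4
      | cons x r =>
        cases r with
        | nil => simp at h4
        | cons y r =>
          cases r with
          | nil => exact ⟨x, y, rfl⟩
          | cons z r => simp at h4
    subst hx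
    obtain ⟨h1, h2⟩ := append_four hW1 hW
    have hch := B.chain (i + 1 + d + 1)
    rw [hW] at hch
    obtain ⟨c, hc⟩ : S.Cor s x := by
      rw [List.isChain_cons_cons, List.isChain_cons_cons] at hch
      exact hch.2.1
    refine ⟨q ++ [S.inv c], S.inv g2, r', ?_, ?_, ?_⟩
    · rw [isP_append]
      refine ⟨_, hq, ?_, ?_⟩
      · rw [src_inv, Tri.tgt' hc]
      · show S.tgt (S.inv c) = S.tgt (S.inv g2)
        rw [tgt_inv, tgt_inv, Tri.mid' hT', h1, Tri.mid' hc]
    · rw [List.length_append, hql]
      rfl
    · exact hW1'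

/-- The strip: 2, 3, …, 3, 2 triangles. -/
theorem strip (B : Bd S N a W I) (i d : ℕ) (hi : (W (i + 1)).length = 3)
    (hj : (W (i + 1 + d + 1)).length = 3)
    (hk : ∀ k, i + 1 < k → k ≤ i + 1 + d → (W k).length = 4) :
    ∃ q, S.IsP (S.src (a i)) q (S.tgt (a (i + 1 + d + 1))) ∧ q.length = d + 2 := by
  obtain ⟨q, s, r, hq, hql, hW⟩ := strip_front B i hi d hk
  obtain ⟨g1, g2, l', r', hT', hW1, hW1'⟩ := B.edg (i + 1 + d + 1)
  rw [hW] at hj
  obtain ⟨x, hx⟩ : ∃ x, r = [x] := by
    cases r with
    | nil => simp at hj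
    | cons x r =>
      cases r with
      | nil => exact ⟨x, rfl⟩
      | cons y r => simp at hj
  subst hx
  obtain ⟨h1, h2⟩ := append_three hW1 hW
  refine ⟨q ++ [g2], ?_, ?_⟩
  · rw [isP_append]
    refine ⟨_, hq, ?_, ?_⟩
    · rw [Tri.mid' hT', h1]
    · exact Tri.tgt' hT'
  · rw [List.length_append, hql]
    rfl

/-- The letters with indices in [i, i + L) form a geodesic. -/
def Gd (S : TG V E) (a : ℕ → E) (i L : ℕ) : Prop :=
  ∀ k M q, i ≤ k → k + M ≤ i + L → S.IsP (S.src (a k)) q (S.src (a (k + M))) → M ≤ q.length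

/-- Vertices inside a geodesic have at least two triangles. -/
theorem three_le (B : Bd S N a W I) {i L : ℕ} (hG : Gd S a i L) (k : ℕ) (h1 : i ≤ k)
    (h2 : k + 2 ≤ i + L) : 3 ≤ (W (k + 1)).length := by
  by_contra hc
  have h3 := two_le B (k + 1)
  obtain ⟨f, hf1, hf2⟩ := strip1 B k (by omega)
  have := hG k 2 [f] h1 h2 ⟨hf1, by rw [hf2]; exact (B.path (k + 1)).symm⟩
  simp at this

/-- **Window lemma**: along a geodesic the sum of 3 - (number of triangles) is at most 1. -/
theorem window (B : Bd S N a W I) {i L : ℕ} (hG : Gd S a i L) :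
    ∀ d k, i ≤ k → k + d + 1 ≤ i + L →
      ∑ m ∈ Finset.range d, ((4 : ℤ) - (W (k + 1 + m)).length) ≤ 1 := by
  intro d
  induction d using Nat.strong_induction_on with
  | _ d ih =>
    intro k hk hkd
    by_contra hcon
    push Not at hcon
    rcases Nat.lt_or_ge d 2 with hd | hd
    · -- d = 0 or 1
      have h0 : d = 1 := by
        by_contra h
        have : d = 0 := by omega
        subst this
        simp at hcon
      subst h0
      have h3 := three_le B hG k hk (by omega)
      simp only [Finset.range_one, Finset.sum_singleton, Nat.add_zero] at hcon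
      omega
    · -- prefixes
      have hpre : ∀ p, 1 ≤ p → p < d →
          ∑ m ∈ Finset.range p, ((4 : ℤ) - (W (k + 1 + m)).length) = 1 := by
        intro p hp1 hp2
        have h1 := ih p hp2 k hk (by omega)
        have h2 := ih (d - p) (by omega) (k + p) (by omega) (by omega)
        have h3 : ∑ m ∈ Finset.range d, ((4 : ℤ) - (W (k + 1 + m)).length) =
            ∑ m ∈ Finset.range p, ((4 : ℤ) - (W (k + 1 + m)).length) +
            ∑ m ∈ Finset.range (d - p), ((4 : ℤ) - (W (k + p + 1 + m)).length) := by
          obtain ⟨e, rfl⟩ := Nat.exists_eq_add_of_lt hp2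
          have he : p + e + 1 - p = e + 1 := by omega
          rw [he, show p + e + 1 = p + (e + 1) by ring, Finset.sum_range_add]
          congr 1
          refine Finset.sum_congr rfl (fun m _ => ?_)
          have : k + 1 + (p + m) = k + p + 1 + m := by ring
          rw [this]
        linarith
      obtain ⟨e, rfl⟩ := Nat.exists_eq_add_of_le hd
      have hfirst : (W (k + 1)).length = 3 := by
        have := hpre 1 le_rfl (by omega)
        simp only [Finset.range_one, Finset.sum_singleton, Nat.add_zero] at this
        omega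
      have hmid : ∀ p, 1 ≤ p → p + 1 < 2 + e → (W (k + 1 + p)).length = 4 := by
        intro p hp1 hp2
        have h1 := hpre p hp1 (by omega)
        have h2 := hpre (p + 1) (by omega) hp2
        rw [Finset.sum_range_succ, h1] at h2
        omega
      have hlast : (W (k + 1 + (e + 1))).length = 3 := by
        have h1 := hpre (e + 1) (by omega) (by omega)
        rw [show 2 + e = (e + 1) + 1 by ring, Finset.sum_range_succ, h1] at hcon
        have h3 := three_le B hG (k + (e + 1)) (by omega) (by omega)
        have h4 : k + (e + 1) + 1 = k + 1 + (e + 1) := by ring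
        rw [h4] at h3
        omega
      obtain ⟨q, hq, hql⟩ := strip B k e hfirst hlast (by
        intro m hm1 hm2
        obtain ⟨p, rfl⟩ := Nat.exists_eq_add_of_lt hm1
        have h1 := hmid (p + 1) (by omega) (by omega)
        have h2 : k + 1 + p + 1 = k + 1 + (p + 1) := by ring
        rw [h2]
        exact h1)
      have h5 := hG k (e + 3) q hk (by omega) (by
        have h6 : k + (e + 3) = (k + 1 + e + 1) + 1 := by ring
        rw [h6, B.path (k + 1 + e + 1)]
        exact hq)
      omega

end Pool.Agent.ABA.B.H17
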