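import Pool.Agent.Helper17_ABA.Strip

/-!
T2: an involution of a simply connected triangle graph with large links has a fixed vertex.
-/

set_option autoImplicit false

namespace Pool.Agent.ABA.B.H17

open Pool.Agent.ABA.B Pool.Agent.ABA.B.TG

variable {V E : Type} {S : TG V E}

theorem isP_get {w : List E} {x y : V} (h : S.IsP x w y) :
    ∀ i (hi : i + 1 < w.length), S.src w[i + 1] = S.tgt w[i] := by
  induction w generalizing x with
  | nil => intro i hi; simp at hi
  | cons e w ih =>
    intro i hi
    cases i with
    | zero =>
      cases w with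
      | nil => simp at hi
      | cons f w =>
        simp only [List.getElem_cons_succ, List.getElem_cons_zero]
        exact h.2.1
    | succ i =>
      have h1 := ih h.2 i (by simpa using hi)
      simpa using h1

theorem isP_last {w : List E} {x y : V} (h : S.IsP x w y) (hne : 0 < w.length) :
    S.tgt (w[w.length - 1]) = y := by
  induction w generalizing x with
  | nil => simp at hne
  | cons e w ih =>
    cases w with
    | nil => exact h.2
    | cons f w =>
      have h1 := ih h.2 (by simp)
      simpa using h1

theorem isP_head {w : List E} {x y : V} (h : S.IsP x w y) (hne : 0 < w.length) :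
    S.src (w[0]) = x := by
  cases w with
  | nil => simp at hne
  | cons e w => exact h.1

theorem cyc_eq_get {A : Type} [Inhabited A] (w : List A) (i : ℕ) (h : i % w.length < w.length) :
    cyc w i = w[i % w.length] := by
  unfold cyc
  rw [List.getD_eq_getElem?_getD, List.getElem?_eq_getElem h]
  rfl

theorem cyc_path [Inhabited E] {w : List E} {x : V} (h : S.IsP x w x) (hne : 0 < w.length)
    (i : ℕ) : S.src (cyc w (i + 1)) = S.tgt (cyc w i) := by
  have h1 : i % w.length < w.length := Nat.mod_lt _ hne
  have h2 : (i + 1) % w.length < w.length := Nat.mod_lt _ hne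
  rw [cyc_eq_get w i h1, cyc_eq_get w (i + 1) h2]
  by_cases hl : i % w.length + 1 < w.length
  · have h3 : (i + 1) % w.length = i % w.length + 1 := by
      rw [Nat.add_mod, Nat.mod_eq_of_lt (by omega : 1 < w.length), Nat.mod_eq_of_lt hl]
    have h4 : w[(i + 1) % w.length] = w[i % w.length + 1] := by
      congr 1
    rw [h4]
    exact isP_get h _ hl
  · have h3 : i % w.length + 1 = w.length := by omega
    have h4 : (i + 1) % w.length = 0 := by
      rw [← Nat.mod_add_mod, h3, Nat.mod_self]
    have h5 : w[(i + 1) % w.length] = w[0] := by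
      congr 1
    have h6 : w[i % w.length] = w[w.length - 1] := by
      congr 1
      omega
    rw [h5, h6, isP_head h hne, isP_last h hne]

theorem seg_path {a : ℕ → E} (hp : ∀ i, S.src (a (i + 1)) = S.tgt (a i)) (k M : ℕ) :
    ∃ q, S.IsP (S.src (a k)) q (S.src (a (k + M))) ∧ q.length = M := by
  induction M with
  | zero => exact ⟨[], rfl, rfl⟩
  | succ M ih =>
    obtain ⟨q, hq, hl⟩ := ih
    refine ⟨q ++ [a (k + M)], ?_, by rw [List.length_append, hl]; rfl⟩
    rw [isP_append]
    exact ⟨_, hq, rfl, (hp (k + M)).symm⟩

/-- A closed block of a rotation, in cyclic letters. -/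
theorem block_cyc [Inhabited E] {w : List E} {k : ℕ} {l p r : List E}
    (h : w.rotate k = l ++ p ++ r) (hp : p ≠ []) (hcl : S.Cl p)
    (hpath : ∀ i, S.src (cyc w (i + 1)) = S.tgt (cyc w i)) :
    S.src (cyc w (k + l.length)) = S.src (cyc w (k + l.length + p.length)) := by
  obtain ⟨x, hx⟩ := hcl
  have hpl : 0 < p.length := List.length_pos_iff.2 hp
  have hlen : w.length = l.length + p.length + r.length := by
    have := congrArg List.length h
    simpa [List.length_rotate, add_assoc] using this
  have key : ∀ j (hj : j < p.length), cyc w (k + l.length + j) = p[j] := by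
    intro j hj
    have h1 : l.length + j < (w.rotate k).length := by
      rw [List.length_rotate]; omega
    have h2 : (w.rotate k)[l.length + j] = p[j] := by
      have h3 : (w.rotate k)[l.length + j]? = some p[j] := by
        rw [h, List.append_assoc, List.getElem?_append_right (by omega)]
        rw [List.getElem?_append_left (by omega)]
        have h4 : l.length + j - l.length = j := by omega
        rw [h4, List.getElem?_eq_getElem hj]
      rw [List.getElem?_eq_getElem h1] at h3
      exact Option.some.inj h3
    rw [List.getElem_rotate] at h2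
    rw [← h2, cyc_eq_get w _ (Nat.mod_lt _ (by omega))]
    congr 1
    congr 1
    ring
  have h1 := key 0 hpl
  have h2 := key (p.length - 1) (by omega)
  rw [Nat.add_zero] at h1
  have h3 : k + l.length + p.length = k + l.length + (p.length - 1) + 1 := by omega
  rw [h3, hpath, h1, h2, isP_head hx hpl, isP_last hx hpl]

/-- An automorphism (only what is needed). -/
structure Aut (S : TG V E) where
  v : V → V
  e : E → E
  src : ∀ x, S.src (e x) = v (S.src x)
  inv : ∀ x, S.inv (e x) = e (S.inv x)
  δ : ∀ x, S.δ (e x) = S.δ x

theorem Aut.tgt (h : Aut S) (x : E) : S.tgt (h.e x) = h.v (S.tgt x) := by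
  unfold TG.tgt
  rw [h.inv, h.src]

theorem Aut.isP (h : Aut S) {x y : V} {w : List E} (hw : S.IsP x w y) :
    S.IsP (h.v x) (w.map h.e) (h.v y) := by
  induction w generalizing x with
  | nil =>
    rw [show x = y from hw]
    rfl
  | cons e w ih =>
    refine ⟨?_, ?_⟩
    · rw [h.src, hw.1]
    · rw [h.tgt]
      exact ih hw.2

theorem sum_np {l : List ℝ} (h : ∀ t ∈ l, t ≤ 0) : l.sum ≤ 0 := by
  induction l with
  | nil => simp
  | cons x l ih =>
    rw [List.sum_cons]
    have h1 := h x List.mem_cons_self
    have h2 := ih (fun t ht => h t (List.mem_cons_of_mem _ ht))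
    linarith

/-- **T2.** -/
theorem t2 (M : Mods) (hSC : S.SC) (hconn : ∀ x y, ∃ q, S.IsP x q y)
    (hsys : ∀ v, CRW S v → 6 ≤ v.length) (h : Aut S) (hh : ∀ x, h.v (h.v x) = x) [Nonempty V] :
    ∃ x, h.v x = x := by
  classical
  by_contra hfix
  push Not at hfix
  have hex : ∃ n, ∃ x q, S.IsP x q (h.v x) ∧ q.length = n := by
    obtain ⟨x⟩ := ‹Nonempty V›
    obtain ⟨q, hq⟩ := hconn x (h.v x)
    exact ⟨_, x, q, hq, rfl⟩
  obtain ⟨n, ⟨x, q, hq, hqn⟩, hmin⟩ : ∃ n, (∃ x q, S.IsP x q (h.v x) ∧ q.length = n) ∧
      ∀ m, (∃ x q, S.IsP x q (h.v x) ∧ q.length = m) → n ≤ m :=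
    ⟨Nat.find hex, Nat.find_spec hex, fun m hm => Nat.find_min' hex hm⟩
  have hn0 : n ≠ 0 := by
    intro h0
    rw [h0] at hqn
    have := List.eq_nil_of_length_eq_zero hqn
    subst this
    exact hfix x hq.symm
  obtain ⟨w, hw⟩ : ∃ w, w = q ++ q.map h.e := ⟨_, rfl⟩
  have hwcl : S.IsP x w x := by
    rw [hw, isP_append]
    refine ⟨_, hq, ?_⟩
    have := h.isP hq
    rwa [hh] at this
  have hwl : w.length = 2 * n := by
    rw [hw, List.length_append, List.length_map, hqn]
    ring
  have hδ : (q.map S.δ).sum = 0 := by
    obtain ⟨m, hD⟩ := hSC x w hwcl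
    have h1 := hD.δ
    rw [hw, List.map_append, List.sum_append, List.map_map] at h1
    have h2 : (S.δ ∘ h.e) = S.δ := funext h.δ
    rw [h2] at h1
    omega
  have hn1 : n ≠ 1 := by
    intro h1
    rw [h1] at hqn
    obtain ⟨e, he⟩ := List.length_eq_one_iff.1 hqn
    rw [he] at hδ
    simp at hδ
    exact S.δ_ne e hδ
  have hne : 0 < w.length := by omega
  haveI : Inhabited E := ⟨w[0]⟩
  have hpath := cyc_path hwcl hne
  -- periodicity of the vertices
  have hper : ∀ k, S.src (cyc w (k + n)) = h.v (S.src (cyc w k)) := by
    have hlow : ∀ k, k < n → S.src (cyc w (k + n)) = h.v (S.src (cyc w k)) := by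
      intro k hk
      rw [cyc_of_lt w (k + n) (by omega), cyc_of_lt w k (by omega)]
      have h1 : w[k + n]'(by omega) = h.e (q[k]'(by omega)) := by
        have h3 : w[k + n]? = some (h.e (q[k]'(by omega))) := by
          rw [hw, List.getElem?_append_right (by omega), List.getElem?_map]
          have : k + n - q.length = k := by omega
          rw [this, List.getElem?_eq_getElem (by omega)]
          rfl
        rw [List.getElem?_eq_getElem (by omega)] at h3
        exact Option.some.inj h3
      have h2 : w[k]'(by omega) = q[k]'(by omega) := by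
        have h3 : w[k]? = some (q[k]'(by omega)) := by
          rw [hw, List.getElem?_append_left (by omega), List.getElem?_eq_getElem (by omega)]
        rw [List.getElem?_eq_getElem (by omega)] at h3
        exact Option.some.inj h3
      rw [h1, h2, h.src]
    have hmid : ∀ k, k < 2 * n → S.src (cyc w (k + n)) = h.v (S.src (cyc w k)) := by
      intro k hk
      rcases Nat.lt_or_ge k n with h1 | h1
      · exact hlow k h1
      · obtain ⟨j, rfl⟩ := Nat.exists_eq_add_of_le' h1
        have h2 : j + n + n = j + w.length := by omega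
        rw [h2, cyc_per, hlow j (by omega), hh]
    intro k
    have h1 : cyc w k = cyc w (k % w.length) := by
      unfold cyc
      rw [Nat.mod_mod]
    have h2 : cyc w (k + n) = cyc w (k % w.length + n) := by
      unfold cyc
      rw [Nat.mod_add_mod]
    rw [h1, h2]
    apply hmid
    rw [← hwl]
    exact Nat.mod_lt _ hne
  -- geodesics
  have hG : ∀ i, Gd S (cyc w) i n := by
    intro i k m r _ hkm hr
    by_contra hlt
    push Not at hlt
    obtain ⟨s, hs, hsl⟩ := seg_path hpath (k + m) (n - m)
    have hmn : m ≤ n := by omega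
    have h1 : k + m + (n - m) = k + n := by omega
    rw [h1, hper] at hs
    have h2 := hmin (r ++ s).length ⟨S.src (cyc w k), r ++ s, by
      rw [isP_append]
      exact ⟨_, hr, hs⟩, rfl⟩
    rw [List.length_append] at h2
    omega
  -- pinch free
  have hPF : S.PF w := by
    rcases M.pinch V E S hSC w ⟨x, hwcl⟩ (List.length_pos_iff.1 hne) with h1 | h1
    · exact h1
    · exfalso
      obtain ⟨k, l₁, p, l₂, q', l₃, hr, hp, hq', hp0, hq0, -, -, -, -⟩ := h1
      have hlen : 2 * n = l₁.length + p.length + l₂.length + q'.length + l₃.length := by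
        have := congrArg List.length hr
        rw [List.length_rotate, hwl] at this
        simpa [add_assoc] using this
      have hpl : 0 < p.length := List.length_pos_iff.2 hp0
      have hql : 0 < q'.length := List.length_pos_iff.2 hq0
      rcases Nat.lt_or_ge n p.length with h2 | h2
      · have h3 := block_cyc (l := l₁ ++ p ++ l₂) (p := q') (r := l₃) hr hq0 hq' hpath
        have h4 := hG (k + (l₁ ++ p ++ l₂).length) _ q'.length [] le_rfl (by omega) h3
        rw [List.length_nil] at h4
        omega
      · have h3 := block_cyc (l := l₁) (p := p) (r := l₂ ++ q' ++ l₃)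
          (by rw [hr]; simp) hp0 hp hpath
        have h4 := hG (k + l₁.length) _ p.length [] le_rfl (by omega) h3
        rw [List.length_nil] at h4
        omega
  obtain ⟨a, W, I, B, ha⟩ := bdy M hSC w ⟨x, hwcl⟩ hPF (by omega)
  have haw : a = cyc w := by
    funext i
    have h1 : ∀ j, a (j + 0) = a j := fun j => rfl
    have h2 : ∀ m j, a (j + m * w.length) = a j := by
      intro m
      induction m with
      | zero => intro j; simp
      | succ m ih =>
        intro j
        have h3 : j + (m + 1) * w.length = (j + m * w.length) + w.length := by ring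
        rw [h3, B.per, ih]
    have h3 : a i = a (i % w.length) := by
      conv_lhs => rw [← Nat.mod_add_div i w.length, Nat.mul_comm]
      exact h2 _ _
    have h4 : i % w.length < w.length := Nat.mod_lt _ hne
    rw [h3, ha _ h4, cyc_eq_get w i h4]
  subst haw
  -- Gauss-Bonnet with unit weights
  have hWt : S.Wt (fun _ _ => (1 : ℝ)) := ⟨fun _ _ => rfl, fun _ => by norm_num⟩
  have hgb := B.gb _ hWt
  have how : ∀ v : List E, v ≠ [] → ow (fun _ _ => (1 : ℝ)) v = v.length - 1 := by
    intro v
    induction v with
    | nil => intro h; exact absurd rfl h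
    | cons e v ih =>
      intro _
      cases v with
      | nil => simp [ow]
      | cons f v =>
        have := ih (by simp)
        rw [ow, this]
        simp only [List.length_cons]
        push_cast
        ring
  have hI : (I.map (fun v => 6 - cw (fun _ _ => (1 : ℝ)) v)).sum ≤ 0 := by
    apply sum_np
    intro t ht
    obtain ⟨v, hv, rfl⟩ := List.mem_map.1 ht
    have h1 := hsys v (B.inner v hv)
    have h2 : cw (fun _ _ => (1 : ℝ)) v = v.length := by
      unfold cw
      cases v with
      | nil => simp at h1
      | cons e v =>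
        rw [how _ (by simp)]
        simp
    rw [h2]
    have : (6 : ℝ) ≤ v.length := by exact_mod_cast h1
    linarith
  have hsum : (6 : ℤ) ≤ ∑ i ∈ Finset.range w.length, ((4 : ℤ) - (W i).length) := by
    have h1 : ∑ i ∈ Finset.range w.length, (3 - ow (fun _ _ => (1 : ℝ)) (W i)) =
        ((∑ i ∈ Finset.range w.length, ((4 : ℤ) - (W i).length) : ℤ) : ℝ) := by
      push_cast
      refine Finset.sum_congr rfl (fun i _ => ?_)
      have h2 := two_le B i
      rw [how _ (by
        intro h3
        rw [h3] at h2
        simp at h2)]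
      ring
    rw [h1] at hgb
    have h2 : (6 : ℝ) ≤ ((∑ i ∈ Finset.range w.length, ((4 : ℤ) - (W i).length) : ℤ) : ℝ) := by
      linarith
    exact_mod_cast h2
  have hshift : ∑ i ∈ Finset.range w.length, ((4 : ℤ) - (W i).length) =
      ∑ i ∈ Finset.range w.length, ((4 : ℤ) - (W (i + 1)).length) := by
    have h1 := Finset.sum_range_succ (fun i => (4 : ℤ) - (W i).length) w.length
    have h2 := Finset.sum_range_succ' (fun i => (4 : ℤ) - (W i).length) w.length
    have h3 : W w.length = W 0 := by
      have := B.perW 0
      rwa [zero_add] at this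
    rw [h3] at h1
    linarith
  rw [hshift, hwl, show 2 * n = n + n by ring, Finset.sum_range_add] at hsum
  obtain ⟨n', rfl⟩ : ∃ n', n = n' + 1 := ⟨n - 1, by omega⟩
  rw [Finset.sum_range_succ, Finset.sum_range_succ] at hsum
  have w1 := window B (hG 0) n' 0 le_rfl (by omega)
  have w2 := window B (hG (n' + 1)) n' (n' + 1) le_rfl (by omega)
  have t1 := three_le B (hG n') n' le_rfl (by omega)
  have t3 := three_le B (hG (n' + 1 + n')) (n' + 1 + n') le_rfl (by omega)
  have e1 : ∀ m, W (0 + 1 + m) = W (m + 1) := by
    intro m
    congr 1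
    ring
  have e2 : ∀ m, W (n' + 1 + 1 + m) = W (n' + 1 + m + 1) := by
    intro m
    congr 1
    ring
  simp only [e1] at w1
  simp only [e2] at w2
  omega

end Pool.Agent.ABA.B.H17
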