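import Pool.Agent.Helper17_ABA.Side

/-!
Two flats: at most one common vertex; no long strips between them.
-/

set_option autoImplicit false

namespace Pool.Agent.ABA.B.H17

open Pool.Agent.ABA.B Pool.Agent.ABA.B.TG

variable {V E : Type} {S : TG V E} {θ : E → E → ℝ}

/-- **TWO**: two flats without a common letter have at most one common vertex. -/
theorem two_flats (M : Mods) (hSC : S.SC) (hθ : Cv S θ) {F1 F2 : E → Prop} (h1 : Flat S θ F1)
    (h2 : Flat S θ F2) (hno : ∀ e, F1 e → ¬ F2 e) {x y : V} {σ τ : List E} (hσ : S.IsP x σ y)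
    (hσF : ∀ e ∈ σ, F1 e) (hτ : S.IsP y τ x) (hτF : ∀ e ∈ τ, F2 e) : x = y := by
  by_contra hxy
  obtain ⟨⟨x, y, σ, τ⟩, ⟨hxy, hσ, hσF, hτ, hτF⟩, hmin⟩ := lex_min
    (fun t : V × V × List E × List E => t.1 ≠ t.2.1 ∧ S.IsP t.1 t.2.2.1 t.2.1 ∧
      (∀ e ∈ t.2.2.1, F1 e) ∧ S.IsP t.2.1 t.2.2.2 t.1 ∧ (∀ e ∈ t.2.2.2, F2 e))
    (fun t => S.ar (t.2.2.1 ++ t.2.2.2)) (fun t => (t.2.2.1 ++ t.2.2.2).length)
    ⟨(x, y, σ, τ), hxy, hσ, hσF, hτ, hτF⟩
  simp only at hxy hσ hσF hτ hτF hmin
  replace hmin : ∀ x' y' σ' τ', x' ≠ y' → S.IsP x' σ' y' → (∀ e ∈ σ', F1 e) → S.IsP y' τ' x' →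
      (∀ e ∈ τ', F2 e) → S.ar (σ ++ τ) ≤ S.ar (σ' ++ τ') ∧
      (S.ar (σ' ++ τ') ≤ S.ar (σ ++ τ) → (σ ++ τ).length ≤ (σ' ++ τ').length) :=
    fun x' y' σ' τ' a b c d e => hmin (x', y', σ', τ') ⟨a, b, c, d, e⟩
  have hσ0 : 0 < σ.length := by
    rw [List.length_pos_iff]
    rintro rfl
    exact hxy hσ
  have hτ0 : 0 < τ.length := by
    rw [List.length_pos_iff]
    rintro rfl
    exact hxy (Eq.symm hτ)
  have hcl : S.Cl (σ ++ τ) := ⟨x, isP_append.2 ⟨y, hσ, hτ⟩⟩
  have hpos : ∀ (e : E) (u : List E) (x' y' : V), S.IsP x' (e :: u) y' → x' = S.src e :=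
    fun e u x' y' h => h.1.symm
  have m1 : MinSide S F1 [] σ τ := by
    refine ⟨by rw [List.nil_append]; exact hcl, hσF, fun σ' h3 h4 => ?_⟩
    have := hmin x y σ' τ hxy (h4 _ _ hσ) h3 hτ hτF
    simp only [List.nil_append, List.length_append] at this ⊢
    refine ⟨this.1, fun h => ?_⟩
    have := this.2 h
    omega
  have m2 : MinSide S F2 σ τ [] := by
    refine ⟨by rw [List.append_nil]; exact hcl, hτF, fun σ' h3 h4 => ?_⟩
    have := hmin x y σ σ' hxy hσ hσF (h4 _ _ hτ) h3
    simp only [List.append_nil, List.length_append] at this ⊢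
    refine ⟨this.1, fun h => ?_⟩
    have := this.2 h
    omega
  have hpf : S.PF (σ ++ τ) := by
    intro p₁ p p₂ hw hp0 hp12 hp
    by_contra hcon
    push Not at hcon
    have hpl := List.length_pos_iff.2 hp0
    have hpl12 := List.length_pos_iff.2 hp12
    rcases Nat.lt_or_ge σ.length (p₁ ++ p).length with hA | hA
    · rcases Nat.lt_or_ge p₁.length σ.length with hB | hB
      · -- the block contains the corner
        obtain ⟨s2, hs2, hs2'⟩ := split_le hw (le_of_lt hA)
        obtain ⟨s1, hs1, hs1'⟩ := split_le hs2 (le_of_lt hB)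
        rw [hs1] at hσ hσF
        rw [hs2'] at hτ hτF
        obtain ⟨z, k1, k2⟩ := isP_append.1 hσ
        obtain ⟨z', k3, k4⟩ := isP_append.1 hτ
        have hzz : z = z' := by
          obtain ⟨u, hu⟩ := hp
          have h5 : S.IsP z p z' := by rw [hs1']; exact isP_append.2 ⟨y, k2, k3⟩
          obtain ⟨e, p', rfl⟩ : ∃ e p', p = e :: p' := by
            cases p with
            | nil => exact absurd rfl hp0
            | cons e p' => exact ⟨e, p', rfl⟩
          have h6 : z = u := h5.1.symm.trans hu.1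
          subst h6
          exact IsP.eq hu h5
        subst hzz
        by_cases hz : z = y
        · subst hz
          have h5 := (hmin x z p₁ p₂ hxy k1 (fun e he => hσF e (List.mem_append_left _ he)) k4
            (fun e he => hτF e (List.mem_append_right _ he))).2 (by omega)
          rw [hw] at h5
          simp only [List.length_append] at h5
          omega
        · have h5 := (hmin z y s1 s2 hz k2 (fun e he => hσF e (List.mem_append_right _ he)) k3
            (fun e he => hτF e (List.mem_append_left _ he))).2 (by rw [← hs1']; omega)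
          rw [← hs1', hw] at h5
          simp only [List.length_append] at h5 hpl12
          omega
      · rw [List.append_assoc] at hw
        obtain ⟨s, hs, hs'⟩ := split_le hw hB
        have h5 := m2.block (s := s) (p := p) (t := p₂)
          (by rw [hs', List.append_assoc]) hp hp0
        simp only [List.append_nil] at h5
        rw [← List.append_assoc, ← hs] at h5
        omega
    · obtain ⟨s, hs, hs'⟩ := split_le hw.symm hA
      have h5 := m1.block (s := p₁) (p := p) (t := s) hs hp hp0
      simp only [List.nil_append] at h5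
      rw [List.append_assoc, ← hs'] at h5
      omega
  have hnb : ∀ e, σ ++ τ ≠ [S.inv e, e] := by
    intro e he
    obtain ⟨a, σ', rfl⟩ : ∃ a σ', σ = a :: σ' := by
      cases σ with
      | nil => simp at hσ0
      | cons a σ' => exact ⟨a, σ', rfl⟩
    obtain ⟨b, τ', rfl⟩ : ∃ b τ', τ = b :: τ' := by
      cases τ with
      | nil => simp at hτ0
      | cons b τ' => exact ⟨b, τ', rfl⟩
    have hlen := congrArg List.length he
    simp only [List.length_append, List.length_cons, List.length_nil] at hlen
    have h3 : σ' = [] := List.eq_nil_of_length_eq_zero (by omega)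
    have h4 : τ' = [] := List.eq_nil_of_length_eq_zero (by omega)
    subst h3 h4
    simp only [List.cons_append, List.nil_append, List.cons.injEq, and_true] at he
    have h5 := hσF a (by simp)
    have h6 := hτF b (by simp)
    rw [he.1] at h5
    rw [he.2] at h6
    exact hno _ h5 (h2.inv _ h6)
  have hcurv := curv M hSC hθ (σ ++ τ) hcl hpf (by
    intro h
    have := congrArg List.length h
    simp only [List.length_append, List.length_nil] at this
    omega) hnb {σ.length - 1, (σ ++ τ).length - 1} (by simp) (by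
    intro i hi hiC
    simp only [Finset.mem_insert, Finset.mem_singleton, not_or] at hiC
    rcases Nat.lt_or_ge (i + 1) σ.length with h3 | h3
    · exact m1.flat M hSC h1 (by simp) i hi (by simp) (by simpa using h3)
    · have h4 : σ.length ≤ i := by omega
      exact m2.flat M hSC h2 (by simp) i hi h4 (by
        rw [List.length_append] at hi
        exact hi))
  have hcard : (({σ.length - 1, (σ ++ τ).length - 1} : Finset ℕ).card : ℝ) ≤ 2 := by
    exact_mod_cast Finset.card_le_two
  have hlen : (2 : ℝ) ≤ (σ ++ τ).length := by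
    have : 2 ≤ (σ ++ τ).length := by
      rw [List.length_append]; omega
    exact_mod_cast this
  linarith

/-- **QUAD**: no long strips between two disjoint flats. -/
theorem quad_flats (M : Mods) (hSC : S.SC) (hconn : Conn S) (hθ : Cv S θ) {F1 F2 : E → Prop}
    (h1 : Flat S θ F1) (h2 : Flat S θ F2) {x x' y y' : V} {σ τ κ ρ : List E} {D : ℕ}
    (hD : 1 ≤ D) (hmD : ∀ u v, VF S F1 u → VF S F2 v → D ≤ dst S u v)
    (hσ : S.IsP x σ x') (hσF : ∀ e ∈ σ, F1 e) (hκ : S.IsP x' κ y') (hκD : κ.length = D)
    (hτ : S.IsP y' τ y) (hτF : ∀ e ∈ τ, F2 e) (hρ : S.IsP y ρ x) (hρD : ρ.length = D)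
    (hx : VF S F1 x) (hy : VF S F2 y) (hfar : 44 * D ≤ dst S x x') : False := by
  obtain ⟨⟨σ, τ⟩, ⟨hσ, hσF, hτ, hτF⟩, hmin⟩ := lex_min
    (fun t : List E × List E => S.IsP x t.1 x' ∧ (∀ e ∈ t.1, F1 e) ∧ S.IsP y' t.2 y ∧
      (∀ e ∈ t.2, F2 e))
    (fun t => S.ar (t.1 ++ κ ++ t.2 ++ ρ)) (fun t => (t.1 ++ κ ++ t.2 ++ ρ).length)
    ⟨(σ, τ), hσ, hσF, hτ, hτF⟩
  simp only at hσ hσF hτ hτF hmin
  replace hmin : ∀ σ' τ', S.IsP x σ' x' → (∀ e ∈ σ', F1 e) → S.IsP y' τ' y →
      (∀ e ∈ τ', F2 e) → S.ar (σ ++ κ ++ τ ++ ρ) ≤ S.ar (σ' ++ κ ++ τ' ++ ρ) ∧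
      (S.ar (σ' ++ κ ++ τ' ++ ρ) ≤ S.ar (σ ++ κ ++ τ ++ ρ) →
        (σ ++ κ ++ τ ++ ρ).length ≤ (σ' ++ κ ++ τ' ++ ρ).length) :=
    fun σ' τ' a b c d => hmin (σ', τ') ⟨a, b, c, d⟩
  have hx' : VF S F1 x' := VF.path h1.inv hx hσF hσ
  have hy' : VF S F2 y' := by
    have h3 := hτ.rv
    refine VF.path h2.inv hy ?_ h3
    intro e he
    unfold TG.rv at he
    rw [List.mem_reverse] at he
    obtain ⟨f, hf, rfl⟩ := List.mem_map.1 he
    exact h2.inv _ (hτF f hf)
  have hσL : 44 * D ≤ σ.length := hfar.trans (dst_le hσ)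
  have hτL : 1 ≤ τ.length := by
    by_contra h0
    have h3 : τ = [] := List.eq_nil_of_length_eq_zero (by omega)
    subst h3
    have h4 : y' = y := hτ
    subst h4
    have h5 := dst_tri hconn x' y' x
    have h6 := dst_le hκ
    have h7 := dst_le hρ
    have h8 := dst_comm hconn x' x
    omega
  obtain ⟨w, hw⟩ : ∃ w, w = σ ++ κ ++ τ ++ ρ := ⟨_, rfl⟩
  have hIsP : S.IsP x w x := by
    rw [hw]
    exact isP_append.2 ⟨y, isP_append.2 ⟨y', isP_append.2 ⟨x', hσ, hκ⟩, hτ⟩, hρ⟩
  have hcl : S.Cl w := ⟨x, hIsP⟩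
  have hN : w.length = σ.length + D + τ.length + D := by
    rw [hw]
    simp only [List.length_append]
    omega
  have w1 : w = [] ++ σ ++ (κ ++ τ ++ ρ) := by rw [hw]; simp
  have w2 : w = (σ ++ κ) ++ τ ++ ρ := hw
  have m1 : MinSide S F1 [] σ (κ ++ τ ++ ρ) := by
    refine ⟨by rw [← w1]; exact hcl, hσF, fun σ' h3 h4 => ?_⟩
    have := hmin σ' τ (h4 _ _ hσ) h3 hτ hτF
    rw [← hw] at this
    rw [← w1]
    simp only [List.nil_append, List.length_append, ← List.append_assoc] at this ⊢
    refine ⟨this.1, fun h => ?_⟩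
    have := this.2 h
    omega
  have m2 : MinSide S F2 (σ ++ κ) τ ρ := by
    refine ⟨by rw [← w2]; exact hcl, hτF, fun σ' h3 h4 => ?_⟩
    have := hmin σ σ' hσ hσF (h4 _ _ hτ) h3
    rw [← hw] at this
    rw [← w2]
    simp only [List.length_append] at this ⊢
    refine ⟨this.1, fun h => ?_⟩
    have := this.2 h
    omega
  -- the vertices of the polygon
  have cls : ∀ (u t : List E) (z : V), w = u ++ t → S.IsP x u z → S.IsP z t x →
      (u.length ≤ σ.length ∧ VF S F1 z) ∨
      (σ.length ≤ u.length ∧ u.length ≤ σ.length + D ∧ dst S x' z + σ.length ≤ u.length ∧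
        dst S z y' + u.length ≤ σ.length + D) ∨
      (σ.length + D ≤ u.length ∧ u.length ≤ σ.length + D + τ.length ∧ VF S F2 z) ∨
      (σ.length + D + τ.length ≤ u.length ∧ dst S z y + (σ.length + D + τ.length) ≤ u.length ∧
        dst S x z + u.length ≤ w.length) := by
    intro u t z hut hu ht
    rcases Nat.lt_or_ge σ.length u.length with hA | hA
    · rcases Nat.lt_or_ge (σ ++ κ).length u.length with hB | hB
      · rcases Nat.lt_or_ge (σ ++ κ ++ τ).length u.length with hC | hC
        · right; right; right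
          obtain ⟨s, hs, hs'⟩ := split_le (hw.symm.trans hut) (le_of_lt hC)
          obtain ⟨z', k1, k2⟩ := isP_append.1 (hs ▸ hu)
          have k3 : z' = y := IsP.eq k1
            (isP_append.2 ⟨y', isP_append.2 ⟨x', hσ, hκ⟩, hτ⟩)
          subst k3
          have k4 := dst_le k2
          have k5 := dst_le ht
          have k6 := dst_comm hconn x z
          have k7 := dst_comm hconn z' z
          have l1 := congrArg List.length hs
          have l2 := congrArg List.length hut
          simp only [List.length_append] at hC l1 l2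
          refine ⟨by omega, by omega, by omega⟩
        · right; right; left
          have hut' : u ++ t = σ ++ κ ++ τ ++ ρ := hut.symm.trans hw
          obtain ⟨s, hs, hs'⟩ := split_le hut' hC
          obtain ⟨s1, hs1, hs1'⟩ := split_le hs (le_of_lt hB)
          obtain ⟨z', k1, k2⟩ := isP_append.1 (hs1 ▸ hu)
          have k3 : z' = y' := IsP.eq k1 (isP_append.2 ⟨x', hσ, hκ⟩)
          subst k3
          have l1 := congrArg List.length hs1
          simp only [List.length_append] at hB hC l1
          refine ⟨by omega, by omega, VF.path h2.inv hy' ?_ k2⟩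
          intro e he
          apply hτF
          rw [hs1']
          exact List.mem_append_left _ he
      · right; left
        have hut' : u ++ t = (σ ++ κ) ++ (τ ++ ρ) := by
          rw [← List.append_assoc]; exact hut.symm.trans hw
        obtain ⟨s, hs, hs'⟩ := split_le hut' hB
        obtain ⟨s1, hs1, hs1'⟩ := split_le hs (le_of_lt hA)
        obtain ⟨z', k1, k2⟩ := isP_append.1 (hs1 ▸ hu)
        have k3 : z' = x' := IsP.eq k1 hσ
        subst k3
        have hκ' := hκ
        rw [hs1'] at hκ'
        obtain ⟨z'', k4, k5⟩ := isP_append.1 hκ'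
        have k6 : z'' = z := IsP.eq k4 k2
        subst k6
        have k7 := dst_le k2
        have k8 := dst_le k5
        have l1 := congrArg List.length hs1
        have l2 := congrArg List.length hs1'
        simp only [List.length_append] at hB l1 l2
        refine ⟨by omega, by omega, by omega, by omega⟩
    · left
      have hut' : u ++ t = σ ++ (κ ++ τ ++ ρ) := by
        rw [← hut, hw]; simp
      obtain ⟨s, hs, hs'⟩ := split_le hut' hA
      refine ⟨hA, VF.path h1.inv hx ?_ hu⟩
      intro e he
      apply hσF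
      rw [hs]
      exact List.mem_append_left _ he
  have hκg : D ≤ dst S x' y' := hmD _ _ hx' hy'
  have hρg : D ≤ dst S x y := hmD _ _ hx hy
  have hpf : S.PF w := by
    intro p₁ p p₂ hwp hp0 hp12 hp
    by_contra hcon
    push Not at hcon
    have hpl := List.length_pos_iff.2 hp0
    have hpl12 := List.length_pos_iff.2 hp12
    rw [List.length_append] at hpl12
    have hNp : w.length = p₁.length + p.length + p₂.length := by
      rw [hwp]; simp only [List.length_append]
    -- the common vertex
    obtain ⟨z, k1, k2, k3⟩ : ∃ z, S.IsP x p₁ z ∧ S.IsP z p z ∧ S.IsP z p₂ x := by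
      have h3 := hIsP
      rw [hwp] at h3
      obtain ⟨z', h4, h5⟩ := isP_append.1 h3
      obtain ⟨z, h6, h7⟩ := isP_append.1 h4
      obtain ⟨u, hu⟩ := hp
      obtain ⟨e, p', rfl⟩ : ∃ e p', p = e :: p' := by
        cases p with
        | nil => exact absurd rfl hp0
        | cons e p' => exact ⟨e, p', rfl⟩
      have h8 : z = u := h7.1.symm.trans hu.1
      subst h8
      have h9 : z' = z := IsP.eq h7 hu
      subst h9
      exact ⟨_, h6, h7, h5⟩
    have c1 := cls p₁ (p ++ p₂) z (by rw [hwp, List.append_assoc]) k1 (isP_append.2 ⟨z, k2, k3⟩)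
    have c2 := cls (p₁ ++ p) p₂ z hwp (isP_append.2 ⟨z, k1, k2⟩) k3
    rw [List.length_append] at c2
    have d1 := dst_comm hconn x z
    have d2 := dst_comm hconn x' z
    have d3 := dst_comm hconn y z
    have d4 := dst_comm hconn y' z
    have d5 := dst_comm hconn x x'
    have d6 := dst_comm hconn x y
    have d7 := dst_comm hconn x' y'
    have t1 := dst_tri hconn x z x'
    have t2 := dst_tri hconn x z y
    have t3 := dst_tri hconn x' z y'
    have e1 : VF S F1 z → D ≤ dst S z y' := fun h => hmD _ _ h hy'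
    have e2 : VF S F1 z → D ≤ dst S z y := fun h => hmD _ _ h hy
    have e3 : VF S F2 z → D ≤ dst S x z := fun h => hmD _ _ hx h
    have e4 : VF S F2 z → D ≤ dst S x' z := fun h => hmD _ _ hx' h
    have e5 : VF S F1 z → VF S F2 z → False := by
      intro h3 h4
      have := hmD _ _ h3 h4
      rw [dst_self] at this
      omega
    have key : (p₁.length + p.length ≤ σ.length) ∨
        (σ.length + D ≤ p₁.length ∧ p₁.length + p.length ≤ σ.length + D + τ.length) ∨
        (p₁.length ≤ σ.length ∧ p₁.length + p.length = w.length) := by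
      rcases c1 with ⟨a1, a2⟩ | ⟨a1, a2, a3, a4⟩ | ⟨a1, a2, a3⟩ | ⟨a1, a2, a3⟩ <;>
      rcases c2 with ⟨b1, b2⟩ | ⟨b1, b2, b3, b4⟩ | ⟨b1, b2, b3⟩ | ⟨b1, b2, b3⟩
      · omega
      · have := e1 a2
        omega
      · exact absurd (e5 a2 b3) id
      · have := e2 a2
        omega
      · omega
      · omega
      · have := e4 b3
        omega
      · omega
      · omega
      · omega
      · omega
      · have := e3 a3
        omega
      · omega
      · omega
      · omega
      · omega
    rcases key with hA | ⟨hB, hB'⟩ | ⟨hC, hC'⟩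
    · obtain ⟨s, hs, hs'⟩ := split_le (a := p₁ ++ p) (c := σ) (hwp.symm.trans (by rw [hw, List.append_assoc, List.append_assoc]))
        (by rw [List.length_append]; exact hA)
      have h5 := m1.block (s := p₁) (p := p) (t := s) hs hp hp0
      rw [← w1] at h5
      have h6 : [] ++ (p₁ ++ s) ++ (κ ++ τ ++ ρ) = p₁ ++ p₂ := by
        rw [hs']; simp
      rw [h6] at h5
      omega
    · have hwp' : (σ ++ κ) ++ (τ ++ ρ) = p₁ ++ (p ++ p₂) := by
        rw [← List.append_assoc, ← List.append_assoc, ← hw, hwp]
      obtain ⟨s, hs, hs'⟩ := split_le hwp' (by rw [List.length_append]; omega)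
      have hs2 : s ++ p ++ p₂ = τ ++ ρ := by
        rw [List.append_assoc]
        exact hs'.symm
      obtain ⟨s2, hs3, hs4⟩ := split_le hs2 (by
        have := congrArg List.length hs
        simp only [List.length_append] at this ⊢
        omega)
      have h5 := m2.block (s := s) (p := p) (t := s2) hs3 hp hp0
      rw [← w2] at h5
      have h6 : (σ ++ κ) ++ (s ++ s2) ++ ρ = p₁ ++ p₂ := by
        rw [hs, hs4]; simp
      rw [h6] at h5
      omega
    · -- the complement is a block of the first side
      have hp2 : p₂ = [] := List.eq_nil_of_length_eq_zero (by omega)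
      subst hp2
      rw [List.append_nil] at hwp hcon hp12
      have hzx : z = x := k3
      subst hzx
      obtain ⟨s, hs, hs'⟩ := split_le (a := p₁) (b := p) (c := σ) (d := κ ++ τ ++ ρ)
        (by rw [← hwp, hw]; simp) hC
      have h5 := m1.block (s := []) (p := p₁) (t := s) (by rw [List.nil_append]; exact hs)
        ⟨z, k1⟩ hp12
      rw [← w1] at h5
      have h6 : [] ++ ([] ++ s) ++ (κ ++ τ ++ ρ) = p := by
        rw [hs']; simp
      rw [h6] at h5
      omega
  have hcurv := curv M hSC hθ w hcl hpf (by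
    rintro rfl
    simp only [List.length_nil] at hN
    omega) (by
    intro e he
    rw [he] at hN
    simp only [List.length_cons, List.length_nil] at hN
    omega)
    (Finset.Ico (σ.length - 1) (σ.length + D) ∪
      Finset.Ico (σ.length + D + τ.length - 1) w.length) (by
      rw [Finset.mem_union, Finset.mem_Ico, Finset.mem_Ico]
      right
      omega) (by
    intro i hi hiC
    rw [Finset.mem_union, Finset.mem_Ico, Finset.mem_Ico] at hiC
    rcases Nat.lt_or_ge (i + 1) σ.length with h3 | h3
    · exact m1.flat M hSC h1 w1 i hi (by simp) (by simpa using h3)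
    · refine m2.flat M hSC h2 w2 i hi ?_ ?_
      · rw [List.length_append]; omega
      · rw [List.length_append]; omega)
  have hcard : (Finset.Ico (σ.length - 1) (σ.length + D) ∪
      Finset.Ico (σ.length + D + τ.length - 1) w.length).card ≤ 2 * D + 2 := by
    refine (Finset.card_union_le _ _).trans ?_
    rw [Nat.card_Ico, Nat.card_Ico]
    omega
  have hcard' : ((Finset.Ico (σ.length - 1) (σ.length + D) ∪
      Finset.Ico (σ.length + D + τ.length - 1) w.length).card : ℝ) ≤ 2 * D + 2 := by
    exact_mod_cast hcard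
  have hN' : (46 * D : ℝ) + 1 ≤ w.length := by
    have : 46 * D + 1 ≤ w.length := by omega
    exact_mod_cast this
  have hD' : (1 : ℝ) ≤ D := by exact_mod_cast hD
  linarith

end Pool.Agent.ABA.B.H17
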